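import Pool.Agent.Lib.VK.Spec

/-!
# VK module ABL (helper61): Abel summation with the weights `n^(-σ)`
-/

set_option autoImplicit false

namespace Pool.Agent.Lib.VK

open Finset

namespace ABLM

/-- Abel summation -/
theorem abel (c : ℕ → ℂ) (w : ℕ → ℝ) (a b : ℕ) (hab : a ≤ b) :
    ∑ n ∈ Ioc a b, c n * ((w n : ℝ) : ℂ) = (∑ n ∈ Ioc a b, c n) * ((w b : ℝ) : ℂ) +
      ∑ m ∈ Ico a b, (∑ n ∈ Ioc a m, c n) * (((w m - w (m + 1) : ℝ)) : ℂ) := by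
  induction b, hab using Nat.le_induction with
  | base => simp
  | succ b hb ih =>
    rw [Finset.sum_Ioc_succ_top hb, Finset.sum_Ioc_succ_top hb, Finset.sum_Ico_succ_top hb, ih]
    push_cast
    ring

/-- telescoping -/
theorem tele (w : ℕ → ℝ) (a b : ℕ) (hab : a ≤ b) :
    ∑ m ∈ Ico a b, (w m - w (m + 1)) = w a - w b := by
  induction b, hab using Nat.le_induction with
  | base => simp
  | succ b hb ih =>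
    rw [Finset.sum_Ico_succ_top hb, ih]
    ring

end ABLM

theorem specABL : SpecABL := by
  intro c a b σ E ha hab hσ hE hS
  have hw : ∀ n : ℕ, 1 ≤ n → 0 ≤ ((n : ℝ) ^ (-σ)) - (((n + 1 : ℕ) : ℝ) ^ (-σ)) := by
    intro n hn
    have hn0 : (0 : ℝ) < n := by exact_mod_cast hn
    have h1 : (((n + 1 : ℕ) : ℝ) ^ (-σ)) ≤ ((n : ℝ) ^ (-σ)) :=
      Real.rpow_le_rpow_of_nonpos hn0 (by push_cast; linarith) (by linarith)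
    linarith
  have h0 := ABLM.abel c (fun n : ℕ => (n : ℝ) ^ (-σ)) a b hab
  have h00 : ∑ n ∈ Ioc a b, c n * (((n : ℝ) ^ (-σ) : ℝ) : ℂ) =
      (∑ n ∈ Ioc a b, c n) * (((b : ℝ) ^ (-σ) : ℝ) : ℂ) +
      ∑ m ∈ Ico a b, (∑ n ∈ Ioc a m, c n) *
        (((m : ℝ) ^ (-σ) - ((m + 1 : ℕ) : ℝ) ^ (-σ) : ℝ) : ℂ) := h0
  rw [h00]
  have hb0 : 0 ≤ (b : ℝ) ^ (-σ) := Real.rpow_nonneg (Nat.cast_nonneg b) _
  have h1 : ‖(∑ n ∈ Ioc a b, c n) * (((b : ℝ) ^ (-σ) : ℝ) : ℂ)‖ ≤ E * (b : ℝ) ^ (-σ) := by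
    rw [norm_mul, Complex.norm_real, Real.norm_of_nonneg hb0]
    exact mul_le_mul_of_nonneg_right (hS b hab le_rfl) hb0
  have h2 : ‖∑ m ∈ Ico a b, (∑ n ∈ Ioc a m, c n) *
        (((m : ℝ) ^ (-σ) - ((m + 1 : ℕ) : ℝ) ^ (-σ) : ℝ) : ℂ)‖ ≤
      ∑ m ∈ Ico a b, E * ((m : ℝ) ^ (-σ) - ((m + 1 : ℕ) : ℝ) ^ (-σ)) := by
    refine (norm_sum_le _ _).trans (Finset.sum_le_sum fun m hm => ?_)
    have hm' := Finset.mem_Ico.1 hm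
    have hwm := hw m (ha.trans hm'.1)
    rw [norm_mul, Complex.norm_real, Real.norm_of_nonneg hwm]
    exact mul_le_mul_of_nonneg_right (hS m hm'.1 hm'.2.le) hwm
  have h3 : ∑ m ∈ Ico a b, E * ((m : ℝ) ^ (-σ) - ((m + 1 : ℕ) : ℝ) ^ (-σ)) =
      E * ((a : ℝ) ^ (-σ) - (b : ℝ) ^ (-σ)) := by
    rw [← Finset.mul_sum, ABLM.tele (fun n : ℕ => (n : ℝ) ^ (-σ)) a b hab]
  calc _ ≤ ‖(∑ n ∈ Ioc a b, c n) * (((b : ℝ) ^ (-σ) : ℝ) : ℂ)‖ + ‖∑ m ∈ Ico a b,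
        (∑ n ∈ Ioc a m, c n) * (((m : ℝ) ^ (-σ) - ((m + 1 : ℕ) : ℝ) ^ (-σ) : ℝ) : ℂ)‖ :=
      norm_add_le _ _
    _ ≤ E * (b : ℝ) ^ (-σ) + E * ((a : ℝ) ^ (-σ) - (b : ℝ) ^ (-σ)) := by
      rw [← h3]
      exact add_le_add h1 h2
    _ = E * (a : ℝ) ^ (-σ) := by ring

end Pool.Agent.Lib.VK
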