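import Pool.Agent.Lib.VK.Spec

/-!
# The bilinear inequality of Vinogradov's method (BIL)
-/

set_option autoImplicit false

noncomputable section

namespace Pool.Agent.Lib.VK

open Finset

namespace BILM

theorem ee_add (x y : ℝ) : ee (x + y) = ee x * ee y := by
  unfold ee
  rw [← Complex.exp_add]
  congr 1
  push_cast
  ring

theorem ee_zero : ee 0 = 1 := by simp [ee]

theorem ee_sum {ι : Type*} (s : Finset ι) (f : ι → ℝ) :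
    ee (∑ i ∈ s, f i) = ∏ i ∈ s, ee (f i) := by
  classical
  induction s using Finset.induction_on with
  | empty => simp [ee_zero]
  | insert a s ha ih => rw [sum_insert ha, prod_insert ha, ee_add, ih]

theorem conj_ee (x : ℝ) : (starRingEnd ℂ) (ee x) = ee (-x) := by
  unfold ee
  rw [← Complex.exp_conj]
  congr 1
  simp only [map_mul, Complex.conj_I, Complex.conj_ofReal, map_ofNat]
  push_cast
  ring

variable {k : ℕ}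

/-- the character of a vector -/
def E (β : Fin k → ℝ) (v : Fin k → ℤ) : ℂ := ee (∑ j, β j * (v j : ℝ))

theorem E_sub (β : Fin k → ℝ) (v w : Fin k → ℤ) :
    E β (v - w) = E β v * (starRingEnd ℂ) (E β w) := by
  unfold E
  rw [conj_ee, ← ee_add]
  congr 1
  rw [← sum_neg_distrib, ← sum_add_distrib]
  refine sum_congr rfl fun j _ => ?_
  simp only [Pi.sub_apply]
  push_cast
  ring

theorem E_PS (β : Fin k → ℝ) {s : ℕ} (b : Fin s → ℤ) :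
    E β (VMV.PS k b) = ∏ i, E β (VMV.pw k (b i)) := by
  unfold E
  rw [← ee_sum, sum_comm]
  congr 1
  refine sum_congr rfl fun j _ => ?_
  rw [← mul_sum]
  congr 1
  simp only [VMV.PS, VMV.pw]
  push_cast
  rfl

/-- the exponential sum -/
def Gs (Z : ℕ) (β : Fin k → ℝ) : ℂ := ∑ z ∈ Icc (1 : ℤ) Z, E β (VMV.pw k z)

theorem Gs_pow (s Z : ℕ) (β : Fin k → ℝ) :
    Gs Z β ^ s = ∑ b ∈ VMV.T (Fin s) (Icc (1 : ℤ) Z), E β (VMV.PS k b) := by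
  have h : ∏ _i : Fin s, Gs Z β = Gs Z β ^ s := by simp
  rw [← h]
  unfold Gs VMV.T
  rw [Finset.prod_univ_sum]
  exact sum_congr rfl fun b _ => (E_PS β b).symm

/-- the pairs of tuples -/
abbrev DD (s Z : ℕ) : Finset ((Fin s → ℤ) × (Fin s → ℤ)) :=
  VMV.T (Fin s) (Icc (1 : ℤ) Z) ×ˢ VMV.T (Fin s) (Icc (1 : ℤ) Z)

theorem Gs_norm (s Z : ℕ) (β : Fin k → ℝ) : ((‖Gs Z β‖ ^ (2 * s) : ℝ) : ℂ) =
    ∑ p ∈ DD s Z, E β (VMV.PS k p.1 - VMV.PS k p.2) := by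
  have h : ((‖Gs Z β‖ ^ (2 * s) : ℝ) : ℂ) = Gs Z β ^ s * (starRingEnd ℂ) (Gs Z β ^ s) := by
    rw [Complex.mul_conj, Complex.normSq_eq_norm_sq, norm_pow, ← pow_mul, mul_comm s 2]
  rw [h, Gs_pow, map_sum, sum_mul_sum, sum_product]
  exact sum_congr rfl fun b _ => sum_congr rfl fun b' _ => (E_sub β _ _).symm

/-- the box of the differences -/
abbrev Bo (k s Z : ℕ) : Finset (Fin k → ℤ) :=
  Fintype.piFinset fun j : Fin k =>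
    Icc (-((s * Z ^ ((j : ℕ) + 1) : ℕ) : ℤ)) ((s * Z ^ ((j : ℕ) + 1) : ℕ) : ℤ)

theorem PS_bound {s Z : ℕ} {b : Fin s → ℤ} (hb : b ∈ VMV.T (Fin s) (Icc (1 : ℤ) Z))
    (j : Fin k) : 0 ≤ VMV.PS k b j ∧ VMV.PS k b j ≤ ((s * Z ^ ((j : ℕ) + 1) : ℕ) : ℤ) := by
  have h1 : ∀ i, 1 ≤ b i ∧ b i ≤ Z := by
    intro i
    have := (Fintype.mem_piFinset.1 hb) i
    exact Finset.mem_Icc.1 this
  unfold VMV.PS
  constructor
  · exact Finset.sum_nonneg fun i _ => pow_nonneg (by linarith [(h1 i).1]) _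
  · calc ∑ i, b i ^ ((j : ℕ) + 1) ≤ ∑ _i : Fin s, (Z : ℤ) ^ ((j : ℕ) + 1) :=
          Finset.sum_le_sum fun i _ => pow_le_pow_left₀ (by linarith [(h1 i).1]) (h1 i).2 _
      _ = ((s * Z ^ ((j : ℕ) + 1) : ℕ) : ℤ) := by simp

theorem V_mem {s Z : ℕ} {p : (Fin s → ℤ) × (Fin s → ℤ)} (hp : p ∈ DD s Z) :
    VMV.PS k p.1 - VMV.PS k p.2 ∈ Bo k s Z := by
  rw [Finset.mem_product] at hp
  rw [Fintype.mem_piFinset]
  intro j
  have h1 := PS_bound hp.1 j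
  have h2 := PS_bound hp.2 j
  rw [Finset.mem_Icc, Pi.sub_apply]
  constructor <;> linarith [h1.1, h1.2, h2.1, h2.2]

theorem grouping (s Z : ℕ) (f : (Fin k → ℤ) → ℝ) (hf : ∀ v, 0 ≤ f v) :
    ∑ p ∈ DD s Z, f (VMV.PS k p.1 - VMV.PS k p.2) ≤
      (VMV.J k (Fin s) (Icc (1 : ℤ) Z) : ℝ) * ∑ v ∈ Bo k s Z, f v := by
  classical
  rw [← Finset.sum_fiberwise_of_maps_to (g := fun p : (Fin s → ℤ) × (Fin s → ℤ) =>
    VMV.PS k p.1 - VMV.PS k p.2) (t := Bo k s Z) (fun p hp => V_mem hp), mul_sum]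
  refine sum_le_sum fun v _ => ?_
  have h1 : ∑ p ∈ (DD s Z).filter (fun p => VMV.PS k p.1 - VMV.PS k p.2 = v),
      f (VMV.PS k p.1 - VMV.PS k p.2) =
      (((DD s Z).filter (fun p => VMV.PS k p.1 - VMV.PS k p.2 = v)).card : ℝ) * f v := by
    rw [← nsmul_eq_mul, ← Finset.sum_const]
    refine sum_congr rfl fun p hp => ?_
    rw [(Finset.mem_filter.1 hp).2]
  rw [h1]
  refine mul_le_mul_of_nonneg_right ?_ (hf v)
  exact_mod_cast VMV.shift_le k (VMV.T (Fin s) (Icc (1 : ℤ) Z)) (VMV.PS k) v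

/-- step (4) -/
theorem step4 (s Z : ℕ) (α : Fin k → ℝ) :
    ∑ v ∈ Bo k s Z, ‖Gs Z (fun j => α j * (v j : ℝ))‖ ^ (2 * s) ≤
      (VMV.J k (Fin s) (Icc (1 : ℤ) Z) : ℝ) *
        ∏ j : Fin k, bx (s * Z ^ ((j : ℕ) + 1)) (α j) := by
  have h1 : ((∑ v ∈ Bo k s Z, ‖Gs Z (fun j => α j * (v j : ℝ))‖ ^ (2 * s) : ℝ) : ℂ) =
      ∑ p ∈ DD s Z, ∏ j : Fin k, ∑ t ∈ Icc (-((s * Z ^ ((j : ℕ) + 1) : ℕ) : ℤ))
        ((s * Z ^ ((j : ℕ) + 1) : ℕ) : ℤ),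
        ee (α j * ((VMV.PS k p.1 - VMV.PS k p.2) j : ℤ) * (t : ℤ)) := by
    rw [Complex.ofReal_sum]
    simp only [Gs_norm]
    rw [sum_comm]
    refine sum_congr rfl fun p _ => ?_
    rw [Finset.prod_univ_sum]
    refine sum_congr rfl fun v _ => ?_
    unfold E
    rw [ee_sum]
    refine prod_congr rfl fun j _ => ?_
    congr 1
    ring
  have h2 : ∑ v ∈ Bo k s Z, ‖Gs Z (fun j => α j * (v j : ℝ))‖ ^ (2 * s) ≤
      ∑ p ∈ DD s Z, ∏ j : Fin k, ‖∑ t ∈ Icc (-((s * Z ^ ((j : ℕ) + 1) : ℕ) : ℤ))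
        ((s * Z ^ ((j : ℕ) + 1) : ℕ) : ℤ),
        ee (α j * ((VMV.PS k p.1 - VMV.PS k p.2) j : ℤ) * (t : ℤ))‖ := by
    have h3 : ∑ v ∈ Bo k s Z, ‖Gs Z (fun j => α j * (v j : ℝ))‖ ^ (2 * s) =
        ‖((∑ v ∈ Bo k s Z, ‖Gs Z (fun j => α j * (v j : ℝ))‖ ^ (2 * s) : ℝ) : ℂ)‖ := by
      rw [Complex.norm_real, Real.norm_of_nonneg]
      exact sum_nonneg fun v _ => by positivity
    rw [h3, h1]
    refine (norm_sum_le _ _).trans (sum_le_sum fun p _ => ?_)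
    rw [norm_prod]
  refine h2.trans ((grouping s Z (fun u => ∏ j : Fin k,
    ‖∑ t ∈ Icc (-((s * Z ^ ((j : ℕ) + 1) : ℕ) : ℤ)) ((s * Z ^ ((j : ℕ) + 1) : ℕ) : ℤ),
        ee (α j * (u j : ℤ) * (t : ℤ))‖) (fun u => prod_nonneg fun j _ => norm_nonneg _)).trans ?_)
  refine le_of_eq ?_
  congr 1
  rw [← Finset.prod_univ_sum (t := fun j : Fin k =>
    Icc (-((s * Z ^ ((j : ℕ) + 1) : ℕ) : ℤ)) ((s * Z ^ ((j : ℕ) + 1) : ℕ) : ℤ))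
    (f := fun j u => ‖∑ t ∈ Icc (-((s * Z ^ ((j : ℕ) + 1) : ℕ) : ℤ))
      ((s * Z ^ ((j : ℕ) + 1) : ℕ) : ℤ), ee (α j * (u : ℤ) * (t : ℤ))‖)]
  rfl

theorem card_DD (s Z : ℕ) : ((DD s Z).card : ℝ) = (Z : ℝ) ^ (2 * s) := by
  have h : (DD s Z).card = Z ^ (2 * s) := by
    rw [Finset.card_product]
    unfold VMV.T
    rw [Fintype.card_piFinset]
    simp only [Int.card_Icc, Finset.prod_const, Finset.card_univ, Fintype.card_fin]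
    have : ((Z : ℤ) + 1 - 1).toNat = Z := by simp
    rw [this, ← pow_add, two_mul]
  rw [h]
  push_cast
  rfl

/-- power mean -/
theorem pow_sum_le {ι : Type*} (s : Finset ι) (f : ι → ℝ) (hf : ∀ i ∈ s, 0 ≤ f i) (n : ℕ)
    (hn : 1 ≤ n) : (∑ i ∈ s, f i) ^ n ≤ (s.card : ℝ) ^ (n - 1) * ∑ i ∈ s, f i ^ n := by
  obtain ⟨m, rfl⟩ : ∃ m, n = m + 1 := ⟨n - 1, by omega⟩
  rw [Nat.add_sub_cancel]
  rcases s.eq_empty_or_nonempty with rfl | hs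
  · simp
  have hc : (0 : ℝ) < (s.card : ℝ) ^ m := by
    have := hs.card_pos
    positivity
  have h := pow_sum_div_card_le_sum_pow hf m
  rw [div_le_iff₀ hc] at h
  linarith

theorem sum_cast (Z : ℕ) (g : ℤ → ℂ) :
    ∑ z ∈ Icc 1 Z, g (z : ℤ) = ∑ z ∈ Icc (1 : ℤ) Z, g z := by
  refine Finset.sum_nbij (fun z : ℕ => (z : ℤ)) ?_ ?_ ?_ ?_
  · intro z hz
    simp only [Finset.mem_Icc] at hz ⊢
    omega
  · intro a _ b _ h
    simpa using h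
  · intro z hz
    simp only [Finset.coe_Icc, Set.mem_Icc] at hz
    refine ⟨z.toNat, ?_, ?_⟩
    · simp only [Finset.coe_Icc, Set.mem_Icc]
      omega
    · simp only
      omega
  · intro z _
    rfl

theorem E_swap (α : Fin k → ℝ) (x : ℤ) (v : Fin k → ℤ) :
    E (fun j => α j * (x : ℝ) ^ ((j : ℕ) + 1)) v =
      E (fun j => α j * (v j : ℝ)) (VMV.pw k x) := by
  unfold E VMV.pw
  congr 1
  refine sum_congr rfl fun j _ => ?_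
  push_cast
  ring

theorem W_eq (Z : ℕ) (α : Fin k → ℝ) :
    ∑ x ∈ Icc 1 Z, ∑ z ∈ Icc 1 Z, ee (∑ j : Fin k, α j * ((x * z : ℕ) : ℝ) ^ ((j : ℕ) + 1)) =
      ∑ x ∈ Icc (1 : ℤ) Z, Gs Z (fun j => α j * (x : ℝ) ^ ((j : ℕ) + 1)) := by
  rw [← sum_cast Z (fun x => Gs Z (fun j => α j * (x : ℝ) ^ ((j : ℕ) + 1)))]
  refine sum_congr rfl fun x _ => ?_
  unfold Gs
  rw [← sum_cast Z]
  refine sum_congr rfl fun z _ => ?_
  unfold E VMV.pw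
  congr 1
  refine sum_congr rfl fun j _ => ?_
  push_cast
  ring

/-- step (2) -/
theorem step2 (s Z : ℕ) (α : Fin k → ℝ) :
    ∑ x ∈ Icc (1 : ℤ) Z, ‖Gs Z (fun j => α j * (x : ℝ) ^ ((j : ℕ) + 1))‖ ^ (2 * s) ≤
      ∑ p ∈ DD s Z, ‖Gs Z (fun j => α j * (((VMV.PS k p.1 - VMV.PS k p.2) j : ℤ) : ℝ))‖ := by
  have h1 : ((∑ x ∈ Icc (1 : ℤ) Z,
      ‖Gs Z (fun j => α j * (x : ℝ) ^ ((j : ℕ) + 1))‖ ^ (2 * s) : ℝ) : ℂ) =
      ∑ p ∈ DD s Z, Gs Z (fun j => α j * (((VMV.PS k p.1 - VMV.PS k p.2) j : ℤ) : ℝ)) := by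
    rw [Complex.ofReal_sum]
    simp only [Gs_norm]
    rw [sum_comm]
    refine sum_congr rfl fun p _ => ?_
    rw [Gs]
    exact sum_congr rfl fun x _ => E_swap α x _
  have h3 : ∑ x ∈ Icc (1 : ℤ) Z, ‖Gs Z (fun j => α j * (x : ℝ) ^ ((j : ℕ) + 1))‖ ^ (2 * s) =
      ‖((∑ x ∈ Icc (1 : ℤ) Z,
        ‖Gs Z (fun j => α j * (x : ℝ) ^ ((j : ℕ) + 1))‖ ^ (2 * s) : ℝ) : ℂ)‖ := by
    rw [Complex.norm_real, Real.norm_of_nonneg]
    exact sum_nonneg fun v _ => by positivity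
  rw [h3, h1]
  exact norm_sum_le _ _

theorem final (s Z : ℕ) (α : Fin k → ℝ) (hs : 1 ≤ s) :
    ‖∑ x ∈ Icc (1 : ℤ) Z, Gs Z (fun j => α j * (x : ℝ) ^ ((j : ℕ) + 1))‖ ^ (4 * s ^ 2) ≤
    (Z : ℝ) ^ (8 * s ^ 2 - 4 * s) * (VMV.J k (Fin s) (Icc (1 : ℤ) Z) : ℝ) ^ 2 *
      ∏ j : Fin k, bx (s * Z ^ ((j : ℕ) + 1)) (α j) := by
  set W := ∑ x ∈ Icc (1 : ℤ) Z, Gs Z (fun j => α j * (x : ℝ) ^ ((j : ℕ) + 1)) with hW
  set R := ∑ x ∈ Icc (1 : ℤ) Z, ‖Gs Z (fun j => α j * (x : ℝ) ^ ((j : ℕ) + 1))‖ ^ (2 * s)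
    with hR
  set J := (VMV.J k (Fin s) (Icc (1 : ℤ) Z) : ℝ) with hJ
  set Q := ∏ j : Fin k, bx (s * Z ^ ((j : ℕ) + 1)) (α j) with hQ
  have hR0 : 0 ≤ R := sum_nonneg fun v _ => by positivity
  have hJ0 : 0 ≤ J := Nat.cast_nonneg _
  have hc : ((Icc (1 : ℤ) Z).card : ℝ) = Z := by
    rw [Int.card_Icc]
    simp
  have h1 : ‖W‖ ^ (2 * s) ≤ (Z : ℝ) ^ (2 * s - 1) * R := by
    calc ‖W‖ ^ (2 * s) ≤
        (∑ x ∈ Icc (1 : ℤ) Z, ‖Gs Z (fun j => α j * (x : ℝ) ^ ((j : ℕ) + 1))‖) ^ (2 * s) :=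
          pow_le_pow_left₀ (norm_nonneg _) (norm_sum_le _ _) _
      _ ≤ ((Icc (1 : ℤ) Z).card : ℝ) ^ (2 * s - 1) * R :=
          pow_sum_le _ _ (fun i _ => norm_nonneg _) _ (by omega)
      _ = _ := by rw [hc]
  have h2 : R ^ (2 * s) ≤ ((Z : ℝ) ^ (2 * s)) ^ (2 * s - 1) * (J * (J * Q)) := by
    calc R ^ (2 * s) ≤ (∑ p ∈ DD s Z,
          ‖Gs Z (fun j => α j * (((VMV.PS k p.1 - VMV.PS k p.2) j : ℤ) : ℝ))‖) ^ (2 * s) :=
          pow_le_pow_left₀ hR0 (step2 s Z α) _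
      _ ≤ ((DD s Z).card : ℝ) ^ (2 * s - 1) * ∑ p ∈ DD s Z,
          ‖Gs Z (fun j => α j * (((VMV.PS k p.1 - VMV.PS k p.2) j : ℤ) : ℝ))‖ ^ (2 * s) :=
          pow_sum_le _ _ (fun i _ => norm_nonneg _) _ (by omega)
      _ ≤ ((Z : ℝ) ^ (2 * s)) ^ (2 * s - 1) * (J * (J * Q)) := by
          rw [card_DD]
          refine mul_le_mul_of_nonneg_left ?_ (by positivity)
          refine (grouping s Z (fun v => ‖Gs Z (fun j => α j * (v j : ℝ))‖ ^ (2 * s))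
            (fun v => by positivity)).trans ?_
          exact mul_le_mul_of_nonneg_left (step4 s Z α) hJ0
  have h3 : ‖W‖ ^ (4 * s ^ 2) ≤ ((Z : ℝ) ^ (2 * s - 1)) ^ (2 * s) * R ^ (2 * s) := by
    calc ‖W‖ ^ (4 * s ^ 2) = (‖W‖ ^ (2 * s)) ^ (2 * s) := by
          rw [← pow_mul]
          congr 1
          ring
      _ ≤ ((Z : ℝ) ^ (2 * s - 1) * R) ^ (2 * s) := pow_le_pow_left₀ (by positivity) h1 _
      _ = _ := mul_pow _ _ _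
  refine h3.trans ((mul_le_mul_of_nonneg_left h2 (by positivity)).trans (le_of_eq ?_))
  have h4 : (Z : ℝ) ^ (8 * s ^ 2 - 4 * s) =
      ((Z : ℝ) ^ (2 * s - 1)) ^ (2 * s) * ((Z : ℝ) ^ (2 * s)) ^ (2 * s - 1) := by
    rw [← pow_mul, ← pow_mul, ← pow_add]
    congr 1
    obtain ⟨t, rfl⟩ : ∃ t, s = t + 1 := ⟨s - 1, by omega⟩
    have e1 : 2 * (t + 1) - 1 = 2 * t + 1 := by omega
    rw [e1]
    have e2 : 8 * (t + 1) ^ 2 = 8 * t ^ 2 + 12 * t + 4 + 4 * (t + 1) := by ring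
    rw [e2, Nat.add_sub_cancel]
    ring
  rw [h4]
  ring

end BILM

theorem specBIL : SpecBIL := by
  intro k s Z α _ hs _
  rw [BILM.W_eq]
  exact BILM.final s Z α hs

end Pool.Agent.Lib.VK
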