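import Pool.Agent.Lib.VK.Spec

/-!
# CHO: the choice of the parameters (helper85)
-/

set_option autoImplicit false

noncomputable section

namespace Pool.Agent.Lib.VK

namespace CHOM

theorem pow_le_exp {T : ℝ} (hT : 0 ≤ T) (n : ℕ) : T ^ n ≤ Real.exp (n * T) := by
  rw [Real.exp_nat_mul]
  apply pow_le_pow_left₀ hT
  have := Real.add_one_le_exp T
  linarith

/-- The inequalities between powers of `T`. -/
theorem facts {A C : ℕ} {T L : ℝ} (hT : 1000 ≤ T) (hA : (A : ℝ) + 1 ≤ T)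
    (hC : 6 * (C : ℝ) + 21 ≤ T) (hL : T ^ 45 ≤ L) :
    T ^ 8 ≤ L / 100000 ∧ 1000000 ≤ T ^ 8 ∧ (A : ℝ) * T ^ 7 ≤ T ^ 8 ∧ (A : ℝ) * T ≤ T ^ 8 ∧
    3 * T ^ 6 ≤ T ^ 8 ∧ 7 * T ^ 6 ≤ T ^ 8 ∧ 19 * T ≤ T ^ 8 ∧ 9 * T ≤ T ^ 8 ∧
    6 * (C * T ^ 5) + 21 ≤ T ^ 6 ∧ 2 * T ^ 18 ≤ T ^ 19 ∧ 2000 * T ^ 7 ≤ T ^ 9 ∧ 1 + T ^ 6 ≤ T ^ 7 ∧
    T ^ 6 + T ^ 12 ≤ 2 * T ^ 12 := by
  have h0 : (0 : ℝ) < T := by linarith
  have h1 : (1 : ℝ) ≤ T := by linarith
  have hA0 : (0 : ℝ) ≤ A := Nat.cast_nonneg A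
  have hC0 : (0 : ℝ) ≤ C := Nat.cast_nonneg C
  have p2 : (1000000 : ℝ) ≤ T ^ 2 := by nlinarith
  have p5 : (1 : ℝ) ≤ T ^ 5 := one_le_pow₀ h1
  have p6 : (1 : ℝ) ≤ T ^ 6 := one_le_pow₀ h1
  have p7 : (1 : ℝ) ≤ T ^ 7 := one_le_pow₀ h1
  have p8 : (1 : ℝ) ≤ T ^ 8 := one_le_pow₀ h1
  have p12 : (1 : ℝ) ≤ T ^ 12 := one_le_pow₀ h1
  have p18 : (1 : ℝ) ≤ T ^ 18 := one_le_pow₀ h1
  have p35 : (1 : ℝ) ≤ T ^ 35 := one_le_pow₀ h1
  have e8 : T ^ 8 = T ^ 6 * T ^ 2 := by ring
  refine ⟨?_, ?_, ?_, ?_, ?_, ?_, ?_, ?_, ?_, ?_, ?_, ?_, ?_⟩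
  · have e : T ^ 45 = T ^ 8 * (T ^ 35 * T ^ 2) := by ring
    have h2 : (100000 : ℝ) ≤ T ^ 35 * T ^ 2 := by nlinarith
    have h3 : T ^ 8 * 100000 ≤ T ^ 45 := by
      rw [e]
      exact mul_le_mul_of_nonneg_left h2 (by linarith)
    rw [le_div_iff₀ (by norm_num)]
    linarith
  · rw [e8]; nlinarith
  · have e : T ^ 8 = T * T ^ 7 := by ring
    rw [e]
    exact mul_le_mul_of_nonneg_right (by linarith) (by linarith)
  · have e : T ^ 8 = (T * T ^ 6) * T := by ring
    rw [e]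
    apply mul_le_mul_of_nonneg_right _ h0.le
    nlinarith
  · rw [e8]; nlinarith
  · rw [e8]; nlinarith
  · have e : T ^ 8 = (T ^ 5 * T ^ 2) * T := by ring
    rw [e]
    apply mul_le_mul_of_nonneg_right _ h0.le
    nlinarith
  · have e : T ^ 8 = (T ^ 5 * T ^ 2) * T := by ring
    rw [e]
    apply mul_le_mul_of_nonneg_right _ h0.le
    nlinarith
  · have e : T ^ 6 = T * T ^ 5 := by ring
    rw [e]
    have h2 : (6 * (C : ℝ) + 21) * T ^ 5 ≤ T * T ^ 5 :=
      mul_le_mul_of_nonneg_right hC (by linarith)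
    nlinarith
  · have e : T ^ 19 = T * T ^ 18 := by ring
    rw [e]
    exact mul_le_mul_of_nonneg_right (by linarith) (by linarith)
  · have e : T ^ 9 = T ^ 2 * T ^ 7 := by ring
    rw [e]
    exact mul_le_mul_of_nonneg_right (by linarith) (by linarith)
  · have e : T ^ 7 = T * T ^ 6 := by ring
    rw [e]
    nlinarith
  · have e : T ^ 12 = T ^ 6 * T ^ 6 := by ring
    nlinarith

theorem abs_al (q : ℕ) (y : ℝ) (n j : ℕ) :
    |al q y n j| = |y| / (2 * Real.pi) * (((q : ℝ) / n) ^ (j + 1) / (j + 1)) := by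
  unfold al
  have hpi := Real.pi_pos
  rw [abs_mul, abs_div, abs_div, abs_mul ((-1) ^ j), abs_pow, abs_neg, abs_one, one_pow, one_mul,
    abs_of_pos (by positivity : (0 : ℝ) < 2 * Real.pi),
    abs_of_nonneg (by positivity : (0 : ℝ) ≤ ((q : ℝ) / n) ^ (j + 1)),
    abs_of_pos (by positivity : (0 : ℝ) < (j : ℝ) + 1)]

/-- The main part, for the exponent `m` and the real numbers `L = log N`, `R = log |y|`. -/
theorem part (T L R a : ℝ) (N q n m s Z : ℕ) (y : ℝ) (hL0 : 0 < L)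
    (hT : 1000 ≤ T) (hW1 : T ^ 8 ≤ L / 100000) (hW2 : 1000000 ≤ T ^ 8)
    (h7 : 7 * T ^ 6 ≤ T ^ 8) (h3 : 3 * T ^ 6 ≤ T ^ 8)
    (h9 : 9 * T ≤ T ^ 8) (h2000 : 2000 * T ^ 7 ≤ T ^ 9) (h67 : 1 + T ^ 6 ≤ T ^ 7)
    (hN : (N : ℝ) = Real.exp L) (hy : |y| = Real.exp R) (hq1 : 1 ≤ q) (hq : (q : ℝ) ≤ Real.exp a)
    (ha : m * a ≤ T ^ 8) (hm1 : 1 ≤ m) (hmT : (m : ℝ) ≤ T ^ 6) (hs1 : 1 ≤ s)
    (hs : (s : ℝ) ≤ Real.exp (T ^ 8)) (hZ1 : 1 ≤ Z) (hZ : (Z : ℝ) ≤ Real.exp (2 / 5 * L))
    (hZ2 : Real.exp (2 / 5 * L) ≤ 2 * Z) (hup : R + L / 50 ≤ 3 / 5 * m * L)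
    (hlo : (m : ℝ) * L / 5 - R ≤ -(6 / 100) * L) (hn1 : N < n) (hn2 : n ≤ 2 * N) :
    |y| / (2 * Real.pi) * (((q : ℝ) / n) ^ m / m) * ((s * Z ^ m : ℕ) : ℝ) ≤ 1 / 2 ∧
    (2 * ((s * Z ^ m : ℕ) : ℝ) + 1) +
        (1 + Real.log ((s * Z ^ m : ℕ) : ℝ)) / (|y| / (2 * Real.pi) * (((q : ℝ) / n) ^ m / m)) ≤
      (2 * ((s * Z ^ m : ℕ) : ℝ) + 1) ^ 2 * Real.exp (L * (-(1 / 20 : ℝ))) := by
  have hpi := Real.pi_pos
  have hpi3 := Real.pi_gt_three
  have hpi4 := Real.pi_le_four
  have hT0 : 0 < T := by linarith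
  have hNpos : (0 : ℝ) < N := by rw [hN]; exact Real.exp_pos _
  have hnN : (N : ℝ) ≤ n := by exact_mod_cast hn1.le
  have hnpos : (0 : ℝ) < n := by linarith
  have hn2' : (n : ℝ) ≤ 2 * N := by exact_mod_cast hn2
  have hq1' : (1 : ℝ) ≤ q := by exact_mod_cast hq1
  have hq0' : (0 : ℝ) < q := by linarith
  have hm1' : (1 : ℝ) ≤ m := by exact_mod_cast hm1
  have hm0' : (0 : ℝ) < m := by linarith
  have hs1' : (1 : ℝ) ≤ s := by exact_mod_cast hs1
  have hZ1' : (1 : ℝ) ≤ Z := by exact_mod_cast hZ1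
  have hZ0' : (0 : ℝ) < Z := by linarith
  have hZm : (1 : ℝ) ≤ (Z : ℝ) ^ m := one_le_pow₀ hZ1'
  push_cast
  set M : ℝ := (s : ℝ) * (Z : ℝ) ^ m with hMdef
  have hM1 : 1 ≤ M := by
    rw [hMdef]
    nlinarith
  have hMup : M ≤ Real.exp (T ^ 8 + 2 / 5 * m * L) := by
    rw [Real.exp_add, hMdef]
    have h1 : (Z : ℝ) ^ m ≤ Real.exp (2 / 5 * m * L) := by
      calc (Z : ℝ) ^ m ≤ (Real.exp (2 / 5 * L)) ^ m := pow_le_pow_left₀ hZ0'.le hZ m
        _ = Real.exp (2 / 5 * m * L) := by rw [← Real.exp_nat_mul]; congr 1; ring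
    exact mul_le_mul hs h1 (by positivity) (Real.exp_pos _).le
  -- upper bound for the quotient
  have hqn : ((q : ℝ) / n) ^ m ≤ Real.exp (T ^ 8 - m * L) := by
    have h1 : (q : ℝ) / n ≤ Real.exp (a - L) := by
      rw [Real.exp_sub, ← hN]
      exact div_le_div₀ (Real.exp_pos _).le hq hNpos hnN
    calc ((q : ℝ) / n) ^ m ≤ (Real.exp (a - L)) ^ m := pow_le_pow_left₀ (by positivity) h1 m
      _ = Real.exp (m * a - m * L) := by rw [← Real.exp_nat_mul]; congr 1; ring
      _ ≤ Real.exp (T ^ 8 - m * L) := Real.exp_le_exp.2 (by linarith)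
  have hqn2 : Real.exp (-(m * L) - m) ≤ ((q : ℝ) / n) ^ m := by
    have h1 : Real.exp (-L - 1) ≤ (q : ℝ) / n := by
      have h2 : (1 : ℝ) / (2 * N) ≤ (q : ℝ) / n := by
        rw [div_le_div_iff₀ (by positivity) hnpos]
        nlinarith
      refine le_trans ?_ h2
      rw [Real.exp_sub, Real.exp_neg, ← hN, div_eq_mul_inv, ← mul_inv, one_div]
      apply inv_anti₀ (by positivity)
      have := Real.add_one_le_exp (1 : ℝ)
      nlinarith
    calc Real.exp (-(m * L) - m) = (Real.exp (-L - 1)) ^ m := by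
          rw [← Real.exp_nat_mul]; congr 1; ring
      _ ≤ _ := pow_le_pow_left₀ (Real.exp_pos _).le h1 m
  set Al : ℝ := |y| / (2 * Real.pi) * (((q : ℝ) / n) ^ m / m) with hAldef
  constructor
  · have h1 : Al ≤ Real.exp (R + T ^ 8 - m * L) * (1 / 2) := by
      rw [hAldef, hy]
      have h2 : Real.exp R / (2 * Real.pi) ≤ Real.exp R * (1 / 2) := by
        rw [div_eq_mul_one_div]
        apply mul_le_mul_of_nonneg_left _ (Real.exp_pos _).le
        apply one_div_le_one_div_of_le (by norm_num)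
        linarith
      have h3' : ((q : ℝ) / n) ^ m / m ≤ Real.exp (T ^ 8 - m * L) := by
        refine le_trans (div_le_self (by positivity) hm1') hqn
      calc Real.exp R / (2 * Real.pi) * (((q : ℝ) / n) ^ m / m)
          ≤ (Real.exp R * (1 / 2)) * Real.exp (T ^ 8 - m * L) :=
            mul_le_mul h2 h3' (by positivity) (by positivity)
        _ = Real.exp (R + T ^ 8 - m * L) * (1 / 2) := by
            rw [show R + T ^ 8 - m * L = R + (T ^ 8 - m * L) by ring, Real.exp_add]; ring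
    calc Al * M ≤ (Real.exp (R + T ^ 8 - m * L) * (1 / 2)) * Real.exp (T ^ 8 + 2 / 5 * m * L) :=
          mul_le_mul h1 hMup (by linarith) (by positivity)
      _ = Real.exp (R + 2 * T ^ 8 - 3 / 5 * m * L) * (1 / 2) := by
          have e : Real.exp (R + 2 * T ^ 8 - 3 / 5 * m * L) =
              Real.exp (R + T ^ 8 - m * L) * Real.exp (T ^ 8 + 2 / 5 * m * L) := by
            rw [← Real.exp_add]; congr 1; ring
          rw [e]; ring
      _ ≤ 1 * (1 / 2) := by
          apply mul_le_mul_of_nonneg_right _ (by norm_num)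
          rw [Real.exp_le_one_iff]
          linarith
      _ = 1 / 2 := by norm_num
  · have hAlpos : 0 < Al := by
      rw [hAldef, hy]
      have : 0 < ((q : ℝ) / n) ^ m := by positivity
      have := Real.exp_pos R
      positivity
    have hAlinv : 1 / Al ≤ (7 * T ^ 6 + T ^ 8) * Real.exp (m * L + m - R) := by
      have h1 : Real.exp (R - m * L - m) / (2 * Real.pi * m) ≤ Al := by
        rw [hAldef, hy]
        calc Real.exp (R - m * L - m) / (2 * Real.pi * m)
            = Real.exp R / (2 * Real.pi) * (Real.exp (-(m * L) - m) / m) := by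
              rw [show R - m * L - m = R + (-(m * L) - m) by ring, Real.exp_add]
              field_simp
          _ ≤ _ := by
              apply mul_le_mul_of_nonneg_left _ (by positivity)
              exact div_le_div_of_nonneg_right hqn2 hm0'.le
      have h2 : 1 / Al ≤ (2 * Real.pi * m) / Real.exp (R - m * L - m) := by
        rw [div_le_div_iff₀ hAlpos (Real.exp_pos _)]
        rw [div_le_iff₀ (by positivity)] at h1
        linarith
      refine le_trans h2 ?_
      rw [div_eq_mul_inv, ← Real.exp_neg, show -(R - m * L - m) = m * L + m - R by ring]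
      apply mul_le_mul_of_nonneg_right _ (Real.exp_pos _).le
      have h4 : 2 * Real.pi * m ≤ 8 * T ^ 6 := by
        apply mul_le_mul (by linarith) hmT (by positivity) (by norm_num)
      have h5 : T ^ 6 ≤ T ^ 8 := by linarith [show 0 ≤ T ^ 6 by positivity]
      linarith
    have hlog : 1 + Real.log M ≤ Real.exp (T ^ 8 + L / 2000) := by
      have h1 : Real.log M ≤ T ^ 8 + 2 / 5 * m * L := by
        rw [← Real.log_exp (T ^ 8 + 2 / 5 * m * L)]
        exact Real.log_le_log (by linarith) hMup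
      have h2 : 2 / 5 * m * L ≤ T ^ 6 * L := by
        apply mul_le_mul_of_nonneg_right _ hL0.le
        linarith
      have h4 : 1 + Real.log M ≤ (1 + T ^ 6) * L := by
        have : 1 + T ^ 8 ≤ L := by linarith
        linarith
      have h5 : (1 + T ^ 6) * L ≤ T ^ 7 * L := mul_le_mul_of_nonneg_right h67 hL0.le
      have h6 : L ≤ 2000 * Real.exp (L / 2000) := by
        have := Real.add_one_le_exp (L / 2000)
        linarith
      have h8 : T ^ 7 * L ≤ T ^ 9 * Real.exp (L / 2000) := by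
        calc T ^ 7 * L ≤ T ^ 7 * (2000 * Real.exp (L / 2000)) :=
              mul_le_mul_of_nonneg_left h6 (by positivity)
          _ = 2000 * T ^ 7 * Real.exp (L / 2000) := by ring
          _ ≤ _ := mul_le_mul_of_nonneg_right h2000 (Real.exp_pos _).le
      have h10 : T ^ 9 ≤ Real.exp (T ^ 8) := by
        refine le_trans (pow_le_exp hT0.le 9) (Real.exp_le_exp.2 ?_)
        push_cast
        exact h9
      rw [Real.exp_add]
      exact le_trans h4 (le_trans h5 (le_trans h8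
        (mul_le_mul_of_nonneg_right h10 (Real.exp_pos _).le)))
    have hlog0 : 0 ≤ 1 + Real.log M := by
      have := Real.log_nonneg hM1
      linarith
    have hMlow : Real.exp (4 / 5 * m * L - 2 * m) ≤ (2 * M + 1) ^ 2 := by
      have h1 : Real.exp (2 / 5 * L - 1) ≤ Z := by
        rw [Real.exp_sub, div_le_iff₀ (Real.exp_pos _)]
        have := Real.add_one_le_exp (1 : ℝ)
        nlinarith
      have h2 : Real.exp (2 / 5 * m * L - m) ≤ 2 * M + 1 := by
        calc Real.exp (2 / 5 * m * L - m) = (Real.exp (2 / 5 * L - 1)) ^ m := by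
              rw [← Real.exp_nat_mul]; congr 1; ring
          _ ≤ (Z : ℝ) ^ m := pow_le_pow_left₀ (Real.exp_pos _).le h1 m
          _ ≤ M := by rw [hMdef]; nlinarith
          _ ≤ 2 * M + 1 := by linarith
      calc Real.exp (4 / 5 * m * L - 2 * m) = (Real.exp (2 / 5 * m * L - m)) ^ 2 := by
            rw [← Real.exp_nat_mul]; congr 1; push_cast; ring
        _ ≤ _ := pow_le_pow_left₀ (Real.exp_pos _).le h2 2
    have hW8 : 7 * T ^ 6 + T ^ 8 ≤ Real.exp (T ^ 8) * 2 := by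
      have := Real.add_one_le_exp (T ^ 8)
      linarith
    have hsecond : (1 + Real.log M) / Al ≤ (2 * M + 1) ^ 2 * Real.exp (-(55 / 1000) * L) := by
      calc (1 + Real.log M) / Al = (1 + Real.log M) * (1 / Al) := by ring
        _ ≤ Real.exp (T ^ 8 + L / 2000) * ((Real.exp (T ^ 8) * 2) * Real.exp (m * L + m - R)) := by
            apply mul_le_mul hlog _ (by positivity) (Real.exp_pos _).le
            refine le_trans hAlinv ?_
            exact mul_le_mul_of_nonneg_right hW8 (Real.exp_pos _).le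
        _ ≤ Real.exp (T ^ 8 + L / 2000) * ((Real.exp (T ^ 8) * Real.exp 1) *
              Real.exp (m * L + m - R)) := by
            apply mul_le_mul_of_nonneg_left _ (Real.exp_pos _).le
            apply mul_le_mul_of_nonneg_right _ (Real.exp_pos _).le
            apply mul_le_mul_of_nonneg_left _ (Real.exp_pos _).le
            have := Real.add_one_le_exp (1 : ℝ)
            linarith
        _ = Real.exp (2 * T ^ 8 + 1 + L / 2000 + m * L + m - R) := by
            rw [← Real.exp_add, ← Real.exp_add, ← Real.exp_add]; congr 1; ring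
        _ ≤ Real.exp ((4 / 5 * m * L - 2 * m) + -(55 / 1000) * L) := by
            apply Real.exp_le_exp.2
            have h4 : 3 * (m : ℝ) ≤ T ^ 8 := by linarith
            linarith
        _ = Real.exp (4 / 5 * m * L - 2 * m) * Real.exp (-(55 / 1000) * L) := by
            rw [Real.exp_add]
        _ ≤ _ := mul_le_mul_of_nonneg_right hMlow (Real.exp_pos _).le
    have hfirst : 2 * M + 1 ≤ (2 * M + 1) ^ 2 * Real.exp (-(55 / 1000) * L) := by
      have h1 : Real.exp ((55 / 1000) * L) ≤ 2 * M + 1 := by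
        calc Real.exp ((55 / 1000) * L) ≤ Real.exp (2 / 5 * L) :=
              Real.exp_le_exp.2 (by linarith)
          _ ≤ 2 * Z := hZ2
          _ ≤ 2 * M + 1 := by
              have h2 : (Z : ℝ) ≤ Z ^ m := le_self_pow₀ hZ1' (by omega)
              have h4 : (Z : ℝ) ^ m ≤ M := by rw [hMdef]; nlinarith
              linarith
      have h2 : (2 * M + 1) ^ 2 * Real.exp (-(55 / 1000) * L) =
          (2 * M + 1) * ((2 * M + 1) * Real.exp (-(55 / 1000) * L)) := by ring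
      rw [h2]
      apply le_mul_of_one_le_right (by linarith)
      rw [show -(55 / 1000) * L = -((55 / 1000) * L) by ring, Real.exp_neg,
        ← div_eq_mul_inv, one_le_div (Real.exp_pos _)]
      exact h1
    calc (2 * M + 1) + (1 + Real.log M) / Al
        ≤ (2 * M + 1) ^ 2 * Real.exp (-(55 / 1000) * L) +
          (2 * M + 1) ^ 2 * Real.exp (-(55 / 1000) * L) := add_le_add hfirst hsecond
      _ = (2 * M + 1) ^ 2 * (2 * Real.exp (-(55 / 1000) * L)) := by ring
      _ ≤ (2 * M + 1) ^ 2 * Real.exp (L * (-(1 / 20 : ℝ))) := by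
          apply mul_le_mul_of_nonneg_left _ (by positivity)
          calc 2 * Real.exp (-(55 / 1000) * L) ≤ Real.exp 1 * Real.exp (-(55 / 1000) * L) := by
                apply mul_le_mul_of_nonneg_right _ (Real.exp_pos _).le
                have := Real.add_one_le_exp (1 : ℝ)
                linarith
            _ = Real.exp (1 + -(55 / 1000) * L) := by rw [← Real.exp_add]
            _ ≤ _ := Real.exp_le_exp.2 (by linarith)

end CHOM

open CHOM in
theorem specCHO : SpecCHO := by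
  intro A C
  have hA0 : (0 : ℝ) ≤ A := Nat.cast_nonneg A
  have hC0 : (0 : ℝ) ≤ C := Nat.cast_nonneg C
  refine ⟨1000 + (A + 1) + (6 * C + 21), by linarith, ?_⟩
  intro T hT q N y hq1 hRg
  obtain ⟨hqT, hNT, hyl, hyu⟩ := hRg
  have hT1 : 1000 ≤ T := by linarith
  have hT0 : 0 < T := by linarith
  obtain ⟨f1, f2, f3, f4, f5, f6, f7, f8, f9, f10, f11, f12, f13⟩ :=
    facts (A := A) (C := C) hT1 (by linarith) (by linarith) hNT
  set L := Real.log N with hLdef
  set R := Real.log |y| with hRdef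
  have hL0 : 0 < L := by
    have : 0 < T ^ 45 := by positivity
    linarith
  have hLbig : 1000000 ≤ L := by linarith
  have hNpos : (0 : ℝ) < N := by
    rcases Nat.eq_zero_or_pos N with h | h
    · exfalso
      rw [hLdef, h] at hL0
      simp at hL0
    · exact_mod_cast h
  have hNexp : (N : ℝ) = Real.exp L := (Real.exp_log hNpos).symm
  have hpow : ∀ a : ℝ, (N : ℝ) ^ a = Real.exp (L * a) := fun a => Real.rpow_def_of_pos hNpos a
  rw [hpow] at hyl
  have hy0 : 0 < |y| := lt_of_lt_of_le (Real.exp_pos _) hyl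
  have hyexp : |y| = Real.exp R := (Real.exp_log hy0).symm
  have hR1 : 2 / 5 * L ≤ R := by
    rw [hyexp, Real.exp_le_exp] at hyl
    linarith
  have hR2 : R ≤ C * T ^ 50 := by
    rw [hyexp, Real.exp_le_exp] at hyu
    exact hyu
  set r := R / L with hrdef
  have hrL : R = r * L := by rw [hrdef]; field_simp
  have hr1 : 2 / 5 ≤ r := by
    rw [hrdef, le_div_iff₀ hL0]
    exact hR1
  have hr2 : r ≤ C * T ^ 5 := by
    rw [hrdef, div_le_iff₀ hL0]
    calc R ≤ C * T ^ 50 := hR2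
      _ = (C * T ^ 5) * T ^ 45 := by ring
      _ ≤ (C * T ^ 5) * L := mul_le_mul_of_nonneg_left hNT (by positivity)
  have hkdef : kk N y = ⌈6 * r⌉₊ + 20 := rfl
  have hk1 : 6 * r + 20 ≤ (kk N y : ℝ) := by
    rw [hkdef]
    push_cast
    have := Nat.le_ceil (6 * r)
    linarith
  have hk2 : (kk N y : ℝ) < 6 * r + 21 := by
    rw [hkdef]
    push_cast
    have := Nat.ceil_lt_add_one (a := 6 * r) (by linarith)
    linarith
  have hkT : (kk N y : ℝ) ≤ T ^ 6 := by linarith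
  have hx : (N : ℝ) ^ (2 / 5 : ℝ) = Real.exp (2 / 5 * L) := by rw [hpow]; congr 1; ring
  have hx1 : 1 ≤ (N : ℝ) ^ (2 / 5 : ℝ) := by
    rw [hx]
    exact Real.one_le_exp (by linarith)
  have hZ1 : 1 ≤ ZZ N := by
    unfold ZZ
    exact Nat.le_floor (by exact_mod_cast hx1)
  have hZle : (ZZ N : ℝ) ≤ Real.exp (2 / 5 * L) := by
    rw [← hx]
    exact Nat.floor_le (by linarith)
  have hZ2 : Real.exp (2 / 5 * L) ≤ 2 * (ZZ N : ℝ) := by
    rw [← hx]
    have h1 : (N : ℝ) ^ (2 / 5 : ℝ) < (ZZ N : ℝ) + 1 := Nat.lt_floor_add_one _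
    have h2 : (1 : ℝ) ≤ ZZ N := by exact_mod_cast hZ1
    linarith
  have hqexp : (q : ℝ) ≤ Real.exp (A * T) := le_trans hqT (pow_le_exp hT0.le A)
  have hq0 : (0 : ℝ) ≤ q := Nat.cast_nonneg q
  have h2e : (2 : ℝ) ≤ Real.exp 1 := by
    have := Real.add_one_le_exp (1 : ℝ)
    linarith
  have hqZ : (q : ℝ) * (ZZ N : ℝ) ^ 2 ≤ Real.exp (A * T + 4 / 5 * L) := by
    rw [Real.exp_add]
    have h1 : (ZZ N : ℝ) ^ 2 ≤ Real.exp (4 / 5 * L) := by
      calc (ZZ N : ℝ) ^ 2 ≤ (Real.exp (2 / 5 * L)) ^ 2 :=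
            pow_le_pow_left₀ (Nat.cast_nonneg _) hZle 2
        _ = Real.exp (4 / 5 * L) := by rw [← Real.exp_nat_mul]; congr 1; push_cast; ring
    exact mul_le_mul hqexp h1 (by positivity) (Real.exp_pos _).le
  refine ⟨hkT, hZ1, ?_, ?_, ?_⟩
  · rw [hpow]
    calc 2 * (q : ℝ) * (ZZ N : ℝ) ^ 2 = 2 * ((q : ℝ) * (ZZ N : ℝ) ^ 2) := by ring
      _ ≤ Real.exp 1 * Real.exp (A * T + 4 / 5 * L) :=
          mul_le_mul h2e hqZ (by positivity) (Real.exp_pos _).le
      _ = Real.exp (1 + (A * T + 4 / 5 * L)) := by rw [← Real.exp_add]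
      _ ≤ Real.exp (L * (9 / 10)) := Real.exp_le_exp.2 (by linarith)
  · rw [hpow]
    have h1 : (q : ℝ) * (ZZ N : ℝ) ^ 2 / N ≤ Real.exp (-(19 / 100) * L) := by
      rw [div_le_iff₀ hNpos, hNexp, ← Real.exp_add]
      refine le_trans hqZ (Real.exp_le_exp.2 (by linarith))
    have h2 : ((q : ℝ) * (ZZ N : ℝ) ^ 2 / N) ^ (kk N y + 1) ≤
        Real.exp (-(19 / 100) * L * (6 * r + 20)) := by
      calc ((q : ℝ) * (ZZ N : ℝ) ^ 2 / N) ^ (kk N y + 1)
          ≤ (Real.exp (-(19 / 100) * L)) ^ (kk N y + 1) :=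
            pow_le_pow_left₀ (by positivity) h1 _
        _ = Real.exp (-(19 / 100) * L * ((kk N y : ℝ) + 1)) := by
            rw [← Real.exp_nat_mul]; congr 1; push_cast; ring
        _ ≤ _ := by
            apply Real.exp_le_exp.2
            have h3 : 6 * r + 20 ≤ (kk N y : ℝ) + 1 := by linarith
            have h4 : L * (6 * r + 20) ≤ L * ((kk N y : ℝ) + 1) :=
              mul_le_mul_of_nonneg_left h3 hL0.le
            linarith
    calc 2 * |y| * ((q : ℝ) * (ZZ N : ℝ) ^ 2 / N) ^ (kk N y + 1)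
        ≤ Real.exp 1 * |y| * Real.exp (-(19 / 100) * L * (6 * r + 20)) := by
          apply mul_le_mul _ h2 (by positivity) (by positivity)
          exact mul_le_mul_of_nonneg_right h2e (abs_nonneg y)
      _ = Real.exp (1 + R + -(19 / 100) * L * (6 * r + 20)) := by
          rw [hyexp, ← Real.exp_add, ← Real.exp_add]
      _ ≤ Real.exp (L * (-(1 / 20))) := by
          apply Real.exp_le_exp.2
          have h5 : -(19 / 100) * L * (6 * r + 20) = -(114 / 100) * (r * L) - 38 / 10 * L := by ring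
          rw [h5, ← hrL]
          linarith
  · obtain ⟨m, hmdef⟩ : ∃ m : ℕ, m = ⌈5 / 3 * (r + 1 / 50)⌉₊ := ⟨_, rfl⟩
    have hm1 : 1 ≤ m := by
      rw [hmdef]
      exact Nat.ceil_pos.2 (by linarith)
    have hmlow : 5 / 3 * (r + 1 / 50) ≤ (m : ℝ) := by
      rw [hmdef]
      exact Nat.le_ceil _
    have hmup : (m : ℝ) < 5 / 3 * (r + 1 / 50) + 1 := by
      rw [hmdef]
      exact Nat.ceil_lt_add_one (by linarith)
    have hmk' : (m : ℝ) ≤ (kk N y : ℝ) := by linarith
    have hmk : m ≤ kk N y := by exact_mod_cast hmk'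
    have hmT : (m : ℝ) ≤ T ^ 6 := le_trans hmk' hkT
    refine ⟨⟨m - 1, by omega⟩, ?_⟩
    intro n hn1 hn2
    have hjm : m - 1 + 1 = m := by omega
    simp only [hjm]
    have hjR : (((m - 1 : ℕ) : ℝ)) + 1 = m := by
      have : (((m - 1 + 1 : ℕ) : ℕ) : ℝ) = m := by rw [hjm]
      push_cast at this
      exact this
    have habs : |al q y n (m - 1)| = |y| / (2 * Real.pi) * (((q : ℝ) / n) ^ m / m) := by
      rw [abs_al, hjm, hjR]
    have hk20 : 20 ≤ kk N y := by rw [hkdef]; omega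
    have hs1 : 1 ≤ ss (kk N y) := by
      unfold ss
      have h1 : 1 ≤ kk N y := by omega
      exact Nat.mul_pos h1 (by positivity)
    have hs : ((ss (kk N y) : ℕ) : ℝ) ≤ Real.exp (T ^ 8) := by
      unfold ss
      push_cast
      have hk0 : (0 : ℝ) ≤ kk N y := Nat.cast_nonneg _
      have h2 : (kk N y : ℝ) ^ 2 ≤ T ^ 12 := by
        calc (kk N y : ℝ) ^ 2 ≤ (T ^ 6) ^ 2 := pow_le_pow_left₀ hk0 hkT 2
          _ = T ^ 12 := by ring
      calc (kk N y : ℝ) * ((kk N y : ℝ) + (kk N y : ℝ) ^ 2) ≤ T ^ 6 * (2 * T ^ 12) := by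
            apply mul_le_mul hkT _ (by positivity) (by positivity)
            linarith
        _ = 2 * T ^ 18 := by ring
        _ ≤ T ^ 19 := f10
        _ ≤ Real.exp ((19 : ℕ) * T) := pow_le_exp hT0.le 19
        _ ≤ Real.exp (T ^ 8) := by
            apply Real.exp_le_exp.2
            push_cast
            exact f7
    have ha : (m : ℝ) * (A * T) ≤ T ^ 8 := by
      calc (m : ℝ) * (A * T) ≤ T ^ 6 * (A * T) :=
            mul_le_mul_of_nonneg_right hmT (by positivity)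
        _ = A * T ^ 7 := by ring
        _ ≤ T ^ 8 := f3
    have hup : R + L / 50 ≤ 3 / 5 * m * L := by
      have h1 : (r + 1 / 50) * L ≤ (3 / 5 * m) * L := by
        apply mul_le_mul_of_nonneg_right _ hL0.le
        linarith
      rw [hrL]
      linarith
    have hlo : (m : ℝ) * L / 5 - R ≤ -(6 / 100) * L := by
      have h1 : (m / 5 - r) * L ≤ (-(6 / 100)) * L := by
        apply mul_le_mul_of_nonneg_right _ hL0.le
        linarith
      rw [hrL]
      linarith
    have hpart := part T L R (A * T) N q n m (ss (kk N y)) (ZZ N) y hL0 hT1 f1 f2 f6 f5 f8 f11 f12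
      hNexp hyexp hq1 hqexp ha hm1 hmT hs1 hs hZ1 hZle hZ2 hup hlo hn1 hn2
    rw [← habs, ← hpow] at hpart
    refine ⟨?_, hpart.1, hpart.2⟩
    rw [← abs_pos, habs]
    have hn0 : (0 : ℝ) < n := by
      have : (N : ℝ) ≤ n := by exact_mod_cast hn1.le
      linarith
    have hq0' : (0 : ℝ) < q := by exact_mod_cast hq1
    have hm0 : (0 : ℝ) < m := by exact_mod_cast hm1
    have hpi := Real.pi_pos
    positivity

end Pool.Agent.Lib.VK
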