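import Pool.Agent.Lib.VK.Spec
import Pool.Agent.Lib.LP.EXP
import Pool.Agent.Lib.LP.GAU

/-!
# VK, module CTF: continuity of the Gaussian sums
-/

set_option autoImplicit false

noncomputable section

namespace Pool.Agent.Lib.VK

open ArithmeticFunction
open Pool.Agent.Lib.LP (G)

namespace CTFM

theorem cst_mono (lam u v : ℝ) (h : u ≤ v) : LP.EXPM.Cst lam u 2 ≤ LP.EXPM.Cst lam v 2 := by
  unfold LP.EXPM.Cst
  refine mul_le_mul_of_nonneg_right (Real.exp_le_exp.2 ?_) (Real.sqrt_nonneg _)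
  linarith

theorem cont_term (lam : ℝ) (a : ℕ → ℂ) (n : ℕ) : Continuous fun u : ℝ =>
    ((vonMangoldt n : ℝ) : ℂ) * a n * ((G lam (u - Real.log n) : ℝ) : ℂ) := by
  unfold LP.G
  fun_prop

theorem contOn (lam : ℝ) (hlam : 0 < lam) (a : ℕ → ℂ) (ha : ∀ n, ‖a n‖ ≤ 1) (U : ℝ) :
    ContinuousOn (FF lam a) (Set.Iio U) := by
  unfold FF
  refine continuousOn_tsum (u := fun n : ℕ => (vonMangoldt n * (n : ℝ) ^ (-(2 : ℝ))) *
    (LP.EXPM.Cst lam U 2 / (2 * Real.pi))) (fun n => (cont_term lam a n).continuousOn)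
    ((LP.EXPM.summable_vm (σ := 2) (by norm_num)).mul_right _) ?_
  intro n u hu
  have hG0 : 0 ≤ G lam (u - Real.log n) := LP.EXPM.G_nonneg _
  rw [norm_mul, norm_mul, Complex.norm_real, Complex.norm_real, Real.norm_of_nonneg hG0,
    Real.norm_of_nonneg vonMangoldt_nonneg]
  rcases eq_or_ne n 0 with rfl | hn
  · simp
  · have h := LP.EXPM.G_le LP.specGAU hlam u 2 hn
    have h0 : LP.EXPM.Cst lam u 2 ≤ LP.EXPM.Cst lam U 2 := cst_mono lam u U (le_of_lt hu)
    have hn0 : 0 ≤ (n : ℝ) ^ (-(2 : ℝ)) := Real.rpow_nonneg (Nat.cast_nonneg n) _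
    have h1 : G lam (u - Real.log n) ≤
        (n : ℝ) ^ (-(2 : ℝ)) * (LP.EXPM.Cst lam U 2 / (2 * Real.pi)) := by
      rw [← mul_div_assoc, le_div_iff₀ (by positivity), mul_comm]
      exact h.trans (mul_le_mul_of_nonneg_left h0 hn0)
    calc vonMangoldt n * ‖a n‖ * G lam (u - Real.log n)
        ≤ vonMangoldt n * 1 * ((n : ℝ) ^ (-(2 : ℝ)) * (LP.EXPM.Cst lam U 2 / (2 * Real.pi))) :=
          mul_le_mul (mul_le_mul_of_nonneg_left (ha n) vonMangoldt_nonneg) h1 hG0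
            (mul_nonneg vonMangoldt_nonneg zero_le_one)
      _ = _ := by ring

end CTFM

theorem specCTF : SpecCTF := by
  intro lam hlam a ha
  rw [continuous_iff_continuousAt]
  intro u
  exact (CTFM.contOn lam hlam a ha (u + 1)).continuousAt (Iio_mem_nhds (by linarith))

end Pool.Agent.Lib.VK
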