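import Pool.Agent.Lib.VK.Spec

/-!
# Module DPB: the Dirichlet polynomials of length `(2q(3+|y|))²`
-/

set_option autoImplicit false

noncomputable section

namespace Pool.Agent.Lib.VK

open Finset MeasureTheory Metric
open scoped ArithmeticFunction
open Pool.Agent.Lib.LargeAP (ldL KG Pp)
open Pool.Agent.Lib.LP (G)

namespace DPBM

/-- powers are eventually below `exp` -/
lemma ev_pow (c : ℝ) (k : ℕ) : ∃ T₁ : ℝ, ∀ T : ℝ, T₁ ≤ T → c * T ^ k ≤ Real.exp T := by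
  have h := Real.tendsto_pow_mul_exp_neg_atTop_nhds_zero k
  have h2 : Filter.Tendsto (fun x : ℝ => c * (x ^ k * Real.exp (-x))) Filter.atTop (nhds 0) := by
    simpa using h.const_mul c
  have h3 := (h2.eventually_lt_const (show (0 : ℝ) < 1 by norm_num))
  obtain ⟨T₁, hT⟩ := Filter.eventually_atTop.1 h3
  refine ⟨T₁, fun T hTT => ?_⟩
  have h4 := hT T hTT
  have h5 : c * T ^ k = c * (T ^ k * Real.exp (-T)) * Real.exp T := by
    rw [Real.exp_neg]
    field_simp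
  rw [h5]
  have := Real.exp_pos T
  nlinarith

lemma cpow_split (n : ℕ) (hn : 1 ≤ n) (s : ℂ) :
    (n : ℂ) ^ (-s) = tw (-s.im) n * (((n : ℝ) ^ (-s.re) : ℝ) : ℂ) := by
  have hn0 : (n : ℂ) ≠ 0 := by
    exact_mod_cast (by omega : n ≠ 0)
  have h1 : -s = ((-s.im : ℝ) : ℂ) * Complex.I + ((-s.re : ℝ) : ℂ) := by
    apply Complex.ext <;> simp
  unfold tw
  conv_lhs => rw [h1]
  rw [Complex.cpow_add _ _ hn0, Complex.ofReal_cpow (Nat.cast_nonneg n)]
  simp

lemma norm_term {q : ℕ} (χ : DirichletCharacter ℂ q) (n : ℕ) (hn : 1 ≤ n) (s : ℂ) :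
    ‖χ (n : ZMod q) * (n : ℂ) ^ (-s)‖ ≤ (n : ℝ) ^ (-s.re) := by
  rw [norm_mul]
  have h1 : ‖χ (n : ZMod q)‖ ≤ 1 := DirichletCharacter.norm_le_one χ _
  have h2 : ‖(n : ℂ) ^ (-s)‖ = (n : ℝ) ^ (-s.re) := by
    rw [Complex.norm_natCast_cpow_of_pos (by omega)]
    simp
  rw [h2]
  have h3 : 0 ≤ (n : ℝ) ^ (-s.re) := by positivity
  nlinarith

/-- the trivial bound -/
lemma trivial_bound {q : ℕ} (χ : DirichletCharacter ℂ q) (L : ℕ) (hL : 1 ≤ L) (s : ℂ) (δ : ℝ)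
    (hδ : 0 ≤ δ) (hs : 1 - δ ≤ s.re) :
    ‖Pp χ L s‖ ≤ (L : ℝ) ^ δ * (1 + Real.log L) := by
  unfold Pp
  refine (norm_sum_le _ _).trans ?_
  have h1 : ∀ n ∈ Icc 1 L, ‖χ (n : ZMod q) * (n : ℂ) ^ (-s)‖ ≤ (L : ℝ) ^ δ * ((n : ℝ))⁻¹ := by
    intro n hn
    rw [mem_Icc] at hn
    refine (norm_term χ n hn.1 s).trans ?_
    have hn1 : (1 : ℝ) ≤ n := by exact_mod_cast hn.1
    have hn0 : (0 : ℝ) < n := by linarith
    calc (n : ℝ) ^ (-s.re) ≤ (n : ℝ) ^ (δ + (-1)) :=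
          Real.rpow_le_rpow_of_exponent_le hn1 (by linarith)
      _ = (n : ℝ) ^ δ * ((n : ℝ))⁻¹ := by
          rw [Real.rpow_add hn0, Real.rpow_neg_one]
      _ ≤ (L : ℝ) ^ δ * ((n : ℝ))⁻¹ := by
          refine mul_le_mul_of_nonneg_right ?_ (by positivity)
          exact Real.rpow_le_rpow hn0.le (by exact_mod_cast hn.2) hδ
  refine (sum_le_sum h1).trans ?_
  rw [← mul_sum]
  refine mul_le_mul_of_nonneg_left ?_ (by positivity)
  have h2 := harmonic_le_one_add_log L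
  rw [harmonic_eq_sum_Icc] at h2
  push_cast at h2
  exact h2

/-- dyadic blocks -/
lemma blocks (f : ℕ → ℂ) (E : ℝ) (hE : 0 ≤ E) (N₁ M : ℕ)
    (h : ∀ N b : ℕ, N₁ ≤ N → N ≤ b → b ≤ M → b ≤ 2 * N → ‖∑ n ∈ Ioc N b, f n‖ ≤ E) :
    ∀ i b : ℕ, N₁ ≤ b → b ≤ M → b ≤ 2 ^ i * N₁ → ‖∑ n ∈ Ioc N₁ b, f n‖ ≤ i * E := by
  intro i
  induction i with
  | zero =>
    intro b h1 h2 h3
    have : b = N₁ := by
      simp at h3
      omega
    subst this
    simp
  | succ i ih =>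
    intro b h1 h2 h3
    by_cases hb : b ≤ 2 ^ i * N₁
    · refine (ih b h1 h2 hb).trans ?_
      push_cast
      nlinarith
    · push Not at hb
      have hN : N₁ ≤ 2 ^ i * N₁ := Nat.le_mul_of_pos_left _ (by positivity)
      have h4 : ∑ n ∈ Ioc N₁ b, f n = ∑ n ∈ Ioc N₁ (2 ^ i * N₁), f n
          + ∑ n ∈ Ioc (2 ^ i * N₁) b, f n := by
        rw [← sum_Ioc_consecutive _ hN hb.le]
      rw [h4]
      have h5 := ih (2 ^ i * N₁) hN (by omega) le_rfl
      have h6 := h (2 ^ i * N₁) b hN hb.le h2 (by rw [pow_succ] at h3; linarith)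
      calc _ ≤ ‖∑ n ∈ Ioc N₁ (2 ^ i * N₁), f n‖ + ‖∑ n ∈ Ioc (2 ^ i * N₁) b, f n‖ :=
            norm_add_le _ _
        _ ≤ i * E + E := add_le_add h5 h6
        _ = ((i + 1 : ℕ) : ℝ) * E := by push_cast; ring

/-- one block -/
lemma one_block (hABL : SpecABL) {q : ℕ} (χ : DirichletCharacter ℂ q) (s : ℂ) (N b : ℕ) (D : ℝ)
    (hD : 0 ≤ D) (hN : 1 ≤ N) (hb : N ≤ b) (hs : 0 ≤ s.re)
    (h : ∀ b' : ℕ, N ≤ b' → b' ≤ b → ‖∑ n ∈ Ioc N b', χ (n : ZMod q) * tw (-s.im) n‖ ≤ 4 * N * D) :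
    ‖∑ n ∈ Ioc N b, χ (n : ZMod q) * (n : ℂ) ^ (-s)‖ ≤ 4 * D * (N : ℝ) ^ (1 - s.re) := by
  have h1 := hABL (fun n => χ (n : ZMod q) * tw (-s.im) n) N b s.re (4 * N * D) hN hb hs
    (by positivity) h
  have h2 : ∑ n ∈ Ioc N b, χ (n : ZMod q) * (n : ℂ) ^ (-s)
      = ∑ n ∈ Ioc N b, (fun n : ℕ => χ (n : ZMod q) * tw (-s.im) n) n
        * (((n : ℝ) ^ (-s.re) : ℝ) : ℂ) := by
    refine sum_congr rfl fun n hn => ?_
    rw [mem_Ioc] at hn
    rw [cpow_split n (by omega) s]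
    ring
  rw [h2]
  refine h1.trans (le_of_eq ?_)
  have hN0 : (0 : ℝ) < N := by exact_mod_cast hN
  rw [sub_eq_add_neg, Real.rpow_add hN0, Real.rpow_one]
  ring

/-- facts on `y` if `M` is large -/
lemma y_large (A : ℕ) (T q y M : ℝ) (hT : 1000 ≤ T) (hA : 8 * T ^ A ≤ Real.exp T)
    (hA4 : 256 * T ^ (4 * A) ≤ Real.exp T)
    (hq1 : 1 ≤ q) (hq : q ≤ T ^ A) (hy : 0 ≤ y) (hM0 : Real.exp (T ^ 45) ≤ M)
    (hM : M ≤ (2 * q * (3 + y)) ^ 2) : 1 ≤ y ∧ M ^ 2 ≤ y ^ 5 := by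
  have hTp : (0 : ℝ) < T := by linarith
  have hTA : (1 : ℝ) ≤ T ^ A := one_le_pow₀ (by linarith)
  -- exp (T^45/2) ≤ X
  have hX0 : 0 ≤ 2 * q * (3 + y) := by positivity
  have hE1 : Real.exp (T ^ 45 / 2) ≤ 2 * q * (3 + y) := by
    have h1 : Real.exp (T ^ 45 / 2) ^ 2 ≤ (2 * q * (3 + y)) ^ 2 := by
      rw [← Real.exp_nat_mul]
      have : ((2 : ℕ) : ℝ) * (T ^ 45 / 2) = T ^ 45 := by push_cast; ring
      rw [this]
      exact hM0.trans hM
    exact (pow_le_pow_iff_left₀ (Real.exp_pos _).le hX0 (by norm_num)).1 h1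
  have hT45 : 6 * T ≤ T ^ 45 := by
    have h1 : (6 : ℝ) ≤ T ^ 44 := by
      calc (6 : ℝ) ≤ T := by linarith
        _ = T ^ 1 := (pow_one T).symm
        _ ≤ T ^ 44 := pow_le_pow_right₀ (by linarith) (by norm_num)
    calc 6 * T ≤ T ^ 44 * T := mul_le_mul_of_nonneg_right h1 hTp.le
      _ = T ^ 45 := by ring
  have hE6 : 8 * T ^ A ≤ Real.exp (T ^ 45 / 6) :=
    hA.trans (Real.exp_le_exp.2 (by linarith))
  have hE3 : (1 : ℝ) ≤ Real.exp (T ^ 45 / 3) := Real.one_le_exp (by positivity)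
  have hsplit : Real.exp (T ^ 45 / 2) = Real.exp (T ^ 45 / 6) * Real.exp (T ^ 45 / 3) := by
    rw [← Real.exp_add]
    congr 1
    ring
  -- y ≥ exp (T^45/3)
  have hy3 : Real.exp (T ^ 45 / 3) ≤ y := by
    by_contra hcon
    push Not at hcon
    have h1 : 2 * q * (3 + y) < 2 * T ^ A * (4 * Real.exp (T ^ 45 / 3)) := by
      have h2 : 3 + y < 4 * Real.exp (T ^ 45 / 3) := by linarith
      have h3 : 2 * q ≤ 2 * T ^ A := by linarith
      calc 2 * q * (3 + y) ≤ 2 * T ^ A * (3 + y) :=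
            mul_le_mul_of_nonneg_right h3 (by linarith)
        _ < 2 * T ^ A * (4 * Real.exp (T ^ 45 / 3)) :=
            mul_lt_mul_of_pos_left h2 (by positivity)
    have h4 : 2 * T ^ A * (4 * Real.exp (T ^ 45 / 3)) = 8 * T ^ A * Real.exp (T ^ 45 / 3) := by ring
    have h5 : 8 * T ^ A * Real.exp (T ^ 45 / 3) ≤ Real.exp (T ^ 45 / 6) * Real.exp (T ^ 45 / 3) :=
      mul_le_mul_of_nonneg_right hE6 (by positivity)
    linarith
  have hy1 : 1 ≤ y := hE3.trans hy3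
  refine ⟨hy1, ?_⟩
  have hyT : Real.exp T ≤ y := (Real.exp_le_exp.2 (by linarith)).trans hy3
  have hyT3 : 3 ≤ y := by
    have := Real.add_one_le_exp T
    linarith
  have hy4 : (4 * T ^ A) ^ 4 ≤ y := by
    calc (4 * T ^ A) ^ 4 = 256 * T ^ (4 * A) := by
          rw [mul_pow, ← pow_mul, mul_comm A 4]
          norm_num
      _ ≤ Real.exp T := hA4
      _ ≤ y := hyT
  have hXle : 2 * q * (3 + y) ≤ 4 * T ^ A * y := by
    calc 2 * q * (3 + y) ≤ 2 * T ^ A * (2 * y) := by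
          apply mul_le_mul <;> linarith
      _ = 4 * T ^ A * y := by ring
  calc M ^ 2 ≤ ((2 * q * (3 + y)) ^ 2) ^ 2 := by
        exact pow_le_pow_left₀ ((Real.exp_pos _).le.trans hM0) hM 2
    _ = (2 * q * (3 + y)) ^ 4 := by ring
    _ ≤ (4 * T ^ A * y) ^ 4 := pow_le_pow_left₀ hX0 hXle 4
    _ = (4 * T ^ A) ^ 4 * y ^ 4 := by ring
    _ ≤ y * y ^ 4 := mul_le_mul_of_nonneg_right hy4 (by positivity)
    _ = y ^ 5 := by ring

end DPBM

open DPBM in
theorem specDPB (hVIN : SpecVIN) (hABL : SpecABL) : SpecDPB := by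
  intro A C
  obtain ⟨T0, hT0, hV⟩ := hVIN A C
  obtain ⟨Ta, hTa⟩ := ev_pow 8 A
  obtain ⟨Tb, hTb⟩ := ev_pow 256 (4 * A)
  obtain ⟨Tc, hTc⟩ := ev_pow 24 45
  obtain ⟨Td, hTd⟩ := ev_pow 8 51
  refine ⟨max T0 (max Ta (max Tb (max Tc (max Td (5 * C + 10 : ℝ))))), le_max_of_le_left hT0, ?_⟩
  intro T hT q _ χ s M hq hs1 hs2 hy hM
  simp only [max_le_iff] at hT
  obtain ⟨hT1, hT2, hT3, hT4, hT5, hT6⟩ := hT
  have hT1000 : 1000 ≤ T := hT0.trans hT1
  have hTp : 0 < T := by linarith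
  have hA := hTa T hT2
  have hA4 := hTb T hT3
  have h45 := hTc T hT4
  have h51 := hTd T hT5
  have hT45pos : 0 < T ^ 45 := by positivity
  have hT44 : (1 : ℝ) ≤ T ^ 44 := one_le_pow₀ (by linarith)
  set δ : ℝ := 2 * (T ^ 44)⁻¹ with hδ
  have hδ0 : 0 ≤ δ := by positivity
  have hδ1 : δ ≤ 1 / 10 := by
    have h1 : T ≤ T ^ 44 := by
      calc T = T ^ 1 := (pow_one T).symm
        _ ≤ T ^ 44 := pow_le_pow_right₀ (by linarith) (by norm_num)
    have h2 : (T ^ 44)⁻¹ ≤ 1 / 1000 := by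
      rw [inv_le_comm₀ (by positivity) (by norm_num)]
      norm_num
      linarith
    rw [hδ]
    linarith
  have hδT : δ * T ^ 45 = 2 * T := by
    rw [hδ]
    field_simp
  set N₁ : ℕ := ⌈Real.exp (T ^ 45)⌉₊ with hN₁
  have hN₁le : Real.exp (T ^ 45) ≤ N₁ := Nat.le_ceil _
  have hN₁lt : (N₁ : ℝ) < Real.exp (T ^ 45) + 1 := Nat.ceil_lt_add_one (Real.exp_pos _).le
  have hexp1 : (1 : ℝ) ≤ Real.exp (T ^ 45) := Real.one_le_exp hT45pos.le
  have hN₁1 : 1 ≤ N₁ := by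
    have : (1 : ℝ) ≤ N₁ := hexp1.trans hN₁le
    exact_mod_cast this
  -- the trivial bound
  have htriv : ∀ L : ℕ, 1 ≤ L → L ≤ 2 * N₁ → ‖Pp χ L s‖ ≤ Real.exp (3 * T) / 2 := by
    intro L hL1 hL2
    have hL0 : (0 : ℝ) < L := by exact_mod_cast hL1
    have hlog : Real.log L ≤ T ^ 45 + 2 := by
      have h1 : (L : ℝ) ≤ 4 * Real.exp (T ^ 45) := by
        have : (L : ℝ) ≤ 2 * N₁ := by exact_mod_cast hL2
        linarith
      have h2 : (4 : ℝ) ≤ Real.exp 2 := by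
        have h3 := Real.exp_one_gt_d9
        have h4 : Real.exp 2 = Real.exp 1 * Real.exp 1 := by
          rw [← Real.exp_add]; norm_num
        rw [h4]
        nlinarith
      calc Real.log L ≤ Real.log (Real.exp (T ^ 45 + 2)) := by
            refine Real.log_le_log hL0 (h1.trans ?_)
            rw [add_comm, Real.exp_add]
            exact mul_le_mul_of_nonneg_right h2 (Real.exp_pos _).le
        _ = T ^ 45 + 2 := Real.log_exp _
    have hlog0 : 0 ≤ Real.log L := Real.log_natCast_nonneg L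
    refine (trivial_bound χ L hL1 s δ hδ0 hs1).trans ?_
    have h1 : (L : ℝ) ^ δ ≤ Real.exp (2 * T + 1) := by
      rw [Real.rpow_def_of_pos hL0]
      refine Real.exp_le_exp.2 ?_
      calc Real.log L * δ ≤ (T ^ 45 + 2) * δ := mul_le_mul_of_nonneg_right hlog hδ0
        _ = δ * T ^ 45 + 2 * δ := by ring
        _ ≤ 2 * T + 1 := by rw [hδT]; linarith
    have h2 : 1 + Real.log L ≤ 4 * T ^ 45 := by
      have : (1 : ℝ) ≤ T ^ 45 := one_le_pow₀ (by linarith)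
      linarith
    have h3 : Real.exp 1 ≤ 3 := by
      have := Real.exp_one_lt_d9
      linarith
    calc (L : ℝ) ^ δ * (1 + Real.log L) ≤ Real.exp (2 * T + 1) * (4 * T ^ 45) :=
          mul_le_mul h1 h2 (by linarith) (Real.exp_pos _).le
      _ = Real.exp (2 * T) * (Real.exp 1 * (4 * T ^ 45)) := by rw [Real.exp_add]; ring
      _ ≤ Real.exp (2 * T) * (3 * (4 * T ^ 45)) := by
          refine mul_le_mul_of_nonneg_left ?_ (Real.exp_pos _).le
          exact mul_le_mul_of_nonneg_right h3 (by positivity)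
      _ ≤ Real.exp (2 * T) * (Real.exp T / 2) := by
          refine mul_le_mul_of_nonneg_left ?_ (Real.exp_pos _).le
          linarith
      _ = Real.exp (3 * T) / 2 := by
          rw [show (3 : ℝ) * T = 2 * T + T by ring, Real.exp_add]
          ring
  have hexp3 : (2 : ℝ) ≤ Real.exp (3 * T) := by
    have := Real.add_one_le_exp (3 * T)
    linarith
  rcases Nat.eq_zero_or_pos M with hM0 | hM0
  · subst hM0
    simp only [Pp]
    simp
    positivity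
  rcases le_or_gt M (2 * N₁) with hMN | hMN
  · refine (htriv M hM0 hMN).trans ?_
    linarith
  -- large M
  have hq1 : (1 : ℝ) ≤ q := by
    exact_mod_cast Nat.one_le_iff_ne_zero.2 (NeZero.ne q)
  have hMe : Real.exp (T ^ 45) ≤ M := by
    have h1 : ((2 * N₁ : ℕ) : ℝ) < M := by exact_mod_cast hMN
    push_cast at h1
    linarith
  obtain ⟨hy1, hMy⟩ := y_large A T q |s.im| M hT1000 hA hA4 hq1 hq (abs_nonneg _) hMe hM
  have hM1 : (1 : ℝ) ≤ M := hexp1.trans hMe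
  have hlogM : Real.log M ≤ 5 / 2 * (C * T ^ 50) := by
    have h1 : Real.log ((M : ℝ) ^ 2) ≤ Real.log (|s.im| ^ 5) :=
      Real.log_le_log (by positivity) hMy
    rw [Real.log_pow, Real.log_pow] at h1
    have h2 : Real.log |s.im| ≤ C * T ^ 50 := by
      calc Real.log |s.im| ≤ Real.log (Real.exp (C * T ^ 50)) :=
            Real.log_le_log (by linarith) hy
        _ = C * T ^ 50 := Real.log_exp _
    push_cast at h1
    linarith
  have hlogM0 : 0 ≤ Real.log M := Real.log_nonneg hM1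
  set E : ℝ := 4 * Real.exp (-T ^ 8) * Real.exp (5 * C * T ^ 6) with hE
  have hE0 : 0 ≤ E := by positivity
  have hblock : ∀ N b : ℕ, N₁ ≤ N → N ≤ b → b ≤ M → b ≤ 2 * N →
      ‖∑ n ∈ Ioc N b, χ (n : ZMod q) * (n : ℂ) ^ (-s)‖ ≤ E := by
    intro N b h1 h2 h3 h4
    have hN1 : 1 ≤ N := hN₁1.trans h1
    have hN0 : (0 : ℝ) < N := by exact_mod_cast hN1
    have hN1' : (1 : ℝ) ≤ N := by exact_mod_cast hN1
    have hNM : (N : ℝ) ≤ M := by exact_mod_cast h2.trans h3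
    have hRg : Rg A C T q N (-s.im) := by
      refine ⟨hq, ?_, ?_, ?_⟩
      · have h5 : Real.exp (T ^ 45) ≤ N := hN₁le.trans (by exact_mod_cast h1)
        calc T ^ 45 = Real.log (Real.exp (T ^ 45)) := (Real.log_exp _).symm
          _ ≤ Real.log N := Real.log_le_log (Real.exp_pos _) h5
      · rw [abs_neg]
        have h5 : (N : ℝ) ^ (2 / 5 : ℝ) = ((N : ℝ) ^ (2 : ℕ)) ^ (1 / 5 : ℝ) := by
          rw [← Real.rpow_natCast, ← Real.rpow_mul hN0.le]
          norm_num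
        have h6 : |s.im| = (|s.im| ^ (5 : ℕ)) ^ (1 / 5 : ℝ) := by
          rw [← Real.rpow_natCast, ← Real.rpow_mul (abs_nonneg _)]
          norm_num
        rw [h5, h6]
        refine Real.rpow_le_rpow (by positivity) ?_ (by norm_num)
        exact (pow_le_pow_left₀ hN0.le hNM 2).trans hMy
      · rw [abs_neg]
        exact hy
    have h5 := one_block hABL χ s N b (Real.exp (-T ^ 8)) (Real.exp_pos _).le hN1 h2
      (by linarith) (fun b' hb1 hb2 => hV T hT1 q χ N (-s.im) hRg b' hb1 (hb2.trans h4))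
    refine h5.trans ?_
    rw [hE]
    refine mul_le_mul_of_nonneg_left ?_ (by positivity)
    rw [Real.rpow_def_of_pos hN0]
    refine Real.exp_le_exp.2 ?_
    have hlN0 : 0 ≤ Real.log N := Real.log_nonneg hN1'
    have hlN : Real.log N ≤ 5 / 2 * (C * T ^ 50) := (Real.log_le_log hN0 hNM).trans hlogM
    calc Real.log N * (1 - s.re) ≤ Real.log N * δ :=
          mul_le_mul_of_nonneg_left (by linarith) hlN0
      _ ≤ 5 / 2 * (C * T ^ 50) * δ := mul_le_mul_of_nonneg_right hlN hδ0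
      _ = 5 / 2 * C * T ^ 5 * (δ * T ^ 45) := by ring
      _ = 5 * C * T ^ 6 := by rw [hδT]; ring
  -- number of blocks
  set i : ℕ := ⌈2 * Real.log M⌉₊ with hi
  have hi1 : 2 * Real.log M ≤ i := Nat.le_ceil _
  have hi2 : (i : ℝ) < 2 * Real.log M + 1 := Nat.ceil_lt_add_one (by linarith)
  have hM2 : M ≤ 2 ^ i * N₁ := by
    have h1 : (M : ℝ) ≤ 2 ^ i := by
      have h2 : Real.log M ≤ Real.log ((2 : ℝ) ^ i) := by
        rw [Real.log_pow]
        have h3 := Real.log_two_gt_d9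
        nlinarith
      exact (Real.log_le_log_iff (by linarith) (by positivity)).1 h2
    have h2 : M ≤ 2 ^ i := by exact_mod_cast h1
    exact h2.trans (Nat.le_mul_of_pos_right _ hN₁1)
  have hsum := blocks (fun n => χ (n : ZMod q) * (n : ℂ) ^ (-s)) E hE0 N₁ M hblock i M
    (by omega) le_rfl hM2
  have hiE : (i : ℝ) * E ≤ 1 := by
    have h1 : (i : ℝ) ≤ T ^ 51 := by
      have h2 : (1 : ℝ) ≤ T ^ 50 := one_le_pow₀ (by linarith)
      calc (i : ℝ) ≤ 2 * Real.log M + 1 := hi2.le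
        _ ≤ 5 * C * T ^ 50 + 1 * T ^ 50 := by linarith
        _ = (5 * C + 1) * T ^ 50 := by ring
        _ ≤ T * T ^ 50 := mul_le_mul_of_nonneg_right (by linarith) (by positivity)
        _ = T ^ 51 := by ring
    have h2 : E ≤ 4 * Real.exp (-T) := by
      rw [hE, mul_assoc, ← Real.exp_add]
      refine mul_le_mul_of_nonneg_left ?_ (by norm_num)
      refine Real.exp_le_exp.2 ?_
      have h3 : (5 * C : ℝ) * T ^ 6 ≤ (T - 10) * T ^ 6 :=
        mul_le_mul_of_nonneg_right (by linarith) (by positivity)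
      have h4 : T ^ 7 * 2 ≤ T ^ 8 := by
        calc T ^ 7 * 2 ≤ T ^ 7 * T := mul_le_mul_of_nonneg_left (by linarith) (by positivity)
          _ = T ^ 8 := by ring
      have h5 : T ≤ T ^ 7 := by
        calc T = T ^ 1 := (pow_one T).symm
          _ ≤ T ^ 7 := pow_le_pow_right₀ (by linarith) (by norm_num)
      have h6 : (T - 10) * T ^ 6 = T ^ 7 - 10 * T ^ 6 := by ring
      have h7 : 0 ≤ T ^ 6 := by positivity
      linarith
    calc (i : ℝ) * E ≤ T ^ 51 * (4 * Real.exp (-T)) :=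
          mul_le_mul h1 h2 hE0 (by positivity)
      _ ≤ 1 := by
          have h3 : Real.exp (-T) * Real.exp T = 1 := by
            rw [← Real.exp_add]; simp
          have h4 : 0 < Real.exp (-T) := Real.exp_pos _
          have h5 : T ^ 51 * (4 * Real.exp (-T)) = (8 * T ^ 51) * Real.exp (-T) / 2 := by ring
          rw [h5]
          have h6 : 8 * T ^ 51 * Real.exp (-T) ≤ Real.exp T * Real.exp (-T) :=
            mul_le_mul_of_nonneg_right h51 h4.le
          linarith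
  have hsplit : Pp χ M s = Pp χ N₁ s + ∑ n ∈ Ioc N₁ M, χ (n : ZMod q) * (n : ℂ) ^ (-s) := by
    unfold Pp
    have h1 : Icc 1 M = Icc 1 N₁ ∪ Ioc N₁ M := by
      ext n
      simp only [mem_union, mem_Icc, mem_Ioc]
      omega
    rw [h1, sum_union]
    rw [disjoint_left]
    intro n hn hn'
    simp only [mem_Icc, mem_Ioc] at hn hn'
    omega
  rw [hsplit]
  calc _ ≤ ‖Pp χ N₁ s‖ + ‖∑ n ∈ Ioc N₁ M, χ (n : ZMod q) * (n : ℂ) ^ (-s)‖ := norm_add_le _ _
    _ ≤ Real.exp (3 * T) / 2 + 1 := add_le_add (htriv N₁ hN₁1 (by omega)) (hsum.trans hiE)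
    _ ≤ Real.exp (3 * T) := by linarith

end Pool.Agent.Lib.VK
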