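import Pool.Agent.Lib.VK.Spec
import Pool.Agent.Lib.LargeAP.EXO
import Pool.Agent.Lib.LP.INV

/-!
# VK, module EXV: the expansion of `L'/L` near the line `Re s = 1`
-/

set_option autoImplicit false

noncomputable section

namespace Pool.Agent.Lib.VK

open Finset MeasureTheory Metric
open Pool.Agent.Lib.LargeAP (ldL KG Pp)

namespace EXVM

variable {q : ℕ} [NeZero q]

theorem log_deriv {s : ℂ} (h : s ≠ 1) (h2 : DirichletCharacter.LFunction (1 : DirichletCharacter ℂ q) s ≠ 0) :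
    deriv (DirichletCharacter.LFunctionTrivChar₁ q) s / DirichletCharacter.LFunctionTrivChar₁ q s =
      (s - 1)⁻¹ - ldL (1 : DirichletCharacter ℂ q) s := by
  have h1 : s - 1 ≠ 0 := sub_ne_zero.2 h
  rw [DirichletCharacter.deriv_LFunctionTrivChar₁_apply_of_ne_one q h, LargeAP.EXOM.f_eq h, ldL]
  change ((s - 1) * deriv (DirichletCharacter.LFunction (1 : DirichletCharacter ℂ q)) s +
    DirichletCharacter.LFunction (1 : DirichletCharacter ℂ q) s) / _ = _
  field_simp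
  ring

theorem ev_pow : ∃ T₂ : ℝ, ∀ T : ℝ, T₂ ≤ T → 6 * T ^ 46 ≤ Real.exp T := by
  have h := (Real.tendsto_pow_mul_exp_neg_atTop_nhds_zero 46).eventually
    (gt_mem_nhds (show (0 : ℝ) < 1 / 6 by norm_num))
  obtain ⟨T₂, hT₂⟩ := Filter.eventually_atTop.1 h
  refine ⟨T₂, fun T hT => ?_⟩
  have h1 := hT₂ T hT
  have h2 : T ^ 46 * Real.exp (-T) * Real.exp T < 1 / 6 * Real.exp T :=
    mul_lt_mul_of_pos_right h1 (Real.exp_pos T)
  rw [mul_assoc, ← Real.exp_add, neg_add_cancel, Real.exp_zero, mul_one] at h2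
  linarith

end EXVM

open EXVM in
theorem specEXV (hLUV : SpecLUV) (hSLN : SpecSLN) : SpecEXV := by
  obtain ⟨C₁, hC₁, hS⟩ := hSLN
  obtain ⟨T₂, hT₂⟩ := ev_pow
  refine ⟨5 * C₁ + 2, by positivity, fun A C => ?_⟩
  obtain ⟨T₃, hT₃, hL⟩ := hLUV A (C + 1)
  refine ⟨max T₂ T₃, le_max_of_le_right hT₃, fun T hT q _ χ t hq ht1 ht2 => ?_⟩
  have hTT₂ : T₂ ≤ T := (le_max_left _ _).trans hT
  have hTT₃ : T₃ ≤ T := (le_max_right _ _).trans hT
  have hT1000 : 1000 ≤ T := hT₃.trans hTT₃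
  have hT0 : 0 < T := by linarith
  have h6 := hT₂ T hTT₂
  set R : ℝ := (T ^ 44)⁻¹ with hR
  have hR0 : 0 < R := by positivity
  have hT44 : (4 : ℝ) ≤ T ^ 44 := by
    calc (4 : ℝ) ≤ 1000 ^ 1 := by norm_num
      _ ≤ T ^ 1 := pow_le_pow_left₀ (by norm_num) hT1000 1
      _ ≤ T ^ 44 := pow_le_pow_right₀ (by linarith) (by norm_num)
  have hR4 : R ≤ 1 / 4 := by
    rw [hR, one_div]
    exact inv_anti₀ (by norm_num) hT44
  have h46 : (T ^ 46)⁻¹ ≤ R := by
    rw [hR]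
    exact inv_anti₀ (by positivity) (pow_le_pow_right₀ (by linarith) (by norm_num))
  have h460 : 0 < (T ^ 46)⁻¹ := by positivity
  obtain ⟨s₀, hs₀⟩ : ∃ s₀ : ℂ, s₀ = (⟨1 + (T ^ 46)⁻¹, t⟩ : ℂ) := ⟨_, rfl⟩
  have hre : s₀.re = 1 + (T ^ 46)⁻¹ := by rw [hs₀]
  have him : s₀.im = t := by rw [hs₀]
  rw [← hs₀]
  -- lower bound
  have hlow : (T ^ 46)⁻¹ / 2 ≤ ‖DirichletCharacter.LFunction χ s₀‖ := by
    have h1 := LP.specINV q χ (T ^ 46)⁻¹ t h460 (by linarith)
    have h2 : (1 : ℂ) + (((T ^ 46)⁻¹ : ℝ) : ℂ) + (t : ℂ) * Complex.I = s₀ := by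
      apply Complex.ext
      · rw [hre]
        simp [-Complex.ofReal_inv, -Complex.ofReal_pow]
      · rw [him]
        simp [-Complex.ofReal_inv, -Complex.ofReal_pow]
    rwa [h2] at h1
  have hpos : 0 < ‖DirichletCharacter.LFunction χ s₀‖ := lt_of_lt_of_le (by positivity) hlow
  have hne : DirichletCharacter.LFunction χ s₀ ≠ 0 := norm_pos_iff.1 hpos
  -- the ball
  have hball : ∀ s ∈ closedBall s₀ R, 1 / 2 ≤ |s.im| ∧ ‖DirichletCharacter.LFunction χ s‖ ≤ Real.exp (4 * T) := by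
    intro s hs
    rw [mem_closedBall, dist_eq_norm] at hs
    have h1 : |(s - s₀).re| ≤ R := (Complex.abs_re_le_norm _).trans hs
    have h2 : |(s - s₀).im| ≤ R := (Complex.abs_im_le_norm _).trans hs
    rw [Complex.sub_re, hre] at h1
    rw [Complex.sub_im, him] at h2
    have h1' := abs_le.1 h1
    have h3 : |t| - R ≤ |s.im| := by
      have := abs_sub_abs_le_abs_sub t s.im
      rw [abs_sub_comm] at h2
      linarith
    have h4 : |s.im| ≤ |t| + R := by
      have := abs_sub_abs_le_abs_sub s.im t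
      linarith
    refine ⟨by linarith, hL T hTT₃ q χ s hq ?_ (by linarith [h1'.2]) (by linarith) ?_⟩
    · linarith [h1'.1]
    · have h5 : Real.exp (C * T ^ 50) + 1 ≤ Real.exp (((C + 1 : ℕ) : ℝ) * T ^ 50) := by
        have h50 : (1 : ℝ) ≤ T ^ 50 := one_le_pow₀ (by linarith)
        have e1 : ((C + 1 : ℕ) : ℝ) * T ^ 50 = C * T ^ 50 + T ^ 50 := by push_cast; ring
        rw [e1, Real.exp_add]
        have e2 : 1 ≤ Real.exp (C * T ^ 50) := Real.one_le_exp (by positivity)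
        have e3 : 2 ≤ Real.exp (T ^ 50) := by
          have := Real.add_one_le_exp (T ^ 50)
          linarith
        nlinarith
      linarith
  have hexp : 6 * T ^ 46 * Real.exp (4 * T) ≤ Real.exp (5 * T) := by
    rw [show (5 : ℝ) * T = T + 4 * T by ring, Real.exp_add]
    exact mul_le_mul_of_nonneg_right h6 (Real.exp_pos _).le
  have hexp2 : ∀ L : ℝ, (T ^ 46)⁻¹ / 2 ≤ L → 3 * Real.exp (4 * T) ≤ Real.exp (5 * T) * L := by
    intro L hL'
    calc 3 * Real.exp (4 * T) = 6 * T ^ 46 * Real.exp (4 * T) * ((T ^ 46)⁻¹ / 2) := by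
          field_simp
          norm_num
      _ ≤ Real.exp (5 * T) * L := mul_le_mul hexp hL' (by positivity) (Real.exp_pos _).le
  have hfin : C₁ * (5 * T) / R + 2 ≤ (5 * C₁ + 2) * T ^ 46 := by
    have e1 : C₁ * (5 * T) / R = 5 * C₁ * T ^ 45 := by
      rw [hR, div_inv_eq_mul]
      ring
    have e2 : T ^ 45 ≤ T ^ 46 := pow_le_pow_right₀ (by linarith) (by norm_num)
    have e3 : (1 : ℝ) ≤ T ^ 46 := one_le_pow₀ (by linarith)
    rw [e1]
    nlinarith
  by_cases hχ : χ = 1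
  · subst hχ
    have hs1 : ∀ s ∈ closedBall s₀ R, s ≠ 1 := by
      intro s hs h
      have h1 := (hball s hs).1
      rw [h, Complex.one_im, abs_zero] at h1
      linarith
    have hmem0 : s₀ ∈ closedBall s₀ R := mem_closedBall_self hR0.le
    have hf0 : DirichletCharacter.LFunctionTrivChar₁ q s₀ ≠ 0 := by
      rw [LargeAP.EXOM.f_eq (hs1 s₀ hmem0)]
      exact mul_ne_zero (sub_ne_zero.2 (hs1 s₀ hmem0)) hne
    have hup : ∀ s ∈ closedBall s₀ R, ‖DirichletCharacter.LFunctionTrivChar₁ q s‖ ≤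
        Real.exp (5 * T) * ‖DirichletCharacter.LFunctionTrivChar₁ q s₀‖ := by
      intro s hs
      have h1 := (hball s hs).2
      have h2 : 1 ≤ ‖s₀ - 1‖ := by
        have h3 := Complex.abs_im_le_norm (s₀ - 1)
        rw [Complex.sub_im, him, Complex.one_im, sub_zero] at h3
        linarith
      have h3 : ‖s - 1‖ ≤ 2 * ‖s₀ - 1‖ := by
        have h4 : ‖s - 1‖ ≤ ‖s - s₀‖ + ‖s₀ - 1‖ := by
          have := norm_add_le (s - s₀) (s₀ - 1)
          simpa using this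
        rw [mem_closedBall, dist_eq_norm] at hs
        linarith
      rw [LargeAP.EXOM.f_eq (hs1 s hs), LargeAP.EXOM.f_eq (hs1 s₀ hmem0), norm_mul, norm_mul]
      have h5 := hexp2 _ hlow
      calc ‖s - 1‖ * ‖DirichletCharacter.LFunction (1 : DirichletCharacter ℂ q) s‖
          ≤ (2 * ‖s₀ - 1‖) * Real.exp (4 * T) :=
            mul_le_mul h3 h1 (norm_nonneg _) (by positivity)
        _ ≤ ‖s₀ - 1‖ * (3 * Real.exp (4 * T)) := by
            have : 0 ≤ ‖s₀ - 1‖ * Real.exp (4 * T) := by positivity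
            nlinarith
        _ ≤ ‖s₀ - 1‖ * (Real.exp (5 * T) * ‖DirichletCharacter.LFunction (1 : DirichletCharacter ℂ q) s₀‖) :=
            mul_le_mul_of_nonneg_left h5 (norm_nonneg _)
        _ = _ := by ring
    obtain ⟨Z, hZ1, hZ2, hZ3⟩ := hS _ s₀ R (5 * T) (by linarith) hR0
      (DirichletCharacter.differentiable_LFunctionTrivChar₁ q) hf0 hup
    have hsub2 : closedBall s₀ (R / 2) ⊆ closedBall s₀ R := closedBall_subset_closedBall (by linarith)
    have hsub4 : closedBall s₀ (R / 4) ⊆ closedBall s₀ R := closedBall_subset_closedBall (by linarith)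
    refine ⟨Z, fun ρ hρ => ?_, fun ρ hρ h0 => ?_, fun s hs h0 => ?_⟩
    · obtain ⟨h1, h2⟩ := hZ1 ρ hρ
      refine ⟨?_, h2⟩
      rw [LargeAP.EXOM.f_eq (hs1 ρ (hsub2 h2))] at h1
      exact (mul_eq_zero.1 h1).resolve_left (sub_ne_zero.2 (hs1 ρ (hsub2 h2)))
    · refine hZ2 ρ hρ ?_
      rw [LargeAP.EXOM.f_eq (hs1 ρ (hsub2 hρ)), h0, mul_zero]
    · have h1 : s ≠ 1 := hs1 s (hsub4 hs)
      have h2 := hZ3 s hs (by
        rw [LargeAP.EXOM.f_eq h1]
        exact mul_ne_zero (sub_ne_zero.2 h1) h0)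
      rw [log_deriv h1 h0] at h2
      have h3 : ‖(s - 1)⁻¹‖ ≤ 2 := by
        have h4 := Complex.abs_im_le_norm (s - 1)
        rw [Complex.sub_im, Complex.one_im, sub_zero] at h4
        have h5 := (hball s (hsub4 hs)).1
        rw [norm_inv]
        have h6 : (1 / 2 : ℝ) ≤ ‖s - 1‖ := h5.trans h4
        calc ‖s - 1‖⁻¹ ≤ (1 / 2 : ℝ)⁻¹ := inv_anti₀ (by norm_num) h6
          _ = 2 := by norm_num
      have h4 : ldL (1 : DirichletCharacter ℂ q) s + (Z.map (fun ρ => (s - ρ)⁻¹)).sum =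
          (s - 1)⁻¹ - ((s - 1)⁻¹ - ldL (1 : DirichletCharacter ℂ q) s -
            (Z.map (fun ρ => (s - ρ)⁻¹)).sum) := by ring
      rw [h4]
      refine (norm_sub_le _ _).trans ?_
      linarith
  · have hup : ∀ s ∈ closedBall s₀ R, ‖DirichletCharacter.LFunction χ s‖ ≤
        Real.exp (5 * T) * ‖DirichletCharacter.LFunction χ s₀‖ := by
      intro s hs
      have h1 := (hball s hs).2
      have h5 := hexp2 _ hlow
      have h6 := Real.exp_pos (4 * T)
      linarith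
    obtain ⟨Z, hZ1, hZ2, hZ3⟩ := hS _ s₀ R (5 * T) (by linarith) hR0
      (DirichletCharacter.differentiable_LFunction hχ) hne hup
    refine ⟨Z, hZ1, hZ2, fun s hs h0 => ?_⟩
    have h1 := hZ3 s hs h0
    have h2 : ldL χ s + (Z.map (fun ρ => (s - ρ)⁻¹)).sum =
        -(deriv (DirichletCharacter.LFunction χ) s / DirichletCharacter.LFunction χ s -
          (Z.map (fun ρ => (s - ρ)⁻¹)).sum) := by
      unfold ldL
      ring
    rw [h2, norm_neg]
    linarith

end Pool.Agent.Lib.VK
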