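import Pool.Agent.Lib.VK.Spec

/-!
# VK, module GEO: the double geometric sum
-/

set_option autoImplicit false

noncomputable section

namespace Pool.Agent.Lib.VK

open Finset

namespace GEOM

theorem norm_ee (x : ℝ) : ‖ee x‖ = 1 := by
  unfold ee
  have h : 2 * (Real.pi : ℂ) * Complex.I * (x : ℂ) = ((2 * Real.pi * x : ℝ) : ℂ) * Complex.I := by
    push_cast
    ring
  rw [h, Complex.norm_exp_ofReal_mul_I]

theorem card_Icc_int (M : ℕ) : (Icc (-(M : ℤ)) M).card = 2 * M + 1 := by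
  rw [Int.card_Icc]
  omega

theorem norm_inner_le (M : ℕ) (θ : ℝ) (u : ℤ) :
    ‖∑ v ∈ Icc (-(M : ℤ)) M, ee (θ * u * v)‖ ≤ 2 * M + 1 := by
  calc ‖∑ v ∈ Icc (-(M : ℤ)) M, ee (θ * u * v)‖ ≤ ∑ v ∈ Icc (-(M : ℤ)) M, ‖ee (θ * u * v)‖ :=
        _root_.norm_sum_le _ _
    _ = 2 * M + 1 := by
        simp only [norm_ee, sum_const, card_Icc_int, nsmul_eq_mul, mul_one]
        push_cast
        ring

theorem ee_add (x y : ℝ) : ee (x + y) = ee x * ee y := by
  unfold ee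
  rw [← Complex.exp_add]
  congr 1
  push_cast
  ring

theorem ee_nat (x : ℝ) (i : ℕ) : ee (x * i) = ee x ^ i := by
  unfold ee
  rw [← Complex.exp_nat_mul]
  congr 1
  push_cast
  ring

theorem reindex (M : ℕ) (f : ℤ → ℂ) :
    ∑ v ∈ Icc (-(M : ℤ)) M, f v = ∑ i ∈ range (2 * M + 1), f ((i : ℤ) - M) := by
  refine Finset.sum_nbij' (fun v => (v + M).toNat) (fun i => (i : ℤ) - M) ?_ ?_ ?_ ?_ ?_
  · intro v hv
    rw [mem_Icc] at hv
    rw [mem_range]
    omega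
  · intro i hi
    rw [mem_range] at hi
    rw [mem_Icc]
    omega
  · intro v hv
    rw [mem_Icc] at hv
    omega
  · intro i hi
    omega
  · intro v hv
    rw [mem_Icc] at hv
    congr 1
    omega

theorem geom (M : ℕ) (x : ℝ) :
    ‖∑ v ∈ Icc (-(M : ℤ)) M, ee (x * v)‖ * ‖ee x - 1‖ ≤ 2 := by
  rw [reindex, ← norm_mul]
  have h : ∀ i ∈ range (2 * M + 1), ee (x * ((((i : ℤ) - M : ℤ) : ℝ))) =
      ee (-(x * M)) * ee x ^ i := by
    intro i _
    rw [← ee_nat, ← ee_add]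
    congr 1
    push_cast
    ring
  rw [sum_congr rfl h, ← mul_sum, mul_assoc, geom_sum_mul, norm_mul, norm_ee, one_mul]
  calc ‖ee x ^ (2 * M + 1) - 1‖ ≤ ‖ee x ^ (2 * M + 1)‖ + ‖(1 : ℂ)‖ := norm_sub_le _ _
    _ = 2 := by
        rw [norm_pow, norm_ee, one_pow, norm_one]
        norm_num

theorem lower (x : ℝ) (hx : |x| ≤ 1 / 2) : 4 * |x| ≤ ‖ee x - 1‖ := by
  have h : ee x = Complex.exp (Complex.I * ((2 * Real.pi * x : ℝ) : ℂ)) := by
    unfold ee
    congr 1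
    push_cast
    ring
  rw [h, Complex.norm_exp_I_mul_ofReal_sub_one]
  have h1 : 2 * Real.pi * x / 2 = Real.pi * x := by ring
  rw [h1, norm_mul, Real.norm_eq_abs, Real.norm_eq_abs, abs_two]
  have hpi := Real.pi_pos
  have h2 : |Real.pi * x| ≤ Real.pi / 2 := by
    rw [abs_mul, abs_of_pos hpi]
    nlinarith
  have h3 := Real.mul_abs_le_abs_sin h2
  rw [abs_mul, abs_of_pos hpi] at h3
  have h4 : 2 / Real.pi * (Real.pi * |x|) = 2 * |x| := by
    field_simp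
  rw [h4] at h3
  linarith

/-- the sum of `1/|u|` -/
def H (M : ℕ) : ℝ := ∑ u ∈ Icc (-(M : ℤ)) M, (|(u : ℝ)|)⁻¹

theorem H_eq (M : ℕ) : H M = 2 * ((harmonic M : ℚ) : ℝ) := by
  induction M with
  | zero => simp [H]
  | succ n ih =>
    have hI : Icc (-((n + 1 : ℕ) : ℤ)) ((n + 1 : ℕ) : ℤ) =
        insert ((n + 1 : ℕ) : ℤ) (insert (-((n + 1 : ℕ) : ℤ)) (Icc (-(n : ℤ)) n)) := by
      ext u
      simp only [mem_Icc, mem_insert]
      push_cast
      omega
    unfold H at ih ⊢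
    rw [hI, sum_insert, sum_insert, ih, harmonic_succ]
    · push_cast
      rw [abs_neg, abs_of_nonneg (by positivity : (0 : ℝ) ≤ (n : ℝ) + 1)]
      ring
    · rw [mem_Icc]
      push_cast
      omega
    · rw [mem_insert, mem_Icc]
      push_cast
      omega

end GEOM

open GEOM in
theorem specGEO : SpecGEO := by
  constructor
  · intro M θ
    unfold bx
    calc ∑ u ∈ Icc (-(M : ℤ)) M, ‖∑ v ∈ Icc (-(M : ℤ)) M, ee (θ * u * v)‖
        ≤ ∑ u ∈ Icc (-(M : ℤ)) M, ((2 : ℝ) * M + 1) := sum_le_sum fun u _ => norm_inner_le M θ u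
      _ = (2 * M + 1) ^ 2 := by
        rw [sum_const, card_Icc_int, nsmul_eq_mul]
        push_cast
        ring
  · intro M θ hM hθ hb
    have hθ' : 0 < |θ| := abs_pos.2 hθ
    unfold bx
    have h0 : (0 : ℤ) ∈ Icc (-(M : ℤ)) M := by
      rw [mem_Icc]
      omega
    rw [← add_sum_erase _ _ h0]
    apply add_le_add (norm_inner_le M θ 0)
    have h1 : ∀ u ∈ (Icc (-(M : ℤ)) M).erase 0,
        ‖∑ v ∈ Icc (-(M : ℤ)) M, ee (θ * u * v)‖ ≤ (2 * |θ|)⁻¹ * (|(u : ℝ)|)⁻¹ := by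
      intro u hu
      rw [mem_erase, mem_Icc] at hu
      have hu0 : 0 < |(u : ℝ)| := abs_pos.2 (by exact_mod_cast hu.1)
      have hu1 : |(u : ℝ)| ≤ M := by
        rw [abs_le]
        constructor
        · exact_mod_cast hu.2.1
        · exact_mod_cast hu.2.2
      have h2 : |θ * u| ≤ 1 / 2 := by
        rw [abs_mul]
        exact (mul_le_mul_of_nonneg_left hu1 hθ'.le).trans hb
      have h3 := lower (θ * u) h2
      have h4 := geom M (θ * u)
      rw [abs_mul] at h3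
      set S := ‖∑ v ∈ Icc (-(M : ℤ)) M, ee (θ * u * v)‖ with hS
      have hS0 : 0 ≤ S := norm_nonneg _
      have h5 : S * (4 * (|θ| * |(u : ℝ)|)) ≤ 2 := (mul_le_mul_of_nonneg_left h3 hS0).trans h4
      rw [← mul_inv, ← one_div, le_div_iff₀ (by positivity)]
      have h6 : S * (2 * |θ| * |(u : ℝ)|) = S * (4 * (|θ| * |(u : ℝ)|)) / 2 := by ring
      rw [h6]
      linarith
    refine (sum_le_sum h1).trans ?_
    have h7 : ∑ u ∈ (Icc (-(M : ℤ)) M).erase 0, (|(u : ℝ)|)⁻¹ = H M := by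
      unfold H
      rw [← add_sum_erase _ _ h0]
      simp
    rw [← mul_sum, h7, H_eq]
    have h8 := harmonic_le_one_add_log M
    have h9 : (2 * |θ|)⁻¹ * (2 * ((harmonic M : ℚ) : ℝ)) = ((harmonic M : ℚ) : ℝ) / |θ| := by
      field_simp
    rw [h9]
    exact div_le_div_of_nonneg_right h8 hθ'.le

end Pool.Agent.Lib.VK
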