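import Pool.Agent.Lib.VK.Spec
import Pool.Agent.Lib.LP.EXP
import Pool.Agent.Lib.LP.GAU

/-!
# VK, module GEX: the explicit formula with Gaussian weights, right of the line `σ = 1`
-/

set_option autoImplicit false

noncomputable section

namespace Pool.Agent.Lib.VK

open MeasureTheory
open ArithmeticFunction (vonMangoldt vonMangoldt_nonneg)
open Pool.Agent.Lib.LargeAP (KG)
open Pool.Agent.Lib.LP (G SpecGAU specGAU)
open Pool.Agent.Lib.LP.EXPM (summable_vm W W_int Cst Cst_nonneg)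

namespace GEXM

/-- the terms of the Dirichlet series -/
def A (a : ℕ → ℂ) (σ : ℝ) (n : ℕ) (t : ℝ) : ℂ :=
  (vonMangoldt n : ℂ) * a n * (n : ℂ) ^ (-((σ : ℂ) + t * Complex.I))

lemma A_norm (a : ℕ → ℂ) (ha : ∀ n, ‖a n‖ ≤ 1) (σ : ℝ) (n : ℕ) (t : ℝ) :
    ‖A a σ n t‖ ≤ vonMangoldt n * (n : ℝ) ^ (-σ) := by
  rcases eq_or_ne n 0 with rfl | hn
  · simp [A]
  · have h1 : ‖(n : ℂ) ^ (-((σ : ℂ) + t * Complex.I))‖ = (n : ℝ) ^ (-σ) := by
      rw [Complex.norm_natCast_cpow_of_pos (Nat.pos_of_ne_zero hn)]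
      simp
    rw [A, norm_mul, norm_mul, h1, Complex.norm_real, Real.norm_eq_abs,
      abs_of_nonneg vonMangoldt_nonneg]
    have h3 : vonMangoldt n * ‖a n‖ ≤ vonMangoldt n * 1 :=
      mul_le_mul_of_nonneg_left (ha n) vonMangoldt_nonneg
    have h4 : (0 : ℝ) ≤ (n : ℝ) ^ (-σ) := Real.rpow_nonneg (Nat.cast_nonneg n) _
    calc vonMangoldt n * ‖a n‖ * (n : ℝ) ^ (-σ)
        ≤ vonMangoldt n * 1 * (n : ℝ) ^ (-σ) := mul_le_mul_of_nonneg_right h3 h4
      _ = vonMangoldt n * (n : ℝ) ^ (-σ) := by rw [mul_one]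

lemma A_cont (a : ℕ → ℂ) (σ : ℝ) (n : ℕ) : Continuous (fun t : ℝ => A a σ n t) := by
  rcases eq_or_ne n 0 with rfl | hn
  · simp only [A, ArithmeticFunction.map_zero, Complex.ofReal_zero, zero_mul]
    exact continuous_const
  · unfold A
    refine continuous_const.mul ?_
    refine Continuous.const_cpow ?_ (Or.inl (Nat.cast_ne_zero.2 hn))
    fun_prop

lemma A_sum (a : ℕ → ℂ) (σ t : ℝ) :
    ∑' n, A a σ n t = LSeries (fun n => ((vonMangoldt n : ℝ) : ℂ) * a n) (σ + t * Complex.I) := by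
  rw [LSeries]
  refine tsum_congr (fun n => ?_)
  rcases eq_or_ne n 0 with rfl | hn
  · simp [A]
  · rw [LSeries.term_of_ne_zero hn, A, Complex.cpow_neg, div_eq_mul_inv]

end GEXM

open GEXM in
theorem specGEX : SpecGEX := by
  intro lam hlam a ha u σ hσ
  have hG : SpecGAU := specGAU
  have hsum := summable_vm hσ
  have hcont : Continuous (fun t : ℝ => ∑' n, A a σ n t) :=
    continuous_tsum (A_cont a σ) hsum (fun n t => A_norm a ha σ n t)
  have hbd : ∀ t : ℝ, ‖∑' n, A a σ n t‖ ≤ ∑' n, vonMangoldt n * (n : ℝ) ^ (-σ) := fun t =>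
    tsum_of_norm_bounded hsum.hasSum (fun n => A_norm a ha σ n t)
  have hint : Integrable (fun t : ℝ => (∑' n, A a σ n t) * W lam u σ t) :=
    (W_int hG hlam u σ).bdd_mul hcont.aestronglyMeasurable (Filter.Eventually.of_forall hbd)
  have hfun : (fun t : ℝ => (∑' n, A a σ n t) * W lam u σ t) = (fun t : ℝ =>
      LSeries (fun n => ((vonMangoldt n : ℝ) : ℂ) * a n) (σ + t * Complex.I) *
        KG lam u (σ + t * Complex.I)) :=
    funext fun t => by rw [A_sum, W, KG]
  refine ⟨hfun ▸ hint, ?_⟩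
  rw [← hfun]
  -- term by term
  have hterm : ∀ n : ℕ, Integrable (fun t : ℝ => A a σ n t * W lam u σ t) ∧
      ∫ t : ℝ, A a σ n t * W lam u σ t = (2 * Real.pi : ℝ) *
        ((vonMangoldt n : ℂ) * a n * ((G lam (u - Real.log n) : ℝ) : ℂ)) ∧
      ∫ t : ℝ, ‖A a σ n t * W lam u σ t‖ ≤ vonMangoldt n * (n : ℝ) ^ (-σ) * Cst lam u σ := by
    intro n
    rcases eq_or_ne n 0 with rfl | hn
    · simp [A]
    · obtain ⟨h1, h2, h3⟩ := hG lam hlam u σ n hn
      have hfn : (fun t : ℝ => A a σ n t * W lam u σ t) = fun t : ℝ =>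
          ((vonMangoldt n : ℂ) * a n) * ((n : ℂ) ^ (-(σ + t * Complex.I)) *
          Complex.exp ((σ + t * Complex.I) * u + (σ + t * Complex.I) ^ 2 / (4 * lam))) := by
        funext t
        rw [A, W]; ring
      refine ⟨?_, ?_, ?_⟩
      · rw [hfn]; exact h1.const_mul _
      · rw [hfn, integral_const_mul, h2]
        push_cast
        ring
      · have hfn' : (fun t : ℝ => ‖A a σ n t * W lam u σ t‖) = fun t : ℝ =>
            ‖((vonMangoldt n : ℂ) * a n)‖ * ‖((n : ℂ) ^ (-(σ + t * Complex.I)) *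
            Complex.exp ((σ + t * Complex.I) * u + (σ + t * Complex.I) ^ 2 / (4 * lam)))‖ := by
          funext t
          rw [congrFun hfn t, norm_mul]
        rw [hfn', integral_const_mul, h3, norm_mul, Complex.norm_real, Real.norm_eq_abs,
          abs_of_nonneg vonMangoldt_nonneg]
        have h3 : vonMangoldt n * ‖a n‖ ≤ vonMangoldt n * 1 :=
          mul_le_mul_of_nonneg_left (ha n) vonMangoldt_nonneg
        have h4 : (0 : ℝ) ≤ (n : ℝ) ^ (-σ) * Cst lam u σ :=
          mul_nonneg (Real.rpow_nonneg (Nat.cast_nonneg n) _) (Cst_nonneg _ _ _)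
        have h5 := mul_le_mul_of_nonneg_right h3 h4
        rw [mul_one, ← mul_assoc (vonMangoldt n) ((n : ℝ) ^ (-σ))] at h5
        exact h5
  have hs2 : Summable (fun n : ℕ => ∫ t : ℝ, ‖A a σ n t * W lam u σ t‖) :=
    Summable.of_nonneg_of_le (fun n => integral_nonneg (fun t => norm_nonneg _))
      (fun n => (hterm n).2.2) (hsum.mul_right _)
  have hhs := hasSum_integral_of_summable_integral_norm (fun n => (hterm n).1) hs2
  have h6 : ∀ t : ℝ, ∑' n, A a σ n t * W lam u σ t = (∑' n, A a σ n t) * W lam u σ t :=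
    fun t => tsum_mul_right
  rw [← integral_congr_ae (Filter.Eventually.of_forall h6), ← hhs.tsum_eq]
  rw [tsum_congr (fun n => (hterm n).2.1), tsum_mul_left, FF]

end Pool.Agent.Lib.VK
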