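import Pool.Agent.Lib.VK.Spec

/-!
# Vinogradov-Korobov for primes, module GZZ: `(s - 1) ζ(s)` near the line `Re s = 1`
-/

set_option autoImplicit false

noncomputable section

namespace Pool.Agent.Lib.VK

open Metric

namespace GZZM

/-- `(s - 1) ζ(s)` -/
abbrev f : ℂ → ℂ := DirichletCharacter.LFunctionTrivChar₁ 1

theorem f_of_ne {s : ℂ} (h : s ≠ 1) :
    f s = (s - 1) * DirichletCharacter.LFunction (1 : DirichletCharacter ℂ 1) s := by
  rw [f, DirichletCharacter.LFunctionTrivChar₁, Function.update_of_ne h]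

theorem f_ne_zero {s : ℂ} (hs : 1 ≤ s.re) : f s ≠ 0 := by
  rcases eq_or_ne s 1 with rfl | h
  · exact DirichletCharacter.LFunctionTrivChar₁_apply_one_ne_zero 1
  · rw [f_of_ne h]
    exact mul_ne_zero (sub_ne_zero.2 h)
      (DirichletCharacter.LFunction_ne_zero_of_one_le_re _ (Or.inr h) hs)

/-- near the real axis -/
theorem near : ∃ δ K : ℝ, 0 < δ ∧ ∀ s : ℂ, |s.im| ≤ 2 → 1 - δ ≤ s.re → s.re ≤ 2 →
    f s ≠ 0 ∧ ‖ldZ s‖ ≤ K := by
  have hd : Differentiable ℂ f := DirichletCharacter.differentiable_LFunctionTrivChar₁ 1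
  have hS : IsCompact (Set.Icc (1 : ℝ) 2 ×ℂ Set.Icc (-2 : ℝ) 2) :=
    isCompact_Icc.reProdIm isCompact_Icc
  have hU : IsOpen {s : ℂ | f s ≠ 0} := isOpen_ne_fun hd.continuous continuous_const
  obtain ⟨δ, hδ, hsub⟩ := hS.exists_cthickening_subset_open hU (by
    intro s hs
    exact f_ne_zero (Complex.mem_reProdIm.1 hs).1.1)
  have hS' : IsCompact (cthickening δ (Set.Icc (1 : ℝ) 2 ×ℂ Set.Icc (-2 : ℝ) 2)) :=
    hS.cthickening
  have hc : ContinuousOn ldZ (cthickening δ (Set.Icc (1 : ℝ) 2 ×ℂ Set.Icc (-2 : ℝ) 2)) := by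
    have h1 : ContinuousOn (fun s => -deriv f s / f s)
        (cthickening δ (Set.Icc (1 : ℝ) 2 ×ℂ Set.Icc (-2 : ℝ) 2)) := by
      refine ContinuousOn.div ?_ hd.continuous.continuousOn (fun s hs => hsub hs)
      exact ((hd.contDiff (n := 1)).continuous_deriv le_rfl).neg.continuousOn
    exact h1
  obtain ⟨K, hK⟩ := hS'.exists_bound_of_continuousOn hc
  refine ⟨δ, K, hδ, fun s hs1 hs2 hs3 => ?_⟩
  have hmem : s ∈ cthickening δ (Set.Icc (1 : ℝ) 2 ×ℂ Set.Icc (-2 : ℝ) 2) := by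
    refine mem_cthickening_of_dist_le s (⟨max s.re 1, s.im⟩ : ℂ) δ _ ?_ ?_
    · refine Complex.mem_reProdIm.2 ⟨⟨le_max_right _ _, max_le hs3 (by norm_num)⟩, ?_⟩
      exact abs_le.1 hs1
    · rw [Complex.dist_eq_re_im]
      simp only [sub_self, ne_eq, OfNat.ofNat_ne_zero, not_false_eq_true, zero_pow, add_zero]
      rw [Real.sqrt_sq_eq_abs]
      rcases le_total s.re 1 with h | h
      · rw [max_eq_right h, abs_le]
        constructor <;> linarith
      · rw [max_eq_left h, sub_self, abs_zero]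
        exact hδ.le
  exact ⟨hsub hmem, hK s hmem⟩

end GZZM

open GZZM in
theorem specGZZ (hLDV : SpecLDV) : SpecGZZ := by
  obtain ⟨δ, K, hδ, hnear⟩ := near
  intro C
  obtain ⟨T₁, hT₁, hL⟩ := hLDV 0 C
  refine ⟨max T₁ (max (1 / δ) K), hT₁.trans (le_max_left _ _), fun T hT s him hre1 hre2 => ?_⟩
  have hTT₁ : T₁ ≤ T := (le_max_left _ _).trans hT
  have hTδ : 1 / δ ≤ T := ((le_max_left _ _).trans (le_max_right _ _)).trans hT
  have hTK : K ≤ T := ((le_max_right _ _).trans (le_max_right _ _)).trans hT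
  have hT1 : 1 ≤ T := by linarith
  have hT0 : 0 < T := by linarith
  have hT47 : T ≤ T ^ 47 := le_self_pow₀ hT1 (by norm_num)
  have hT48 : T ^ 48 = T * T ^ 47 := by ring
  rcases le_total |s.im| 2 with h | h
  · have hinv : (T ^ 47)⁻¹ ≤ δ := by
      rw [inv_le_comm₀ (by positivity) hδ, inv_eq_one_div]
      exact hTδ.trans hT47
    obtain ⟨h1, h2⟩ := hnear s h (by linarith) hre2
    refine ⟨h1, h2.trans (hTK.trans ?_)⟩
    exact le_self_pow₀ hT1 (by norm_num)
  · obtain ⟨h1, h2⟩ := hL T hTT₁ 1 1 s (by simp) h him hre1 hre2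
    have hs1 : s ≠ 1 := by
      intro h3
      rw [h3] at h
      norm_num at h
    have hs1' : s - 1 ≠ 0 := sub_ne_zero.2 hs1
    refine ⟨by
      have := f_of_ne hs1
      rw [f] at this
      rw [this]
      exact mul_ne_zero hs1' h1, ?_⟩
    have heq : ldZ s = LargeAP.ldL (1 : DirichletCharacter ℂ 1) s - 1 / (s - 1) := by
      have e1 := f_of_ne hs1
      have e2 := DirichletCharacter.deriv_LFunctionTrivChar₁_apply_of_ne_one 1 hs1
      rw [f] at e1
      unfold ldZ LargeAP.ldL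
      rw [e1, e2]
      change -((s - 1) * deriv (DirichletCharacter.LFunction (1 : DirichletCharacter ℂ 1)) s +
        DirichletCharacter.LFunction (1 : DirichletCharacter ℂ 1) s) / _ = _
      field_simp
      ring
    rw [heq]
    have h3 : ‖1 / (s - 1)‖ ≤ 1 := by
      rw [norm_div, norm_one, div_le_one (norm_pos_iff.2 hs1')]
      have h4 := Complex.abs_im_le_norm (s - 1)
      rw [Complex.sub_im, Complex.one_im, sub_zero] at h4
      linarith
    calc ‖LargeAP.ldL (1 : DirichletCharacter ℂ 1) s - 1 / (s - 1)‖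
        ≤ ‖LargeAP.ldL (1 : DirichletCharacter ℂ 1) s‖ + ‖1 / (s - 1)‖ := norm_sub_le _ _
      _ ≤ T ^ 47 + 1 := add_le_add h2 h3
      _ ≤ T ^ 48 := by
        rw [hT48]
        have h5 : 1000 ≤ T := by linarith
        nlinarith

end Pool.Agent.Lib.VK
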