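import Pool.Agent.Lib.VK.Spec
import Pool.Agent.Lib.MP_155064_nt.ZetaGrowth

set_option autoImplicit false

noncomputable section

namespace Pool.Agent.Lib.VK

open Finset MeasureTheory Metric

namespace LBZM

open Pool.Agent.Lib.MP_155064_nt (fr mellin_fr_eq riemannZeta₁_eq)

/-- the integrand -/
def f (s : ℂ) (t : ℝ) : ℂ := ((Int.fract t : ℝ) : ℂ) * (t : ℂ) ^ (-(s + 1))

lemma norm_f_le (s : ℂ) {t : ℝ} (ht : 0 < t) : ‖f s t‖ ≤ t ^ (-(s.re + 1)) := by
  unfold f
  rw [norm_mul, Complex.norm_real, Real.norm_eq_abs, abs_of_nonneg (Int.fract_nonneg t),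
    Complex.norm_cpow_eq_rpow_re_of_pos ht]
  have : (-(s + 1)).re = -(s.re + 1) := by simp
  rw [this]
  have h3 : Int.fract t ≤ 1 := (Int.fract_lt_one t).le
  have h4 : 0 ≤ t ^ (-(s.re + 1)) := by positivity
  nlinarith

lemma integrable_f {s : ℂ} (hs : 0 < s.re) : IntegrableOn (f s) (Set.Ioi 1) := by
  have hb : IntegrableOn (fun t : ℝ => t ^ (-(s.re + 1))) (Set.Ioi 1) :=
    integrableOn_Ioi_rpow_of_lt (by linarith) one_pos
  apply Integrable.mono' hb
  · unfold f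
    apply AEStronglyMeasurable.mul
    · exact (Complex.measurable_ofReal.comp measurable_fract).aestronglyMeasurable
    · have : ContinuousOn (fun t : ℝ => (t:ℂ) ^ (-(s + 1))) (Set.Ioi 1) := by
        intro t ht
        have ht' : (0:ℝ) < t := lt_trans one_pos ht
        exact (Complex.continuousAt_ofReal_cpow_const t _ (Or.inr ht'.ne')).continuousWithinAt
      exact this.aestronglyMeasurable measurableSet_Ioi
  · filter_upwards [ae_restrict_mem measurableSet_Ioi] with t ht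
    have ht' : (0:ℝ) < t := lt_trans one_pos ht
    exact norm_f_le s ht'

lemma step {s : ℂ} (hs : 0 < s.re) (h1 : s ≠ 1) {N : ℕ} (hN : 1 ≤ N) :
    ∫ t in (N : ℝ)..((N : ℝ) + 1), f s t =
      (((N : ℂ) + 1) ^ (1 - s) - (N : ℂ) ^ (1 - s)) / (1 - s) +
        N * (((N : ℂ) + 1) ^ (-s) - (N : ℂ) ^ (-s)) / s := by
  have hN' : (1 : ℝ) ≤ N := by exact_mod_cast hN
  have hle : (N : ℝ) ≤ (N : ℝ) + 1 := by linarith
  have hs0 : s ≠ 0 := by rintro rfl; simp at hs
  have h1s : 1 - s ≠ 0 := sub_ne_zero.mpr (Ne.symm h1)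
  have h0 : (0 : ℝ) ∉ Set.uIcc (N : ℝ) ((N : ℝ) + 1) := by
    rw [Set.uIcc_of_le hle]
    intro h; linarith [h.1]
  have e1 : ∫ t in (N : ℝ)..((N : ℝ) + 1), f s t =
      ∫ t in (N : ℝ)..((N : ℝ) + 1), ((t : ℂ) ^ (-s) - N * (t : ℂ) ^ (-(s + 1))) := by
    rw [intervalIntegral.integral_of_le hle, intervalIntegral.integral_of_le hle,
      integral_Ioc_eq_integral_Ioo, integral_Ioc_eq_integral_Ioo]
    apply setIntegral_congr_fun measurableSet_Ioo
    intro t ht
    have ht' : (0:ℝ) < t := by linarith [ht.1]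
    have hne : (t:ℂ) ≠ 0 := by exact_mod_cast ht'.ne'
    have hfl : ⌊t⌋ = (N : ℤ) := by
      rw [Int.floor_eq_iff]
      constructor
      · push_cast; exact ht.1.le
      · push_cast; exact ht.2
    have e2 : (t:ℂ) ^ (-s) = (t : ℂ) * (t:ℂ) ^ (-(s + 1)) := by
      have := Complex.cpow_add (-(s+1)) 1 hne
      rw [Complex.cpow_one] at this
      rw [mul_comm, ← this]; congr 1; ring
    simp only [f]
    rw [e2, Int.fract, hfl]
    push_cast
    ring
  have i1 : IntervalIntegrable (fun t : ℝ => (t : ℂ) ^ (-s)) volume (N : ℝ) ((N : ℝ) + 1) :=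
    intervalIntegral.intervalIntegrable_cpow (Or.inr h0)
  have i2 : IntervalIntegrable (fun t : ℝ => (t : ℂ) ^ (-(s + 1))) volume (N : ℝ) ((N : ℝ) + 1) :=
    intervalIntegral.intervalIntegrable_cpow (Or.inr h0)
  rw [e1, intervalIntegral.integral_sub i1 (i2.const_mul _), intervalIntegral.integral_const_mul,
    integral_cpow (Or.inr ⟨by intro h; apply h1; linear_combination -h, h0⟩),
    integral_cpow (Or.inr ⟨by intro h; apply hs0; linear_combination -h, h0⟩)]
  push_cast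
  have a1 : -s + 1 = 1 - s := by ring
  have a2 : -(s + 1) + 1 = -s := by ring
  rw [a1, a2]
  field_simp
  ring

lemma partial_sum {s : ℂ} (hs : 0 < s.re) (h1 : s ≠ 1) {N : ℕ} (hN : 1 ≤ N) :
    ∑ n ∈ Icc 1 N, (n : ℂ) ^ (-s) =
      s / (s - 1) - (N : ℂ) ^ (1 - s) / (s - 1) - s * ∫ t in (1 : ℝ)..N, f s t := by
  have hs0 : s ≠ 0 := by rintro rfl; simp at hs
  have h1s : s - 1 ≠ 0 := sub_ne_zero.mpr h1
  have h1s' : 1 - s ≠ 0 := sub_ne_zero.mpr (Ne.symm h1)
  induction N, hN using Nat.le_induction with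
  | base =>
    simp
    field_simp
  | succ N hN ih =>
    rw [Finset.sum_Icc_succ_top (by omega), ih]
    have hN' : (1 : ℝ) ≤ N := by exact_mod_cast hN
    have iI : ∀ a b : ℝ, 1 ≤ a → a ≤ b → IntervalIntegrable (f s) volume a b := by
      intro a b ha hab
      rw [intervalIntegrable_iff_integrableOn_Ioc_of_le hab]
      exact (integrable_f hs).mono_set (fun t ht => lt_of_le_of_lt ha ht.1)
    have e := intervalIntegral.integral_add_adjacent_intervals (iI 1 N le_rfl hN')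
      (iI N (N + 1) hN' (by linarith))
    have e' : ((N + 1 : ℕ) : ℝ) = (N : ℝ) + 1 := by push_cast; ring
    rw [e', ← e, step hs h1 hN]
    push_cast
    have c1 : ((N : ℂ) + 1) ^ (1 - s) = ((N : ℂ) + 1) * ((N : ℂ) + 1) ^ (-s) := by
      have hne : (N : ℂ) + 1 ≠ 0 := by exact_mod_cast Nat.succ_ne_zero N
      have := Complex.cpow_add 1 (-s) hne
      rw [Complex.cpow_one] at this
      rw [← this]; congr 1
    have c2 : (N : ℂ) ^ (1 - s) = (N : ℂ) * (N : ℂ) ^ (-s) := by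
      have hne : (N : ℂ) ≠ 0 := by exact_mod_cast (by omega : N ≠ 0)
      have := Complex.cpow_add 1 (-s) hne
      rw [Complex.cpow_one] at this
      rw [← this]; congr 1
    rw [c1, c2]
    have hd : 1 - s = -(s - 1) := by ring
    rw [hd]
    field_simp
    ring

lemma tail {s : ℂ} (hs : 0 < s.re) {N : ℕ} (hN : 1 ≤ N) :
    ‖∫ t in Set.Ioi (N : ℝ), f s t‖ ≤ (N : ℝ) ^ (-s.re) / s.re := by
  have hN' : (0 : ℝ) < N := by exact_mod_cast hN
  have h2 : ∫ t in Set.Ioi (N : ℝ), t ^ (-(s.re + 1)) = (N : ℝ) ^ (-s.re) / s.re := by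
    rw [integral_Ioi_rpow_of_lt (by linarith) hN']
    have : -(s.re + 1) + 1 = -s.re := by ring
    rw [this, neg_div_neg_eq]
  rw [← h2]
  apply norm_integral_le_of_norm_le
  · exact integrableOn_Ioi_rpow_of_lt (by linarith) hN'
  · filter_upwards [ae_restrict_mem measurableSet_Ioi] with t ht
    exact norm_f_le s (lt_trans hN' ht)

end LBZM

open LBZM Pool.Agent.Lib.MP_155064_nt in
theorem specLBZ : SpecLBZ := by
  refine ⟨2, by norm_num, ?_⟩
  intro s N hs h1 hN
  have hs' : 0 < s.re := by linarith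
  have hN' : (1 : ℝ) ≤ N := by exact_mod_cast hN
  have h1s : s - 1 ≠ 0 := sub_ne_zero.mpr h1
  have hz : riemannZeta s = s / (s - 1) - s * ∫ t in Set.Ioi (1 : ℝ), f s t := by
    have e1 := riemannZeta_eq_inv_sub_mul h1
    have e2 := riemannZeta₁_eq hs'
    rw [mellin_fr_eq] at e2
    rw [e1, e2]
    unfold f
    field_simp
  have hsplit : ∫ t in Set.Ioi (1 : ℝ), f s t =
      (∫ t in (1 : ℝ)..N, f s t) + ∫ t in Set.Ioi (N : ℝ), f s t := by
    rw [intervalIntegral.integral_interval_add_Ioi (integrable_f hs')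
      ((integrable_f hs').mono_set (Set.Ioi_subset_Ioi hN'))]
  rw [hz, partial_sum hs' h1 hN, hsplit]
  have : s / (s - 1) - s * ((∫ t in (1 : ℝ)..N, f s t) + ∫ t in Set.Ioi (N : ℝ), f s t) -
      (s / (s - 1) - (N : ℂ) ^ (1 - s) / (s - 1) - s * ∫ t in (1 : ℝ)..N, f s t) -
      (N : ℂ) ^ (1 - s) / (s - 1) = -(s * ∫ t in Set.Ioi (N : ℝ), f s t) := by ring
  rw [this, norm_neg, norm_mul]
  have ht := tail hs' hN
  have hp : 0 < (N : ℝ) ^ (-s.re) := by positivity
  have h3 : (N : ℝ) ^ (-s.re) / s.re ≤ 2 * (N : ℝ) ^ (-s.re) := by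
    rw [div_le_iff₀ hs']
    nlinarith
  calc ‖s‖ * ‖∫ t in Set.Ioi (N : ℝ), f s t‖ ≤ ‖s‖ * (2 * (N : ℝ) ^ (-s.re)) := by
        gcongr; exact ht.trans h3
    _ ≤ 2 * (1 + ‖s‖) * (N : ℝ) ^ (-s.re) := by nlinarith [norm_nonneg s]

end Pool.Agent.Lib.VK
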