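import Pool.Agent.Lib.VK.Spec
import Pool.Agent.Lib.LargeAP.LD
import Pool.Agent.Lib.LargeAP.UP

/-!
# VK, module LDV: bound of `L'/L` to the left of `1`
-/

set_option autoImplicit false

noncomputable section

namespace Pool.Agent.Lib.VK

open Finset MeasureTheory Metric
open scoped ArithmeticFunction
open Pool.Agent.Lib.LargeAP (ldL KG Pp)

/-- module LDV -/
theorem specLDV (h₁ : SpecEXV) (h₂ : SpecZFV) : SpecLDV := by
  obtain ⟨C₀, hC₀, hE⟩ := h₁
  obtain ⟨c, hc, hc8, hZ⟩ := h₂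
  obtain ⟨C₂, hC₂, hU⟩ := Pool.Agent.Lib.LargeAP.specUP
  intro A C
  obtain ⟨T₁, hT₁, hE1⟩ := hE A (C + 1)
  obtain ⟨T₂, hT₂, hZ1⟩ := hZ A (C + 1)
  set K : ℝ := 2 * (1 + 4 / c) with hKdef
  have hK : 0 < K := by positivity
  set C₃ : ℝ := (1 + K) * (1 + C₂ + C₀) + C₀ + (1 + C₂) with hC₃
  have hC₃p : 0 < C₃ := by positivity
  refine ⟨max (max T₁ T₂) (max C₃ (2 / c)), hT₁.trans ((le_max_left _ _).trans (le_max_left _ _)), ?_⟩
  intro T hT q _ χ s hq hi1 hi2 hs1 hs2
  have hTT1 : T₁ ≤ T := ((le_max_left _ _).trans (le_max_left _ _)).trans hT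
  have hTT2 : T₂ ≤ T := ((le_max_right _ _).trans (le_max_left _ _)).trans hT
  have hTC3 : C₃ ≤ T := ((le_max_left _ _).trans (le_max_right _ _)).trans hT
  have hTc : 2 / c ≤ T := ((le_max_right _ _).trans (le_max_right _ _)).trans hT
  have hT1000 : 1000 ≤ T := hT₁.trans hTT1
  have hTpos : 0 < T := by linarith
  set B : ℝ := T ^ 46 with hBdef
  have hBpos : 0 < B := by positivity
  have hB1 : 1000 ≤ B := by
    have : T ^ 1 ≤ T ^ 46 := pow_le_pow_right₀ (by linarith) (by norm_num)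
    rw [pow_one] at this
    linarith
  have h47 : T ^ 47 = T * B := by rw [hBdef]; ring
  have h47i : (T ^ 47)⁻¹ ≤ c / (2 * B) := by
    rw [h47, ← one_div, div_le_div_iff₀ (by positivity) (by positivity)]
    have h1 : 2 ≤ c * T := by
      rw [div_le_iff₀ hc] at hTc
      linarith
    nlinarith
  have hs1' : 1 - c / (2 * B) ≤ s.re := by linarith
  -- the height
  have hexp : Real.exp (C * T ^ 50) + 1 ≤ Real.exp (((C + 1 : ℕ) : ℝ) * T ^ 50) := by
    have h1 : ((C + 1 : ℕ) : ℝ) * T ^ 50 = C * T ^ 50 + T ^ 50 := by push_cast; ring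
    rw [h1, Real.exp_add]
    have h2 : 1 ≤ Real.exp (C * T ^ 50) := Real.one_le_exp (by positivity)
    have h3 : (2 : ℝ) ≤ Real.exp (T ^ 50) := by
      have h4 : T ^ 1 ≤ T ^ 50 := pow_le_pow_right₀ (by linarith) (by norm_num)
      rw [pow_one] at h4
      have := Real.add_one_le_exp (T ^ 50)
      linarith
    nlinarith
  have hZF : ∀ z : ℂ, 1 ≤ |z.im| → |z.im| ≤ Real.exp (C * T ^ 50) + 1 → 1 - c / B < z.re →
      DirichletCharacter.LFunction χ z ≠ 0 := fun z hz1 hz2 hz3 =>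
    hZ1 T hTT2 q χ z hq hz1 (hz2.trans hexp) hz3
  have hBi : 0 < 1 / B := by positivity
  have hBi16 : 1 / B ≤ 1 / 1000 := one_div_le_one_div_of_le (by norm_num) hB1
  have hc2B : c / (2 * B) = c / 2 * (1 / B) := by field_simp
  have hcB : c / B = c * (1 / B) := by field_simp
  have hcp : 0 < c * (1 / B) := by positivity
  have hLs : DirichletCharacter.LFunction χ s ≠ 0 := by
    apply hZF s (by linarith) (by linarith)
    rw [hcB]
    rw [hc2B] at hs1'
    nlinarith
  refine ⟨hLs, ?_⟩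
  have hUB : ∀ z : ℂ, 1 + 1 / B ≤ z.re → z.re ≤ 2 → ‖ldL χ z‖ ≤ (1 + C₂) * B := by
    intro z hz1 hz2
    have h1 := (hU q χ z (by linarith) hz2).1
    have h2 : 1 / (z.re - 1) ≤ B := by
      rw [div_le_iff₀ (by linarith)]
      have : 1 = B * (1 / B) := by field_simp
      calc (1 : ℝ) = B * (1 / B) := this
        _ ≤ B * (z.re - 1) := by gcongr; linarith
    have h3 : C₂ ≤ C₂ * B := by nlinarith
    linarith
  have hfinB : C₃ * B ≤ T ^ 47 := by
    rw [h47]
    exact mul_le_mul_of_nonneg_right hTC3 hBpos.le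
  refine le_trans ?_ hfinB
  rcases le_or_gt (1 + 1 / B) s.re with hcase | hcase
  · have := hUB s hcase hs2
    have h4 : 0 ≤ ((1 + K) * (1 + C₂ + C₀) + C₀) * B := by positivity
    rw [hC₃]
    nlinarith
  · -- the near case
    obtain ⟨Z, hZa, -, hZ3⟩ := hE1 T hTT1 q χ s.im hq (by linarith) (by linarith)
    set s₀ : ℂ := ⟨1 + (T ^ 46)⁻¹, s.im⟩ with hs₀
    have hs₀re : s₀.re = 1 + 1 / B := by rw [hs₀, one_div]
    have hs₀im : s₀.im = s.im := rfl
    -- the radius
    have hR : 8 / B ≤ (T ^ 44)⁻¹ := by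
      rw [← one_div, div_le_div_iff₀ hBpos (by positivity), one_mul, hBdef]
      have h1 : T ^ 46 = T ^ 2 * T ^ 44 := by ring
      rw [h1]
      apply mul_le_mul_of_nonneg_right _ (by positivity)
      nlinarith
    have hR1 : (T ^ 44)⁻¹ ≤ 1 := inv_le_one_of_one_le₀ (one_le_pow₀ (by linarith))
    have hRp : 0 < (T ^ 44)⁻¹ := by positivity
    have hdist : ‖s₀ - s‖ ≤ 2 / B := by
      have h1 : s₀ - s = ((1 + 1 / B - s.re : ℝ) : ℂ) := by
        apply Complex.ext
        · rw [Complex.sub_re, hs₀re, Complex.ofReal_re]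
        · rw [Complex.sub_im, hs₀im, Complex.ofReal_im, sub_self]
      rw [h1, Complex.norm_real, Real.norm_eq_abs, abs_of_nonneg (by linarith)]
      have h2 : (2 : ℝ) / B = 2 * (1 / B) := by ring
      rw [h2]
      rw [hc2B] at hs1'
      nlinarith
    have hsball : s ∈ closedBall s₀ ((T ^ 44)⁻¹ / 4) := by
      rw [mem_closedBall, dist_eq_norm, norm_sub_rev]
      refine hdist.trans ?_
      have h2 : (8 : ℝ) / B = 4 * (2 / B) := by ring
      rw [h2] at hR
      linarith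
    have hs0ball : s₀ ∈ closedBall s₀ ((T ^ 44)⁻¹ / 4) := by
      rw [mem_closedBall, dist_self]
      positivity
    have hLs0 : DirichletCharacter.LFunction χ s₀ ≠ 0 := by
      apply hZF s₀
      · rw [hs₀im]; linarith
      · rw [hs₀im]
        linarith
      · rw [hs₀re, hcB]
        nlinarith
    have hZS := hZ3 s hsball hLs
    have hZS0 := hZ3 s₀ hs0ball hLs0
    have hterm : ∀ ρ ∈ Z, ‖(s - ρ)⁻¹ - (s₀ - ρ)⁻¹‖ ≤ 2 * (1 + 4 / c) * ((s₀ - ρ)⁻¹).re := by
      intro ρ hρ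
      obtain ⟨hρ0, hρb⟩ := hZa ρ hρ
      have hd : |ρ.im - s.im| ≤ 1 / 2 := by
        rw [mem_closedBall, dist_eq_norm] at hρb
        have h1 : |(ρ - s₀).im| ≤ (T ^ 44)⁻¹ / 2 := (Complex.abs_im_le_norm _).trans hρb
        rw [Complex.sub_im, hs₀im] at h1
        linarith
      have hd1 : |s.im| ≤ |ρ.im| + |ρ.im - s.im| := by
        have : s.im = ρ.im - (ρ.im - s.im) := by ring
        calc |s.im| = |ρ.im - (ρ.im - s.im)| := by rw [← this]
          _ ≤ _ := abs_sub _ _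
      have hd2 : |ρ.im| ≤ |s.im| + |ρ.im - s.im| := by
        have : ρ.im = s.im + (ρ.im - s.im) := by ring
        calc |ρ.im| = |s.im + (ρ.im - s.im)| := by rw [← this]
          _ ≤ _ := abs_add_le _ _
      have hre : ρ.re ≤ 1 - c / B := by
        by_contra hcon
        exact hZF ρ (by linarith) (by linarith) (not_le.mp hcon) hρ0
      rw [hcB] at hre
      apply Pool.Agent.Lib.LargeAP.LDM.term hBpos hc
      · rw [Complex.sub_re, hs₀re]
        linarith
      · rw [Complex.sub_re, hc2B]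
        rw [hc2B] at hs1'
        linarith
      · have : s₀ - ρ - (s - ρ) = s₀ - s := by ring
        rw [this]
        exact hdist
    have hsum := Pool.Agent.Lib.LargeAP.LDM.sum_bound Z hterm
    rw [← hKdef] at hsum
    set S := (Z.map (fun ρ => (s - ρ)⁻¹)).sum with hS
    set S0 := (Z.map (fun ρ => (s₀ - ρ)⁻¹)).sum with hS0
    have hS0n : ‖S0‖ ≤ (1 + C₂ + C₀) * B := by
      have h1 : ‖ldL χ s₀‖ ≤ (1 + C₂) * B := by
        apply hUB
        · rw [hs₀re]
        · rw [hs₀re]; linarith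
      have h2 : S0 = (ldL χ s₀ + S0) - ldL χ s₀ := by ring
      rw [h2]
      refine (norm_sub_le _ _).trans ?_
      linarith
    have hSn : ‖S‖ ≤ (1 + K) * ‖S0‖ := by
      have h2 : S = (S - S0) + S0 := by ring
      rw [h2]
      refine (norm_add_le _ _).trans ?_
      have h3 : K * S0.re ≤ K * ‖S0‖ :=
        mul_le_mul_of_nonneg_left (Complex.re_le_norm _) hK.le
      linarith
    have hfin : ‖ldL χ s‖ ≤ ‖S‖ + C₀ * B := by
      have h2 : ldL χ s = (ldL χ s + S) - S := by ring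
      rw [h2]
      refine (norm_sub_le _ _).trans ?_
      linarith
    have h5 : (1 + K) * ‖S0‖ ≤ (1 + K) * ((1 + C₂ + C₀) * B) :=
      mul_le_mul_of_nonneg_left hS0n (by linarith)
    have h6 : 0 ≤ (1 + C₂) * B := by positivity
    calc ‖ldL χ s‖ ≤ ‖S‖ + C₀ * B := hfin
      _ ≤ (1 + K) * ((1 + C₂ + C₀) * B) + C₀ * B := by linarith
      _ ≤ C₃ * B := by rw [hC₃]; nlinarith

end Pool.Agent.Lib.VK

end
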