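import Pool.Agent.Lib.VK.Spec
import Pool.Agent.Lib.LargeAP.LB
import Pool.Agent.Lib.LargeAP.LBO
import Pool.Agent.Lib.LP.PER
import Pool.Agent.Lib.LP.CONT

/-!
# VK, module LUV: the upper bound for `L(s, χ)` near the line `Re s = 1`
-/

set_option autoImplicit false

namespace Pool.Agent.Lib.VK

open Finset Filter Topology Complex
open Pool.Agent.Lib.LargeAP (ldL KG Pp)

noncomputable section

namespace LUVM

/-- the length of the partial sum -/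
def MM (Q : ℝ) : ℕ := ⌊(2 * Q) ^ 2⌋₊

lemma MM_le (Q : ℝ) : (MM Q : ℝ) ≤ (2 * Q) ^ 2 := Nat.floor_le (by positivity)

lemma le_MM {Q : ℝ} (hQ : 3 ≤ Q) : Q ^ 2 ≤ (MM Q : ℝ) := by
  have h1 : (2 * Q) ^ 2 < (MM Q : ℝ) + 1 := Nat.lt_floor_add_one _
  nlinarith

lemma one_le_MM {Q : ℝ} (hQ : 3 ≤ Q) : 1 ≤ MM Q := by
  have h1 := le_MM hQ
  have h2 : (1 : ℝ) ≤ MM Q := by nlinarith
  exact_mod_cast h2

lemma rpow_neg_le {Q σ : ℝ} (hQ : 3 ≤ Q) (hσ : 1 / 2 ≤ σ) : (MM Q : ℝ) ^ (-σ) ≤ Q⁻¹ := by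
  have h1 : (1 : ℝ) ≤ MM Q := by exact_mod_cast one_le_MM hQ
  have hQ0 : 0 < Q := by linarith
  calc (MM Q : ℝ) ^ (-σ) ≤ (MM Q : ℝ) ^ (-(1 / 2) : ℝ) :=
        Real.rpow_le_rpow_of_exponent_le h1 (by linarith)
    _ ≤ (Q ^ 2) ^ (-(1 / 2) : ℝ) :=
        Real.rpow_le_rpow_of_nonpos (by positivity) (le_MM hQ) (by norm_num)
    _ = Q⁻¹ := by
        rw [← Real.rpow_natCast Q 2, ← Real.rpow_mul hQ0.le]
        norm_num
        rw [Real.rpow_neg_one]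

lemma rpow_le {Q σ : ℝ} (hQ : 3 ≤ Q) (hσ : 1 / 2 ≤ σ) : (MM Q : ℝ) ^ (1 - σ) ≤ 2 * Q := by
  have h1 : (1 : ℝ) ≤ MM Q := by exact_mod_cast one_le_MM hQ
  have hQ0 : 0 < Q := by linarith
  calc (MM Q : ℝ) ^ (1 - σ) ≤ (MM Q : ℝ) ^ ((1 / 2) : ℝ) :=
        Real.rpow_le_rpow_of_exponent_le h1 (by linarith)
    _ ≤ ((2 * Q) ^ 2) ^ ((1 / 2) : ℝ) :=
        Real.rpow_le_rpow (by positivity) (MM_le Q) (by norm_num)
    _ = 2 * Q := by
        rw [← Real.rpow_natCast (2 * Q) 2, ← Real.rpow_mul (by positivity)]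
        norm_num

lemma norm_le {s : ℂ} (h1 : 1 / 2 ≤ s.re) (h2 : s.re ≤ 2) : 1 + ‖s‖ ≤ 3 + |s.im| := by
  have h3 := Complex.norm_le_abs_re_add_abs_im s
  have h4 : |s.re| = s.re := abs_of_nonneg (by linarith)
  rw [h4] at h3
  linarith

lemma nontriv (hLB : LargeAP.SpecLB) : ∃ K : ℝ, 0 < K ∧ ∀ (q : ℕ) [NeZero q]
    (χ : DirichletCharacter ℂ q) (s : ℂ), χ ≠ 1 → 1 / 2 ≤ s.re → s.re ≤ 2 →
    ‖DirichletCharacter.LFunction χ s‖ ≤ ‖Pp χ (MM (q * (3 + |s.im|))) s‖ + K := by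
  obtain ⟨K, hK, h⟩ := hLB
  refine ⟨K, hK, fun q _ χ s hχ h1 h2 => ?_⟩
  have hq : (1 : ℝ) ≤ q := by exact_mod_cast Nat.one_le_iff_ne_zero.2 (NeZero.ne q)
  have hy : 0 ≤ |s.im| := abs_nonneg _
  have hQ : 3 ≤ (q : ℝ) * (3 + |s.im|) := by nlinarith
  have h3 := h q χ hχ s (MM (q * (3 + |s.im|))) h1 (one_le_MM hQ)
  have h4 := rpow_neg_le hQ h1
  have h5 := norm_le h1 h2
  have h6 : K * q * (1 + ‖s‖) * ((MM (q * (3 + |s.im|)) : ℕ) : ℝ) ^ (-s.re) ≤ K := by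
    calc K * q * (1 + ‖s‖) * ((MM (q * (3 + |s.im|)) : ℕ) : ℝ) ^ (-s.re)
        ≤ K * q * (3 + |s.im|) * ((q : ℝ) * (3 + |s.im|))⁻¹ := by gcongr
      _ = K * (((q : ℝ) * (3 + |s.im|)) * ((q : ℝ) * (3 + |s.im|))⁻¹) := by ring
      _ = K := by rw [mul_inv_cancel₀ (by linarith), mul_one]
  calc ‖DirichletCharacter.LFunction χ s‖
      = ‖Pp χ (MM (q * (3 + |s.im|))) s +
          (DirichletCharacter.LFunction χ s - Pp χ (MM (q * (3 + |s.im|))) s)‖ := by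
        congr 1
        ring
    _ ≤ _ := (norm_add_le _ _).trans (by linarith)

lemma zeta (hLBZ : SpecLBZ) : ∃ K : ℝ, 0 < K ∧ ∀ s : ℂ, 1 / 2 ≤ s.re → s.re ≤ 2 →
    1 / 2 ≤ |s.im| →
    ‖riemannZeta s‖ ≤ ‖Pp (1 : DirichletCharacter ℂ 1) (MM (3 + |s.im|)) s‖ + K := by
  obtain ⟨K, hK, h⟩ := hLBZ
  refine ⟨K + 14, by linarith, fun s h1 h2 hy => ?_⟩
  have hQ : 3 ≤ 3 + |s.im| := by linarith
  have hs1 : s ≠ 1 := by
    rintro rfl
    norm_num at hy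
  have h3 := h s (MM (3 + |s.im|)) h1 hs1 (one_le_MM hQ)
  have h4 := rpow_neg_le hQ h1
  have h5 := norm_le h1 h2
  have h6 : K * (1 + ‖s‖) * ((MM (3 + |s.im|) : ℕ) : ℝ) ^ (-s.re) ≤ K := by
    calc K * (1 + ‖s‖) * ((MM (3 + |s.im|) : ℕ) : ℝ) ^ (-s.re)
        ≤ K * (3 + |s.im|) * (3 + |s.im|)⁻¹ := by gcongr
      _ = K * ((3 + |s.im|) * (3 + |s.im|)⁻¹) := by ring
      _ = K := by rw [mul_inv_cancel₀ (by linarith), mul_one]
  have h7 : Pp (1 : DirichletCharacter ℂ 1) (MM (3 + |s.im|)) s =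
      ∑ n ∈ Icc 1 (MM (3 + |s.im|)), (n : ℂ) ^ (-s) := by
    unfold LargeAP.Pp
    refine Finset.sum_congr rfl fun n _ => ?_
    rw [MulChar.one_apply (isUnit_of_subsingleton _), one_mul]
  have h8 : ‖((MM (3 + |s.im|) : ℕ) : ℂ) ^ (1 - s) / (s - 1)‖ ≤ 14 := by
    have e1 : ‖((MM (3 + |s.im|) : ℕ) : ℂ) ^ (1 - s)‖ =
        ((MM (3 + |s.im|) : ℕ) : ℝ) ^ (1 - s.re) := by
      rw [Complex.norm_natCast_cpow_of_pos (one_le_MM hQ)]
      simp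
    have e2 : |s.im| ≤ ‖s - 1‖ := by
      have := Complex.abs_im_le_norm (s - 1)
      simpa using this
    have hy0 : 0 < |s.im| := by linarith
    rw [norm_div, e1, div_le_iff₀ (by linarith)]
    have e3 := rpow_le hQ h1
    linarith
  rw [h7]
  calc ‖riemannZeta s‖
      = ‖(∑ n ∈ Icc 1 (MM (3 + |s.im|)), (n : ℂ) ^ (-s)) +
          ((riemannZeta s - (∑ n ∈ Icc 1 (MM (3 + |s.im|)), (n : ℂ) ^ (-s)) -
            ((MM (3 + |s.im|) : ℕ) : ℂ) ^ (1 - s) / (s - 1)) +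
          ((MM (3 + |s.im|) : ℕ) : ℂ) ^ (1 - s) / (s - 1))‖ := by
        congr 1
        ring
    _ ≤ _ := (norm_add_le _ _).trans (by
        have := norm_add_le (riemannZeta s - (∑ n ∈ Icc 1 (MM (3 + |s.im|)), (n : ℂ) ^ (-s)) -
            ((MM (3 + |s.im|) : ℕ) : ℂ) ^ (1 - s) / (s - 1))
            (((MM (3 + |s.im|) : ℕ) : ℂ) ^ (1 - s) / (s - 1))
        linarith)

end LUVM

theorem specLUV (hLBZ : SpecLBZ) (hDPB : SpecDPB) : SpecLUV := by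
  intro A C
  obtain ⟨T₁, hT₁, h⟩ := hDPB A C
  obtain ⟨K₁, hK₁, hn⟩ := LUVM.nontriv (LargeAP.specLB LP.specPER (LP.specCON LP.specPER))
  obtain ⟨K₂, hK₂, hz⟩ := LUVM.zeta hLBZ
  have e1 : ∀ᶠ T : ℝ in atTop, 2 ≤ Real.exp T / T ^ A :=
    (Real.tendsto_exp_div_pow_atTop A).eventually_ge_atTop 2
  have e2 : ∀ᶠ T : ℝ in atTop, K₁ + K₂ ≤ Real.exp T :=
    Real.tendsto_exp_atTop.eventually_ge_atTop _
  obtain ⟨T₂, hT₂⟩ := Filter.eventually_atTop.1 (e1.and e2)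
  refine ⟨max T₁ T₂, le_trans hT₁ (le_max_left _ _), fun T hT q _ χ s hq h1 h2 h3 h4 => ?_⟩
  have hTT₁ : T₁ ≤ T := le_trans (le_max_left _ _) hT
  obtain ⟨f1, f2⟩ := hT₂ T (le_trans (le_max_right _ _) hT)
  have hT0 : 1000 ≤ T := hT₁.trans hTT₁
  have hTp : 0 < T := by linarith
  have hTA : 0 < T ^ A := by positivity
  have hTA1 : 1 ≤ T ^ A := one_le_pow₀ (by linarith)
  have g1 : 2 * T ^ A ≤ Real.exp T := by
    rwa [le_div_iff₀ hTA] at f1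
  have hσ : 1 / 2 ≤ s.re := by
    have : (1000 : ℝ) ≤ T ^ 44 := by
      calc (1000 : ℝ) ≤ T := hT0
        _ = T ^ 1 := (pow_one T).symm
        _ ≤ T ^ 44 := pow_le_pow_right₀ (by linarith) (by norm_num)
    have h5 : (T ^ 44)⁻¹ ≤ (1000 : ℝ)⁻¹ := inv_anti₀ (by norm_num) this
    norm_num at h5
    linarith
  have hE : Real.exp T ≤ Real.exp (3 * T) := Real.exp_le_exp.2 (by linarith)
  have hE4 : Real.exp (4 * T) = Real.exp T * Real.exp (3 * T) := by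
    rw [← Real.exp_add]
    congr 1
    ring
  have hE3 : 0 < Real.exp (3 * T) := Real.exp_pos _
  by_cases hχ : χ = 1
  · subst hχ
    have hs1 : s ≠ 1 := by
      rintro rfl
      norm_num at h3
    have hL : DirichletCharacter.LFunction (1 : DirichletCharacter ℂ q) s =
        (∏ p ∈ q.primeFactors, (1 - (p : ℂ) ^ (-s))) * riemannZeta s :=
      DirichletCharacter.LFunctionTrivChar_eq_mul_riemannZeta hs1
    have hP := h T hTT₁ 1 (1 : DirichletCharacter ℂ 1) s (LUVM.MM (3 + |s.im|))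
      (by simpa using hTA1) h1 h2 h4 (by
        have := LUVM.MM_le (3 + |s.im|)
        simpa using this)
    have hz' := hz s hσ h2 h3
    have hpb := LargeAP.LBOM.prod_bound q (s := s) (by linarith)
    rw [hL, norm_mul]
    calc ‖∏ p ∈ q.primeFactors, (1 - (p : ℂ) ^ (-s))‖ * ‖riemannZeta s‖
        ≤ T ^ A * (Real.exp (3 * T) + Real.exp (3 * T)) := by
          refine mul_le_mul (hpb.trans hq) ?_ (norm_nonneg _) hTA.le
          linarith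
      _ = (2 * T ^ A) * Real.exp (3 * T) := by ring
      _ ≤ Real.exp T * Real.exp (3 * T) := by gcongr
      _ = Real.exp (4 * T) := hE4.symm
  · have hP := h T hTT₁ q χ s (LUVM.MM (q * (3 + |s.im|))) hq h1 h2 h4 (by
        have := LUVM.MM_le (q * (3 + |s.im|))
        rwa [← mul_assoc] at this)
    have hn' := hn q χ s hχ hσ h2
    calc ‖DirichletCharacter.LFunction χ s‖ ≤ Real.exp (3 * T) + Real.exp (3 * T) := by linarith
      _ = 2 * Real.exp (3 * T) := by ring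
      _ ≤ Real.exp T * Real.exp (3 * T) := by
          gcongr
          linarith
      _ = Real.exp (4 * T) := hE4.symm

end

end Pool.Agent.Lib.VK
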