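import Pool.Agent.Lib.VK.Spec
import Pool.Agent.Lib.LP.GAU

/-!
# VK, module MTZ: the main term of the contour integral
-/

set_option autoImplicit false

noncomputable section

namespace Pool.Agent.Lib.VK

open MeasureTheory Set
open Pool.Agent.Lib.LargeAP (KG)
open Pool.Agent.Lib.LP (G)

namespace MTZM

lemma kg_eq (lam u : ℝ) (s : ℂ) (v : ℝ) :
    Complex.exp (-(s * v)) * KG lam u s = KG lam (u - v) s := by
  unfold KG
  rw [← Complex.exp_add]
  congr 1
  push_cast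
  ring

lemma kg_int {lam : ℝ} (hl : 0 < lam) (u σ : ℝ) :
    Integrable (fun t : ℝ => KG lam u ((σ : ℂ) + t * Complex.I)) ∧
      (∫ t : ℝ, KG lam u ((σ : ℂ) + t * Complex.I)) = ((2 * Real.pi * G lam u : ℝ) : ℂ) := by
  obtain ⟨h1, h2, -⟩ := LP.specGAU lam hl u σ 1 one_ne_zero
  simp only [Nat.cast_one, Complex.one_cpow, one_mul, Real.log_one, sub_zero] at h1 h2
  exact ⟨h1, h2⟩

/-- the pole factor -/
def den (σ τ t : ℝ) : ℂ := (σ : ℂ) + t * Complex.I - τ * Complex.I - 1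

lemma den_re (σ τ t : ℝ) : (den σ τ t).re = σ - 1 := by
  simp [den]

lemma den_norm (σ τ t : ℝ) : σ - 1 ≤ ‖den σ τ t‖ := by
  have h := Complex.re_le_norm (den σ τ t)
  rwa [den_re] at h

lemma den_ne (σ τ t : ℝ) (hσ : 1 < σ) : den σ τ t ≠ 0 := by
  intro h
  have := den_norm σ τ t
  rw [h, norm_zero] at this
  linarith

lemma den_cont (σ τ : ℝ) : Continuous (fun t : ℝ => den σ τ t) := by
  unfold den
  fun_prop

lemma int1 {lam : ℝ} (hl : 0 < lam) (u σ τ : ℝ) (hσ : 1 < σ) :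
    Integrable (fun t : ℝ => 1 / den σ τ t * KG lam u ((σ : ℂ) + t * Complex.I)) := by
  refine (kg_int hl u σ).1.bdd_mul (c := 1 / (σ - 1)) ?_ (Filter.Eventually.of_forall fun t => ?_)
  · exact (continuous_const.div (den_cont σ τ) fun t => den_ne σ τ t hσ).aestronglyMeasurable
  · rw [norm_div, norm_one]
    exact one_div_le_one_div_of_le (by linarith) (den_norm σ τ t)

/-- the double integrand -/
def F2 (lam u σ τ : ℝ) (t v : ℝ) : ℂ :=
  Complex.exp (-den σ τ t * v) * KG lam u ((σ : ℂ) + t * Complex.I)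

lemma F2_int {lam : ℝ} (hl : 0 < lam) (u σ τ : ℝ) (hσ : 1 < σ) :
    Integrable (Function.uncurry (F2 lam u σ τ)) (volume.prod (volume.restrict (Ioi (0 : ℝ)))) := by
  have h1 : IntegrableOn (fun v : ℝ => Complex.exp (((-(σ - 1) : ℝ) : ℂ) * v)) (Ioi 0) :=
    integrableOn_exp_mul_complex_Ioi (by rw [Complex.ofReal_re]; linarith) 0
  have h2 := (kg_int hl u σ).1.mul_prod h1
  have h3 : Integrable (fun z : ℝ × ℝ => Complex.exp (((-((z.1 - τ) * z.2) : ℝ) : ℂ) * Complex.I) *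
      (KG lam u ((σ : ℂ) + z.1 * Complex.I) * Complex.exp (((-(σ - 1) : ℝ) : ℂ) * z.2)))
      (volume.prod (volume.restrict (Ioi (0 : ℝ)))) := by
    refine h2.bdd_mul (c := 1) ?_ (Filter.Eventually.of_forall fun z => ?_)
    · exact Continuous.aestronglyMeasurable (by fun_prop)
    · exact (Complex.norm_exp_ofReal_mul_I _).le
  refine h3.congr (Filter.Eventually.of_forall fun z => ?_)
  change _ = F2 lam u σ τ z.1 z.2
  unfold F2 den
  beta_reduce
  rw [mul_comm (KG lam u _) _, ← mul_assoc, ← Complex.exp_add]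
  congr 2
  push_cast
  ring

lemma F2_v {lam : ℝ} (u σ τ : ℝ) (hσ : 1 < σ) (t : ℝ) :
    (∫ v in Ioi (0 : ℝ), F2 lam u σ τ t v) = 1 / den σ τ t * KG lam u ((σ : ℂ) + t * Complex.I) := by
  unfold F2
  rw [integral_mul_const, integral_exp_mul_complex_Ioi
    (by rw [Complex.neg_re, den_re]; linarith : (-den σ τ t).re < 0) 0]
  congr 1
  rw [Complex.ofReal_zero, mul_zero, Complex.exp_zero, neg_div_neg_eq]

lemma F2_t {lam : ℝ} (hl : 0 < lam) (u σ τ : ℝ) (v : ℝ) :
    (∫ t : ℝ, F2 lam u σ τ t v) =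
      Complex.exp ((1 + τ * Complex.I) * v) * ((2 * Real.pi * G lam (u - v) : ℝ) : ℂ) := by
  have h1 : ∀ t : ℝ, F2 lam u σ τ t v =
      Complex.exp ((1 + τ * Complex.I) * v) * KG lam (u - v) ((σ : ℂ) + t * Complex.I) := by
    intro t
    rw [← kg_eq, ← mul_assoc, ← Complex.exp_add]
    unfold F2 den
    congr 2
    ring
  simp only [h1]
  rw [integral_const_mul, (kg_int hl (u - v) σ).2]

/-- the integrand of the outer integral -/
def H (lam u τ : ℝ) (v : ℝ) : ℂ :=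
  Complex.exp ((1 + τ * Complex.I) * v) * ((2 * Real.pi * G lam (u - v) : ℝ) : ℂ)

lemma H_eq (lam u τ v : ℝ) : H lam u τ v =
    ((2 * Real.pi * √(lam / Real.pi) : ℝ) : ℂ) * Complex.exp (((-lam : ℝ) : ℂ) * (v : ℂ) ^ 2 +
      ((2 * lam * u : ℝ) + (1 + τ * Complex.I)) * v + ((-(lam * u ^ 2) : ℝ) : ℂ)) := by
  have h1 : H lam u τ v = ((2 * Real.pi * √(lam / Real.pi) : ℝ) : ℂ) *
      (Complex.exp ((1 + τ * Complex.I) * v) * Complex.exp ((-lam * (u - v) ^ 2 : ℝ) : ℂ)) := by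
    unfold H G
    push_cast
    ring
  rw [h1, ← Complex.exp_add]
  congr 2
  push_cast
  ring

lemma H_int {lam : ℝ} (hl : 0 < lam) (u τ : ℝ) : Integrable (H lam u τ) ∧
    (∫ v : ℝ, H lam u τ v) = ((2 * Real.pi : ℝ) : ℂ) *
      Complex.exp ((1 + τ * Complex.I) * u + (1 + τ * Complex.I) ^ 2 / (4 * lam)) := by
  have hb : (((-lam : ℝ) : ℂ)).re < 0 := by
    rw [Complex.ofReal_re]; linarith
  have hf : H lam u τ = fun v : ℝ => ((2 * Real.pi * √(lam / Real.pi) : ℝ) : ℂ) *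
      Complex.exp (((-lam : ℝ) : ℂ) * (v : ℂ) ^ 2 +
      ((2 * lam * u : ℝ) + (1 + τ * Complex.I)) * v + ((-(lam * u ^ 2) : ℝ) : ℂ)) := by
    funext v
    exact H_eq lam u τ v
  have hpi := Real.pi_pos
  constructor
  · rw [hf]
    exact (integrable_cexp_quadratic' hb _ _).const_mul _
  · rw [hf, integral_const_mul, integral_cexp_quadratic hb]
    have hneg : -(((-lam : ℝ) : ℂ)) = ((lam : ℝ) : ℂ) := by push_cast; ring
    have h1 : ((Real.pi : ℂ) / -(((-lam : ℝ) : ℂ))) ^ (1 / 2 : ℂ) =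
        ((√(Real.pi / lam) : ℝ) : ℂ) := by
      rw [hneg, ← Complex.ofReal_div, Real.sqrt_eq_rpow,
        Complex.ofReal_cpow (by positivity : 0 ≤ Real.pi / lam)]
      norm_num
    rw [h1, ← mul_assoc, ← Complex.ofReal_mul]
    have h2 : 2 * Real.pi * √(lam / Real.pi) * √(Real.pi / lam) = 2 * Real.pi := by
      rw [mul_assoc, ← Real.sqrt_mul (by positivity)]
      have : lam / Real.pi * (Real.pi / lam) = 1 := by field_simp
      rw [this, Real.sqrt_one, mul_one]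
    rw [h2]
    congr 2
    have hlc : (lam : ℂ) ≠ 0 := by exact_mod_cast hl.ne'
    push_cast
    field_simp
    ring

/-- the majorant on the left of `0` -/
lemma H_le {lam : ℝ} (hl : 0 < lam) {u : ℝ} (hu : 0 ≤ u) (τ : ℝ) {v : ℝ} (hv : v ≤ 0) :
    ‖H lam u τ v‖ ≤ (2 * Real.pi * √(lam / Real.pi) * Real.exp (-(lam * u ^ 2 / 2))) *
      Real.exp (-(lam / 2) * (v - u) ^ 2) := by
  have hpi := Real.pi_pos
  have h1 : ‖H lam u τ v‖ = Real.exp v * (2 * Real.pi * (√(lam / Real.pi) *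
      Real.exp (-lam * (u - v) ^ 2))) := by
    unfold H G
    rw [norm_mul, Complex.norm_exp, Complex.norm_real, Real.norm_eq_abs, abs_of_nonneg
      (by positivity)]
    congr 2
    simp
  rw [h1]
  have h2 : Real.exp v ≤ 1 := Real.exp_le_one_iff.2 hv
  have h3 : Real.exp (-lam * (u - v) ^ 2) ≤
      Real.exp (-(lam * u ^ 2 / 2)) * Real.exp (-(lam / 2) * (v - u) ^ 2) := by
    rw [← Real.exp_add]
    refine Real.exp_le_exp.2 ?_
    have h4 : u ^ 2 ≤ (u - v) ^ 2 := by nlinarith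
    nlinarith
  have h5 : 0 ≤ 2 * Real.pi * (√(lam / Real.pi) * Real.exp (-lam * (u - v) ^ 2)) := by positivity
  calc Real.exp v * (2 * Real.pi * (√(lam / Real.pi) * Real.exp (-lam * (u - v) ^ 2)))
      ≤ 1 * (2 * Real.pi * (√(lam / Real.pi) * Real.exp (-lam * (u - v) ^ 2))) :=
        mul_le_mul_of_nonneg_right h2 h5
    _ = (2 * Real.pi * √(lam / Real.pi)) * Real.exp (-lam * (u - v) ^ 2) := by ring
    _ ≤ (2 * Real.pi * √(lam / Real.pi)) *
        (Real.exp (-(lam * u ^ 2 / 2)) * Real.exp (-(lam / 2) * (v - u) ^ 2)) :=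
        mul_le_mul_of_nonneg_left h3 (by positivity)
    _ = _ := by ring

lemma H_left {lam : ℝ} (hl : 0 < lam) {u : ℝ} (hu : 0 ≤ u) (τ : ℝ) :
    ‖∫ v in Iic (0 : ℝ), H lam u τ v‖ ≤ 10 * Real.exp (-(lam * u ^ 2 / 2)) := by
  have hpi := Real.pi_pos
  set C := 2 * Real.pi * √(lam / Real.pi) * Real.exp (-(lam * u ^ 2 / 2)) with hC
  have hC0 : 0 ≤ C := by positivity
  have hl2 : 0 < lam / 2 := by linarith
  have hg : Integrable (fun v : ℝ => C * Real.exp (-(lam / 2) * (v - u) ^ 2)) :=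
    ((integrable_exp_neg_mul_sq hl2).comp_sub_right u).const_mul C
  have h1 : ‖∫ v in Iic (0 : ℝ), H lam u τ v‖ ≤
      ∫ v in Iic (0 : ℝ), C * Real.exp (-(lam / 2) * (v - u) ^ 2) := by
    refine norm_integral_le_of_norm_le hg.integrableOn ?_
    rw [ae_restrict_iff' measurableSet_Iic]
    exact Filter.Eventually.of_forall fun v hv => H_le hl hu τ hv
  have h2 : (∫ v in Iic (0 : ℝ), C * Real.exp (-(lam / 2) * (v - u) ^ 2)) ≤
      ∫ v : ℝ, C * Real.exp (-(lam / 2) * (v - u) ^ 2) :=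
    setIntegral_le_integral hg (Filter.Eventually.of_forall fun v =>
      mul_nonneg hC0 (Real.exp_pos _).le)
  have h3 : (∫ v : ℝ, C * Real.exp (-(lam / 2) * (v - u) ^ 2)) = C * √(Real.pi / (lam / 2)) := by
    rw [integral_const_mul, integral_sub_right_eq_self (fun v => Real.exp (-(lam / 2) * v ^ 2)) u,
      integral_gaussian]
  have h4 : C * √(Real.pi / (lam / 2)) = 2 * Real.pi * √2 * Real.exp (-(lam * u ^ 2 / 2)) := by
    rw [hC]
    have h5 : √(lam / Real.pi) * √(Real.pi / (lam / 2)) = √2 := by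
      rw [← Real.sqrt_mul (by positivity)]
      congr 1
      field_simp
    calc _ = 2 * Real.pi * (√(lam / Real.pi) * √(Real.pi / (lam / 2))) *
          Real.exp (-(lam * u ^ 2 / 2)) := by ring
      _ = _ := by rw [h5]
  have h6 : 2 * Real.pi * √2 ≤ 10 := by
    have h7 : √2 ≤ 1.4143 := by
      rw [Real.sqrt_le_left (by norm_num)]; norm_num
    have h8 := Real.pi_lt_d2
    nlinarith [Real.sqrt_nonneg 2]
  calc _ ≤ _ := h1
    _ ≤ _ := h2
    _ = _ := h3
    _ = _ := h4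
    _ ≤ 10 * Real.exp (-(lam * u ^ 2 / 2)) :=
      mul_le_mul_of_nonneg_right h6 (Real.exp_pos _).le

end MTZM

open MTZM in
theorem specMTZ : SpecMTZ := by
  intro lam u σ τ hlam hu hσ
  have hl : 0 < lam := by linarith
  refine ⟨int1 hl u σ τ hσ, ?_⟩
  have h1 : (∫ t : ℝ, 1 / ((σ : ℂ) + t * Complex.I - τ * Complex.I - 1) *
      KG lam u (σ + t * Complex.I)) = ∫ v in Ioi (0 : ℝ), H lam u τ v := by
    have h2 := integral_integral_swap (F2_int hl u σ τ hσ)
    simp only [F2_v u σ τ hσ, F2_t hl u σ τ] at h2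
    exact h2
  have h3 : (∫ v : ℝ, H lam u τ v) = (∫ v in Ioi (0 : ℝ), H lam u τ v) +
      ∫ v in Iic (0 : ℝ), H lam u τ v := by
    rw [← compl_Iic, add_comm]
    exact (integral_add_compl measurableSet_Iic (H_int hl u τ).1).symm
  have h4 : (∫ v in Ioi (0 : ℝ), H lam u τ v) - ((2 * Real.pi : ℝ) : ℂ) *
      Complex.exp ((1 + τ * Complex.I) * u + (1 + τ * Complex.I) ^ 2 / (4 * lam)) =
      -∫ v in Iic (0 : ℝ), H lam u τ v := by
    rw [← (H_int hl u τ).2, h3]
    ring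
  rw [h1, h4, norm_neg]
  exact H_left hl hu τ

end Pool.Agent.Lib.VK
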