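import Pool.Agent.Lib.VK.Spec

/-!
# The prime number theorem with Vinogradov's error term (PNE)
-/

set_option autoImplicit false

noncomputable section

namespace Pool.Agent.Lib.VK

open Finset

namespace PNEM

theorem tw_zero (n : ℕ) : tw 0 n = 1 := by simp [tw]

/-- the main term for `τ = 0` -/
theorem main (x T : ℝ) (hx : 0 < x) (hT : 0 ≤ T) :
    ‖Complex.exp ((1 + ((0 : ℝ) : ℂ) * Complex.I) ^ 2 / (4 * Real.exp T)) *
      ((Complex.exp ((1 + ((0 : ℝ) : ℂ) * Complex.I) * Real.log x) -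
        Complex.exp ((1 + ((0 : ℝ) : ℂ) * Complex.I) * (Real.log x - T))) /
        (1 + ((0 : ℝ) : ℂ) * Complex.I)) - (x : ℂ)‖ ≤ x * Real.exp (-T) := by
  have e1 : Complex.exp ((Real.log x : ℝ) : ℂ) = (x : ℂ) := by
    rw [← Complex.ofReal_exp, Real.exp_log hx]
  have e2 : Complex.exp (((Real.log x : ℝ) : ℂ) - (T : ℂ)) = ((x * Real.exp (-T) : ℝ) : ℂ) := by
    rw [← Complex.ofReal_sub, ← Complex.ofReal_exp, sub_eq_add_neg, Real.exp_add,
      Real.exp_log hx]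
  have e3 : Complex.exp (1 / (4 * ((Real.exp T : ℝ) : ℂ))) =
      ((Real.exp (1 / (4 * Real.exp T)) : ℝ) : ℂ) := by
    rw [Complex.ofReal_exp]
    congr 1
    push_cast
    rfl
  have e4 : Complex.exp ((1 + ((0 : ℝ) : ℂ) * Complex.I) ^ 2 / (4 * Real.exp T)) *
      ((Complex.exp ((1 + ((0 : ℝ) : ℂ) * Complex.I) * Real.log x) -
        Complex.exp ((1 + ((0 : ℝ) : ℂ) * Complex.I) * (Real.log x - T))) /
        (1 + ((0 : ℝ) : ℂ) * Complex.I)) - (x : ℂ) =
      ((Real.exp (1 / (4 * Real.exp T)) * (x - x * Real.exp (-T)) - x : ℝ) : ℂ) := by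
    rw [Complex.ofReal_zero, zero_mul, add_zero, one_pow, one_mul, one_mul, div_one, e1, e2, e3]
    push_cast
    ring
  rw [e4, Complex.norm_real, Real.norm_eq_abs]
  have h0 : 0 < Real.exp (-T) := Real.exp_pos _
  have h1 : Real.exp (-T) ≤ 1 := Real.exp_le_one_iff.2 (by linarith)
  have h2 : 1 / (4 * Real.exp T) = Real.exp (-T) / 4 := by
    rw [Real.exp_neg]
    field_simp
  rw [h2]
  set e := Real.exp (-T) with he
  have h3 : 1 ≤ Real.exp (e / 4) := Real.one_le_exp (by positivity)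
  have h4 : Real.exp (e / 4) ≤ 1 + e / 2 := by
    have h5 := Real.abs_exp_sub_one_le (x := e / 4) (by rw [abs_of_pos (by positivity)]; linarith)
    rw [abs_of_pos (by positivity : (0 : ℝ) < e / 4)] at h5
    have := (abs_le.1 h5).2
    linarith
  have h6 : 0 ≤ x - x * e := by nlinarith
  rw [abs_le]
  constructor
  · nlinarith
  · nlinarith [mul_nonneg hx.le h0.le, mul_nonneg h0.le h6]

end PNEM

theorem specPNE (hPZM : SpecPZM) : SpecPNE := by
  obtain ⟨T₁, h1000, h⟩ := hPZM 0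
  set T₂ : ℝ := max T₁ (8 ^ 6) with hT₂
  have hT₂8 : (8 : ℝ) ^ 6 ≤ T₂ := le_max_right _ _
  have hT₂0 : 0 < T₂ := lt_of_lt_of_le (by norm_num) hT₂8
  refine ⟨Real.exp (T₂ ^ 50), fun x hx => ?_⟩
  have hx0 : 0 < x := lt_of_lt_of_le (Real.exp_pos _) hx
  have hlog : T₂ ^ 50 ≤ Real.log x := (Real.le_log_iff_exp_le hx0).2 hx
  have hlog0 : 0 ≤ Real.log x := le_trans (by positivity) hlog
  set T : ℝ := (Real.log x) ^ (1 / 50 : ℝ) with hT
  have hT0 : 0 ≤ T := Real.rpow_nonneg hlog0 _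
  have hT50 : T ^ 50 = Real.log x := by
    rw [hT, ← Real.rpow_natCast, ← Real.rpow_mul hlog0]
    norm_num
  have hT2 : T₂ ≤ T := by
    by_contra hc
    push Not at hc
    have := pow_lt_pow_left₀ hc hT0 (by norm_num : (50 : ℕ) ≠ 0)
    rw [hT50] at this
    linarith
  have hT8 : (8 : ℝ) ^ 6 ≤ T := hT₂8.trans hT2
  have hT1 : (1 : ℝ) ≤ T := le_trans (by norm_num) hT8
  have hmain := h T ((le_max_left _ _).trans hT2) 0 x
    (by rw [abs_zero]; exact (Real.exp_pos _).le) hx0 (by rw [hT50]; linarith)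
    (by rw [← hT50]; exact pow_le_pow_right₀ hT1 (by norm_num))
  have hm2 := PNEM.main x T hx0 hT0
  have hsum : (∑ n ∈ Icc 1 ⌊x⌋₊, ((ArithmeticFunction.vonMangoldt n : ℝ) : ℂ) * tw 0 n) =
      ((∑ n ∈ Icc 1 ⌊x⌋₊, ArithmeticFunction.vonMangoldt n : ℝ) : ℂ) := by
    rw [Complex.ofReal_sum]
    exact sum_congr rfl fun n _ => by rw [PNEM.tw_zero, mul_one]
  rw [hsum] at hmain
  have h3 : |(∑ n ∈ Icc 1 ⌊x⌋₊, ArithmeticFunction.vonMangoldt n) - x| ≤
      x * Real.exp (-(T / 4)) + x * Real.exp (-T) := by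
    rw [← Real.norm_eq_abs, ← Complex.norm_real, Complex.ofReal_sub]
    exact (norm_sub_le_norm_sub_add_norm_sub _ _ _).trans (add_le_add hmain hm2)
  refine h3.trans ?_
  have h60 : (Real.log x) ^ (1 / 60 : ℝ) ≤ T / 8 := by
    have e1 : (Real.log x) ^ (1 / 60 : ℝ) = T ^ (5 / 6 : ℝ) := by
      rw [hT, ← Real.rpow_mul hlog0]
      norm_num
    have e2 : T ^ (5 / 6 : ℝ) * T ^ (1 / 6 : ℝ) = T := by
      rw [← Real.rpow_add (by linarith)]
      norm_num
    have e3 : (8 : ℝ) ≤ T ^ (1 / 6 : ℝ) := by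
      have e4 : ((8 : ℝ) ^ 6) ^ (1 / 6 : ℝ) = 8 := by
        rw [← Real.rpow_natCast, ← Real.rpow_mul (by norm_num)]
        norm_num
      calc (8 : ℝ) = ((8 : ℝ) ^ 6) ^ (1 / 6 : ℝ) := e4.symm
        _ ≤ T ^ (1 / 6 : ℝ) := Real.rpow_le_rpow (by norm_num) hT8 (by norm_num)
    have e5 : 0 ≤ T ^ (5 / 6 : ℝ) := Real.rpow_nonneg hT0 _
    rw [e1]
    nlinarith
  have h4 : Real.exp (-T) ≤ Real.exp (-(T / 4)) := Real.exp_le_exp.2 (by linarith)
  have h5 : 2 * Real.exp (-(T / 4)) ≤ Real.exp (-(Real.log x) ^ (1 / 60 : ℝ)) := by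
    have e1 : (2 : ℝ) ≤ Real.exp 1 := by
      have := Real.add_one_le_exp (1 : ℝ)
      linarith
    calc 2 * Real.exp (-(T / 4)) ≤ Real.exp 1 * Real.exp (-(T / 4)) :=
          mul_le_mul_of_nonneg_right e1 (Real.exp_pos _).le
      _ = Real.exp (1 + -(T / 4)) := (Real.exp_add _ _).symm
      _ ≤ Real.exp (-(Real.log x) ^ (1 / 60 : ℝ)) := Real.exp_le_exp.2 (by
          have : (262144 : ℝ) ≤ T := by
            have h : (8 : ℝ) ^ 6 = 262144 := by norm_num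
            linarith
          linarith)
  calc x * Real.exp (-(T / 4)) + x * Real.exp (-T) ≤ x * (2 * Real.exp (-(T / 4))) := by
        nlinarith
    _ ≤ x * Real.exp (-(Real.log x) ^ (1 / 60 : ℝ)) := mul_le_mul_of_nonneg_left h5 hx0.le

end Pool.Agent.Lib.VK
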