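import Pool.Agent.Lib.VK.Spec
import Mathlib.NumberTheory.Chebyshev

/-!
# Lib/VK, module PNP (helper53): the prime number theorem for `θ` and `π`, error `x exp(-(log x)^(1/61))`
-/

set_option autoImplicit false

noncomputable section

namespace Pool.Agent.Lib.VK

open Finset MeasureTheory

namespace PNPM

/-- integration by parts -/
theorem li_parts {x : ℝ} (hx : 2 ≤ x) : ∫ t in (2 : ℝ)..x, 1 / Real.log t
    = x / Real.log x - 2 / Real.log 2 + ∫ t in (2 : ℝ)..x, 1 / Real.log t ^ 2 := by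
  have hi2 : IntervalIntegrable (fun t : ℝ => 1 / Real.log t ^ 2) volume 2 x :=
    Chebyshev.intervalIntegrable_one_div_log_sq (by norm_num) (by linarith)
  have hi1 : IntervalIntegrable (fun t : ℝ => 1 / Real.log t) volume 2 x := by
    apply ContinuousOn.intervalIntegrable
    intro t ht
    rw [Set.uIcc_of_le hx] at ht
    have h1 : t ≠ 0 := by linarith [ht.1]
    have h2 : Real.log t ≠ 0 := (Real.log_pos (by linarith [ht.1])).ne'
    exact ContinuousAt.continuousWithinAt (by fun_prop (disch := assumption))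
  have h2 := intervalIntegral.integral_eq_sub_of_hasDerivAt (a := 2) (b := x)
    (f := fun t : ℝ => t / Real.log t) (f' := fun t : ℝ => 1 / Real.log t - 1 / Real.log t ^ 2)
    ?_ (hi1.sub hi2)
  · rw [intervalIntegral.integral_sub hi1 hi2] at h2
    linarith
  · intro t ht
    rw [Set.uIcc_of_le hx] at ht
    have h1 : t ≠ 0 := by linarith [ht.1]
    have h2 : Real.log t ≠ 0 := (Real.log_pos (by linarith [ht.1])).ne'
    have h3 := (hasDerivAt_id t).div (Real.hasDerivAt_log h1) h2
    refine h3.congr_deriv ?_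
    simp only [id]
    field_simp

/-- `exp(-(log x)^(1/60))` -/
def ep (x : ℝ) : ℝ := Real.exp (-(Real.log x) ^ (1 / 60 : ℝ))

theorem ep_anti {x y : ℝ} (hx : 1 ≤ x) (hxy : x ≤ y) : ep y ≤ ep x := by
  unfold ep
  apply Real.exp_le_exp.2
  have h1 : Real.log x ≤ Real.log y := Real.log_le_log (by linarith) hxy
  have h2 : 0 ≤ Real.log x := Real.log_nonneg hx
  have := Real.rpow_le_rpow h2 h1 (by norm_num : (0 : ℝ) ≤ 1 / 60)
  linarith

/-- the bound for `θ` -/
theorem theta_bound (h : SpecPNE) : ∃ x₁ : ℝ, 2 ≤ x₁ ∧ ∀ x, x₁ ≤ x →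
    |Chebyshev.theta x - x| ≤ 2 * x * ep x := by
  obtain ⟨x₀, h₀⟩ := h
  refine ⟨max x₀ (Real.exp 64), ?_, ?_⟩
  · have : (2 : ℝ) ≤ Real.exp 64 := by
      have := Real.add_one_le_exp (64 : ℝ)
      linarith
    exact le_trans this (le_max_right _ _)
  intro x hx
  have hx0 : x₀ ≤ x := le_trans (le_max_left _ _) hx
  have hx1 : Real.exp 64 ≤ x := le_trans (le_max_right _ _) hx
  have hxpos : 0 < x := lt_of_lt_of_le (Real.exp_pos _) hx1
  have hL : 64 ≤ Real.log x := by
    rw [Real.le_log_iff_exp_le hxpos]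
    exact hx1
  have hx1' : 1 ≤ x := by
    have := Real.add_one_le_exp (64 : ℝ)
    linarith
  have h1 := h₀ x hx0
  have h2 : (∑ n ∈ Icc 1 ⌊x⌋₊, ArithmeticFunction.vonMangoldt n) = Chebyshev.psi x := rfl
  rw [h2] at h1
  have h3 := Chebyshev.abs_psi_sub_theta_le_sqrt_mul_log hx1'
  have h4 : 2 * Real.sqrt x * Real.log x ≤ x * ep x := by
    set L := Real.log x with hLdef
    have e1 : x = Real.exp L := (Real.exp_log hxpos).symm
    have e2 : Real.sqrt x = Real.exp (L / 2) := by
      rw [e1, Real.sqrt_eq_iff_mul_self_eq (Real.exp_pos _).le (Real.exp_pos _).le, ← Real.exp_add]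
      congr 1
      ring
    have e3 : L ^ (1 / 60 : ℝ) ≤ L / 4 := by
      have a1 : L ^ (1 / 60 : ℝ) ≤ L ^ (1 / 2 : ℝ) :=
        Real.rpow_le_rpow_of_exponent_le (by linarith) (by norm_num)
      rw [← Real.sqrt_eq_rpow] at a1
      have a2 : Real.sqrt L ≤ L / 4 := by
        rw [Real.sqrt_le_left (by linarith)]
        nlinarith
      linarith
    have e4 : 2 * L ≤ Real.exp (L / 4) := by
      have := Real.quadratic_le_exp_of_nonneg (x := L / 4) (by linarith)
      nlinarith
    have e5 : x * ep x = Real.exp (L - L ^ (1 / 60 : ℝ)) := by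
      unfold ep
      rw [← hLdef]
      conv_lhs => rw [e1]
      rw [← Real.exp_add]
      congr 1
    rw [e5, e2]
    calc 2 * Real.exp (L / 2) * L = Real.exp (L / 2) * (2 * L) := by ring
      _ ≤ Real.exp (L / 2) * Real.exp (L / 4) := by gcongr
      _ = Real.exp (L / 2 + L / 4) := (Real.exp_add _ _).symm
      _ ≤ Real.exp (L - L ^ (1 / 60 : ℝ)) := by
        apply Real.exp_le_exp.2
        linarith
  have h5 : |Chebyshev.theta x - x| ≤ |Chebyshev.psi x - x| + |Chebyshev.psi x - Chebyshev.theta x| := by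
    have : Chebyshev.theta x - x = (Chebyshev.psi x - x) - (Chebyshev.psi x - Chebyshev.theta x) := by ring
    rw [this]
    exact abs_sub _ _
  have h6 : |Chebyshev.psi x - x| ≤ x * ep x := h1
  linarith

/-- the trivial bound -/
theorem theta_triv {t : ℝ} (ht : 0 ≤ t) : |Chebyshev.theta t - t| ≤ t := by
  have h1 := Chebyshev.theta_le_log4_mul_x ht
  have h2 := Chebyshev.theta_nonneg t
  have h3 : Real.log 4 ≤ 2 := by
    have : Real.log 4 = 2 * Real.log 2 := by
      rw [show (4 : ℝ) = 2 ^ 2 by norm_num, Real.log_pow]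
      norm_num
    rw [this]
    have := Real.log_two_lt_d9
    linarith
  rw [abs_le]
  constructor
  · linarith
  · nlinarith

theorem card_eq (x : ℝ) : (((Icc 1 ⌊x⌋₊).filter Nat.Prime).card : ℝ) = (Nat.primeCounting ⌊x⌋₊ : ℝ) := by
  congr 1
  rw [Nat.primeCounting, Nat.primeCounting', Nat.count_eq_card_filter_range]
  congr 1
  ext p
  simp only [mem_filter, mem_Icc, mem_range]
  constructor
  · rintro ⟨⟨h1, h2⟩, h3⟩
    exact ⟨by omega, h3⟩
  · rintro ⟨h1, h3⟩
    exact ⟨⟨h3.one_lt.le, by omega⟩, h3⟩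

/-- the formula for `π - li` -/
theorem pi_sub_li {x : ℝ} (hx : 2 ≤ x) :
    IntervalIntegrable (fun t : ℝ => (Chebyshev.theta t - t) / (t * Real.log t ^ 2)) volume 2 x ∧
    (((Icc 1 ⌊x⌋₊).filter Nat.Prime).card : ℝ) - ∫ t in (2 : ℝ)..x, 1 / Real.log t =
      (Chebyshev.theta x - x) / Real.log x + 2 / Real.log 2 +
        ∫ t in (2 : ℝ)..x, (Chebyshev.theta t - t) / (t * Real.log t ^ 2) := by
  have hi1 : IntervalIntegrable (fun t : ℝ => Chebyshev.theta t / (t * Real.log t ^ 2)) volume 2 x := by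
    rw [intervalIntegrable_iff_integrableOn_Icc_of_le hx]
    exact Chebyshev.integrableOn_theta_div_id_mul_log_sq x
  have hi2 : IntervalIntegrable (fun t : ℝ => 1 / Real.log t ^ 2) volume 2 x :=
    Chebyshev.intervalIntegrable_one_div_log_sq (by norm_num) (by linarith)
  have hc : ∀ t ∈ Set.uIcc (2 : ℝ) x, (Chebyshev.theta t - t) / (t * Real.log t ^ 2) =
      Chebyshev.theta t / (t * Real.log t ^ 2) - 1 / Real.log t ^ 2 := by
    intro t ht
    rw [Set.uIcc_of_le hx] at ht
    have h1 : t ≠ 0 := by linarith [ht.1]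
    have h2 : Real.log t ≠ 0 := (Real.log_pos (by linarith [ht.1])).ne'
    field_simp
  have hi3 : IntervalIntegrable (fun t : ℝ => (Chebyshev.theta t - t) / (t * Real.log t ^ 2)) volume 2 x := by
    refine (hi1.sub hi2).congr_ae ?_
    rw [Filter.EventuallyEq, ae_restrict_iff' measurableSet_uIoc]
    refine Filter.Eventually.of_forall fun t ht => ?_
    exact (hc t (Set.uIoc_subset_uIcc ht)).symm
  refine ⟨hi3, ?_⟩
  rw [intervalIntegral.integral_congr hc, intervalIntegral.integral_sub hi1 hi2, card_eq,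
    Chebyshev.primeCounting_eq_theta_div_log_add_integral hx, li_parts hx]
  ring

/-- the asymptotic inequality -/
theorem asym : ∃ L₀ : ℝ, 64 ≤ L₀ ∧ ∀ L : ℝ, L₀ ≤ L → L ^ (1 / 61 : ℝ) + 3 ≤ (L / 2) ^ (1 / 60 : ℝ) ∧
    (L / 2) ^ (1 / 60 : ℝ) ≤ L / 2 := by
  have h1 := tendsto_rpow_atTop (y := (1 / 60 - 1 / 61 : ℝ)) (by norm_num)
  have h2 := (h1.eventually (Filter.eventually_ge_atTop 16)).and (Filter.eventually_ge_atTop (64 : ℝ))
  rw [Filter.eventually_atTop] at h2
  obtain ⟨L₀, hL₀⟩ := h2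
  refine ⟨L₀, (hL₀ L₀ le_rfl).2, fun L hL => ?_⟩
  obtain ⟨h3, h4⟩ := hL₀ L hL
  have hL0 : 0 < L := by linarith
  constructor
  · have e1 : (L / 2) ^ (1 / 60 : ℝ) = L ^ (1 / 60 : ℝ) * (1 / 2 : ℝ) ^ (1 / 60 : ℝ) := by
      rw [← Real.mul_rpow hL0.le (by norm_num)]
      congr 1
      ring
    have e2 : (1 / 2 : ℝ) ≤ (1 / 2 : ℝ) ^ (1 / 60 : ℝ) :=
      Real.self_le_rpow_of_le_one (by norm_num) (by norm_num) (by norm_num)
    have e3 : L ^ (1 / 60 : ℝ) = L ^ (1 / 61 : ℝ) * L ^ (1 / 60 - 1 / 61 : ℝ) := by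
      rw [← Real.rpow_add hL0]
      congr 1
      ring
    have e4 : (1 : ℝ) ≤ L ^ (1 / 61 : ℝ) := Real.one_le_rpow (by linarith) (by norm_num)
    rw [e1, e3]
    have e5 : L ^ (1 / 61 : ℝ) * 16 ≤ L ^ (1 / 61 : ℝ) * L ^ (1 / 60 - 1 / 61 : ℝ) := by gcongr
    have e6 : L ^ (1 / 61 : ℝ) * 16 * (1 / 2) ≤
        L ^ (1 / 61 : ℝ) * L ^ (1 / 60 - 1 / 61 : ℝ) * (1 / 2 : ℝ) ^ (1 / 60 : ℝ) := by
      apply mul_le_mul e5 e2 (by norm_num) (by positivity)
    linarith
  · exact Real.rpow_le_self_of_one_le (by linarith) (by norm_num)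

end PNPM

open PNPM in
theorem specPNP (h : SpecPNE) : SpecPNP := by
  obtain ⟨x₁, hx₁, hth⟩ := theta_bound h
  obtain ⟨L₀, hL₀, has⟩ := asym
  refine ⟨max (x₁ ^ 2) (Real.exp L₀), fun x hx => ?_⟩
  have hxa : x₁ ^ 2 ≤ x := le_trans (le_max_left _ _) hx
  have hxb : Real.exp L₀ ≤ x := le_trans (le_max_right _ _) hx
  have hxpos : 0 < x := lt_of_lt_of_le (Real.exp_pos _) hxb
  have hL : L₀ ≤ Real.log x := by
    rw [Real.le_log_iff_exp_le hxpos]
    exact hxb
  have hx2 : x₁ ≤ x := by nlinarith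
  have hx2' : 2 ≤ x := by linarith
  obtain ⟨ha1, ha2⟩ := has _ hL
  set L := Real.log x with hLdef
  have hL0 : 0 < L := by linarith
  set y := Real.sqrt x with hydef
  have hy1 : x₁ ≤ y := by
    rw [hydef]
    exact Real.le_sqrt_of_sq_le hxa
  have hyx : y ≤ x := by
    rw [hydef, Real.sqrt_le_left hxpos.le]
    nlinarith
  have hy2 : 2 ≤ y := by linarith
  have hlogy : Real.log y = L / 2 := by
    rw [hydef, Real.log_sqrt hxpos.le]
  set E := Real.exp (-L ^ (1 / 61 : ℝ)) with hE
  have hEpos : 0 < E := Real.exp_pos _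
  -- `e^3 ≥ 20`
  have he3 : Real.exp (-3) ≤ 1 / 20 := by
    have h1 := Real.exp_one_gt_d9
    have h2 : Real.exp 3 = Real.exp 1 ^ 3 := by
      rw [← Real.exp_nat_mul]
      norm_num
    have h3 : (20 : ℝ) ≤ Real.exp 3 := by
      rw [h2]
      have : (2.7182 : ℝ) ^ 3 ≤ Real.exp 1 ^ 3 := by
        gcongr
        linarith
      norm_num at this ⊢
      linarith
    rw [Real.exp_neg, inv_le_comm₀ (Real.exp_pos _) (by norm_num)]
    linarith
  have hepy : ep y ≤ E / 20 := by
    unfold ep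
    rw [hlogy]
    calc Real.exp (-(L / 2) ^ (1 / 60 : ℝ)) ≤ Real.exp (-L ^ (1 / 61 : ℝ) + (-3)) := by
          apply Real.exp_le_exp.2
          linarith
      _ = E * Real.exp (-3) := Real.exp_add _ _
      _ ≤ E * (1 / 20) := by gcongr
      _ = E / 20 := by ring
  have hepx : ep x ≤ E / 20 := le_trans (ep_anti (by linarith) hyx) hepy
  have hyE : y ≤ x * (E / 20) := by
    have e1 : y = x * Real.exp (-(L / 2)) := by
      have : x = Real.exp L := (Real.exp_log hxpos).symm
      have h2 : y = Real.exp (L / 2) := by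
        rw [← hlogy, Real.exp_log (by linarith)]
      rw [h2]
      conv_rhs => rw [this]
      rw [← Real.exp_add]
      congr 1
      ring
    rw [e1]
    have e2 : Real.exp (-(L / 2)) ≤ E / 20 := by
      calc Real.exp (-(L / 2)) ≤ Real.exp (-L ^ (1 / 61 : ℝ) + (-3)) := by
            apply Real.exp_le_exp.2
            linarith
        _ = E * Real.exp (-3) := Real.exp_add _ _
        _ ≤ E * (1 / 20) := by gcongr
        _ = E / 20 := by ring
    gcongr
  constructor
  · have h1 : (∑ p ∈ (Icc 1 ⌊x⌋₊).filter Nat.Prime, Real.log p) = Chebyshev.theta x := rfl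
    rw [h1]
    refine le_trans (hth x hx2) ?_
    have : x * ep x ≤ x * (E / 20) := by gcongr
    nlinarith
  · obtain ⟨hint, hform⟩ := pi_sub_li hx2'
    rw [hform]
    have hl2 := Real.log_two_gt_d9
    have hl2' : (0.69 : ℝ) < Real.log 2 := by linarith
    have hLge : (64 : ℝ) ≤ L := by linarith
    have b1 : |(Chebyshev.theta x - x) / L| ≤ x * (E / 20) := by
      rw [abs_div, abs_of_pos hL0, div_le_iff₀ hL0]
      refine le_trans (hth x hx2) ?_
      have : x * ep x ≤ x * (E / 20) := by gcongr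
      have h0 : 0 ≤ x * (E / 20) := by positivity
      nlinarith
    have b2 : |2 / Real.log 2| ≤ 2 * (x * (E / 20)) := by
      rw [abs_of_pos (by positivity), div_le_iff₀ (by positivity)]
      nlinarith
    have hi1 : IntervalIntegrable (fun t : ℝ => (Chebyshev.theta t - t) / (t * Real.log t ^ 2)) volume 2 y := by
      refine hint.mono_set ?_
      rw [Set.uIcc_of_le hy2, Set.uIcc_of_le hx2']
      exact Set.Icc_subset_Icc le_rfl hyx
    have hi2 : IntervalIntegrable (fun t : ℝ => (Chebyshev.theta t - t) / (t * Real.log t ^ 2)) volume y x := by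
      refine hint.mono_set ?_
      rw [Set.uIcc_of_le hyx, Set.uIcc_of_le hx2']
      exact Set.Icc_subset_Icc hy2 le_rfl
    have hlogt : ∀ t : ℝ, 2 ≤ t → (1 / 2.2 : ℝ) ≤ Real.log t ^ 2 := by
      intro t ht
      have : Real.log 2 ≤ Real.log t := Real.log_le_log (by norm_num) ht
      have h3 : (0.69 : ℝ) ^ 2 ≤ Real.log t ^ 2 := by
        gcongr
        linarith
      norm_num at h3 ⊢
      linarith
    have b3 : |∫ t in (2 : ℝ)..y, (Chebyshev.theta t - t) / (t * Real.log t ^ 2)| ≤ 2.2 * (x * (E / 20)) := by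
      have := intervalIntegral.norm_integral_le_of_norm_le_const (a := 2) (b := y) (C := 2.2)
        (f := fun t : ℝ => (Chebyshev.theta t - t) / (t * Real.log t ^ 2)) ?_
      · rw [Real.norm_eq_abs] at this
        refine le_trans this ?_
        rw [abs_of_nonneg (by linarith)]
        nlinarith
      · intro t ht
        rw [Set.uIoc_of_le hy2] at ht
        have ht2 : 2 ≤ t := ht.1.le
        have ht0 : 0 < t := by linarith
        have h4 := hlogt t ht2
        rw [Real.norm_eq_abs, abs_div, abs_of_pos (by positivity : 0 < t * Real.log t ^ 2),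
          div_le_iff₀ (by positivity)]
        refine le_trans (theta_triv ht0.le) ?_
        have : t * (1 / 2.2) ≤ t * Real.log t ^ 2 := by gcongr
        norm_num at this ⊢
        linarith
    have b4 : |∫ t in y..x, (Chebyshev.theta t - t) / (t * Real.log t ^ 2)| ≤ 4.4 * (x * (E / 20)) := by
      have := intervalIntegral.norm_integral_le_of_norm_le_const (a := y) (b := x) (C := 4.4 * (E / 20))
        (f := fun t : ℝ => (Chebyshev.theta t - t) / (t * Real.log t ^ 2)) ?_
      · rw [Real.norm_eq_abs] at this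
        refine le_trans this ?_
        rw [abs_of_nonneg (by linarith)]
        have h0 : 0 ≤ 4.4 * (E / 20) := by positivity
        nlinarith
      · intro t ht
        rw [Set.uIoc_of_le hyx] at ht
        have hty : y ≤ t := ht.1.le
        have ht2 : 2 ≤ t := by linarith
        have ht0 : 0 < t := by linarith
        have h4 := hlogt t ht2
        rw [Real.norm_eq_abs, abs_div, abs_of_pos (by positivity : 0 < t * Real.log t ^ 2),
          div_le_iff₀ (by positivity)]
        refine le_trans (hth t (by linarith)) ?_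
        have h5 : ep t ≤ E / 20 := le_trans (ep_anti (by linarith) hty) hepy
        have h6 : t * (1 / 2.2) ≤ t * Real.log t ^ 2 := by gcongr
        calc 2 * t * ep t ≤ 2 * t * (E / 20) := by gcongr
          _ = 4.4 * (E / 20) * (t * (1 / 2.2)) := by ring
          _ ≤ 4.4 * (E / 20) * (t * Real.log t ^ 2) := by gcongr
    rw [← intervalIntegral.integral_add_adjacent_intervals hi1 hi2]
    have b5 := abs_add_le ((Chebyshev.theta x - x) / L + 2 / Real.log 2)
      ((∫ t in (2 : ℝ)..y, (Chebyshev.theta t - t) / (t * Real.log t ^ 2)) +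
        ∫ t in y..x, (Chebyshev.theta t - t) / (t * Real.log t ^ 2))
    have b6 := abs_add_le ((Chebyshev.theta x - x) / L) (2 / Real.log 2)
    have b7 := abs_add_le (∫ t in (2 : ℝ)..y, (Chebyshev.theta t - t) / (t * Real.log t ^ 2))
        (∫ t in y..x, (Chebyshev.theta t - t) / (t * Real.log t ^ 2))
    have h0 : 0 ≤ x * E := by positivity
    have : x * (E / 20) = x * E / 20 := by ring
    rw [this] at b1 b2 b3 b4
    linarith

end Pool.Agent.Lib.VK
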