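import Pool.Agent.Lib.VK.Spec

/-!
# VK, module PPB (helper89): primes twisted by `χ(p) p^(it)` in short ranges
-/

set_option autoImplicit false

noncomputable section

namespace Pool.Agent.Lib.VK

open Finset Filter Topology

namespace PPBM

/-- the small function -/
def ε (x : ℝ) : ℝ := Real.exp (-(Real.log x) ^ (1 / 60 : ℝ))

theorem ev (A : ℝ) : ∃ X₀ : ℝ, ∀ x : ℝ, X₀ ≤ x → (Real.log x) ^ A * ε x ≤ 1 / 10 := by
  -- `u = (log x) ^ (1 / 60)`, `u ^ (60 A) e ^ (- u) → 0`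
  have h1 : Tendsto (fun x : ℝ => (Real.log x) ^ (1 / 60 : ℝ)) atTop atTop :=
    (tendsto_rpow_atTop (by norm_num)).comp Real.tendsto_log_atTop
  have h2 := (tendsto_rpow_mul_exp_neg_mul_atTop_nhds_zero (60 * A) 1 one_pos).comp h1
  have h3 := h2.eventually (gt_mem_nhds (show (0 : ℝ) < 1 / 10 by norm_num))
  obtain ⟨X₀, hX₀⟩ := eventually_atTop.1 (h3.and (eventually_ge_atTop (3 : ℝ)))
  refine ⟨X₀, fun x hx => ?_⟩
  obtain ⟨h4, h5⟩ := hX₀ x hx
  have hlog : 0 < Real.log x := Real.log_pos (by linarith)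
  simp only [Function.comp_apply] at h4
  have e1 : ((Real.log x) ^ (1 / 60 : ℝ)) ^ (60 * A) = (Real.log x) ^ A := by
    rw [← Real.rpow_mul hlog.le]
    congr 1
    ring
  rw [e1] at h4
  unfold ε
  have e2 : -1 * (Real.log x) ^ (1 / 60 : ℝ) = -(Real.log x) ^ (1 / 60 : ℝ) := by ring
  rw [e2] at h4
  exact h4.le

theorem ε_anti {x y : ℝ} (hx : 1 ≤ x) (hxy : x ≤ y) : ε y ≤ ε x := by
  unfold ε
  refine Real.exp_le_exp.2 (neg_le_neg ?_)
  exact Real.rpow_le_rpow (Real.log_nonneg hx) (Real.log_le_log (by linarith) hxy) (by norm_num)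

end PPBM

open PPBM in
theorem specPPB (h : SpecPPX) : SpecPPB := by
  intro A B C hA hB hC
  obtain ⟨x₀, hx₀⟩ := h ⌈B⌉₊ ⌈C⌉₊
  obtain ⟨X₁, hX₁⟩ := ev A
  refine ⟨A + 1, max (max x₀ X₁) (Real.exp 1000), ?_⟩
  intro P Y q _ χ t hP hPY hY2 hq ht hor
  have hPx : x₀ ≤ P := le_trans (le_max_left _ _) (le_trans (le_max_left _ _) hP)
  have hPX : X₁ ≤ P := le_trans (le_max_right _ _) (le_trans (le_max_left _ _) hP)
  have hPe : Real.exp 1000 ≤ P := le_trans (le_max_right _ _) hP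
  have hP0 : 0 < P := (Real.exp_pos _).trans_le hPe
  have hL : 1000 ≤ Real.log P := (Real.le_log_iff_exp_le hP0).2 hPe
  have hP1 : 1 ≤ P := by
    have := Real.add_one_le_exp (1000 : ℝ)
    linarith
  have hY0 : 0 < Y := hP0.trans_le hPY
  have hLY : Real.log P ≤ Real.log Y := Real.log_le_log hP0 hPY
  have hLpos : 0 < Real.log P := by linarith
  have hqB : (q : ℝ) ≤ (Real.log P) ^ ⌈B⌉₊ := by
    refine hq.trans ?_
    rw [← Real.rpow_natCast]
    exact Real.rpow_le_rpow_of_exponent_le (by linarith) (Nat.le_ceil B)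
  have htC : |t| ≤ P ^ ⌈C⌉₊ := by
    refine ht.trans ?_
    rw [← Real.rpow_natCast]
    exact Real.rpow_le_rpow_of_exponent_le hP1 (Nat.le_ceil C)
  have h1 := hx₀ P hPx q χ hqB t htC
  have h2 := hx₀ Y (hPx.trans hPY) q χ
    (hqB.trans (pow_le_pow_left₀ hLpos.le hLY _)) t
    (htC.trans (pow_le_pow_left₀ hP0.le hPY _))
  set f : ℕ → ℂ := fun p => χ (p : ZMod q) * tw t p with hf
  have hsplit : ∑ p ∈ (Ioc ⌊P⌋₊ ⌊Y⌋₊).filter Nat.Prime, χ (p : ZMod q) *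
      (p : ℂ) ^ ((t : ℂ) * Complex.I) =
      ∑ p ∈ (Icc 1 ⌊Y⌋₊).filter Nat.Prime, f p - ∑ p ∈ (Icc 1 ⌊P⌋₊).filter Nat.Prime, f p := by
    have hfl : ⌊P⌋₊ ≤ ⌊Y⌋₊ := Nat.floor_mono hPY
    have hu : (Icc 1 ⌊Y⌋₊).filter Nat.Prime = (Icc 1 ⌊P⌋₊).filter Nat.Prime ∪
        (Ioc ⌊P⌋₊ ⌊Y⌋₊).filter Nat.Prime := by
      ext p
      simp only [mem_filter, mem_Icc, mem_union, mem_Ioc]
      constructor
      · rintro ⟨⟨h1, h2⟩, h3⟩
        by_cases h4 : p ≤ ⌊P⌋₊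
        · exact Or.inl ⟨⟨h1, h4⟩, h3⟩
        · exact Or.inr ⟨⟨by omega, h2⟩, h3⟩
      · rintro (⟨⟨h1, h2⟩, h3⟩ | ⟨⟨h1, h2⟩, h3⟩)
        · exact ⟨⟨h1, by omega⟩, h3⟩
        · exact ⟨⟨by omega, h2⟩, h3⟩
    have hd : Disjoint ((Icc 1 ⌊P⌋₊).filter Nat.Prime) ((Ioc ⌊P⌋₊ ⌊Y⌋₊).filter Nat.Prime) := by
      rw [disjoint_left]
      intro p hp hp'
      simp only [mem_filter, mem_Icc, mem_Ioc] at hp hp'
      omega
    rw [hu, sum_union hd, add_sub_cancel_left]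
    rfl
  rw [hsplit]
  have hsm := hX₁ P hPX
  have hLA : 0 < (Real.log P) ^ A := Real.rpow_pos_of_pos hLpos A
  have hε0 : 0 ≤ ε P := (Real.exp_pos _).le
  have hεP : ε P ≤ 1 / 10 / (Real.log P) ^ A := by
    rw [le_div_iff₀ hLA, mul_comm]
    exact hsm
  have hεY : ε Y ≤ ε P := ε_anti hP1 hPY
  have k1 : P * ε P ≤ P * (1 / 10 / (Real.log P) ^ A) := mul_le_mul_of_nonneg_left hεP hP0.le
  have k2 : Y * ε Y ≤ 2 * P * (1 / 10 / (Real.log P) ^ A) :=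
    mul_le_mul hY2 (hεY.trans hεP) (Real.exp_pos _).le (by positivity)
  have e0 : P / (Real.log P) ^ A = 10 * (P * (1 / 10 / (Real.log P) ^ A)) := by
    field_simp
  have hnn : 0 ≤ P * (1 / 10 / (Real.log P) ^ A) := by positivity
  refine (norm_sub_le _ _).trans ?_
  by_cases hχ : χ = 1
  · have g1 := h1.2 hχ
    have g2 := h2.2 hχ
    change ‖∑ p ∈ (Icc 1 ⌊P⌋₊).filter Nat.Prime, f p‖ ≤ P * ε P + 10 * P / (1 + |t|) at g1
    change ‖∑ p ∈ (Icc 1 ⌊Y⌋₊).filter Nat.Prime, f p‖ ≤ Y * ε Y + 10 * Y / (1 + |t|) at g2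
    have hK : (Real.log P) ^ (A + 1) ≤ |t| := by
      rcases hor with h | h
      · exact absurd hχ h
      · exact h
    have hK2 : 1000 * (Real.log P) ^ A ≤ 1 + |t| := by
      have e1 : (Real.log P) ^ (A + 1) = (Real.log P) ^ A * Real.log P := by
        rw [Real.rpow_add hLpos, Real.rpow_one]
      rw [e1] at hK
      have := mul_le_mul_of_nonneg_left hL hLA.le
      linarith
    have k3 : 10 * P / (1 + |t|) ≤ P * (1 / 10 / (Real.log P) ^ A) := by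
      rw [div_le_iff₀ (by positivity)]
      have e1 : P * (1 / 10 / (Real.log P) ^ A) * (1000 * (Real.log P) ^ A) = 100 * P := by
        field_simp
        norm_num
      have := mul_le_mul_of_nonneg_left hK2 hnn
      rw [e1] at this
      linarith
    have k4 : 10 * Y / (1 + |t|) ≤ 2 * (P * (1 / 10 / (Real.log P) ^ A)) := by
      have : 10 * Y / (1 + |t|) ≤ 2 * (10 * P / (1 + |t|)) := by
        rw [← mul_div_assoc]
        exact div_le_div_of_nonneg_right (by linarith) (by positivity)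
      linarith
    rw [e0]
    linarith
  · have g1 := h1.1 hχ
    have g2 := h2.1 hχ
    change ‖∑ p ∈ (Icc 1 ⌊P⌋₊).filter Nat.Prime, f p‖ ≤ P * ε P at g1
    change ‖∑ p ∈ (Icc 1 ⌊Y⌋₊).filter Nat.Prime, f p‖ ≤ Y * ε Y at g2
    rw [e0]
    linarith

end Pool.Agent.Lib.VK
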