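import Pool.Agent.Lib.VK.Spec

/-!
# PPX: primes twisted by `χ(p) p^(iτ)`
-/

set_option autoImplicit false

noncomputable section

namespace Pool.Agent.Lib.VK

open Finset MeasureTheory Metric
open scoped ArithmeticFunction
open Pool.Agent.Lib.LargeAP (ldL KG Pp)
open Pool.Agent.Lib.LP (G)

namespace PPXM

lemma norm_tw (τ : ℝ) (n : ℕ) : ‖tw τ n‖ ≤ 1 := by
  unfold tw
  rcases Nat.eq_zero_or_pos n with rfl | hn
  · by_cases h : ((τ : ℂ) * Complex.I) = 0
    · rw [h, Complex.cpow_zero]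
      simp
    · rw [Nat.cast_zero, Complex.zero_cpow h]
      simp
  · rw [Complex.norm_natCast_cpow_of_pos hn]
    simp

lemma four_exp {T w : ℝ} (hT : 262144 ≤ T) (hw : w ≤ T / 8) :
    4 * Real.exp (-(T / 4)) ≤ Real.exp (-w) := by
  have h1 : Real.exp (-(T / 4)) = Real.exp (-(T / 8)) * Real.exp (-(T / 8)) := by
    rw [← Real.exp_add]
    ring_nf
  have h2 : 4 * Real.exp (-(T / 8)) ≤ 1 := by
    have h3 : T / 8 + 1 ≤ Real.exp (T / 8) := Real.add_one_le_exp _
    have h4 : Real.exp (-(T / 8)) * Real.exp (T / 8) = 1 := by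
      rw [← Real.exp_add, neg_add_cancel, Real.exp_zero]
    have h5 := Real.exp_pos (-(T / 8))
    nlinarith
  have h3 : Real.exp (-(T / 8)) ≤ Real.exp (-w) := Real.exp_le_exp.2 (by linarith)
  have h4 := Real.exp_pos (-(T / 8))
  rw [h1]
  nlinarith

lemma main_le {τ T t : ℝ} (hT : 0 ≤ T) (ht : 0 < t) :
    ‖Complex.exp ((1 + τ * Complex.I) ^ 2 / (4 * Real.exp T)) *
      ((Complex.exp ((1 + τ * Complex.I) * Real.log t) -
        Complex.exp ((1 + τ * Complex.I) * (Real.log t - T))) / (1 + τ * Complex.I))‖ ≤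
      t * (4 / (1 + |τ|)) := by
  have e1 : ‖Complex.exp ((1 + τ * Complex.I) ^ 2 / (4 * Real.exp T))‖ ≤ 13 / 10 := by
    rw [Complex.norm_exp]
    have h1 : ((1 + τ * Complex.I) ^ 2 / (4 * Real.exp T) : ℂ) =
        (1 + τ * Complex.I) ^ 2 / ((4 * Real.exp T : ℝ) : ℂ) := by
      push_cast
      rfl
    have h2 : ((1 + (τ : ℂ) * Complex.I) ^ 2).re = 1 - τ ^ 2 := by
      rw [sq]
      simp [Complex.mul_re]
      ring
    rw [h1, Complex.div_ofReal_re, h2]
    have h3 : 1 ≤ Real.exp T := Real.one_le_exp hT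
    have h4 : (1 - τ ^ 2) / (4 * Real.exp T) ≤ 1 / 4 := by
      rw [div_le_iff₀ (by positivity)]
      nlinarith [sq_nonneg τ]
    have h5 : Real.exp ((1 - τ ^ 2) / (4 * Real.exp T)) ≤ Real.exp (1 / 4) :=
      Real.exp_le_exp.2 h4
    have h6 : Real.exp (1 / 4) ≤ 13 / 10 := by
      by_contra hcon
      push Not at hcon
      have h7 : (13 / 10 : ℝ) ^ 4 < Real.exp (1 / 4) ^ 4 :=
        pow_lt_pow_left₀ hcon (by norm_num) (by norm_num)
      have h8 : Real.exp (1 / 4) ^ 4 = Real.exp 1 := by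
        rw [← Real.exp_nat_mul]
        norm_num
      rw [h8] at h7
      have h9 := Real.exp_one_lt_d9
      norm_num at h7
      linarith
    linarith
  have e2 : ‖Complex.exp ((1 + τ * Complex.I) * Real.log t)‖ = t := by
    rw [Complex.norm_exp]
    have h1 : ((1 + (τ : ℂ) * Complex.I) * (Real.log t : ℂ)).re = Real.log t := by
      rw [Complex.re_mul_ofReal]
      simp
    rw [h1, Real.exp_log ht]
  have e3 : ‖Complex.exp ((1 + τ * Complex.I) * (Real.log t - T))‖ ≤ t := by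
    rw [Complex.norm_exp]
    have h1 : ((1 + (τ : ℂ) * Complex.I) * ((Real.log t : ℂ) - T)).re = Real.log t - T := by
      rw [← Complex.ofReal_sub, Complex.re_mul_ofReal]
      simp
    rw [h1]
    calc Real.exp (Real.log t - T) ≤ Real.exp (Real.log t) := Real.exp_le_exp.2 (by linarith)
      _ = t := Real.exp_log ht
  have e4 : ‖Complex.exp ((1 + τ * Complex.I) * Real.log t) -
      Complex.exp ((1 + τ * Complex.I) * (Real.log t - T))‖ ≤ 2 * t := by
    refine (norm_sub_le _ _).trans ?_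
    rw [e2]
    linarith
  have e5 : ‖(1 : ℂ) + τ * Complex.I‖ ^ 2 = 1 + τ ^ 2 := by
    rw [← Complex.normSq_eq_norm_sq, Complex.normSq_apply]
    simp
    ring
  have e6 : 26 / 10 * (1 + |τ|) ≤ 4 * ‖(1 : ℂ) + τ * Complex.I‖ := by
    have h0 := norm_nonneg ((1 : ℂ) + τ * Complex.I)
    have h1 := abs_nonneg τ
    have h2 : |τ| ^ 2 = τ ^ 2 := sq_abs τ
    by_contra hcon
    push Not at hcon
    nlinarith [sq_nonneg (|τ| - 1)]
  have e7 : 0 < ‖(1 : ℂ) + τ * Complex.I‖ := by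
    have h1 := abs_nonneg τ
    linarith
  have e8 : 0 < 1 + |τ| := by
    have h1 := abs_nonneg τ
    linarith
  rw [norm_mul, norm_div]
  calc ‖Complex.exp ((1 + τ * Complex.I) ^ 2 / (4 * Real.exp T))‖ *
        (‖Complex.exp ((1 + τ * Complex.I) * Real.log t) -
          Complex.exp ((1 + τ * Complex.I) * (Real.log t - T))‖ / ‖(1 : ℂ) + τ * Complex.I‖)
      ≤ 13 / 10 * (2 * t / ‖(1 : ℂ) + τ * Complex.I‖) := by
        apply mul_le_mul e1 _ (by positivity) (by norm_num)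
        exact div_le_div_of_nonneg_right e4 e7.le
    _ ≤ t * (4 / (1 + |τ|)) := by
        have h1 : 13 / 10 * (2 * t / ‖(1 : ℂ) + τ * Complex.I‖) =
            (26 / 10 * t) / ‖(1 : ℂ) + τ * Complex.I‖ := by ring
        have h2 : t * (4 / (1 + |τ|)) = (4 * t) / (1 + |τ|) := by ring
        rw [h1, h2, div_le_div_iff₀ e7 e8]
        nlinarith

lemma one_char {q : ℕ} [NeZero q] (τ : ℝ) (S : Finset ℕ) (hS : ∀ p ∈ S, p.Prime) :
    ‖∑ p ∈ S, (1 : DirichletCharacter ℂ q) (p : ZMod q) * tw τ p‖ ≤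
      ‖∑ p ∈ S, tw τ p‖ + q := by
  have h1 : ∑ p ∈ S, (1 : DirichletCharacter ℂ q) (p : ZMod q) * tw τ p =
      ∑ p ∈ S, tw τ p + ∑ p ∈ S, ((1 : DirichletCharacter ℂ q) (p : ZMod q) - 1) * tw τ p := by
    rw [← Finset.sum_add_distrib]
    exact Finset.sum_congr rfl fun p _ => by ring
  rw [h1]
  refine (norm_add_le _ _).trans (add_le_add le_rfl ?_)
  have h2 : ∀ p ∈ S, ‖((1 : DirichletCharacter ℂ q) (p : ZMod q) - 1) * tw τ p‖ ≤
      if p ∣ q then (1 : ℝ) else 0 := by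
    intro p hp
    by_cases hu : IsUnit (p : ZMod q)
    · rw [MulChar.one_apply hu, sub_self, zero_mul, norm_zero]
      split_ifs <;> norm_num
    · rw [MulChar.map_nonunit _ hu, zero_sub, norm_mul, norm_neg, norm_one, one_mul]
      have h3 : p ∣ q := by
        by_contra h
        exact hu ((ZMod.isUnit_iff_coprime p q).2 ((Nat.Prime.coprime_iff_not_dvd (hS p hp)).2 h))
      rw [if_pos h3]
      exact norm_tw τ p
  refine (norm_sum_le_of_le _ h2).trans ?_
  rw [← Finset.sum_filter, Finset.sum_const, nsmul_eq_mul, mul_one]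
  have h3 : S.filter (fun p => p ∣ q) ⊆ Icc 1 q := by
    intro p hp
    rw [Finset.mem_filter] at hp
    exact Finset.mem_Icc.2 ⟨(hS p hp.1).one_le, Nat.le_of_dvd (Nat.pos_of_ne_zero (NeZero.ne q)) hp.2⟩
  have h4 := Finset.card_le_card h3
  rw [Nat.card_Icc, Nat.add_sub_cancel] at h4
  exact_mod_cast h4

end PPXM

open PPXM in
theorem specPPX (hPSL : SpecPSL) (hPZM : SpecPZM) (hPRT : SpecPRT) : SpecPPX := by
  intro A C
  obtain ⟨T₁, hT₁, h1⟩ := hPSL (50 * A) C
  obtain ⟨T₂, hT₂, h2⟩ := hPZM C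
  obtain ⟨T₀, h3⟩ := hPRT
  obtain ⟨Y, hY⟩ : ∃ Y : ℝ, ∀ y : ℝ, Y ≤ y → y ^ A ≤ Real.exp (y / 2) := by
    have h := (isLittleO_pow_exp_pos_mul_atTop (k := A) (b := 1 / 2) (by norm_num)).bound
      (c := 1) (by norm_num)
    obtain ⟨Y, hY⟩ := Filter.eventually_atTop.1 h
    refine ⟨Y, fun y hy => ?_⟩
    have h5 := hY y hy
    rw [one_mul, Real.norm_eq_abs, Real.norm_eq_abs, abs_of_pos (Real.exp_pos _)] at h5
    refine (le_abs_self _).trans (h5.trans (le_of_eq ?_))
    congr 1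
    ring
  set M : ℝ := max (max T₁ T₂) (max (max T₀ 262144) Y) with hM
  have hM1 : T₁ ≤ M := (le_max_left _ _).trans (le_max_left _ _)
  have hM2 : T₂ ≤ M := (le_max_right _ _).trans (le_max_left _ _)
  have hM0 : T₀ ≤ M := ((le_max_left _ _).trans (le_max_left _ _)).trans (le_max_right _ _)
  have hM3 : 262144 ≤ M := ((le_max_right _ _).trans (le_max_left _ _)).trans (le_max_right _ _)
  have hM4 : Y ≤ M := (le_max_right _ _).trans (le_max_right _ _)
  refine ⟨Real.exp (M ^ 50), fun x hx q _ χ hq τ hτ => ?_⟩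
  have hx0 : 0 < x := lt_of_lt_of_le (Real.exp_pos _) hx
  have hL : M ^ 50 ≤ Real.log x := (Real.le_log_iff_exp_le hx0).2 hx
  have hMp : 0 < M ^ 50 := by positivity
  have hL0 : 0 < Real.log x := lt_of_lt_of_le hMp hL
  set s : ℝ := (Real.log x) ^ (1 / 300 : ℝ) with hs
  have hs0 : 0 < s := Real.rpow_pos_of_pos hL0 _
  have hs300 : s ^ 300 = Real.log x := by
    rw [hs, ← Real.rpow_natCast, ← Real.rpow_mul hL0.le]
    norm_num
  have hs5 : (Real.log x) ^ (1 / 60 : ℝ) = s ^ 5 := by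
    rw [hs, ← Real.rpow_natCast, ← Real.rpow_mul hL0.le]
    norm_num
  set T : ℝ := s ^ 6 with hT
  have hT50 : T ^ 50 = Real.log x := by
    rw [hT, ← pow_mul]
    exact hs300
  have hTM : M ≤ T := by
    by_contra hcon
    push Not at hcon
    have : T ^ 50 < M ^ 50 := pow_lt_pow_left₀ hcon (by positivity) (by norm_num)
    linarith
  have hT3 : 262144 ≤ T := hM3.trans hTM
  have hT0 : 0 < T := by linarith
  have hT1 : 1 ≤ T := by linarith
  have hs8 : 8 ≤ s := by
    by_contra hcon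
    push Not at hcon
    have : s ^ 6 < 8 ^ 6 := pow_lt_pow_left₀ hcon hs0.le (by norm_num)
    norm_num at this
    linarith
  have hw : (Real.log x) ^ (1 / 60 : ℝ) ≤ T / 8 := by
    rw [hs5, hT]
    have h5 : s ^ 6 = s ^ 5 * s := by ring
    have h6 : 0 < s ^ 5 := by positivity
    rw [h5]
    nlinarith
  have hxT : x = Real.exp (T ^ 50) := by
    rw [hT50, Real.exp_log hx0]
  have hτ' : |τ| ≤ Real.exp (C * T ^ 50) := by
    rw [hT50]
    refine hτ.trans (le_of_eq ?_)
    rw [Real.exp_nat_mul, Real.exp_log hx0]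
  have hq' : (q : ℝ) ≤ T ^ (50 * A) := by
    rw [pow_mul, hT50]
    exact hq
  have hTT : T ^ 50 ≤ T ^ 59 := pow_le_pow_right₀ hT1 (by norm_num)
  have hTT2 : T ^ 48 ≤ Real.log x := by
    rw [← hT50]
    exact pow_le_pow_right₀ hT1 (by norm_num)
  have hT2 : 2 * T ≤ T ^ 50 := by
    have h5 : T ^ 2 ≤ T ^ 50 := pow_le_pow_right₀ hT1 (by norm_num)
    nlinarith
  have hrange : ∀ t : ℝ, x * Real.exp (-T) ≤ t → t ≤ x →
      0 < t ∧ T ^ 50 / 2 ≤ Real.log t ∧ Real.log t ≤ T ^ 59 := by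
    intro t ht1 ht2
    have hp : 0 < x * Real.exp (-T) := by positivity
    have ht0 : 0 < t := lt_of_lt_of_le hp ht1
    have h5 := Real.log_le_log hp ht1
    rw [Real.log_mul hx0.ne' (Real.exp_pos _).ne', Real.log_exp] at h5
    have h6 := Real.log_le_log ht0 ht2
    rw [← hT50] at h5 h6
    exact ⟨ht0, by linarith, by linarith⟩
  have h4e := four_exp hT3 hw
  have hE : Real.exp (-(T / 2)) ≤ Real.exp (-(T / 4)) := Real.exp_le_exp.2 (by linarith)
  refine ⟨fun hχ => ?_, fun hχ => ?_⟩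
  · have h5 := h3 T (hM0.trans hTM) (fun n => χ (n : ZMod q) * tw τ n) (fun n => by
      rw [norm_mul]
      exact mul_le_one₀ (DirichletCharacter.norm_le_one χ _) (norm_nonneg _) (norm_tw τ n))
      x (Real.exp (-(T / 4))) hx0 hTT2 (Real.exp_pos _).le (fun t ht1 ht2 => by
        obtain ⟨g0, g1, g2⟩ := hrange t ht1 ht2
        exact h1 T (hM1.trans hTM) q χ hχ hq' τ t hτ' g0 g1 g2)
    refine h5.trans ?_
    have h6 : 2 * x * Real.exp (-(T / 4)) + x * Real.exp (-(T / 2)) ≤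
        x * (4 * Real.exp (-(T / 4))) := by
      have := Real.exp_pos (-(T / 4))
      nlinarith
    exact h6.trans (mul_le_mul_of_nonneg_left h4e hx0.le)
  · subst hχ
    have h5 := h3 T (hM0.trans hTM) (fun n => tw τ n) (fun n => norm_tw τ n)
      x (Real.exp (-(T / 4)) + 4 / (1 + |τ|)) hx0 hTT2 (by positivity) (fun t ht1 ht2 => by
        obtain ⟨g0, g1, g2⟩ := hrange t ht1 ht2
        have g3 := h2 T (hM2.trans hTM) τ t hτ' g0 g1 g2
        have g4 := main_le (τ := τ) (T := T) (t := t) hT0.le g0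
        have g5 := norm_le_norm_add_norm_sub' (∑ n ∈ Icc 1 ⌊t⌋₊,
          ((ArithmeticFunction.vonMangoldt n : ℝ) : ℂ) * tw τ n)
          (Complex.exp ((1 + τ * Complex.I) ^ 2 / (4 * Real.exp T)) *
            ((Complex.exp ((1 + τ * Complex.I) * Real.log t) -
              Complex.exp ((1 + τ * Complex.I) * (Real.log t - T))) / (1 + τ * Complex.I)))
        refine g5.trans ?_
        rw [mul_add]
        linarith)
    have h6 := one_char (q := q) τ ((Icc 1 ⌊x⌋₊).filter Nat.Prime)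
      (fun p hp => (Finset.mem_filter.1 hp).2)
    refine h6.trans ?_
    have h7 : (q : ℝ) ≤ x * Real.exp (-(T / 2)) := by
      refine hq.trans ?_
      have h8 : Y ≤ Real.log x := by
        rw [← hT50]
        have : T ≤ T ^ 50 := le_self_pow₀ hT1 (by norm_num)
        linarith
      refine (hY _ h8).trans ?_
      rw [hxT, ← Real.exp_add, Real.log_exp]
      apply Real.exp_le_exp.2
      linarith
    have h9 : x * (4 * Real.exp (-(T / 4))) ≤
        x * Real.exp (-(Real.log x) ^ (1 / 60 : ℝ)) := mul_le_mul_of_nonneg_left h4e hx0.le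
    have h10 : x * Real.exp (-(T / 2)) ≤ x * Real.exp (-(T / 4)) :=
      mul_le_mul_of_nonneg_left hE hx0.le
    have h11 : 0 ≤ x / (1 + |τ|) := by positivity
    have h12 : 10 * x / (1 + |τ|) = 10 * (x / (1 + |τ|)) := by ring
    have h13 : 2 * x * (Real.exp (-(T / 4)) + 4 / (1 + |τ|)) =
        2 * (x * Real.exp (-(T / 4))) + 8 * (x / (1 + |τ|)) := by ring
    rw [h13] at h5
    rw [h12]
    linarith

end Pool.Agent.Lib.VK
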