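import Pool.Agent.Lib.VK.Spec
import Pool.Agent.Lib.SW.PRS

/-!
# Lib/VK, module PRT (helper37): from `Λ` to primes, for arbitrary coefficients
-/

set_option autoImplicit false

noncomputable section

namespace Pool.Agent.Lib.VK

open ArithmeticFunction

namespace PRTM

/-- the sum over the primes -/
def C (a : ℕ → ℂ) (N : ℕ) : ℂ :=
  ∑ p ∈ (Finset.Icc 1 N).filter Nat.Prime, a p * (Real.log p : ℂ)

theorem psi_sub {a : ℕ → ℂ} (ha : ∀ n, ‖a n‖ ≤ 1) {x : ℝ} (hx : 1 ≤ x) :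
    ‖C a ⌊x⌋₊‖ ≤ ‖∑ n ∈ Finset.Icc 1 ⌊x⌋₊, ((vonMangoldt n : ℝ) : ℂ) * a n‖ +
      2 * Real.sqrt x * Real.log x := by
  have h1 : ∑ n ∈ Finset.Icc 1 ⌊x⌋₊, ((vonMangoldt n : ℝ) : ℂ) * a n =
      C a ⌊x⌋₊ +
        ∑ n ∈ (Finset.Icc 1 ⌊x⌋₊).filter (fun n => ¬ n.Prime), ((vonMangoldt n : ℝ) : ℂ) * a n := by
    rw [← Finset.sum_filter_add_sum_filter_not (Finset.Icc 1 ⌊x⌋₊) Nat.Prime]
    have h2 : ∑ n ∈ (Finset.Icc 1 ⌊x⌋₊).filter Nat.Prime, ((vonMangoldt n : ℝ) : ℂ) * a n =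
        C a ⌊x⌋₊ := by
      refine Finset.sum_congr rfl fun p hp => ?_
      rw [vonMangoldt_apply_prime (Finset.mem_filter.1 hp).2, mul_comm]
    rw [h2]
  have h3 : ‖∑ n ∈ (Finset.Icc 1 ⌊x⌋₊).filter (fun n => ¬ n.Prime),
      ((vonMangoldt n : ℝ) : ℂ) * a n‖ ≤ 2 * Real.sqrt x * Real.log x := by
    refine le_trans ?_ (Chebyshev.psi_sub_theta_le hx)
    rw [Chebyshev.psi_sub_theta_eq_sum_not_prime, ← SW.PRSM.Icc_eq]
    refine (norm_sum_le _ _).trans (Finset.sum_le_sum fun n _ => ?_)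
    rw [norm_mul, Complex.norm_real, Real.norm_eq_abs, abs_of_nonneg vonMangoldt_nonneg]
    exact mul_le_of_le_one_right vonMangoldt_nonneg (ha _)
  have h4 : C a ⌊x⌋₊ = ∑ n ∈ Finset.Icc 1 ⌊x⌋₊, ((vonMangoldt n : ℝ) : ℂ) * a n -
      ∑ n ∈ (Finset.Icc 1 ⌊x⌋₊).filter (fun n => ¬ n.Prime), ((vonMangoldt n : ℝ) : ℂ) * a n := by
    rw [h1]
    ring
  rw [h4]
  exact (norm_sub_le _ _).trans (add_le_add le_rfl h3)

theorem triv {a : ℕ → ℂ} (ha : ∀ n, ‖a n‖ ≤ 1) (N : ℕ) : ‖C a N‖ ≤ 2 * (N : ℝ) := by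
  have h1 : ‖C a N‖ ≤ Chebyshev.theta N := by
    unfold C Chebyshev.theta
    rw [Nat.floor_natCast, ← SW.PRSM.Icc_eq]
    refine (norm_sum_le _ _).trans (Finset.sum_le_sum fun p hp => ?_)
    have hp1 : 1 ≤ p := (Finset.mem_Icc.1 (Finset.mem_filter.1 hp).1).1
    have h0 : 0 ≤ Real.log p := Real.log_nonneg (by exact_mod_cast hp1)
    rw [norm_mul, Complex.norm_real, Real.norm_eq_abs, abs_of_nonneg h0]
    exact mul_le_of_le_one_left h0 (ha _)
  have h2 := Chebyshev.theta_le_log4_mul_x (x := (N : ℝ)) (Nat.cast_nonneg N)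
  have h3 : Real.log 4 ≤ 2 := by
    have h4 : Real.log 4 = 2 * Real.log 2 := by
      rw [(by norm_num : (4 : ℝ) = 2 ^ 2), Real.log_pow]
      norm_num
    have := Real.log_two_lt_d9
    rw [h4]
    linarith
  have h5 : Real.log 4 * (N : ℝ) ≤ 2 * (N : ℝ) := mul_le_mul_of_nonneg_right h3 (Nat.cast_nonneg N)
  linarith

end PRTM

open PRTM in
/-- **PRT.** -/
theorem specPRT : SpecPRT := by
  refine ⟨30, ?_⟩
  intro T hT a ha x E hx0 hx1 hE0 hyp
  have hTpos : 0 < T := by linarith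
  have hT1 : 1 ≤ T := by linarith
  have h9T : 9 * T ≤ T ^ 48 := by
    have h1 : T ^ 2 ≤ T ^ 48 := pow_le_pow_right₀ hT1 (by norm_num)
    nlinarith
  have hlx : 1 < Real.log x := by linarith
  have hxe : 1 ≤ x := by
    by_contra hcon
    push Not at hcon
    have := Real.log_nonpos hx0.le hcon.le
    linarith
  have hx2' : 2 ≤ x := by
    by_contra hcon
    push Not at hcon
    have h1 := Real.log_le_sub_one_of_pos hx0
    linarith
  have hE : 0 < Real.exp (-T) := Real.exp_pos _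
  have hN2 : 2 ≤ ⌊x⌋₊ := Nat.le_floor (by exact_mod_cast hx2')
  -- all partial sums
  have hS : ∀ n : ℕ, 1 ≤ n → n ≤ ⌊x⌋₊ → ‖C a n‖ ≤ x * E + 2 * x * Real.exp (-T) := by
    intro n hn1 hnN
    have hnx : (n : ℝ) ≤ x := (Nat.le_floor_iff hx0.le).1 hnN
    have hn0 : (0 : ℝ) < n := by exact_mod_cast hn1
    have hxE : 0 ≤ x * E := mul_nonneg hx0.le hE0
    rcases lt_or_ge (n : ℝ) (x * Real.exp (-T)) with hs | hs
    · refine (triv ha n).trans ?_
      linarith
    · have hl1 : Real.log x - T ≤ Real.log n := by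
        have h3 := Real.log_le_log (mul_pos hx0 hE) hs
        rw [Real.log_mul hx0.ne' hE.ne', Real.log_exp] at h3
        linarith
      have h4 := psi_sub ha (x := (n : ℝ)) (by exact_mod_cast hn1)
      have h5 := hyp n hs hnx
      have h6 := SW.PRSM.small (T := 4 * T) (t := (n : ℝ)) (by linarith) hn0 (by linarith)
      rw [Nat.floor_natCast] at h4 h5
      have h7 : (4 * T / 4) = T := by ring
      rw [h7] at h6
      have h8 : (n : ℝ) * Real.exp (-T) ≤ x * Real.exp (-T) :=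
        mul_le_mul_of_nonneg_right hnx hE.le
      have h9 : (n : ℝ) * E ≤ x * E := mul_le_mul_of_nonneg_right hnx hE0
      have h10 : 0 < x * Real.exp (-T) := mul_pos hx0 hE
      linarith
  have hab := SW.PRSM.abel (a := fun n => if n.Prime then a n * (Real.log n : ℂ) else 0) (A := C a)
    (by
      unfold C
      rw [Finset.sum_filter, Finset.Icc_self, Finset.sum_singleton, if_neg Nat.not_prime_one])
    (by
      intro n hn
      unfold C
      rw [Finset.sum_filter, Finset.sum_filter]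
      have h1 : Finset.Icc 1 (n + 1) = insert (n + 1) (Finset.Icc 1 n) := by
        ext k
        simp only [Finset.mem_Icc, Finset.mem_insert]
        omega
      have h2 : n + 1 ∉ Finset.Icc 1 n := by
        simp only [Finset.mem_Icc]
        omega
      rw [h1, Finset.sum_insert h2, add_comm]) ⌊x⌋₊ hN2 hS
  have hsum : ∑ p ∈ (Finset.Icc 1 ⌊x⌋₊).filter Nat.Prime, a p =
      ∑ n ∈ Finset.Icc 2 ⌊x⌋₊, (if n.Prime then a n * (Real.log n : ℂ) else 0) *
        ((Real.log n)⁻¹ : ℝ) := by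
    rw [Finset.sum_filter]
    have h1 : Finset.Icc 1 ⌊x⌋₊ = insert 1 (Finset.Icc 2 ⌊x⌋₊) := by
      ext k
      simp only [Finset.mem_Icc, Finset.mem_insert]
      omega
    have h2 : 1 ∉ Finset.Icc 2 ⌊x⌋₊ := by
      simp only [Finset.mem_Icc]
      omega
    rw [h1, Finset.sum_insert h2, if_neg Nat.not_prime_one, zero_add]
    refine Finset.sum_congr rfl fun n _ => ?_
    by_cases hp : n.Prime
    · rw [if_pos hp, if_pos hp]
      have h3 : (Real.log n : ℂ) ≠ 0 := by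
        have := Real.log_pos (x := (n : ℝ)) (by exact_mod_cast hp.one_lt)
        exact_mod_cast this.ne'
      rw [Complex.ofReal_inv, mul_assoc, mul_inv_cancel₀ h3, mul_one]
    · rw [if_neg hp, if_neg hp, zero_mul]
  rw [hsum]
  refine hab.trans ?_
  have hl2 : (Real.log 2)⁻¹ ≤ 2 := by
    rw [inv_le_comm₀ (Real.log_pos (by norm_num)) (by norm_num)]
    have := Real.log_two_gt_d9
    norm_num at this ⊢
    linarith
  have h5 : (x * E + 2 * x * Real.exp (-T)) * (Real.log 2)⁻¹ ≤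
      (x * E + 2 * x * Real.exp (-T)) * 2 :=
    mul_le_mul_of_nonneg_left hl2 (by positivity)
  refine h5.trans ?_
  have h6 : 4 * Real.exp (-T) ≤ Real.exp (-(T / 2)) := by
    have h1 : Real.exp (-(T / 2)) = Real.exp (T / 2) * Real.exp (-T) := by
      rw [← Real.exp_add]
      congr 1
      ring
    have h2 : 4 ≤ Real.exp (T / 2) := by
      have h3 := Real.add_one_le_exp (T / 2)
      linarith
    rw [h1]
    exact mul_le_mul_of_nonneg_right h2 hE.le
  have h7 := mul_le_mul_of_nonneg_left h6 hx0.le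
  linarith

end Pool.Agent.Lib.VK
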