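import Pool.Agent.Lib.VK.Spec
import Pool.Agent.Lib.LP.LDB

/-!
# VK, module PSL: twisted sums over prime powers, nonprincipal characters
-/

set_option autoImplicit false

noncomputable section

namespace Pool.Agent.Lib.VK

open Finset MeasureTheory
open scoped ArithmeticFunction
open Pool.Agent.Lib.LargeAP (ldL KG)
open Pool.Agent.Lib.LP (G)

namespace PSLM

theorem norm_tw_le (τ : ℝ) (n : ℕ) : ‖tw τ n‖ ≤ 1 := by
  unfold tw
  rcases Nat.eq_zero_or_pos n with rfl | hn
  · by_cases h : (τ : ℂ) * Complex.I = 0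
    · rw [h]
      simp
    · rw [Nat.cast_zero, Complex.zero_cpow h]
      simp
  · rw [Complex.norm_natCast_cpow_of_pos hn]
    simp

theorem norm_a_le {q : ℕ} [NeZero q] (χ : DirichletCharacter ℂ q) (τ : ℝ) (n : ℕ) :
    ‖χ (n : ZMod q) * tw τ n‖ ≤ 1 := by
  rw [norm_mul]
  exact mul_le_one₀ (DirichletCharacter.norm_le_one χ _) (norm_nonneg _) (norm_tw_le τ n)

theorem heights (C : ℕ) {T : ℝ} (hT : 1000 ≤ T) :
    Real.exp T + Real.exp (C * T ^ 50) ≤ Real.exp (((C + 1 : ℕ) : ℝ) * T ^ 50) := by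
  have h0 : (0 : ℝ) ≤ C * T ^ 50 := by positivity
  have h1 : 1 ≤ Real.exp (C * T ^ 50) := Real.one_le_exp h0
  have h2 : T + 1 ≤ T ^ 50 := by
    have : T ^ 2 ≤ T ^ 50 := pow_le_pow_right₀ (by linarith) (by norm_num)
    nlinarith
  have h3 : Real.exp T + 1 ≤ Real.exp (T ^ 50) := by
    have h4 : Real.exp (T + 1) ≤ Real.exp (T ^ 50) := Real.exp_le_exp.2 h2
    have h5 : 1 ≤ Real.exp T := Real.one_le_exp (by linarith)
    have h6 : 2 ≤ Real.exp 1 := by
      have := Real.add_one_le_exp (1 : ℝ)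
      linarith
    rw [Real.exp_add] at h4
    nlinarith
  have h7 : Real.exp (((C + 1 : ℕ) : ℝ) * T ^ 50) = Real.exp (C * T ^ 50) * Real.exp (T ^ 50) := by
    rw [← Real.exp_add]
    congr 1
    push_cast
    ring
  rw [h7]
  have h8 : Real.exp (C * T ^ 50) * (Real.exp T + 1) ≤
      Real.exp (C * T ^ 50) * Real.exp (T ^ 50) :=
    mul_le_mul_of_nonneg_left h3 (Real.exp_pos _).le
  have h9 : Real.exp T ≤ Real.exp (C * T ^ 50) * Real.exp T := by
    have := Real.exp_pos T
    nlinarith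
  linarith

end PSLM

open PSLM in
theorem specPSL (hGLL : SpecGLL) (hGEX : SpecGEX) (hTWL : SpecTWL) (hCON : SpecCON)
    (hUSM : SpecUSM) : SpecPSL := by
  intro A C
  obtain ⟨T1, hT1, hG⟩ := hGLL A (C + 1)
  obtain ⟨T2, hC⟩ := hCON
  obtain ⟨T3, hU⟩ := hUSM
  refine ⟨max T1 (max T2 T3), hT1.trans (le_max_left _ _), ?_⟩
  intro T hT q _ χ hχ hq τ x hτ hx hx1 hx2
  have hTT1 : T1 ≤ T := (le_max_left _ _).trans hT
  have hTT2 : T2 ≤ T := ((le_max_left _ _).trans (le_max_right _ _)).trans hT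
  have hTT3 : T3 ≤ T := ((le_max_right _ _).trans (le_max_right _ _)).trans hT
  have hT1000 : 1000 ≤ T := hT1.trans hTT1
  have hT0 : 0 < T := by linarith
  have hT1' : (1 : ℝ) ≤ T := by linarith
  set a : ℕ → ℂ := fun n => χ (n : ZMod q) * tw τ n with ha
  have ha1 : ∀ n, ‖a n‖ ≤ 1 := fun n => norm_a_le χ τ n
  set X : ℝ := Real.log x with hX
  have hd := DirichletCharacter.differentiable_LFunction hχ
  have h49 : T ^ 49 ≤ X - T := by
    have e1 : T ^ 50 = T ^ 49 * T := pow_succ T 49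
    have e2 : T ≤ T ^ 49 := le_self_pow₀ hT1' (by norm_num)
    nlinarith
  have h60 : T ^ 59 ≤ T ^ 60 := pow_le_pow_right₀ hT1' (by norm_num)
  have hT49 : 1 ≤ T ^ 49 := one_le_pow₀ hT1'
  have hw : ∀ t : ℝ, ∀ u : ℝ, (((1 + 1 / u : ℝ) : ℂ) + t * Complex.I + ((-τ : ℝ) : ℂ) * Complex.I) =
      ((1 + 1 / u : ℝ) : ℂ) + t * Complex.I - τ * Complex.I := by
    intro t u
    push_cast
    ring
  -- the pointwise bound
  have key : ∀ u : ℝ, X - T ≤ u → u ≤ X → ‖FF (Real.exp T) a u‖ ≤ Real.exp (u - 2 * T) := by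
    intro u hu1 hu2
    have hu49 : T ^ 49 ≤ u := h49.trans hu1
    have hu1' : 1 ≤ u := hT49.trans hu49
    have hu0 : 0 < u := by linarith
    have h1u : 0 < 1 / u := by positivity
    have h1u' : 1 / u ≤ 1 := by
      rw [div_le_one hu0]
      exact hu1'
    have hσ : 1 < 1 + 1 / u := by linarith
    obtain ⟨hint, hform⟩ := hGEX (Real.exp T) (Real.exp_pos T) a ha1 u (1 + 1 / u) hσ
    have hser : ∀ t : ℝ, LSeries (fun n => ((ArithmeticFunction.vonMangoldt n : ℝ) : ℂ) * a n)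
        (((1 + 1 / u : ℝ) : ℂ) + t * Complex.I) =
        ldL χ (((1 + 1 / u : ℝ) : ℂ) + t * Complex.I + ((-τ : ℝ) : ℂ) * Complex.I) := by
      intro t
      rw [hw]
      exact hTWL.1 q χ τ _ (by simpa using h1u)
    have hint' : Integrable (fun t : ℝ =>
        ldL χ (((1 + 1 / u : ℝ) : ℂ) + t * Complex.I + ((-τ : ℝ) : ℂ) * Complex.I) *
        KG (Real.exp T) u (((1 + 1 / u : ℝ) : ℂ) + t * Complex.I)) := by
      refine hint.congr (Filter.Eventually.of_forall fun t => ?_)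
      simp only [hser]
    have hb := hC T hTT2 (ldL χ) (-τ) (Real.exp T) u (Real.one_le_exp hT0.le) le_rfl hu49
      ((hu2.trans hx2).trans h60) (by
        intro s hs1 hs2 hs3
        have e1 : |s.im| ≤ Real.exp T + Real.exp (C * T ^ 50) := by
          have e2 : |s.im| ≤ |s.im - -τ| + |-τ| := by
            have := abs_add_le (s.im - -τ) (-τ)
            simpa using this
          rw [abs_neg] at e2
          linarith
        obtain ⟨e3, e4⟩ := hG T hTT1 q χ s hχ hq (e1.trans (heights C hT1000)) hs1 hs2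
        refine ⟨?_, e4⟩
        unfold LargeAP.ldL
        first
          | exact DifferentiableAt.div (hd.analyticAt _).deriv.differentiableAt.neg (hd _) e3
          | exact DifferentiableAt.neg (DifferentiableAt.div
              (hd.analyticAt _).deriv.differentiableAt (hd _) e3)) (by
        intro s hs
        have e1 := LP.specLDB q χ s (by rw [hs]; exact hσ) (by rw [hs]; linarith)
        rw [hs] at e1
        have e2 : 8 / (1 + 1 / u - 1) ^ 2 = 8 * u ^ 2 := by
          rw [add_sub_cancel_left]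
          field_simp
        rw [e2] at e1
        have e3 : ‖ldL χ s‖ = ‖deriv χ.LFunction s / χ.LFunction s‖ := by
          unfold LargeAP.ldL
          first
            | rw [neg_div, norm_neg]
            | rw [norm_neg]
        rw [e3]
        nlinarith [sq_nonneg u]) hint'
    have e5 : ((2 * Real.pi : ℝ) : ℂ) * FF (Real.exp T) a u = ∫ t : ℝ,
        ldL χ (((1 + 1 / u : ℝ) : ℂ) + t * Complex.I + ((-τ : ℝ) : ℂ) * Complex.I) *
        KG (Real.exp T) u (((1 + 1 / u : ℝ) : ℂ) + t * Complex.I) := by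
      rw [hform]
      refine integral_congr_ae (Filter.Eventually.of_forall fun t => ?_)
      simp only [hser]
    rw [← e5, norm_mul, Complex.norm_real, Real.norm_of_nonneg (by positivity)] at hb
    have hpi : (1 : ℝ) ≤ 2 * Real.pi := by
      have := Real.pi_gt_three
      linarith
    have e6 : 1 * ‖FF (Real.exp T) a u‖ ≤ 2 * Real.pi * ‖FF (Real.exp T) a u‖ :=
      mul_le_mul_of_nonneg_right hpi (norm_nonneg _)
    linarith
  have hI : ‖∫ u in (X - T)..X, FF (Real.exp T) a u‖ ≤ Real.exp (X - 2 * T) * |X - (X - T)| := by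
    refine intervalIntegral.norm_integral_le_of_norm_le_const fun u hu => ?_
    rw [Set.uIoc_of_le (by linarith)] at hu
    exact (key u hu.1.le hu.2).trans (Real.exp_le_exp.2 (by linarith [hu.2]))
  have hTabs : |X - (X - T)| = T := by
    rw [sub_sub_cancel, abs_of_pos hT0]
  rw [hTabs] at hI
  have hexpX : Real.exp (X - 2 * T) = x * Real.exp (-(2 * T)) := by
    rw [sub_eq_add_neg, Real.exp_add, hX, Real.exp_log hx]
  rw [hexpX] at hI
  have h47 : T ^ 47 ≤ Real.log x := by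
    have e1 : T ^ 47 ≤ T ^ 49 := pow_le_pow_right₀ hT1' (by norm_num)
    rw [← hX]
    linarith
  have hUU := hU T hTT3 a ha1 x hx h47 hx2
  have hsmall : T * Real.exp (-(2 * T)) ≤ Real.exp (-(T / 4)) / 2 := by
    have e1 : Real.exp (-(2 * T)) = Real.exp (-(T / 4)) * Real.exp (-(7 / 4 * T)) := by
      rw [← Real.exp_add]
      congr 1
      ring
    have e2 : T * Real.exp (-(7 / 4 * T)) ≤ 1 / 2 := by
      rw [Real.exp_neg, ← div_eq_mul_inv, div_le_iff₀ (Real.exp_pos _)]
      have e3 := Real.quadratic_le_exp_of_nonneg (show 0 ≤ 7 / 4 * T by positivity)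
      nlinarith
    rw [e1]
    have e4 := Real.exp_pos (-(T / 4))
    nlinarith
  have htri : ‖∑ n ∈ Icc 1 ⌊x⌋₊, ((ArithmeticFunction.vonMangoldt n : ℝ) : ℂ) * a n‖ ≤
      ‖(∑ n ∈ Icc 1 ⌊x⌋₊, ((ArithmeticFunction.vonMangoldt n : ℝ) : ℂ) * a n) -
        ∫ u in (X - T)..X, FF (Real.exp T) a u‖ + ‖∫ u in (X - T)..X, FF (Real.exp T) a u‖ := by
    have := norm_add_le ((∑ n ∈ Icc 1 ⌊x⌋₊, ((ArithmeticFunction.vonMangoldt n : ℝ) : ℂ) * a n) -
        ∫ u in (X - T)..X, FF (Real.exp T) a u) (∫ u in (X - T)..X, FF (Real.exp T) a u)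
    rwa [sub_add_cancel] at this
  have hfin : x * Real.exp (-(2 * T)) * T ≤ x * (Real.exp (-(T / 4)) / 2) := by
    have := mul_le_mul_of_nonneg_left hsmall hx.le
    linarith
  calc ‖∑ n ∈ Icc 1 ⌊x⌋₊, ((ArithmeticFunction.vonMangoldt n : ℝ) : ℂ) * a n‖
      ≤ x * Real.exp (-(T / 4)) / 2 + x * Real.exp (-(2 * T)) * T := htri.trans (add_le_add hUU hI)
    _ ≤ x * Real.exp (-(T / 4)) := by linarith

end Pool.Agent.Lib.VK
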