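import Pool.Agent.Lib.VK.Spec
import Pool.Agent.Lib.LP.LDB

/-!
# The sum of `Λ(n) n^(iτ)` (PZM)
-/

set_option autoImplicit false

noncomputable section

namespace Pool.Agent.Lib.VK

open Finset MeasureTheory
open scoped ArithmeticFunction
open Pool.Agent.Lib.LargeAP (ldL KG Pp)
open Pool.Agent.Lib.LP (G)

namespace PZMM

theorem norm_tw (y : ℝ) (n : ℕ) : ‖tw y n‖ ≤ 1 := by
  unfold tw
  rcases Nat.eq_zero_or_pos n with h | h
  · subst h
    by_cases hy : (y : ℂ) * Complex.I = 0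
    · rw [hy]
      simp
    · rw [Nat.cast_zero, Complex.zero_cpow hy]
      simp
  · rw [Complex.norm_natCast_cpow_of_pos h]
    simp

theorem one_apply (n : ℕ) : (1 : DirichletCharacter ℂ 1) (n : ZMod 1) = 1 :=
  MulChar.one_apply (isUnit_of_subsingleton _)

theorem ldZ_diff (s : ℂ) (h : DirichletCharacter.LFunctionTrivChar₁ 1 s ≠ 0) :
    DifferentiableAt ℂ ldZ s := by
  have h1 := DirichletCharacter.differentiable_LFunctionTrivChar₁ 1
  have h2 : Differentiable ℂ (deriv (DirichletCharacter.LFunctionTrivChar₁ 1)) := h1.deriv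
  exact (h2 s).neg.div (h1 s) h

/-- on the line `σ = 1 + 1/u` -/
theorem line (hTWL : SpecTWL) (u : ℝ) (hu : 1 ≤ u) (s : ℂ) (hs : s.re = 1 + 1 / u) :
    ‖ldZ s‖ ≤ 10 * u ^ 2 := by
  have hu0 : 0 < u := by linarith
  have hre : 1 < s.re := by
    rw [hs]
    have : 0 < 1 / u := by positivity
    linarith
  have hre2 : s.re ≤ 2 := by
    rw [hs]
    have : 1 / u ≤ 1 := by
      rw [div_le_one hu0]
      exact hu
    linarith
  have h1 : ldZ s = ldL (1 : DirichletCharacter ℂ 1) s - 1 / (s - 1) := by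
    rw [hTWL.2 s hre]
    ring
  have h2 : ‖ldL (1 : DirichletCharacter ℂ 1) s‖ ≤ 8 * u ^ 2 := by
    have h3 := Pool.Agent.Lib.LP.specLDB 1 (1 : DirichletCharacter ℂ 1) s hre hre2
    have h4 : ‖ldL (1 : DirichletCharacter ℂ 1) s‖ =
        ‖deriv (1 : DirichletCharacter ℂ 1).LFunction s /
          (1 : DirichletCharacter ℂ 1).LFunction s‖ := by
      unfold ldL
      rw [neg_div, norm_neg]
    rw [h4]
    refine h3.trans (le_of_eq ?_)
    rw [hs]
    field_simp
    ring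
  have h5 : ‖1 / (s - 1)‖ ≤ u := by
    have h6 : 1 / u ≤ ‖s - 1‖ := by
      have h7 := Complex.re_le_norm (s - 1)
      rw [Complex.sub_re, Complex.one_re, hs] at h7
      linarith
    rw [norm_div, norm_one]
    have h8 : 0 < 1 / u := by positivity
    calc 1 / ‖s - 1‖ ≤ 1 / (1 / u) := one_div_le_one_div_of_le h8 h6
      _ = u := one_div_one_div u
  rw [h1]
  refine (norm_sub_le _ _).trans ?_
  nlinarith

/-- the value at a point -/
theorem point (hGEX : SpecGEX) (hTWL : SpecTWL) (hMTZ : SpecMTZ)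
    (T : ℝ) (hT : 1000 ≤ T) (τ u : ℝ) (hu1 : T ^ 49 ≤ u)
    (hcon : Integrable (fun t : ℝ => ldZ (((1 + 1 / u : ℝ) : ℂ) + t * Complex.I +
        ((-τ : ℝ) : ℂ) * Complex.I) *
        KG (Real.exp T) u (((1 + 1 / u : ℝ) : ℂ) + t * Complex.I)) →
      ‖∫ t : ℝ, ldZ (((1 + 1 / u : ℝ) : ℂ) + t * Complex.I + ((-τ : ℝ) : ℂ) * Complex.I) *
        KG (Real.exp T) u (((1 + 1 / u : ℝ) : ℂ) + t * Complex.I)‖ ≤ Real.exp (u - 2 * T)) :
    ‖FF (Real.exp T) (tw τ) u - Complex.exp ((1 + τ * Complex.I) * u +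
      (1 + τ * Complex.I) ^ 2 / (4 * Real.exp T))‖ ≤ 2 * Real.exp (u - 2 * T) := by
  have hTu : T ≤ T ^ 49 := le_self_pow₀ (by linarith) (by norm_num)
  have hu1000 : 1000 ≤ u := by linarith
  have hu0 : 0 < u := by linarith
  have hσ : 1 < 1 + 1 / u := by
    have : 0 < 1 / u := by positivity
    linarith
  have hl1 : 1 ≤ Real.exp T := Real.one_le_exp (by linarith)
  set a : ℕ → ℂ := fun n => (1 : DirichletCharacter ℂ 1) (n : ZMod 1) * tw τ n with ha
  have ha1 : a = tw τ := by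
    funext n
    rw [ha]
    simp only [one_apply, one_mul]
  obtain ⟨hI1, hE1⟩ := hGEX (Real.exp T) (Real.exp_pos T) a
    (fun n => by rw [ha1]; exact norm_tw τ n) u (1 + 1 / u) hσ
  obtain ⟨hI2, hE2⟩ := hMTZ (Real.exp T) u (1 + 1 / u) τ hl1 hu0.le hσ
  have key : ∀ t : ℝ, LSeries (fun n => ((ArithmeticFunction.vonMangoldt n : ℝ) : ℂ) * a n)
        (((1 + 1 / u : ℝ) : ℂ) + t * Complex.I) *
        KG (Real.exp T) u (((1 + 1 / u : ℝ) : ℂ) + t * Complex.I) =
      1 / (((1 + 1 / u : ℝ) : ℂ) + t * Complex.I - τ * Complex.I - 1) *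
        KG (Real.exp T) u (((1 + 1 / u : ℝ) : ℂ) + t * Complex.I) +
      ldZ (((1 + 1 / u : ℝ) : ℂ) + t * Complex.I + ((-τ : ℝ) : ℂ) * Complex.I) *
        KG (Real.exp T) u (((1 + 1 / u : ℝ) : ℂ) + t * Complex.I) := by
    intro t
    have hr1 : 1 < (((1 + 1 / u : ℝ) : ℂ) + t * Complex.I).re := by
      simpa using hσ
    have hr2 : 1 < (((1 + 1 / u : ℝ) : ℂ) + t * Complex.I - τ * Complex.I).re := by
      simpa using hσ
    have e1 : ((1 + 1 / u : ℝ) : ℂ) + t * Complex.I + ((-τ : ℝ) : ℂ) * Complex.I =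
        ((1 + 1 / u : ℝ) : ℂ) + t * Complex.I - τ * Complex.I := by
      push_cast
      ring
    rw [ha, hTWL.1 1 1 τ _ hr1, hTWL.2 _ hr2, e1]
    ring
  have hI3 : Integrable (fun t : ℝ => ldZ (((1 + 1 / u : ℝ) : ℂ) + t * Complex.I +
        ((-τ : ℝ) : ℂ) * Complex.I) *
        KG (Real.exp T) u (((1 + 1 / u : ℝ) : ℂ) + t * Complex.I)) := by
    refine (hI1.sub hI2).congr (ae_of_all _ fun t => ?_)
    simp only [Pi.sub_apply]
    rw [key t]
    ring
  have h3 := hcon hI3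
  have hint : ∫ t : ℝ, LSeries (fun n => ((ArithmeticFunction.vonMangoldt n : ℝ) : ℂ) * a n)
        (((1 + 1 / u : ℝ) : ℂ) + t * Complex.I) *
        KG (Real.exp T) u (((1 + 1 / u : ℝ) : ℂ) + t * Complex.I) =
      (∫ t : ℝ, 1 / (((1 + 1 / u : ℝ) : ℂ) + t * Complex.I - τ * Complex.I - 1) *
        KG (Real.exp T) u (((1 + 1 / u : ℝ) : ℂ) + t * Complex.I)) +
      ∫ t : ℝ, ldZ (((1 + 1 / u : ℝ) : ℂ) + t * Complex.I + ((-τ : ℝ) : ℂ) * Complex.I) *
        KG (Real.exp T) u (((1 + 1 / u : ℝ) : ℂ) + t * Complex.I) := by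
    rw [← integral_add hI2 hI3]
    exact integral_congr_ae (ae_of_all _ key)
  rw [hint, ha1] at hE1
  set E := Complex.exp ((1 + τ * Complex.I) * u + (1 + τ * Complex.I) ^ 2 / (4 * Real.exp T))
    with hE
  have h4 : ((2 * Real.pi : ℝ) : ℂ) * (FF (Real.exp T) (tw τ) u - E) =
      ((∫ t : ℝ, 1 / (((1 + 1 / u : ℝ) : ℂ) + t * Complex.I - τ * Complex.I - 1) *
        KG (Real.exp T) u (((1 + 1 / u : ℝ) : ℂ) + t * Complex.I)) -
        ((2 * Real.pi : ℝ) : ℂ) * E) +
      ∫ t : ℝ, ldZ (((1 + 1 / u : ℝ) : ℂ) + t * Complex.I + ((-τ : ℝ) : ℂ) * Complex.I) *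
        KG (Real.exp T) u (((1 + 1 / u : ℝ) : ℂ) + t * Complex.I) := by
    rw [mul_sub, hE1]
    ring
  have h5 : 2 * Real.pi * ‖FF (Real.exp T) (tw τ) u - E‖ ≤
      10 * Real.exp (-(Real.exp T * u ^ 2 / 2)) + Real.exp (u - 2 * T) := by
    have h6 : 2 * Real.pi * ‖FF (Real.exp T) (tw τ) u - E‖ =
        ‖((2 * Real.pi : ℝ) : ℂ) * (FF (Real.exp T) (tw τ) u - E)‖ := by
      rw [norm_mul, Complex.norm_real, Real.norm_of_nonneg (by positivity)]
    rw [h6, h4]
    exact (norm_add_le _ _).trans (add_le_add hE2 h3)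
  have h7 : 10 * Real.exp (-(Real.exp T * u ^ 2 / 2)) ≤ Real.exp (u - 2 * T) := by
    have e1 : 10 ≤ Real.exp T * u ^ 2 / 2 := by nlinarith
    have e2 : Real.exp (-(Real.exp T * u ^ 2 / 2)) ≤ Real.exp (-10) :=
      Real.exp_le_exp.2 (by linarith)
    have e3 : 10 * Real.exp (-10) ≤ 1 := by
      have e4 := Real.add_one_le_exp (10 : ℝ)
      have e5 : Real.exp (-10) * Real.exp 10 = 1 := by
        rw [← Real.exp_add]
        norm_num
      have e6 := Real.exp_pos (-10)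
      nlinarith
    have e7 : 2 * T ≤ u := by
      have : T ^ 49 = T * T ^ 48 := by ring
      have h48 : (2 : ℝ) ≤ T ^ 48 := by
        calc (2 : ℝ) ≤ T := by linarith
          _ ≤ T ^ 48 := le_self_pow₀ (by linarith) (by norm_num)
      nlinarith
    have e8 : 1 ≤ Real.exp (u - 2 * T) := Real.one_le_exp (by linarith)
    linarith
  have h8 : ‖FF (Real.exp T) (tw τ) u - E‖ ≤ 2 * Real.pi * ‖FF (Real.exp T) (tw τ) u - E‖ := by
    have := Real.pi_gt_three
    have h9 := norm_nonneg (FF (Real.exp T) (tw τ) u - E)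
    nlinarith
  linarith

end PZMM

theorem specPZM (hGZZ : SpecGZZ) (hGEX : SpecGEX) (hTWL : SpecTWL) (hCON : SpecCON)
    (hUSM : SpecUSM) (hMTZ : SpecMTZ) (hCTF : SpecCTF) : SpecPZM := by
  intro C
  obtain ⟨T₁, h1000, hG⟩ := hGZZ (C + 1)
  obtain ⟨T₂, hC⟩ := hCON
  obtain ⟨T₃, hU⟩ := hUSM
  refine ⟨max T₁ (max T₂ T₃), h1000.trans (le_max_left _ _), fun T hT τ x hτ hx hX1 hX2 => ?_⟩
  have hT1 : T₁ ≤ T := (le_max_left _ _).trans hT
  have hT2 : T₂ ≤ T := ((le_max_left _ _).trans (le_max_right _ _)).trans hT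
  have hT3 : T₃ ≤ T := ((le_max_right _ _).trans (le_max_right _ _)).trans hT
  have hT0 : 1000 ≤ T := h1000.trans hT1
  have hT01 : 1 ≤ T := by linarith
  have hl1 : 1 ≤ Real.exp T := Real.one_le_exp (by linarith)
  set X := Real.log x with hX
  set lam := Real.exp T with hlam
  -- the range of `u`
  have hlow : T ^ 49 ≤ X - T := by
    have e1 : T ^ 50 = T * T ^ 49 := by ring
    have e2 : T ≤ T ^ 49 := le_self_pow₀ hT01 (by norm_num)
    have e3 : 0 ≤ T ^ 49 := by positivity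
    nlinarith
  have hTle : T ≤ T ^ 50 := le_self_pow₀ hT01 (by norm_num)
  -- the height
  have hheight : Real.exp T + Real.exp (C * T ^ 50) ≤ Real.exp (((C + 1 : ℕ) : ℝ) * T ^ 50) := by
    have hC0 : (0 : ℝ) ≤ (C : ℝ) * T ^ 50 := by positivity
    have e1 : Real.exp (((C + 1 : ℕ) : ℝ) * T ^ 50) =
        Real.exp (C * T ^ 50) * Real.exp (T ^ 50) := by
      rw [← Real.exp_add]
      congr 1
      push_cast
      ring
    rw [e1]
    have e2 : 1 ≤ Real.exp (C * T ^ 50) := Real.one_le_exp hC0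
    have e3 : 2 * Real.exp T ≤ Real.exp (T ^ 50) := by
      have e4 : T + 1 ≤ T ^ 50 := by
        have e5 : T ^ 2 ≤ T ^ 50 := pow_le_pow_right₀ hT01 (by norm_num)
        nlinarith
      have e6 : (2 : ℝ) ≤ Real.exp 1 := by
        have := Real.add_one_le_exp (1 : ℝ)
        linarith
      calc 2 * Real.exp T ≤ Real.exp 1 * Real.exp T :=
            mul_le_mul_of_nonneg_right e6 (Real.exp_pos _).le
        _ = Real.exp (1 + T) := (Real.exp_add _ _).symm
        _ ≤ Real.exp (T ^ 50) := Real.exp_le_exp.2 (by linarith)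
    nlinarith [Real.exp_pos T]
  have hpt : ∀ u : ℝ, X - T ≤ u → u ≤ X →
      ‖FF lam (tw τ) u - Complex.exp ((1 + τ * Complex.I) * u +
        (1 + τ * Complex.I) ^ 2 / (4 * lam))‖ ≤ 2 * Real.exp (u - 2 * T) := by
    intro u hu1 hu2
    have hu49 : T ^ 49 ≤ u := hlow.trans hu1
    have hu60 : u ≤ T ^ 60 := (hu2.trans hX2).trans (pow_le_pow_right₀ hT01 (by norm_num))
    have hu0 : 1 ≤ u := le_trans (one_le_pow₀ hT01) hu49
    refine PZMM.point hGEX hTWL hMTZ T hT0 τ u hu49 ?_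
    refine hC T hT2 ldZ (-τ) lam u hl1 le_rfl hu49 hu60 ?_ ?_
    · intro s hs1 hs2 hs3
      have him : |s.im| ≤ Real.exp (((C + 1 : ℕ) : ℝ) * T ^ 50) := by
        have e1 : |s.im| ≤ |s.im - -τ| + |τ| := by
          have e2 : s.im = (s.im - -τ) + (-τ) := by ring
          calc |s.im| = |(s.im - -τ) + (-τ)| := by rw [← e2]
            _ ≤ |s.im - -τ| + |-τ| := abs_add_le _ _
            _ = |s.im - -τ| + |τ| := by rw [abs_neg]
        linarith
      obtain ⟨h1, h2⟩ := hG T hT1 s him hs1 hs2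
      exact ⟨PZMM.ldZ_diff s h1, h2⟩
    · intro s hs
      exact PZMM.line hTWL u hu0 s hs
  -- the integral
  set c : ℂ := 1 + τ * Complex.I with hc
  have hc0 : c ≠ 0 := by
    intro h
    have := congrArg Complex.re h
    simp [hc] at this
  have hcontE : Continuous fun u : ℝ => Complex.exp (c * u + c ^ 2 / (4 * lam)) := by
    fun_prop
  have hcontF : Continuous (FF lam (tw τ)) := hCTF lam (Real.exp_pos T) (tw τ) (PZMM.norm_tw τ)
  have hintE : ∫ u in (X - T)..X, Complex.exp (c * u + c ^ 2 / (4 * lam)) =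
      Complex.exp (c ^ 2 / (4 * lam)) *
        ((Complex.exp (c * X) - Complex.exp (c * (X - T))) / c) := by
    have e1 : ∀ u : ℝ, Complex.exp (c * u + c ^ 2 / (4 * lam)) =
        Complex.exp (c ^ 2 / (4 * lam)) * Complex.exp (c * u) := by
      intro u
      rw [Complex.exp_add, mul_comm]
    simp_rw [e1]
    rw [intervalIntegral.integral_const_mul, integral_exp_mul_complex hc0]
    push_cast
    rfl
  have hdiff : ‖(∫ u in (X - T)..X, FF lam (tw τ) u) -
      Complex.exp (c ^ 2 / (4 * lam)) *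
        ((Complex.exp (c * X) - Complex.exp (c * (X - T))) / c)‖ ≤
      2 * Real.exp (X - 2 * T) * T := by
    rw [← hintE, ← intervalIntegral.integral_sub (hcontF.intervalIntegrable _ _)
      (hcontE.intervalIntegrable _ _)]
    have h1 := intervalIntegral.norm_integral_le_of_norm_le_const (a := X - T) (b := X)
      (C := 2 * Real.exp (X - 2 * T))
      (f := fun u => FF lam (tw τ) u - Complex.exp (c * u + c ^ 2 / (4 * lam))) (by
        intro u hu
        rw [Set.uIoc_of_le (by linarith)] at hu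
        refine (hpt u hu.1.le hu.2).trans ?_
        have : Real.exp (u - 2 * T) ≤ Real.exp (X - 2 * T) :=
          Real.exp_le_exp.2 (by linarith [hu.2])
        linarith)
    have h2 : |X - (X - T)| = T := by
      rw [sub_sub_cancel]
      exact abs_of_pos (by linarith)
    rw [h2] at h1
    exact h1
  have hu := hU T hT3 (tw τ) (PZMM.norm_tw τ) x hx
    (by
      have e1 : T ^ 50 = T ^ 3 * T ^ 47 := by ring
      have e2 : 2 ≤ T ^ 3 := by
        calc (2 : ℝ) ≤ T := by linarith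
          _ ≤ T ^ 3 := le_self_pow₀ hT01 (by norm_num)
      have e3 : 0 ≤ T ^ 47 := by positivity
      nlinarith) hX2
  have hxexp : Real.exp X = x := Real.exp_log hx
  have hfin : 2 * Real.exp (X - 2 * T) * T ≤ x * Real.exp (-(T / 4)) / 2 := by
    have e1 : Real.exp (X - 2 * T) = x * Real.exp (-(2 * T)) := by
      rw [sub_eq_add_neg, Real.exp_add, hxexp]
    have e2 : 4 * T * Real.exp (-(2 * T)) ≤ Real.exp (-(T / 4)) := by
      have e3 : Real.exp (-(T / 4)) = Real.exp (-(2 * T)) * Real.exp (T + 3 * T / 4) := by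
        rw [← Real.exp_add]
        congr 1
        ring
      rw [e3, Real.exp_add T]
      have e4 := Real.add_one_le_exp T
      have e5 := Real.add_one_le_exp (3 * T / 4)
      have e6 : 4 * T ≤ Real.exp T * Real.exp (3 * T / 4) := by nlinarith
      nlinarith [Real.exp_pos (-(2 * T))]
    rw [e1]
    nlinarith
  calc ‖(∑ n ∈ Icc 1 ⌊x⌋₊, ((ArithmeticFunction.vonMangoldt n : ℝ) : ℂ) * tw τ n) -
        Complex.exp (c ^ 2 / (4 * lam)) *
          ((Complex.exp (c * X) - Complex.exp (c * (X - T))) / c)‖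
      ≤ ‖(∑ n ∈ Icc 1 ⌊x⌋₊, ((ArithmeticFunction.vonMangoldt n : ℝ) : ℂ) * tw τ n) -
          ∫ u in (X - T)..X, FF lam (tw τ) u‖ +
        ‖(∫ u in (X - T)..X, FF lam (tw τ) u) -
          Complex.exp (c ^ 2 / (4 * lam)) *
            ((Complex.exp (c * X) - Complex.exp (c * (X - T))) / c)‖ :=
        norm_sub_le_norm_sub_add_norm_sub _ _ _
    _ ≤ x * Real.exp (-(T / 4)) / 2 + x * Real.exp (-(T / 4)) / 2 :=
        add_le_add hu (hdiff.trans hfin)
    _ = x * Real.exp (-(T / 4)) := by ring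

end Pool.Agent.Lib.VK
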