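import Pool.Agent.Lib.VK.Spec

/-!
# Shifting a sum by `q x z` (SHF)
-/

set_option autoImplicit false

noncomputable section

namespace Pool.Agent.Lib.VK

open Finset

namespace SHFM

theorem norm_tw (y : ℝ) (n : ℕ) : ‖tw y n‖ ≤ 1 := by
  unfold tw
  rcases Nat.eq_zero_or_pos n with h | h
  · subst h
    by_cases hy : (y : ℂ) * Complex.I = 0
    · rw [hy]
      simp
    · rw [Nat.cast_zero, Complex.zero_cpow hy]
      simp
  · rw [Complex.norm_natCast_cpow_of_pos h]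
    simp

/-- the sums over `(a, b]` and `(a + h, b + h]` -/
theorem shift (f : ℕ → ℂ) (hf : ∀ n, ‖f n‖ ≤ 1) (a b h : ℕ) (hab : a ≤ b) :
    ‖∑ n ∈ Ioc a b, f n - ∑ n ∈ Ioc a b, f (n + h)‖ ≤ 2 * h := by
  have e1 : ∑ n ∈ Ioc a b, f (n + h) = ∑ n ∈ Ioc (a + h) (b + h), f n := by
    rw [← Finset.map_add_right_Ioc, Finset.sum_map]
    rfl
  have hS : ∀ m n : ℕ, m ≤ n → ‖∑ i ∈ Ioc m n, f i‖ ≤ (n - m : ℕ) := by
    intro m n _
    calc ‖∑ i ∈ Ioc m n, f i‖ ≤ ∑ i ∈ Ioc m n, ‖f i‖ := norm_sum_le _ _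
      _ ≤ ∑ _i ∈ Ioc m n, (1 : ℝ) := sum_le_sum fun i _ => hf i
      _ = (n - m : ℕ) := by simp
  have e2 : ∑ n ∈ Ioc a b, f n - ∑ n ∈ Ioc (a + h) (b + h), f n =
      ∑ n ∈ Ioc a (a + h), f n - ∑ n ∈ Ioc b (b + h), f n := by
    have h1 := Finset.sum_Ioc_consecutive f hab (Nat.le_add_right b h)
    have h2 := Finset.sum_Ioc_consecutive f (Nat.le_add_right a h) (Nat.add_le_add_right hab h)
    linear_combination h1 - h2
  rw [e1, e2]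
  refine (norm_sub_le _ _).trans ?_
  have h1 := hS a (a + h) (Nat.le_add_right a h)
  have h2 := hS b (b + h) (Nat.le_add_right b h)
  rw [Nat.add_sub_cancel_left] at h1 h2
  linarith

end SHFM

theorem specSHF : SpecSHF := by
  intro q _ χ y a b Z _ hab
  set f : ℕ → ℂ := fun n => χ (n : ZMod q) * tw y n with hf
  have hf1 : ∀ n, ‖f n‖ ≤ 1 := by
    intro n
    rw [hf]
    simp only [norm_mul]
    have h1 := DirichletCharacter.norm_le_one χ (n : ZMod q)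
    have h2 := SHFM.norm_tw y n
    have h3 : 0 ≤ ‖tw y n‖ := norm_nonneg _
    have h4 : 0 ≤ ‖χ (n : ZMod q)‖ := norm_nonneg _
    nlinarith
  have hchi : ∀ n x z : ℕ, f (n + q * x * z) = χ (n : ZMod q) * tw y (n + q * x * z) := by
    intro n x z
    simp only [hf]
    congr 2
    push_cast
    simp
  -- the exchanged sum
  have hex : ∑ x ∈ Icc 1 Z, ∑ z ∈ Icc 1 Z, ∑ n ∈ Ioc a b, f (n + q * x * z) =
      ∑ n ∈ Ioc a b, χ (n : ZMod q) * ∑ x ∈ Icc 1 Z, ∑ z ∈ Icc 1 Z, tw y (n + q * x * z) := by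
    have h1 : ∀ x ∈ Icc 1 Z, ∑ z ∈ Icc 1 Z, ∑ n ∈ Ioc a b, f (n + q * x * z) =
        ∑ n ∈ Ioc a b, ∑ z ∈ Icc 1 Z, f (n + q * x * z) := fun x _ => sum_comm
    rw [sum_congr rfl h1, sum_comm]
    refine sum_congr rfl fun n _ => ?_
    rw [mul_sum]
    refine sum_congr rfl fun x _ => ?_
    rw [mul_sum]
    exact sum_congr rfl fun z _ => hchi n x z
  have hcard : (Z : ℂ) ^ 2 * ∑ n ∈ Ioc a b, f n =
      ∑ x ∈ Icc 1 Z, ∑ z ∈ Icc 1 Z, ∑ n ∈ Ioc a b, f n := by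
    simp
    ring
  have hdiff : ‖(Z : ℂ) ^ 2 * (∑ n ∈ Ioc a b, f n) -
      ∑ x ∈ Icc 1 Z, ∑ z ∈ Icc 1 Z, ∑ n ∈ Ioc a b, f (n + q * x * z)‖ ≤ 2 * q * (Z : ℝ) ^ 4 := by
    rw [hcard, ← sum_sub_distrib]
    simp only [← sum_sub_distrib]
    calc ‖∑ x ∈ Icc 1 Z, ∑ z ∈ Icc 1 Z, ∑ n ∈ Ioc a b, (f n - f (n + q * x * z))‖
        ≤ ∑ x ∈ Icc 1 Z, ∑ z ∈ Icc 1 Z, (2 * q * (Z : ℝ) ^ 2) := by
          refine (norm_sum_le _ _).trans (sum_le_sum fun x hx => ?_)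
          refine (norm_sum_le _ _).trans (sum_le_sum fun z hz => ?_)
          rw [sum_sub_distrib]
          refine (SHFM.shift f hf1 a b (q * x * z) hab).trans ?_
          rw [Finset.mem_Icc] at hx hz
          have h1 : q * x * z ≤ q * Z * Z :=
            Nat.mul_le_mul (Nat.mul_le_mul_left q hx.2) hz.2
          have h2 : ((q * x * z : ℕ) : ℝ) ≤ ((q * Z * Z : ℕ) : ℝ) := by exact_mod_cast h1
          push_cast at h2 ⊢
          nlinarith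
      _ = 2 * q * (Z : ℝ) ^ 4 := by
          simp
          ring
  have hex2 : ‖∑ n ∈ Ioc a b, χ (n : ZMod q) *
      ∑ x ∈ Icc 1 Z, ∑ z ∈ Icc 1 Z, tw y (n + q * x * z)‖ ≤
      ∑ n ∈ Ioc a b, ‖∑ x ∈ Icc 1 Z, ∑ z ∈ Icc 1 Z, tw y (n + q * x * z)‖ := by
    refine (norm_sum_le _ _).trans (sum_le_sum fun n _ => ?_)
    rw [norm_mul]
    have h1 := DirichletCharacter.norm_le_one χ (n : ZMod q)
    exact mul_le_of_le_one_left (norm_nonneg _) h1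
  rw [hex] at hdiff
  have h5 : (Z : ℝ) ^ 2 * ‖∑ n ∈ Ioc a b, f n‖ = ‖(Z : ℂ) ^ 2 * ∑ n ∈ Ioc a b, f n‖ := by
    rw [norm_mul, norm_pow, Complex.norm_natCast]
  rw [h5]
  have h6 := norm_sub_norm_le ((Z : ℂ) ^ 2 * ∑ n ∈ Ioc a b, f n)
    (∑ n ∈ Ioc a b, χ (n : ZMod q) * ∑ x ∈ Icc 1 Z, ∑ z ∈ Icc 1 Z, tw y (n + q * x * z))
  linarith

end Pool.Agent.Lib.VK
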