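import Pool.Agent.Lib.VK.Spec
import Pool.Agent.Lib.LargeAP.LAN

/-!
# VK: Landau's lemma, scaled
-/

set_option autoImplicit false

noncomputable section

namespace Pool.Agent.Lib.VK

open Finset MeasureTheory Metric

namespace SLNM

theorem norm_scale {R : ℝ} (hR : 0 < R) (z : ℂ) : ‖(2 * (R : ℂ)) * z‖ = 2 * R * ‖z‖ := by
  rw [norm_mul, norm_mul]
  simp [abs_of_pos hR]

theorem map_scale (s₀ : ℂ) (c z : ℂ) (hc : c ≠ 0) (Z : Multiset ℂ) :
    ((Z.map (fun ζ => s₀ + c * ζ)).map (fun ρ => ((s₀ + c * z) - ρ)⁻¹)).sum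
      = c⁻¹ * (Z.map (fun ζ => (z - ζ)⁻¹)).sum := by
  rw [Multiset.map_map, ← Multiset.sum_map_mul_left]
  congr 1
  refine Multiset.map_congr rfl (fun ζ _ => ?_)
  simp only [Function.comp]
  rw [show s₀ + c * z - (s₀ + c * ζ) = c * (z - ζ) by ring, mul_inv]

end SLNM

open SLNM

theorem specSLN : SpecSLN := by
  obtain ⟨C, hC, H⟩ := Pool.Agent.Lib.LargeAP.specLAN
  refine ⟨C, hC, ?_⟩
  intro f s₀ R M hM hR hf h0 hb
  have hc : (2 * (R : ℂ)) ≠ 0 := by
    have : (R : ℂ) ≠ 0 := by exact_mod_cast hR.ne'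
    exact mul_ne_zero two_ne_zero this
  have hg : Differentiable ℂ (fun z : ℂ => f (s₀ + (2 * (R : ℂ)) * z)) := by
    apply hf.comp
    fun_prop
  have hder : ∀ z : ℂ, deriv (fun z : ℂ => f (s₀ + (2 * (R : ℂ)) * z)) z
      = (2 * (R : ℂ)) * deriv f (s₀ + (2 * (R : ℂ)) * z) := by
    intro z
    have h1 : HasDerivAt (fun z : ℂ => s₀ + (2 * (R : ℂ)) * z) (2 * (R : ℂ)) z := by
      have := ((hasDerivAt_id z).const_mul (2 * (R : ℂ))).const_add s₀
      simpa using this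
    have h2 : HasDerivAt f (deriv f (s₀ + (2 * (R : ℂ)) * z)) (s₀ + (2 * (R : ℂ)) * z) :=
      (hf _).hasDerivAt
    have h3 := h2.comp z h1
    rw [show (fun z : ℂ => f (s₀ + (2 * (R : ℂ)) * z)) = f ∘ (fun z : ℂ => s₀ + (2 * (R : ℂ)) * z) from rfl,
      h3.deriv]
    ring
  obtain ⟨Z, hZ1, hZ2, hZ3⟩ := H (fun z : ℂ => f (s₀ + (2 * (R : ℂ)) * z)) 0 M hM hg (by simpa using h0) (by
    intro z hz
    rw [mem_closedBall_zero_iff] at hz
    have : s₀ + (2 * (R : ℂ)) * z ∈ closedBall s₀ R := by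
      rw [mem_closedBall, dist_eq_norm, add_sub_cancel_left, norm_scale hR]
      nlinarith
    simpa using hb _ this)
  refine ⟨Z.map (fun ζ => s₀ + (2 * (R : ℂ)) * ζ), ?_, ?_, ?_⟩
  · intro ρ hρ
    obtain ⟨ζ, hζ, rfl⟩ := Multiset.mem_map.1 hρ
    obtain ⟨h1, h2⟩ := hZ1 ζ hζ
    refine ⟨h1, ?_⟩
    rw [mem_closedBall_zero_iff] at h2
    rw [mem_closedBall, dist_eq_norm, add_sub_cancel_left, norm_scale hR]
    nlinarith
  · intro ρ hρ h
    refine Multiset.mem_map.2 ⟨(2 * (R : ℂ))⁻¹ * (ρ - s₀), ?_, ?_⟩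
    · apply hZ2
      · rw [mem_closedBall_zero_iff, norm_mul, norm_inv]
        rw [mem_closedBall, dist_eq_norm] at hρ
        have e : ‖(2 * (R : ℂ))‖ = 2 * R := by
          rw [norm_mul]; simp [abs_of_pos hR]
        rw [e, inv_mul_le_iff₀ (by positivity)]
        linarith
      · show f _ = 0
        rw [mul_inv_cancel_left₀ hc, add_sub_cancel]
        exact h
    · rw [mul_inv_cancel_left₀ hc, add_sub_cancel]
  · intro s hs hfs
    have hs' : s = s₀ + (2 * (R : ℂ)) * ((2 * (R : ℂ))⁻¹ * (s - s₀)) := by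
      rw [mul_inv_cancel_left₀ hc, add_sub_cancel]
    set z : ℂ := (2 * (R : ℂ))⁻¹ * (s - s₀) with hz
    have hzm : z ∈ closedBall (0 : ℂ) (1 / 8) := by
      rw [mem_closedBall_zero_iff, hz, norm_mul, norm_inv]
      rw [mem_closedBall, dist_eq_norm] at hs
      have e : ‖(2 * (R : ℂ))‖ = 2 * R := by
        rw [norm_mul]; simp [abs_of_pos hR]
      rw [e, inv_mul_le_iff₀ (by positivity)]
      linarith
    have h3 := hZ3 z hzm (by
      show f _ ≠ 0
      rw [← hs']; exact hfs)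
    have h3' : ‖(2 * (R : ℂ)) * deriv f (s₀ + (2 * (R : ℂ)) * z) / f (s₀ + (2 * (R : ℂ)) * z)
        - (Z.map (fun ρ => (z - ρ)⁻¹)).sum‖ ≤ C * M := by
      rw [← hder z]; exact h3
    rw [← hs'] at h3'
    have key : deriv f s / f s - ((Z.map (fun ζ => s₀ + (2 * (R : ℂ)) * ζ)).map (fun ρ => (s - ρ)⁻¹)).sum
        = (2 * (R : ℂ))⁻¹ * ((2 * (R : ℂ)) * deriv f s / f s - (Z.map (fun ρ => (z - ρ)⁻¹)).sum) := by
      have e2 : ((Z.map (fun ζ => s₀ + (2 * (R : ℂ)) * ζ)).map (fun ρ => (s - ρ)⁻¹)).sum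
          = (2 * (R : ℂ))⁻¹ * (Z.map (fun ρ => (z - ρ)⁻¹)).sum := by
        have := map_scale s₀ (2 * (R : ℂ)) z hc Z
        rw [← hs'] at this
        exact this
      rw [e2, mul_sub, mul_div_assoc, inv_mul_cancel_left₀ hc]
    rw [key, norm_mul, norm_inv]
    have e : ‖(2 * (R : ℂ))‖ = 2 * R := by
      rw [norm_mul]; simp [abs_of_pos hR]
    rw [e, inv_mul_le_iff₀ (by positivity)]
    have hCM : 0 ≤ C * M := by positivity
    calc _ ≤ C * M := h3'
      _ ≤ 2 * R * (C * M / R) := by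
        rw [mul_div_assoc', le_div_iff₀ hR]
        nlinarith

end Pool.Agent.Lib.VK
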