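import Pool.Agent.Lib.VK.Spec
import Pool.Agent.Lib.SW.GTL
import Pool.Agent.Lib.SW.SMO

/-! # Interchange of the sum and the integral, general bounded coefficients (helper4) -/

set_option autoImplicit false

noncomputable section

namespace Pool.Agent.Lib.VK

open ArithmeticFunction MeasureTheory
open Pool.Agent.Lib.LP (G)

theorem specSMT : SpecSMT := by
  intro lam hl a ha X T hT
  have hs := SW.SMOM.summ SW.specGTL lam hl X T hT
  have hl0 : (0 : ℝ) < lam := by linarith
  have hsub : ∀ n : ℕ, ∫ u in (X - T)..X, G lam (u - Real.log n) =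
      ∫ v in (X - T - Real.log n)..(X - Real.log n), G lam v := fun n =>
    intervalIntegral.integral_comp_sub_right (fun v => G lam v) (Real.log n)
  have hle : X - T ≤ X := by linarith
  have hc : ∀ n : ℕ, Continuous fun u : ℝ => G lam (u - Real.log n) := fun n =>
    (SW.SMOM.cont_G lam).comp (continuous_id.sub continuous_const)
  have hG0 : ∀ v, 0 ≤ G lam v := fun v => by unfold LP.G; positivity
  have hF : ∀ n : ℕ, Integrable (fun u : ℝ => ((vonMangoldt n : ℝ) : ℂ) * a n *
      ((G lam (u - Real.log n) : ℝ) : ℂ)) (volume.restrict (Set.Ioc (X - T) X)) := by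
    intro n
    have : Continuous fun u : ℝ => ((vonMangoldt n : ℝ) : ℂ) * a n *
        ((G lam (u - Real.log n) : ℝ) : ℂ) :=
      continuous_const.mul (Complex.continuous_ofReal.comp (hc n))
    exact (this.integrableOn_Icc).mono_set Set.Ioc_subset_Icc_self
  have key := hasSum_integral_of_summable_integral_norm hF ?_
  · have h2 : ∀ n : ℕ, (∫ u in Set.Ioc (X - T) X, ((vonMangoldt n : ℝ) : ℂ) * a n *
        ((G lam (u - Real.log n) : ℝ) : ℂ)) = ((vonMangoldt n : ℝ) : ℂ) * a n *
        ((∫ v in (X - T - Real.log n)..(X - Real.log n), G lam v : ℝ) : ℂ) := by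
      intro n
      rw [integral_const_mul, integral_complex_ofReal, ← hsub, intervalIntegral.integral_of_le hle]
    rw [intervalIntegral.integral_of_le hle, ← (funext h2 : (fun n : ℕ => _) = _), key.tsum_eq]
    rfl
  · refine Summable.of_nonneg_of_le (fun n => integral_nonneg fun _ => norm_nonneg _) (fun n => ?_) hs
    rw [← hsub, intervalIntegral.integral_of_le hle, ← integral_const_mul]
    refine integral_mono_of_nonneg (Filter.Eventually.of_forall fun _ => norm_nonneg _) ?_
      (Filter.Eventually.of_forall fun u => ?_)
    · exact ((hc n).const_mul _).integrableOn_Icc.mono_set Set.Ioc_subset_Icc_self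
    · have hL0 : 0 ≤ vonMangoldt n := vonMangoldt_nonneg
      simp only [norm_mul, Complex.norm_real, Real.norm_of_nonneg hL0, Real.norm_of_nonneg (hG0 _)]
      calc vonMangoldt n * ‖a n‖ * G lam (u - Real.log n)
          ≤ vonMangoldt n * 1 * G lam (u - Real.log n) := by
            gcongr
            · exact hG0 _
            · exact ha n
        _ = _ := by rw [mul_one]

end Pool.Agent.Lib.VK
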