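import Pool.Agent.Lib.VK.Spec

/-!
# TWL: the logarithmic derivative of twisted L-series
-/

set_option autoImplicit false

noncomputable section

namespace Pool.Agent.Lib.VK

open DirichletCharacter
open scoped ArithmeticFunction
open Pool.Agent.Lib.LargeAP (ldL KG Pp)

theorem specTWL : SpecTWL := by
  refine ⟨fun q _ χ τ s hs => ?_, fun s hs => ?_⟩
  · have hre : 1 < (s - τ * Complex.I).re := by simpa using hs
    have h := LSeries_twist_vonMangoldt_eq χ hre
    rw [ldL, deriv_LFunction_eq_deriv_LSeries χ hre, LFunction_eq_LSeries χ hre, ← h, LSeries, LSeries]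
    refine tsum_congr (fun n => ?_)
    rcases eq_or_ne n 0 with rfl | hn
    · simp
    · have hn0 : (n : ℂ) ≠ 0 := Nat.cast_ne_zero.2 hn
      rw [LSeries.term_of_ne_zero hn, LSeries.term_of_ne_zero hn, tw, Complex.cpow_sub _ _ hn0]
      have h1 : (n : ℂ) ^ s ≠ 0 := by
        rw [Complex.cpow_def_of_ne_zero hn0]; exact Complex.exp_ne_zero _
      have h2 : (n : ℂ) ^ ((τ : ℂ) * Complex.I) ≠ 0 := by
        rw [Complex.cpow_def_of_ne_zero hn0]; exact Complex.exp_ne_zero _
      simp only [Pi.mul_apply]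
      field_simp
  · have hs1 : s ≠ 1 := by
      rintro rfl; simp at hs
    have hL : LFunction (1 : DirichletCharacter ℂ 1) s ≠ 0 :=
      LFunction_ne_zero_of_one_le_re _ (Or.inr hs1) hs.le
    have hf : LFunctionTrivChar₁ 1 s = (s - 1) * LFunction (1 : DirichletCharacter ℂ 1) s := by
      rw [LFunctionTrivChar₁, Function.update_of_ne hs1]
    have hd := deriv_LFunctionTrivChar₁_apply_of_ne_one 1 hs1
    rw [ldL, ldZ, hf, hd]
    have hs2 : s - 1 ≠ 0 := sub_ne_zero.2 hs1
    simp only [LFunctionTrivChar]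
    field_simp
    ring

end Pool.Agent.Lib.VK
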