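import Pool.Agent.Lib.VK.Spec
import Pool.Agent.Lib.SW.Main

/-!
# USM: unsmoothing for twisted sums
-/

set_option autoImplicit false

noncomputable section

namespace Pool.Agent.Lib.VK

open Finset MeasureTheory Metric
open Pool.Agent.Lib.LP (G)

namespace USMM

theorem G_nonneg (lam v : ℝ) : 0 ≤ G lam v := by
  unfold Pool.Agent.Lib.LP.G
  positivity

theorem W_nonneg {T : ℝ} (hT : 0 ≤ T) (lam X l : ℝ) :
    0 ≤ ∫ v in (X - T - l)..(X - l), G lam v :=
  intervalIntegral.integral_nonneg (by linarith) fun v _ => G_nonneg lam v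

/-- comparison of the sum over `n ≤ N` with a weighted sum. -/
theorem diff (a : ℕ → ℂ) (ha : ∀ n, ‖a n‖ ≤ 1) (N : ℕ) (W : ℕ → ℝ)
    (hW : ∀ n, 0 ≤ W n) (h1 : Summable fun n : ℕ => ArithmeticFunction.vonMangoldt n * W n)
    (h2 : Summable fun n : ℕ =>
      ArithmeticFunction.vonMangoldt n * |(if n ≤ N then (1 : ℝ) else 0) - W n|) :
    ‖(∑ n ∈ Finset.Icc 1 N, ((ArithmeticFunction.vonMangoldt n : ℝ) : ℂ) * a n) -
      ∑' n : ℕ, ((ArithmeticFunction.vonMangoldt n : ℝ) : ℂ) * a n * ((W n : ℝ) : ℂ)‖ ≤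
    ∑' n : ℕ, ArithmeticFunction.vonMangoldt n * |(if n ≤ N then (1 : ℝ) else 0) - W n| := by
  have e1 : ∑ n ∈ Finset.Icc 1 N, ((ArithmeticFunction.vonMangoldt n : ℝ) : ℂ) * a n =
      ∑' n : ℕ, ((ArithmeticFunction.vonMangoldt n : ℝ) : ℂ) * a n *
        (((if n ≤ N then (1 : ℝ) else 0) : ℝ) : ℂ) := by
    rw [tsum_eq_sum (s := Finset.Icc 1 N)]
    · refine Finset.sum_congr rfl fun n hn => ?_
      rw [Finset.mem_Icc] at hn
      rw [if_pos hn.2, Complex.ofReal_one, mul_one]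
    · intro n hn
      rw [Finset.mem_Icc, not_and_or] at hn
      rcases hn with hn | hn
      · have h0 : n = 0 := by omega
        subst h0
        simp
      · rw [if_neg hn]
        simp
  have s1 : Summable fun n : ℕ =>
      ((ArithmeticFunction.vonMangoldt n : ℝ) : ℂ) * a n *
        (((if n ≤ N then (1 : ℝ) else 0) : ℝ) : ℂ) := by
    refine summable_of_ne_finset_zero (s := Finset.Icc 0 N) ?_
    intro n hn
    rw [Finset.mem_Icc, not_and_or] at hn
    have hn' : ¬ n ≤ N := by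
      rcases hn with hn | hn
      · exact absurd (Nat.zero_le n) hn
      · exact hn
    rw [if_neg hn']
    simp
  have s2 : Summable fun n : ℕ =>
      ((ArithmeticFunction.vonMangoldt n : ℝ) : ℂ) * a n * ((W n : ℝ) : ℂ) := by
    refine Summable.of_norm_bounded h1 fun n => ?_
    rw [norm_mul, norm_mul, Complex.norm_real, Complex.norm_real, Real.norm_eq_abs,
      Real.norm_eq_abs, abs_of_nonneg ArithmeticFunction.vonMangoldt_nonneg, abs_of_nonneg (hW n)]
    have h3 : ArithmeticFunction.vonMangoldt n * ‖a n‖ ≤ ArithmeticFunction.vonMangoldt n * 1 :=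
      mul_le_mul_of_nonneg_left (ha n) ArithmeticFunction.vonMangoldt_nonneg
    rw [mul_one] at h3
    exact mul_le_mul_of_nonneg_right h3 (hW n)
  rw [e1, ← s1.tsum_sub s2]
  refine tsum_of_norm_bounded h2.hasSum fun n => ?_
  rw [← mul_sub, ← Complex.ofReal_sub, norm_mul, norm_mul, Complex.norm_real, Complex.norm_real,
    Real.norm_eq_abs, Real.norm_eq_abs, abs_of_nonneg ArithmeticFunction.vonMangoldt_nonneg]
  have h3 : ArithmeticFunction.vonMangoldt n * ‖a n‖ ≤ ArithmeticFunction.vonMangoldt n * 1 :=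
    mul_le_mul_of_nonneg_left (ha n) ArithmeticFunction.vonMangoldt_nonneg
  rw [mul_one] at h3
  exact mul_le_mul_of_nonneg_right h3 (abs_nonneg _)

end USMM

open USMM in
theorem specUSM (hSMT : SpecSMT) : SpecUSM := by
  obtain ⟨T₂, h2⟩ := Pool.Agent.Lib.SW.wsm
  refine ⟨max T₂ 1000, ?_⟩
  intro T hT a ha x hx0 hx1 hx2
  have hT2 : T₂ ≤ T := (le_max_left _ _).trans hT
  have hT3 : 1000 ≤ T := (le_max_right _ _).trans hT
  have hT0 : 0 ≤ T := by linarith
  have hl1 : 6 ≤ Real.exp T := by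
    have := Real.add_one_le_exp T
    linarith
  obtain ⟨s2, b2⟩ := h2 T hT2 x hx1 hx2 hx0
  obtain ⟨s3, -⟩ := Pool.Agent.Lib.SW.smo (Real.exp T) hl1 1 1 (Real.log x) T hT0
  have e3 := hSMT (Real.exp T) hl1 a ha (Real.log x) T hT0
  have hd := diff a ha ⌊x⌋₊
    (fun n : ℕ => ∫ v in (Real.log x - T - Real.log n)..(Real.log x - Real.log n),
      G (Real.exp T) v) (fun n => W_nonneg hT0 _ _ _) s3 s2
  rw [e3]
  exact hd.trans b2

end Pool.Agent.Lib.VK
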