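import Pool.Agent.Lib.VK.Spec

/-!
# VK, module VIN: Vinogradov's bound for the sums of `χ(n) n^(iy)`
-/

set_option autoImplicit false

noncomputable section

namespace Pool.Agent.Lib.VK.VINM

open Finset

theorem norm_nat_cpow (n : ℕ) (hn : 0 < n) (y : ℝ) : ‖(n : ℂ) ^ ((y : ℂ) * Complex.I)‖ = 1 := by
  rw [Complex.norm_natCast_cpow_of_pos hn]
  simp

/-- `(n + q x z)^(iy) = n^(iy) (1+u)^(iy)` -/
theorem tw_split (q n x z : ℕ) (hn : 0 < n) (y : ℝ) :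
    tw y (n + q * x * z) = (n : ℂ) ^ ((y : ℂ) * Complex.I) *
      ((1 + ((q : ℝ) * x * z / n) : ℝ) : ℂ) ^ ((y : ℂ) * Complex.I) := by
  have hn0 : (0 : ℝ) < n := by exact_mod_cast hn
  have hu : (0 : ℝ) ≤ 1 + ((q : ℝ) * x * z / n) := by positivity
  have h1 : ((n + q * x * z : ℕ) : ℂ) = ((n : ℝ) : ℂ) * ((1 + ((q : ℝ) * x * z / n) : ℝ) : ℂ) := by
    rw [← Complex.ofReal_mul]
    have h2 : (n : ℝ) * (1 + ((q : ℝ) * x * z / n)) = ((n + q * x * z : ℕ) : ℝ) := by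
      push_cast
      field_simp
    rw [h2]
    simp
  rw [tw, h1, Complex.mul_cpow_ofReal_nonneg hn0.le hu]
  simp

/-- the Taylor polynomial -/
theorem al_sum (k q n x z : ℕ) (y : ℝ) :
    y / (2 * Real.pi) * ∑ j : Fin k, ((-1) ^ (j : ℕ) * ((q : ℝ) * x * z / n) ^ ((j : ℕ) + 1) / ((j : ℕ) + 1))
      = ∑ j : Fin k, al q y n j * ((x * z : ℕ) : ℝ) ^ ((j : ℕ) + 1) := by
  rw [Finset.mul_sum]
  apply Finset.sum_congr rfl
  intro j _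
  rw [al]
  have h1 : ((q : ℝ) * x * z / n) ^ ((j : ℕ) + 1)
      = ((q : ℝ) / n) ^ ((j : ℕ) + 1) * ((x * z : ℕ) : ℝ) ^ ((j : ℕ) + 1) := by
    rw [← mul_pow]
    congr 1
    push_cast
    ring
  rw [h1]
  ring

/-- one summand -/
theorem term_le (hTAY : SpecTAY) (k q N n Z : ℕ) (y : ℝ) (hN : 0 < N) (hn : N < n)
    (hu : (q : ℝ) * (Z : ℝ) ^ 2 / N ≤ 1 / 2) (x z : ℕ) (hx : x ≤ Z) (hz : z ≤ Z) :
    ‖((1 + ((q : ℝ) * x * z / n) : ℝ) : ℂ) ^ ((y : ℂ) * Complex.I) -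
      ee (∑ j : Fin k, al q y n j * ((x * z : ℕ) : ℝ) ^ ((j : ℕ) + 1))‖
      ≤ 2 * |y| * ((q : ℝ) * (Z : ℝ) ^ 2 / N) ^ (k + 1) := by
  have hN0 : (0 : ℝ) < N := by exact_mod_cast hN
  have hn0 : (0 : ℝ) < n := by exact_mod_cast hN.trans hn
  have hNn : (N : ℝ) ≤ n := by exact_mod_cast hn.le
  have hx' : (x : ℝ) ≤ Z := by exact_mod_cast hx
  have hz' : (z : ℝ) ≤ Z := by exact_mod_cast hz
  have h0 : (0 : ℝ) ≤ (q : ℝ) * x * z / n := by positivity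
  have h1 : (q : ℝ) * x * z / n ≤ (q : ℝ) * (Z : ℝ) ^ 2 / N := by
    apply div_le_div₀ (by positivity) _ hN0 hNn
    rw [mul_assoc]
    apply mul_le_mul_of_nonneg_left _ (by positivity)
    rw [sq]
    exact mul_le_mul hx' hz' (by positivity) (by positivity)
  have h2 := hTAY k y ((q : ℝ) * x * z / n) h0 (h1.trans hu)
  rw [al_sum] at h2
  refine h2.trans ?_
  apply mul_le_mul_of_nonneg_left _ (by positivity)
  exact pow_le_pow_left₀ h0 h1 _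

/-- the double sum for one `n` -/
theorem inner_le (hTAY : SpecTAY) (k q N n Z : ℕ) (y E F : ℝ) (hN : 0 < N) (hn : N < n)
    (hu : (q : ℝ) * (Z : ℝ) ^ 2 / N ≤ 1 / 2)
    (hE : 2 * |y| * ((q : ℝ) * (Z : ℝ) ^ 2 / N) ^ (k + 1) ≤ E)
    (hF : ‖∑ x ∈ Icc 1 Z, ∑ z ∈ Icc 1 Z,
        ee (∑ j : Fin k, al q y n j * ((x * z : ℕ) : ℝ) ^ ((j : ℕ) + 1))‖ ≤ (Z : ℝ) ^ 2 * F) :
    ‖∑ x ∈ Icc 1 Z, ∑ z ∈ Icc 1 Z, tw y (n + q * x * z)‖ ≤ (Z : ℝ) ^ 2 * (F + E) := by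
  have hn0 : 0 < n := hN.trans hn
  have h1 : ∑ x ∈ Icc 1 Z, ∑ z ∈ Icc 1 Z, tw y (n + q * x * z) = (n : ℂ) ^ ((y : ℂ) * Complex.I) *
      ∑ x ∈ Icc 1 Z, ∑ z ∈ Icc 1 Z,
        ((1 + ((q : ℝ) * x * z / n) : ℝ) : ℂ) ^ ((y : ℂ) * Complex.I) := by
    rw [Finset.mul_sum]
    apply Finset.sum_congr rfl
    intro x _
    rw [Finset.mul_sum]
    apply Finset.sum_congr rfl
    intro z _
    exact tw_split q n x z hn0 y
  rw [h1, norm_mul, norm_nat_cpow n hn0 y, one_mul]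
  have h2 : ∑ x ∈ Icc 1 Z, ∑ z ∈ Icc 1 Z,
        ((1 + ((q : ℝ) * x * z / n) : ℝ) : ℂ) ^ ((y : ℂ) * Complex.I)
      = (∑ x ∈ Icc 1 Z, ∑ z ∈ Icc 1 Z,
        ee (∑ j : Fin k, al q y n j * ((x * z : ℕ) : ℝ) ^ ((j : ℕ) + 1)))
      + ∑ x ∈ Icc 1 Z, ∑ z ∈ Icc 1 Z,
        (((1 + ((q : ℝ) * x * z / n) : ℝ) : ℂ) ^ ((y : ℂ) * Complex.I) -
          ee (∑ j : Fin k, al q y n j * ((x * z : ℕ) : ℝ) ^ ((j : ℕ) + 1))) := by
    rw [← Finset.sum_add_distrib]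
    apply Finset.sum_congr rfl
    intro x _
    rw [← Finset.sum_add_distrib]
    apply Finset.sum_congr rfl
    intro z _
    ring
  rw [h2]
  refine (norm_add_le _ _).trans ?_
  have h3 : ‖∑ x ∈ Icc 1 Z, ∑ z ∈ Icc 1 Z,
        (((1 + ((q : ℝ) * x * z / n) : ℝ) : ℂ) ^ ((y : ℂ) * Complex.I) -
          ee (∑ j : Fin k, al q y n j * ((x * z : ℕ) : ℝ) ^ ((j : ℕ) + 1)))‖ ≤ (Z : ℝ) ^ 2 * E := by
    calc _ ≤ ∑ x ∈ Icc 1 Z, ∑ z ∈ Icc 1 Z, E := by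
          refine (norm_sum_le _ _).trans (Finset.sum_le_sum ?_)
          intro x hx
          refine (norm_sum_le _ _).trans (Finset.sum_le_sum ?_)
          intro z hz
          exact (term_le hTAY k q N n Z y hN hn hu x z (Finset.mem_Icc.mp hx).2
            (Finset.mem_Icc.mp hz).2).trans hE
      _ = (Z : ℝ) ^ 2 * E := by
          simp only [Finset.sum_const, Nat.card_Icc, Nat.add_sub_cancel, nsmul_eq_mul]
          ring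
  rw [mul_add]
  exact add_le_add hF h3

end Pool.Agent.Lib.VK.VINM

namespace Pool.Agent.Lib.VK

open Finset

theorem specVIN (hTAY : SpecTAY) (hSHF : SpecSHF) (hCHO : SpecCHO) (hVWN : SpecVWN) : SpecVIN := by
  intro A C
  obtain ⟨T₁, hT₁, h1⟩ := hCHO A C
  obtain ⟨T₂, hT₂, h2⟩ := hVWN A C
  refine ⟨max T₁ T₂, hT₁.trans (le_max_left _ _), ?_⟩
  intro T hT q hq χ N y hR b hNb hb
  have hT1 : T₁ ≤ T := (le_max_left _ _).trans hT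
  have hT2 : T₂ ≤ T := (le_max_right _ _).trans hT
  have hT1000 : 1000 ≤ T := hT₁.trans hT1
  have hT0 : 0 < T := by linarith
  have hq1 : 1 ≤ q := Nat.one_le_iff_ne_zero.mpr hq.out
  obtain ⟨hkk, hZ1, hZ2, hE, _⟩ := h1 T hT1 q N y hq1 hR
  have hlog : T ^ 45 ≤ Real.log N := hR.2.1
  have hlog0 : 0 < Real.log N := lt_of_lt_of_le (by positivity) hlog
  have hN0 : 0 < N := by
    rcases Nat.eq_zero_or_pos N with h | h
    · rw [h] at hlog0; simp at hlog0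
    · exact h
  have hN0r : (0 : ℝ) < N := by exact_mod_cast hN0
  have hN1 : (1 : ℝ) ≤ N := by exact_mod_cast hN0
  have hZ0 : (0 : ℝ) < ZZ N := by exact_mod_cast hZ1
  -- powers of N
  have h20 : (N : ℝ) ^ (-(1 / 20 : ℝ)) ≤ Real.exp (-T ^ 8) := by
    rw [Real.rpow_def_of_pos hN0r]
    apply Real.exp_le_exp.mpr
    have h3 : 20 * T ^ 8 ≤ T ^ 45 := by
      have h4 : (20 : ℝ) ≤ T ^ 37 := by
        calc (20 : ℝ) ≤ T := by linarith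
          _ = T ^ 1 := (pow_one T).symm
          _ ≤ T ^ 37 := pow_le_pow_right₀ (by linarith) (by norm_num)
      calc 20 * T ^ 8 ≤ T ^ 37 * T ^ 8 := mul_le_mul_of_nonneg_right h4 (by positivity)
        _ = T ^ 45 := by rw [← pow_add]
    linarith
  have h910 : (N : ℝ) ^ (9 / 10 : ℝ) ≤ N * (N : ℝ) ^ (-(1 / 20 : ℝ)) := by
    calc (N : ℝ) ^ (9 / 10 : ℝ) ≤ (N : ℝ) ^ (1 + -(1 / 20 : ℝ)) :=
          Real.rpow_le_rpow_of_exponent_le hN1 (by norm_num)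
      _ = N * (N : ℝ) ^ (-(1 / 20 : ℝ)) := by rw [Real.rpow_add hN0r, Real.rpow_one]
  have hu : (q : ℝ) * (ZZ N : ℝ) ^ 2 / N ≤ 1 / 2 := by
    rw [div_le_iff₀ hN0r]
    have h3 : (N : ℝ) ^ (9 / 10 : ℝ) ≤ N := by
      calc (N : ℝ) ^ (9 / 10 : ℝ) ≤ (N : ℝ) ^ (1 : ℝ) :=
            Real.rpow_le_rpow_of_exponent_le hN1 (by norm_num)
        _ = N := Real.rpow_one _
    linarith
  have hS := hSHF q χ y N b (ZZ N) hN0 hNb
  have hsum : ∑ n ∈ Ioc N b, ‖∑ x ∈ Icc 1 (ZZ N), ∑ z ∈ Icc 1 (ZZ N), tw y (n + q * x * z)‖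
      ≤ N * ((ZZ N : ℝ) ^ 2 * (Real.exp (-T ^ 8) + (N : ℝ) ^ (-(1 / 20 : ℝ)))) := by
    calc _ ≤ ∑ n ∈ Ioc N b, (ZZ N : ℝ) ^ 2 * (Real.exp (-T ^ 8) + (N : ℝ) ^ (-(1 / 20 : ℝ))) := by
          apply Finset.sum_le_sum
          intro n hn
          have hn' := Finset.mem_Ioc.mp hn
          exact VINM.inner_le hTAY (kk N y) q N n (ZZ N) y _ _ hN0 hn'.1 hu hE
            (h2 T hT2 q N y hq1 hR n hn'.1 (hn'.2.trans hb))
      _ = ((b - N : ℕ) : ℝ) * ((ZZ N : ℝ) ^ 2 * (Real.exp (-T ^ 8) + (N : ℝ) ^ (-(1 / 20 : ℝ)))) := by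
          rw [Finset.sum_const, Nat.card_Ioc, nsmul_eq_mul]
      _ ≤ _ := by
          apply mul_le_mul_of_nonneg_right _ (by positivity)
          exact_mod_cast (by omega : b - N ≤ N)
  have h3 : (ZZ N : ℝ) ^ 2 * ‖∑ n ∈ Ioc N b, χ (n : ZMod q) * tw y n‖ ≤
      (ZZ N : ℝ) ^ 2 * (4 * N * Real.exp (-T ^ 8)) := by
    refine hS.trans ?_
    have h4 : 2 * (q : ℝ) * (ZZ N : ℝ) ^ 4 ≤ (ZZ N : ℝ) ^ 2 * (N * Real.exp (-T ^ 8)) := by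
      calc 2 * (q : ℝ) * (ZZ N : ℝ) ^ 4 = (ZZ N : ℝ) ^ 2 * (2 * q * (ZZ N : ℝ) ^ 2) := by ring
        _ ≤ (ZZ N : ℝ) ^ 2 * (N * Real.exp (-T ^ 8)) := by
            apply mul_le_mul_of_nonneg_left _ (by positivity)
            refine hZ2.trans (h910.trans ?_)
            exact mul_le_mul_of_nonneg_left h20 hN0r.le
    have h5 : (N : ℝ) * ((ZZ N : ℝ) ^ 2 * (Real.exp (-T ^ 8) + (N : ℝ) ^ (-(1 / 20 : ℝ))))
        ≤ (ZZ N : ℝ) ^ 2 * (N * Real.exp (-T ^ 8)) + (ZZ N : ℝ) ^ 2 * (N * Real.exp (-T ^ 8)) := by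
      have h6 : (ZZ N : ℝ) ^ 2 * (N * (N : ℝ) ^ (-(1 / 20 : ℝ)))
          ≤ (ZZ N : ℝ) ^ 2 * (N * Real.exp (-T ^ 8)) := by
        apply mul_le_mul_of_nonneg_left _ (by positivity)
        exact mul_le_mul_of_nonneg_left h20 hN0r.le
      linarith
    have h7 : 0 ≤ (ZZ N : ℝ) ^ 2 * (N * Real.exp (-T ^ 8)) := by positivity
    linarith
  exact le_of_mul_le_mul_left h3 (by positivity)

end Pool.Agent.Lib.VK
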