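import Pool.Agent.Lib.VK.Spec

set_option autoImplicit false

noncomputable section

namespace Pool.Agent.Lib.VK

open Finset MeasureTheory Metric
open scoped ArithmeticFunction
open Pool.Agent.Lib.LargeAP (ldL KG Pp)
open Pool.Agent.Lib.LP (G)

namespace VJTM

theorem log_le {K : ℝ} (hK : 20 ≤ K) : Real.log K ≤ 15 / 100 * K := by
  have h20 : Real.log 20 ≤ 3 := by
    rw [Real.log_le_iff_le_exp (by norm_num)]
    have h1 : (2.7182818283 : ℝ) ≤ Real.exp 1 := Real.exp_one_gt_d9.le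
    have h2 : Real.exp 3 = Real.exp 1 ^ 3 := by
      rw [← Real.exp_nat_mul]
      norm_num
    rw [h2]
    calc (20 : ℝ) ≤ 2.7182818283 ^ 3 := by norm_num
      _ ≤ _ := pow_le_pow_left₀ (by norm_num) h1 3
  have h3 : Real.log (K / 20) ≤ K / 20 - 1 := Real.log_le_sub_one_of_pos (by positivity)
  have h4 : Real.log K = Real.log 20 + Real.log (K / 20) := by
    rw [← Real.log_mul (by norm_num) (by positivity)]
    congr 1
    field_simp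
  rw [h4]
  linarith

theorem theta_le {k : ℕ} (hk : 20 ≤ k) :
    (k : ℝ) * (k + 1) * (1 - 1 / (k : ℝ)) ^ (k ^ 2) ≤ 1 / 500 := by
  have hK : (20 : ℝ) ≤ k := by exact_mod_cast hk
  have hK0 : (0 : ℝ) < k := by linarith
  have h1 : (1 - 1 / (k : ℝ)) ≤ Real.exp (-(1 / (k : ℝ))) := by
    have := Real.add_one_le_exp (-(1 / (k : ℝ)))
    linarith
  have h0 : (0 : ℝ) ≤ 1 - 1 / (k : ℝ) := by
    have : 1 / (k : ℝ) ≤ 1 := by
      rw [div_le_one hK0]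
      linarith
    linarith
  have h2 : (1 - 1 / (k : ℝ)) ^ (k ^ 2) ≤ Real.exp (-(k : ℝ)) := by
    refine (pow_le_pow_left₀ h0 h1 _).trans (le_of_eq ?_)
    rw [← Real.exp_nat_mul]
    congr 1
    push_cast
    field_simp
  have h3 : (k : ℝ) ^ 8 / (Nat.factorial 8 : ℕ) ≤ Real.exp k :=
    Real.pow_div_factorial_le_exp (k : ℝ) hK0.le 8
  have h4 : (Nat.factorial 8 : ℕ) = 40320 := by decide
  rw [h4] at h3
  have h5 : (k : ℝ) * (k + 1) * 500 ≤ Real.exp k := by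
    refine le_trans ?_ h3
    rw [le_div_iff₀ (by norm_num)]
    have h6 : (20 : ℝ) ^ 6 ≤ (k : ℝ) ^ 6 := pow_le_pow_left₀ (by norm_num) hK 6
    have h7 : (k : ℝ) * (k + 1) ≤ 2 * (k : ℝ) ^ 2 := by nlinarith
    calc (k : ℝ) * (k + 1) * 500 * ((40320 : ℕ) : ℝ) ≤ 2 * (k : ℝ) ^ 2 * 500 * 40320 := by
          push_cast
          nlinarith
      _ ≤ (k : ℝ) ^ 2 * 20 ^ 6 := by nlinarith [sq_nonneg (k : ℝ)]
      _ ≤ (k : ℝ) ^ 2 * (k : ℝ) ^ 6 := by gcongr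
      _ = (k : ℝ) ^ 8 := by ring
  calc (k : ℝ) * (k + 1) * (1 - 1 / (k : ℝ)) ^ (k ^ 2)
      ≤ (k : ℝ) * (k + 1) * Real.exp (-(k : ℝ)) := by gcongr
    _ ≤ 1 / 500 := by
        rw [Real.exp_neg, ← div_eq_mul_inv, div_le_iff₀ (Real.exp_pos _)]
        linarith

theorem const_le {k : ℕ} (hk : 20 ≤ k) :
    ((ss k : ℕ) : ℝ) ^ (2 * (8 * ss k * (k + k ^ 2))) * (3 * (ss k : ℝ)) ^ (2 * k) ≤
      Real.exp (12 * (ss k : ℝ) ^ 2) := by
  have hK : (20 : ℝ) ≤ k := by exact_mod_cast hk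
  have hK0 : (0 : ℝ) < k := by linarith
  have hS : (ss k : ℝ) = k * (k + k ^ 2) := by
    unfold ss
    push_cast
    ring
  have hS3 : (k : ℝ) ^ 3 ≤ ss k := by
    rw [hS]
    nlinarith [sq_nonneg (k : ℝ)]
  have hS4 : (ss k : ℝ) ≤ (k : ℝ) ^ 4 := by
    rw [hS]
    have h1 : (k : ℝ) ^ 2 ≤ (k : ℝ) ^ 3 := pow_le_pow_right₀ (by linarith) (by norm_num)
    have h2 : 2 * (k : ℝ) ^ 3 ≤ (k : ℝ) ^ 4 := by
      have h3 : 0 ≤ (k : ℝ) ^ 3 := by positivity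
      have h4 : (k : ℝ) ^ 4 = k * (k : ℝ) ^ 3 := by ring
      rw [h4]
      nlinarith
    nlinarith
  have hSpos : (0 : ℝ) < ss k := lt_of_lt_of_le (by positivity) hS3
  have hlog : Real.log (ss k) ≤ 6 / 10 * k := by
    have h1 : Real.log (ss k) ≤ Real.log ((k : ℝ) ^ 4) := Real.log_le_log hSpos hS4
    rw [Real.log_pow] at h1
    have h2 := log_le hK
    push_cast at h1
    linarith
  have e1 : ((ss k : ℕ) : ℝ) ^ (2 * (8 * ss k * (k + k ^ 2))) =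
      Real.exp (((2 * (8 * ss k * (k + k ^ 2)) : ℕ) : ℝ) * Real.log (ss k)) := by
    rw [mul_comm (((2 * (8 * ss k * (k + k ^ 2)) : ℕ) : ℝ)), Real.exp_mul, Real.exp_log hSpos,
      Real.rpow_natCast]
  have e2 : (3 * (ss k : ℝ)) ^ (2 * k) =
      Real.exp (((2 * k : ℕ) : ℝ) * Real.log (3 * (ss k : ℝ))) := by
    rw [mul_comm ((2 * k : ℕ) : ℝ), Real.exp_mul, Real.exp_log (by positivity),
      Real.rpow_natCast]
  rw [e1, e2, ← Real.exp_add]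
  apply Real.exp_le_exp.2
  have f1 : ((2 * (8 * ss k * (k + k ^ 2)) : ℕ) : ℝ) = 16 * (ss k : ℝ) * ((ss k : ℝ) / k) := by
    push_cast
    have : (ss k : ℝ) / k = k + (k : ℝ) ^ 2 := by
      rw [hS]
      field_simp
    rw [this]
    ring
  have f2 : ((2 * (8 * ss k * (k + k ^ 2)) : ℕ) : ℝ) * Real.log (ss k) ≤
      96 / 10 * (ss k : ℝ) ^ 2 := by
    rw [f1]
    calc 16 * (ss k : ℝ) * ((ss k : ℝ) / k) * Real.log (ss k)
        ≤ 16 * (ss k : ℝ) * ((ss k : ℝ) / k) * (6 / 10 * k) := by gcongr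
      _ = 96 / 10 * (ss k : ℝ) ^ 2 := by
          field_simp
          norm_num
  have f3 : ((2 * k : ℕ) : ℝ) * Real.log (3 * (ss k : ℝ)) ≤ (ss k : ℝ) ^ 2 := by
    have g1 : Real.log (3 * (ss k : ℝ)) ≤ 3 * (ss k : ℝ) := by
      have := Real.log_le_sub_one_of_pos (show 0 < 3 * (ss k : ℝ) by positivity)
      linarith
    have g2 : 6 * (k : ℝ) ≤ ss k := by
      refine le_trans ?_ hS3
      have h3 : (k : ℝ) ^ 3 = k * (k * k) := by ring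
      rw [h3]
      nlinarith
    push_cast
    calc 2 * (k : ℝ) * Real.log (3 * (ss k : ℝ)) ≤ 2 * (k : ℝ) * (3 * (ss k : ℝ)) := by gcongr
      _ = 6 * (k : ℝ) * ss k := by ring
      _ ≤ ss k * ss k := by gcongr
      _ = (ss k : ℝ) ^ 2 := by ring
  have f4 : 0 ≤ (ss k : ℝ) ^ 2 := by positivity
  linarith

theorem prod_le (k s Z : ℕ) (hs : 1 ≤ s) (hZ : 1 ≤ Z) :
    ∏ j : Fin k, (2 * ((s * Z ^ ((j : ℕ) + 1) : ℕ) : ℝ) + 1) ^ 2 ≤
      (3 * (s : ℝ)) ^ (2 * k) * (Z : ℝ) ^ (k * (k + 1)) := by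
  have hZ' : (1 : ℝ) ≤ Z := by exact_mod_cast hZ
  have hs' : (1 : ℝ) ≤ s := by exact_mod_cast hs
  have h1 : ∀ j : Fin k, (2 * ((s * Z ^ ((j : ℕ) + 1) : ℕ) : ℝ) + 1) ^ 2 ≤
      (3 * (s : ℝ)) ^ 2 * (Z : ℝ) ^ (2 * ((j : ℕ) + 1)) := by
    intro j
    push_cast
    have h2 : 1 ≤ (s : ℝ) * (Z : ℝ) ^ ((j : ℕ) + 1) :=
      one_le_mul_of_one_le_of_one_le hs' (one_le_pow₀ hZ')
    calc (2 * ((s : ℝ) * (Z : ℝ) ^ ((j : ℕ) + 1)) + 1) ^ 2
        ≤ (3 * ((s : ℝ) * (Z : ℝ) ^ ((j : ℕ) + 1))) ^ 2 := by gcongr; linarith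
      _ = _ := by ring
  refine (Finset.prod_le_prod (fun j _ => by positivity) fun j _ => h1 j).trans (le_of_eq ?_)
  rw [Finset.prod_mul_distrib, Finset.prod_const, Finset.card_univ, Fintype.card_fin, ← pow_mul,
    Finset.prod_pow_eq_pow_sum]
  congr 2
  rw [Fin.sum_univ_eq_sum_range (fun j => 2 * (j + 1)) k, ← Finset.mul_sum]
  clear h1
  induction k with
  | zero => simp
  | succ k ih =>
    rw [Finset.sum_range_succ, mul_add, ih]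
    ring

end VJTM

open VJTM in
theorem specVJT : SpecVJT := by
  intro k Z hk hZ
  have hK : (20 : ℝ) ≤ k := by exact_mod_cast hk
  have hK0 : (0 : ℝ) < k := by linarith
  have hz1 : (1 : ℝ) ≤ Z := by exact_mod_cast hZ
  have hz0 : (0 : ℝ) < Z := by linarith
  have hs1 : 1 ≤ ss k := by
    unfold ss
    exact Nat.mul_pos (by omega) (by positivity)
  have hJ := VMV.vmvt k (k ^ 2) Z (by omega) hZ
  have hJ0 : (0 : ℝ) ≤ (VMV.J k (Fin (ss k)) (Icc (1 : ℤ) Z) : ℝ) := Nat.cast_nonneg _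
  change (VMV.J k (Fin (ss k)) (Icc (1 : ℤ) Z) : ℝ) ≤
      ((ss k : ℕ) : ℝ) ^ (8 * (ss k) * (k + k ^ 2)) *
        (Z : ℝ) ^ (2 * ((ss k : ℕ) : ℝ) - (k : ℝ) * (k + 1) / 2
          + (k : ℝ) * (k + 1) / 2 * (1 - 1 / (k : ℝ)) ^ (k ^ 2)) at hJ
  set θ : ℝ := (1 - 1 / (k : ℝ)) ^ (k ^ 2) with hθ
  have hθ' := theta_le hk
  rw [← hθ] at hθ'
  have hJ2 := pow_le_pow_left₀ hJ0 hJ 2
  have hP := prod_le k (ss k) Z hs1 hZ
  have hP0 : 0 ≤ ∏ j : Fin k, (2 * ((ss k * Z ^ ((j : ℕ) + 1) : ℕ) : ℝ) + 1) ^ 2 :=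
    Finset.prod_nonneg fun j _ => by positivity
  refine (mul_le_mul hJ2 hP hP0 (by positivity)).trans ?_
  have hc := const_le hk
  have e1 : (((ss k : ℕ) : ℝ) ^ (8 * (ss k) * (k + k ^ 2)) *
        (Z : ℝ) ^ (2 * ((ss k : ℕ) : ℝ) - (k : ℝ) * (k + 1) / 2
          + (k : ℝ) * (k + 1) / 2 * θ)) ^ 2 *
      ((3 * (ss k : ℝ)) ^ (2 * k) * (Z : ℝ) ^ (k * (k + 1))) =
      (((ss k : ℕ) : ℝ) ^ (2 * (8 * ss k * (k + k ^ 2))) * (3 * (ss k : ℝ)) ^ (2 * k)) *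
        ((Z : ℝ) ^ (4 * ss k) * (Z : ℝ) ^ ((k : ℝ) * (k + 1) * θ)) := by
    have h1 : ((Z : ℝ) ^ (2 * ((ss k : ℕ) : ℝ) - (k : ℝ) * (k + 1) / 2
          + (k : ℝ) * (k + 1) / 2 * θ)) ^ 2 * (Z : ℝ) ^ (k * (k + 1)) =
        (Z : ℝ) ^ (4 * ss k) * (Z : ℝ) ^ ((k : ℝ) * (k + 1) * θ) := by
      rw [← Real.rpow_natCast, ← Real.rpow_mul hz0.le, ← Real.rpow_natCast,
        ← Real.rpow_add hz0, ← Real.rpow_natCast, ← Real.rpow_add hz0]
      congr 1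
      push_cast
      ring
    calc _ = (((ss k : ℕ) : ℝ) ^ (8 * (ss k) * (k + k ^ 2))) ^ 2 * (3 * (ss k : ℝ)) ^ (2 * k) *
          (((Z : ℝ) ^ (2 * ((ss k : ℕ) : ℝ) - (k : ℝ) * (k + 1) / 2
          + (k : ℝ) * (k + 1) / 2 * θ)) ^ 2 * (Z : ℝ) ^ (k * (k + 1))) := by ring
      _ = _ := by
          rw [h1, ← pow_mul]
          congr 3
          ring
  rw [e1, mul_assoc (Real.exp _)]
  refine mul_le_mul hc ?_ (by positivity) (Real.exp_pos _).le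
  refine mul_le_mul_of_nonneg_left ?_ (by positivity)
  exact Real.rpow_le_rpow_of_exponent_le hz1 hθ'

end Pool.Agent.Lib.VK
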