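import Pool.Agent.Lib.VK.Spec

/-!
# VWN: the double sum
-/

set_option autoImplicit false

noncomputable section

namespace Pool.Agent.Lib.VK

open Finset MeasureTheory Metric

namespace VWNM

theorem bx_nonneg (M : ℕ) (θ : ℝ) : 0 ≤ bx M θ :=
  Finset.sum_nonneg fun _ _ => norm_nonneg _

/-- the bound of the product -/
theorem prod_bx (hGEO : SpecGEO) (k : ℕ) (M : Fin k → ℕ) (θ : Fin k → ℝ) (j : Fin k) (t : ℝ)
    (hM : 1 ≤ M j) (h0 : θ j ≠ 0) (h1 : |θ j| * M j ≤ 1 / 2)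
    (h2 : (2 * (M j : ℝ) + 1) + (1 + Real.log (M j)) / |θ j| ≤ (2 * (M j : ℝ) + 1) ^ 2 * t) :
    ∏ i : Fin k, bx (M i) (θ i) ≤ (∏ i : Fin k, (2 * (M i : ℝ) + 1) ^ 2) * t := by
  have h3 : ∏ i : Fin k, bx (M i) (θ i) ≤
      ∏ i : Fin k, ((2 * (M i : ℝ) + 1) ^ 2 * (if i = j then t else 1)) := by
    refine Finset.prod_le_prod (fun i _ => bx_nonneg _ _) fun i _ => ?_
    by_cases hi : i = j
    · subst hi
      rw [if_pos rfl]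
      exact (hGEO.2 (M i) (θ i) hM h0 h1).trans h2
    · rw [if_neg hi, mul_one]
      exact hGEO.1 (M i) (θ i)
  refine h3.trans (le_of_eq ?_)
  rw [Finset.prod_mul_distrib, Finset.prod_ite_eq' Finset.univ j (fun _ => t)]
  simp

theorem num {T s l : ℝ} (hT : 1000 ≤ T) (hs0 : 0 ≤ s) (hs : s ≤ 2 * T ^ 18) (hl : T ^ 45 ≤ l) :
    12 * s ^ 2 + (1 / 500 - 1 / 20) * l ≤ -(4 * s ^ 2 * T ^ 8) := by
  have hT0 : 0 < T := by linarith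
  have h1 : s ^ 2 ≤ 4 * T ^ 36 := by
    have := pow_le_pow_left₀ hs0 hs 2
    calc s ^ 2 ≤ (2 * T ^ 18) ^ 2 := this
      _ = 4 * T ^ 36 := by ring
  have h8 : (3 : ℝ) ≤ T ^ 8 := by
    have : T ≤ T ^ 8 := le_self_pow₀ (by linarith) (by norm_num)
    linarith
  have h2 : 4 * s ^ 2 * (T ^ 8 + 3) ≤ 4 * (4 * T ^ 36) * (T ^ 8 + T ^ 8) := by
    have h3 : (0 : ℝ) ≤ T ^ 8 := by positivity
    have h4 : 4 * s ^ 2 ≤ 4 * (4 * T ^ 36) := by linarith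
    exact mul_le_mul h4 (by linarith) (by linarith) (by positivity)
  have h5 : 4 * (4 * T ^ 36) * (T ^ 8 + T ^ 8) = 32 * T ^ 44 := by ring
  have h6 : 32 * T ^ 44 ≤ 6 / 125 * T ^ 45 := by
    have : (T : ℝ) ^ 45 = T ^ 44 * T := by ring
    rw [this]
    have h7 : (0 : ℝ) ≤ T ^ 44 := by positivity
    nlinarith
  nlinarith

end VWNM

open VWNM in
theorem specVWN (hBIL : SpecBIL) (hGEO : SpecGEO) (hVJT : SpecVJT) (hCHO : SpecCHO) :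
    SpecVWN := by
  intro A C
  obtain ⟨T₁, hT₁, hch⟩ := hCHO A C
  refine ⟨T₁, hT₁, ?_⟩
  intro T hT q N y hq hR n hn1 hn2
  have H := hch T hT q N y hq hR
  obtain ⟨-, hlog, -, -⟩ := hR
  have hT3 : 1000 ≤ T := hT₁.trans hT
  have hT0 : 0 < T := by linarith
  have hk20 : 20 ≤ kk N y := by unfold kk; omega
  have hZN0 : ((ZZ N : ℕ) : ℝ) ≤ (N : ℝ) ^ (2 / 5 : ℝ) := by
    unfold ZZ
    exact Nat.floor_le (by positivity)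
  generalize kk N y = k at H hk20 ⊢
  generalize ZZ N = Z at H hZN0 ⊢
  obtain ⟨hk, hZ, -, -, j, hj⟩ := H
  obtain ⟨hj0, hj1, hj2⟩ := hj n hn1 hn2
  have hs1 : 1 ≤ ss k := by
    unfold ss
    exact Nat.one_le_iff_ne_zero.2 (Nat.mul_ne_zero (by omega) (by omega))
  have hsr0 : ((ss k : ℕ) : ℝ) = (k : ℝ) * (k + (k : ℝ) ^ 2) := by
    unfold ss; push_cast; ring
  have h1 := hBIL k (ss k) Z (fun i => al q y n i) (by omega) hs1 hZ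
  have h3 := hVJT k Z hk20 hZ
  generalize ss k = s at h1 h3 hj1 hj2 hs1 hsr0
  have hlog0 : 0 < Real.log N := lt_of_lt_of_le (by positivity) hlog
  have hN0 : (0 : ℝ) < N := by
    by_contra h
    have h1 : (N : ℝ) = 0 := le_antisymm (not_lt.1 h) (Nat.cast_nonneg N)
    rw [h1, Real.log_zero] at hlog0
    exact lt_irrefl _ hlog0
  have hN1 : (1 : ℝ) ≤ N := by
    have : 0 < N := by exact_mod_cast hN0
    exact_mod_cast this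
  -- the main inequality
  have h2 : ∏ i : Fin k, bx (s * Z ^ ((i : ℕ) + 1)) (al q y n i) ≤
      (∏ i : Fin k, (2 * ((s * Z ^ ((i : ℕ) + 1) : ℕ) : ℝ) + 1) ^ 2) *
        (N : ℝ) ^ (-(1 / 20 : ℝ)) := by
    refine prod_bx hGEO k (fun i => s * Z ^ ((i : ℕ) + 1)) (fun i => al q y n i) j _ ?_ hj0 hj1 hj2
    exact Nat.one_le_iff_ne_zero.2 (Nat.mul_ne_zero (by omega) (pow_ne_zero _ (by omega)))
  have hJ0 : (0 : ℝ) ≤ (VMV.J k (Fin s) (Icc (1 : ℤ) Z) : ℝ) ^ 2 := by positivity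
  have hZ0 : (0 : ℝ) < Z := by
    have : 0 < Z := hZ
    exact_mod_cast this
  have hNt : (0 : ℝ) ≤ (N : ℝ) ^ (-(1 / 20 : ℝ)) := by positivity
  have h4 : ‖∑ x ∈ Icc 1 Z, ∑ z ∈ Icc 1 Z,
      ee (∑ j : Fin k, al q y n j * ((x * z : ℕ) : ℝ) ^ ((j : ℕ) + 1))‖ ^ (4 * s ^ 2) ≤
      (Z : ℝ) ^ (8 * s ^ 2 - 4 * s) *
        ((Real.exp (12 * (s : ℝ) ^ 2) * (Z : ℝ) ^ (4 * s) * (Z : ℝ) ^ (1 / 500 : ℝ)) *
          (N : ℝ) ^ (-(1 / 20 : ℝ))) := by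
    refine h1.trans ?_
    rw [mul_assoc]
    refine mul_le_mul_of_nonneg_left ?_ (by positivity)
    calc (VMV.J k (Fin s) (Icc (1 : ℤ) Z) : ℝ) ^ 2 *
          ∏ j : Fin k, bx (s * Z ^ ((j : ℕ) + 1)) (al q y n j)
        ≤ (VMV.J k (Fin s) (Icc (1 : ℤ) Z) : ℝ) ^ 2 *
          ((∏ i : Fin k, (2 * ((s * Z ^ ((i : ℕ) + 1) : ℕ) : ℝ) + 1) ^ 2) *
            (N : ℝ) ^ (-(1 / 20 : ℝ))) := mul_le_mul_of_nonneg_left h2 hJ0
      _ = ((VMV.J k (Fin s) (Icc (1 : ℤ) Z) : ℝ) ^ 2 *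
          ∏ i : Fin k, (2 * ((s * Z ^ ((i : ℕ) + 1) : ℕ) : ℝ) + 1) ^ 2) *
            (N : ℝ) ^ (-(1 / 20 : ℝ)) := by ring
      _ ≤ _ := mul_le_mul_of_nonneg_right h3 hNt
  -- the powers of `Z`
  have hs4 : 4 * s ≤ 8 * s ^ 2 := by nlinarith
  have h5 : (Z : ℝ) ^ (8 * s ^ 2 - 4 * s) * (Z : ℝ) ^ (4 * s) = (Z : ℝ) ^ (8 * s ^ 2) := by
    rw [← pow_add, Nat.sub_add_cancel hs4]
  have hZN : (Z : ℝ) ≤ N := by
    have e1 : (Z : ℝ) ≤ (N : ℝ) ^ (2 / 5 : ℝ) := hZN0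
    have e2 : (N : ℝ) ^ (2 / 5 : ℝ) ≤ (N : ℝ) ^ (1 : ℝ) :=
      Real.rpow_le_rpow_of_exponent_le hN1 (by norm_num)
    rw [Real.rpow_one] at e2
    exact e1.trans e2
  have h6 : (Z : ℝ) ^ (1 / 500 : ℝ) * (N : ℝ) ^ (-(1 / 20 : ℝ)) ≤
      Real.exp ((1 / 500 - 1 / 20) * Real.log N) := by
    have e1 : (Z : ℝ) ^ (1 / 500 : ℝ) ≤ (N : ℝ) ^ (1 / 500 : ℝ) :=
      Real.rpow_le_rpow hZ0.le hZN (by norm_num)
    calc (Z : ℝ) ^ (1 / 500 : ℝ) * (N : ℝ) ^ (-(1 / 20 : ℝ))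
        ≤ (N : ℝ) ^ (1 / 500 : ℝ) * (N : ℝ) ^ (-(1 / 20 : ℝ)) :=
          mul_le_mul_of_nonneg_right e1 hNt
      _ = Real.exp ((1 / 500 - 1 / 20) * Real.log N) := by
          rw [← Real.rpow_add hN0, Real.rpow_def_of_pos hN0]
          ring_nf
  have hsr : (s : ℝ) ≤ 2 * T ^ 18 := by
    have e1 : (s : ℝ) = (k : ℝ) * (k + (k : ℝ) ^ 2) := hsr0
    have hk1 : (1 : ℝ) ≤ k := by
      have : 1 ≤ k := by omega
      exact_mod_cast this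
    have e2 : (s : ℝ) ≤ 2 * (k : ℝ) ^ 3 := by
      rw [e1]
      nlinarith [sq_nonneg ((k : ℝ)), mul_le_mul_of_nonneg_left hk1 (sq_nonneg (k : ℝ))]
    have e3 : (k : ℝ) ^ 3 ≤ (T ^ 6) ^ 3 := pow_le_pow_left₀ (by linarith) hk 3
    calc (s : ℝ) ≤ 2 * (k : ℝ) ^ 3 := e2
      _ ≤ 2 * (T ^ 6) ^ 3 := by linarith
      _ = 2 * T ^ 18 := by ring
  have h7 := num hT3 (Nat.cast_nonneg s) hsr hlog
  have h8 : ‖∑ x ∈ Icc 1 Z, ∑ z ∈ Icc 1 Z,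
      ee (∑ j : Fin k, al q y n j * ((x * z : ℕ) : ℝ) ^ ((j : ℕ) + 1))‖ ^ (4 * s ^ 2) ≤
      ((Z : ℝ) ^ 2 * Real.exp (-T ^ 8)) ^ (4 * s ^ 2) := by
    refine h4.trans ?_
    have e1 : (Z : ℝ) ^ (8 * s ^ 2 - 4 * s) *
        ((Real.exp (12 * (s : ℝ) ^ 2) * (Z : ℝ) ^ (4 * s) * (Z : ℝ) ^ (1 / 500 : ℝ)) *
          (N : ℝ) ^ (-(1 / 20 : ℝ))) =
        (Z : ℝ) ^ (8 * s ^ 2) * (Real.exp (12 * (s : ℝ) ^ 2) *
          ((Z : ℝ) ^ (1 / 500 : ℝ) * (N : ℝ) ^ (-(1 / 20 : ℝ)))) := by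
      rw [← h5]; ring
    have e2 : ((Z : ℝ) ^ 2 * Real.exp (-T ^ 8)) ^ (4 * s ^ 2) =
        (Z : ℝ) ^ (8 * s ^ 2) * Real.exp (-(4 * (s : ℝ) ^ 2 * T ^ 8)) := by
      rw [mul_pow, ← pow_mul, ← Real.exp_nat_mul]
      congr 1
      · congr 1
        ring
      · congr 1
        push_cast
        ring
    rw [e1, e2]
    refine mul_le_mul_of_nonneg_left ?_ (by positivity)
    calc Real.exp (12 * (s : ℝ) ^ 2) * ((Z : ℝ) ^ (1 / 500 : ℝ) * (N : ℝ) ^ (-(1 / 20 : ℝ)))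
        ≤ Real.exp (12 * (s : ℝ) ^ 2) * Real.exp ((1 / 500 - 1 / 20) * Real.log N) :=
          mul_le_mul_of_nonneg_left h6 (Real.exp_pos _).le
      _ = Real.exp (12 * (s : ℝ) ^ 2 + (1 / 500 - 1 / 20) * Real.log N) := by
          rw [← Real.exp_add]
      _ ≤ _ := Real.exp_le_exp.2 h7
  have hne : 4 * s ^ 2 ≠ 0 := Nat.mul_ne_zero (by norm_num) (pow_ne_zero _ (by omega))
  exact (pow_le_pow_iff_left₀ (norm_nonneg _) (by positivity) hne).1 h8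

end Pool.Agent.Lib.VK
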