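import Pool.Agent.Lib.VK.Spec
import Pool.Agent.Lib.LargeAP.UP
import Pool.Agent.Lib.LargeAP.TFO
import Pool.Agent.Lib.LargeAP.ZC
import Pool.Agent.Lib.LargeAP.DRP

/-!
# VK, module ZFV: the zero free region
-/

set_option autoImplicit false

noncomputable section

namespace Pool.Agent.Lib.VK

open Finset MeasureTheory Metric
open Pool.Agent.Lib.LargeAP (ldL KG Pp)

namespace ZFVM

theorem small {T : ℝ} (hT : 1000 ≤ T) : (T ^ 46)⁻¹ ≤ (T ^ 44)⁻¹ / 4 := by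
  have hT0 : 0 < T := by linarith
  rw [inv_eq_one_div, inv_eq_one_div, div_div, div_le_div_iff₀ (by positivity) (by positivity)]
  have h : (4 : ℝ) ≤ T ^ 2 := by nlinarith
  have h44 : (0 : ℝ) ≤ T ^ 44 := by positivity
  calc 1 * (T ^ 44 * 4) = T ^ 44 * 4 := by ring
    _ ≤ T ^ 44 * T ^ 2 := mul_le_mul_of_nonneg_left h h44
    _ = 1 * T ^ 46 := by ring

theorem upper {C₀ T : ℝ} (hT : 1000 ≤ T) {q : ℕ} [NeZero q] (χ : DirichletCharacter ℂ q) (s : ℂ)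
    (him : 1 ≤ |s.im|) (h1 : 1 < s.re) (h2 : s.re ≤ 1 + (T ^ 46)⁻¹) (Z : Multiset ℂ)
    (hZ1 : ∀ ρ ∈ Z, DirichletCharacter.LFunction χ ρ = 0 ∧
      ρ ∈ closedBall (⟨1 + (T ^ 46)⁻¹, s.im⟩ : ℂ) ((T ^ 44)⁻¹ / 2))
    (hZ2 : ∀ ρ ∈ closedBall (⟨1 + (T ^ 46)⁻¹, s.im⟩ : ℂ) ((T ^ 44)⁻¹ / 2),
      DirichletCharacter.LFunction χ ρ = 0 → ρ ∈ Z)
    (hZ3 : ∀ s' ∈ closedBall (⟨1 + (T ^ 46)⁻¹, s.im⟩ : ℂ) ((T ^ 44)⁻¹ / 4),
      DirichletCharacter.LFunction χ s' ≠ 0 →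
      ‖ldL χ s' + (Z.map (fun ρ => (s' - ρ)⁻¹)).sum‖ ≤ C₀ * T ^ 46) :
    (ldL χ s).re ≤ C₀ * T ^ 46 ∧
    ∀ ρ : ℂ, DirichletCharacter.LFunction χ ρ = 0 → ρ.im = s.im → 1 - (T ^ 46)⁻¹ ≤ ρ.re →
      (ldL χ s).re ≤ C₀ * T ^ 46 - ((s - ρ)⁻¹).re := by
  have hT0 : 0 < T := by linarith
  have hsm := small hT
  have h460 : 0 < (T ^ 46)⁻¹ := by positivity
  have h440 : (T ^ 44)⁻¹ ≤ 1 := inv_le_one_of_one_le₀ (one_le_pow₀ (by linarith))
  have hs1 : s ≠ 1 := by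
    intro h
    rw [h, Complex.one_re] at h1
    exact lt_irrefl _ h1
  have hLs : DirichletCharacter.LFunction χ s ≠ 0 :=
    DirichletCharacter.LFunction_ne_zero_of_one_le_re χ (Or.inr hs1) h1.le
  have hre : ∀ ρ : ℂ, DirichletCharacter.LFunction χ ρ = 0 → ρ.im ≠ 0 → ρ.re < 1 := by
    intro ρ hρ hi
    by_contra hcon
    refine DirichletCharacter.LFunction_ne_zero_of_one_le_re χ (Or.inr ?_) (not_lt.1 hcon) hρ
    intro h
    rw [h] at hi
    exact hi rfl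
  have hmem : s ∈ closedBall (⟨1 + (T ^ 46)⁻¹, s.im⟩ : ℂ) ((T ^ 44)⁻¹ / 4) := by
    rw [mem_closedBall, dist_eq_norm]
    have e : s - (⟨1 + (T ^ 46)⁻¹, s.im⟩ : ℂ) = ((s.re - (1 + (T ^ 46)⁻¹) : ℝ) : ℂ) := by
      apply Complex.ext <;> simp [-Complex.ofReal_inv, -Complex.ofReal_pow, -Complex.ofReal_sub, -Complex.ofReal_add]
    rw [e, Complex.norm_real, Real.norm_eq_abs, abs_le]
    constructor <;> linarith
  have hmain := hZ3 s hmem hLs
  have hkey : (ldL χ s).re + (Z.map (fun ρ => ((s - ρ)⁻¹).re)).sum ≤ C₀ * T ^ 46 := by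
    rw [← LargeAP.DRPM.re_sum, ← Complex.add_re]
    exact (Complex.re_le_norm _).trans hmain
  have hpos : ∀ ρ ∈ Z, 0 ≤ ((s - ρ)⁻¹).re := by
    intro ρ hρ
    rw [Complex.inv_re]
    apply div_nonneg _ (Complex.normSq_nonneg _)
    have h3 : ρ.im ≠ 0 := by
      intro h0
      have h4 := (hZ1 ρ hρ).2
      rw [mem_closedBall, dist_eq_norm] at h4
      have h5 := (Complex.abs_im_le_norm _).trans h4
      rw [Complex.sub_im, h0, zero_sub, abs_neg] at h5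
      change |s.im| ≤ _ at h5
      linarith
    have := hre ρ (hZ1 ρ hρ).1 h3
    rw [Complex.sub_re]
    linarith
  refine ⟨?_, ?_⟩
  · have := LargeAP.DRPM.sum_nonneg Z (fun ρ => ((s - ρ)⁻¹).re) hpos
    linarith
  · intro ρ hρ hi h3
    have hρ1 : ρ.re < 1 := hre ρ hρ (by
      rw [hi]
      intro h0
      rw [h0, abs_zero] at him
      linarith)
    have hm : ρ ∈ closedBall (⟨1 + (T ^ 46)⁻¹, s.im⟩ : ℂ) ((T ^ 44)⁻¹ / 2) := by
      rw [mem_closedBall, dist_eq_norm]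
      have e : ρ - (⟨1 + (T ^ 46)⁻¹, s.im⟩ : ℂ) = ((ρ.re - (1 + (T ^ 46)⁻¹) : ℝ) : ℂ) := by
        apply Complex.ext <;> simp [-Complex.ofReal_inv, -Complex.ofReal_pow, -Complex.ofReal_sub, -Complex.ofReal_add, hi]
      rw [e, Complex.norm_real, Real.norm_eq_abs, abs_le]
      constructor <;> linarith
    have := LargeAP.DRPM.sum_one Z (fun ρ => ((s - ρ)⁻¹).re) hpos ρ (hZ2 ρ hm hρ)
    linarith

end ZFVM

open ZFVM in
theorem specZFV (hEXV : SpecEXV) : SpecZFV := by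
  obtain ⟨C₁, hC₁, hE⟩ := hEXV
  obtain ⟨C₂, hC₂, hU⟩ := LargeAP.specUP
  set K : ℝ := max (max C₁ C₂) 1 with hK
  have hK1 : 1 ≤ K := le_max_right _ _
  have hKC₁ : C₁ ≤ K := (le_max_left _ _).trans (le_max_left _ _)
  have hKC₂ : C₂ ≤ K := (le_max_right _ _).trans (le_max_left _ _)
  set a : ℝ := 1 / (40 * K) with ha
  have ha0 : 0 < a := by rw [ha]; positivity
  have ha1 : a ≤ 1 / 40 := by
    rw [ha]
    exact one_div_le_one_div_of_le (by norm_num) (by linarith)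
  refine ⟨a / 10, by positivity, by linarith, fun A C => ?_⟩
  obtain ⟨T₁, hT₁, hE1⟩ := hE A (C + 1)
  refine ⟨T₁, hT₁, fun T hT q _ χ ρ hq him1 him2 hρ hL => ?_⟩
  have hT1000 : 1000 ≤ T := hT₁.trans hT
  have hT0 : 0 < T := by linarith
  obtain ⟨B, hBdef⟩ : ∃ B : ℝ, B = T ^ 46 := ⟨_, rfl⟩
  have hB : 16 ≤ B := by
    rw [hBdef]
    calc (16 : ℝ) ≤ 1000 ^ 1 := by norm_num
      _ ≤ T ^ 1 := pow_le_pow_left₀ (by norm_num) hT1000 1
      _ ≤ T ^ 46 := pow_le_pow_right₀ (by linarith) (by norm_num)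
  have hB0 : 0 < B := by linarith
  rw [← hBdef] at hρ
  have him0 : ρ.im ≠ 0 := by
    intro h0
    rw [h0, abs_zero] at him1
    linarith
  have hβ1 : ρ.re < 1 := by
    by_contra hge
    refine DirichletCharacter.LFunction_ne_zero_of_one_le_re χ (Or.inr ?_) (not_lt.1 hge) hL
    intro h
    rw [h] at him0
    exact him0 rfl
  have hexpC : 2 * Real.exp (C * T ^ 50) ≤ Real.exp (((C + 1 : ℕ) : ℝ) * T ^ 50) := by
    have h50 : (1 : ℝ) ≤ T ^ 50 := one_le_pow₀ (by linarith)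
    have e1 : ((C + 1 : ℕ) : ℝ) * T ^ 50 = C * T ^ 50 + T ^ 50 := by push_cast; ring
    rw [e1, Real.exp_add]
    have e3 : 2 ≤ Real.exp (T ^ 50) := by
      have := Real.add_one_le_exp (T ^ 50)
      linarith
    have := Real.exp_pos (C * T ^ 50)
    nlinarith
  have hepos := Real.exp_pos (C * T ^ 50)
  have hinv : (T ^ 46)⁻¹ = 1 / B := by rw [← hBdef, one_div]
  have haB : a / B ≤ 1 / B := div_le_div_of_nonneg_right (by linarith) hB0.le
  have hB1 : 1 / B ≤ 1 / 16 := one_div_le_one_div_of_le (by norm_num) hB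
  have haB0 : 0 < a / B := by positivity
  have hcB : a / 10 / B ≤ 1 / B := div_le_div_of_nonneg_right (by linarith) hB0.le
  have h1 := (LargeAP.specTFO q (1 + a / B) (by linarith)).1 χ ρ.im
  have h2 : (ldL (1 : DirichletCharacter ℂ q) (((1 + a / B : ℝ)) : ℂ)).re ≤ B / a + K := by
    have h := (hU q (1 : DirichletCharacter ℂ q) (((1 + a / B : ℝ)) : ℂ)
      (by rw [Complex.ofReal_re]; linarith) (by rw [Complex.ofReal_re]; linarith)).1
    rw [Complex.ofReal_re] at h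
    have h' : (1 : ℝ) / (1 + a / B - 1) = B / a := by
      rw [add_sub_cancel_left, one_div_div]
    rw [h'] at h
    exact (Complex.re_le_norm _).trans (h.trans (by linarith))
  have h3 : (ldL χ (⟨1 + a / B, ρ.im⟩ : ℂ)).re ≤ K * B - 1 / (1 + a / B - ρ.re) := by
    obtain ⟨Z, hZ1, hZ2, hZ3⟩ := hE1 T hT q χ ρ.im hq him1 (by linarith)
    have h := (upper hT1000 χ (⟨1 + a / B, ρ.im⟩ : ℂ) him1 (by change 1 < 1 + a / B; linarith)
      (by change 1 + a / B ≤ _; rw [hinv]; linarith) Z hZ1 hZ2 hZ3).2 ρ hL rfl (by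
        rw [hinv]
        linarith)
    have h' : ((⟨1 + a / B, ρ.im⟩ : ℂ) - ρ) = ((1 + a / B - ρ.re : ℝ) : ℂ) := by
      apply Complex.ext
      · simp
      · simp
    rw [h', ← Complex.ofReal_inv, Complex.ofReal_re, ← hBdef] at h
    have h4 : C₁ * B ≤ K * B := by nlinarith
    rw [one_div]
    linarith
  have h4 : (ldL (χ ^ 2) (⟨1 + a / B, 2 * ρ.im⟩ : ℂ)).re ≤ K * B := by
    have habs : |2 * ρ.im| = 2 * |ρ.im| := by
      rw [abs_mul, abs_of_pos (by norm_num : (0 : ℝ) < 2)]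
    have hi1 : 1 ≤ |2 * ρ.im| := by
      rw [habs]
      linarith
    obtain ⟨Z, hZ1, hZ2, hZ3⟩ := hE1 T hT q (χ ^ 2) (2 * ρ.im) hq hi1 (by
      rw [habs]
      linarith)
    have h := (upper hT1000 (χ ^ 2) (⟨1 + a / B, 2 * ρ.im⟩ : ℂ) hi1 (by change 1 < 1 + a / B; linarith)
      (by change 1 + a / B ≤ _; rw [hinv]; linarith) Z hZ1 hZ2 hZ3).1
    rw [← hBdef] at h
    have h5 : C₁ * B ≤ K * B := by nlinarith
    linarith
  have h5 : B / (a + a / 10) ≤ 1 / (1 + a / B - ρ.re) := by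
    rw [div_le_div_iff₀ (by positivity) (by linarith)]
    have h6 : 1 + a / B - ρ.re < a / B + a / 10 / B := by linarith
    have h7 : B * (a / B + a / 10 / B) = a + a / 10 := by
      field_simp
    nlinarith
  refine LargeAP.ZCM.fin_ineq hK1 ha rfl hB h5 ?_
  linarith

end Pool.Agent.Lib.VK
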