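import Pool.Agent.Lib.VK.TAY
import Pool.Agent.Lib.VK.SHF
import Pool.Agent.Lib.VK.BIL
import Pool.Agent.Lib.VK.GEO
import Pool.Agent.Lib.VK.VJT
import Pool.Agent.Lib.VK.CHO
import Pool.Agent.Lib.VK.VWN
import Pool.Agent.Lib.VK.VIN
import Pool.Agent.Lib.VK.ABL
import Pool.Agent.Lib.VK.LBZ
import Pool.Agent.Lib.VK.DPB
import Pool.Agent.Lib.VK.LUV
import Pool.Agent.Lib.VK.SLN
import Pool.Agent.Lib.VK.EXV
import Pool.Agent.Lib.VK.ZFV
import Pool.Agent.Lib.VK.LDV
import Pool.Agent.Lib.VK.GLL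
import Pool.Agent.Lib.VK.GZZ
import Pool.Agent.Lib.VK.GEX
import Pool.Agent.Lib.VK.TWL
import Pool.Agent.Lib.VK.CONT
import Pool.Agent.Lib.VK.SMT
import Pool.Agent.Lib.VK.CTF
import Pool.Agent.Lib.VK.USM
import Pool.Agent.Lib.VK.MTZ
import Pool.Agent.Lib.VK.PSL
import Pool.Agent.Lib.VK.PZM
import Pool.Agent.Lib.VK.PNE
import Pool.Agent.Lib.VK.PNP
import Pool.Agent.Lib.VK.PRT
import Pool.Agent.Lib.VK.PPX
import Pool.Agent.Lib.VK.PPB

/-!
# VK: the theorems without hypotheses

`ppb : SpecPPB` (primes twisted by `χ(p) p^(it)`, `|t| ≤ P^C`), `ppx : SpecPPX`, `psl : SpecPSL`, `pzm : SpecPZM`, `gll : SpecGLL`,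
`gzz : SpecGZZ` (zero free region `σ ≥ 1 - (log)^(-0.94)`), `vin : SpecVIN` (Vinogradov's bound), `pne : SpecPNE`,
`pnp : SpecPNP` (prime number theorem with error `x exp(-(log x)^(1/61))`).
-/

set_option autoImplicit false

namespace Pool.Agent.Lib.VK

theorem tay : SpecTAY := specTAY
theorem shf : SpecSHF := specSHF
theorem bil : SpecBIL := specBIL
theorem geo : SpecGEO := specGEO
theorem vjt : SpecVJT := specVJT
theorem cho : SpecCHO := specCHO
theorem vwn : SpecVWN := specVWN bil geo vjt cho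
theorem vin : SpecVIN := specVIN tay shf cho vwn
theorem abl : SpecABL := specABL
theorem lbz : SpecLBZ := specLBZ
theorem dpb : SpecDPB := specDPB vin abl
theorem luv : SpecLUV := specLUV lbz dpb
theorem sln : SpecSLN := specSLN
theorem exv : SpecEXV := specEXV luv sln
theorem zfv : SpecZFV := specZFV exv
theorem ldv : SpecLDV := specLDV exv zfv
theorem gll : SpecGLL := specGLL ldv
theorem gzz : SpecGZZ := specGZZ ldv
theorem gex : SpecGEX := specGEX
theorem twl : SpecTWL := specTWL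
theorem con : SpecCON := specCON
theorem smt : SpecSMT := specSMT
theorem ctf : SpecCTF := specCTF
theorem usm : SpecUSM := specUSM smt
theorem mtz : SpecMTZ := specMTZ
theorem psl : SpecPSL := specPSL gll gex twl con usm
theorem pzm : SpecPZM := specPZM gzz gex twl con usm mtz ctf
theorem pne : SpecPNE := specPNE pzm
theorem pnp : SpecPNP := specPNP pne
theorem prt : SpecPRT := specPRT
theorem ppx : SpecPPX := specPPX psl pzm prt
/-- primes twisted by `χ(p) p^(it)`, `|t| ≤ P^C` -/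
theorem ppb : SpecPPB := specPPB ppx

end Pool.Agent.Lib.VK
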