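import Pool.Agent.Lib.LargeAP.Spec
import Pool.Agent.Lib.SW.Spec
import Pool.Agent.Lib.VMV.Main

/-!
# Primes twisted by `χ(n) n^(it)`, `|t| ≤ x^C`, by Vinogradov's method: definitions and statements

THEOREM (`SpecPPB`). For all `A, B, C` there is `K` such that for `q ≤ (log P)^B`, `|t| ≤ P^C` and `χ ≠ 1` or `|t| ≥ (log P)^K` the sum
of `χ(p) p^(it)` over the primes `P < p ≤ Y ≤ 2P` is at most `P (log P)^(-A)`; and (`SpecPNE`, `SpecPNP`) the prime number theorem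
with the error `x exp(-(log x)^(1/60))`.

All exponents are wasted. The parameter is `T = (log x)^(1/50)`: `log x = T^50`, `q ≤ T^A`, heights `|t| ≤ exp(C T^50)`.
(V) Vinogradov: `|∑_(N < n ≤ b) χ(n) n^(iy)| ≤ 4 N exp(-T^8)` for `log N ≥ T^45`, `N^(2/5) ≤ |y| ≤ exp(C T^50)`, from the mean value theorem
`VMV.vmvt`, used with ONE good coefficient only.  (L) `|L(s, χ)| ≤ exp(4T)` for `σ ≥ 1 - 2 T^(-44)`.  (Z) Landau's lemma: no zeros and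
`|L'/L| ≤ T^47` for `σ ≥ 1 - T^(-47)`, `|t| ≥ 2`; near the real axis by Siegel's theorem (Lib/SW) and compactness (zeta).
(P) Gaussian weights as in Lib/SW, contour at `σ = 1 - T^(-47)`, unsmoothing, primes.

One file `VK/<NAME>.lean` per module, namespace `Pool.Agent.Lib.VK`, auxiliary lemmas in the sub-namespace `<NAME>M`, theorem
`spec<NAME> (h₁ : SpecXXX) (h₂ : SpecYYY) .. : Spec<NAME>` with the modules named after USES in this order.  Every module imports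
`Pool.Agent.Lib.VK.Spec` (and, if wanted, the PROVED files of the libraries named in the docstring, e.g. `Lib/LargeAP/Main`,
`Lib/SW/Main`, `Lib/LP/...`, whose theorems may be used directly; only Specs of THIS file are hypotheses).
`LFunction = DirichletCharacter.LFunction`, `ldL χ = -L'/L`, `KG lam u s = exp(s u + s²/(4 lam))`, `G lam v = √(lam/π) exp(-lam v²)`.
`T₁ ≤ T` means: `T` is as large as you like in terms of `A`, `C`.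
-/

set_option autoImplicit false

noncomputable section

namespace Pool.Agent.Lib.VK

open Finset MeasureTheory Metric
open scoped ArithmeticFunction
open Pool.Agent.Lib.LargeAP (ldL KG Pp)
open Pool.Agent.Lib.LP (G)

/-- `exp (2 π i x)` -/
def ee (x : ℝ) : ℂ := Complex.exp (2 * Real.pi * Complex.I * x)

/-- `n^(iy)` -/
def tw (y : ℝ) (n : ℕ) : ℂ := (n : ℂ) ^ ((y : ℂ) * Complex.I)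

/-- the coefficients of the Taylor polynomial: `(n + q m)^(iy) ≈ n^(iy) e(∑_j al_j m^(j+1))` -/
def al (q : ℕ) (y : ℝ) (n j : ℕ) : ℝ :=
  y / (2 * Real.pi) * ((-1) ^ j * ((q : ℝ) / n) ^ (j + 1) / (j + 1))

/-- a double sum over `[-M, M]²` -/
def bx (M : ℕ) (θ : ℝ) : ℝ := ∑ u ∈ Icc (-(M : ℤ)) M, ‖∑ v ∈ Icc (-(M : ℤ)) M, ee (θ * u * v)‖

/-- the degree -/
def kk (N : ℕ) (y : ℝ) : ℕ := ⌈6 * (Real.log |y| / Real.log N)⌉₊ + 20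

/-- the length of the shifts -/
def ZZ (N : ℕ) : ℕ := ⌊(N : ℝ) ^ (2 / 5 : ℝ)⌋₊

/-- the number of variables in the mean value theorem -/
def ss (k : ℕ) : ℕ := k * (k + k ^ 2)

/-- the range of the parameters -/
def Rg (A C : ℕ) (T : ℝ) (q N : ℕ) (y : ℝ) : Prop :=
  (q : ℝ) ≤ T ^ A ∧ T ^ 45 ≤ Real.log N ∧ (N : ℝ) ^ (2 / 5 : ℝ) ≤ |y| ∧ |y| ≤ Real.exp (C * T ^ 50)

/-- `-ζ₁'/ζ₁`, `ζ₁(s) = (s - 1) ζ(s)` -/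
def ldZ (s : ℂ) : ℂ :=
  -deriv (DirichletCharacter.LFunctionTrivChar₁ 1) s / DirichletCharacter.LFunctionTrivChar₁ 1 s

/-- `∑ Λ(n) a(n) G(u - log n)` -/
def FF (lam : ℝ) (a : ℕ → ℂ) (u : ℝ) : ℂ :=
  ∑' n : ℕ, ((ArithmeticFunction.vonMangoldt n : ℝ) : ℂ) * a n * ((G lam (u - Real.log n) : ℝ) : ℂ)

/-! ## Group V: exponential sums -/

/-- TAY (60 lines). PROOF. `(1+u)^(iy) = exp(iy log(1+u))`; `|log(1+u) - ∑_{j<k} (-1)^j u^(j+1)/(j+1)| ≤ u^(k+1)/(1-u) ≤ 2 u^(k+1)`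
(`Real.abs_log_sub_add_sum_range_le` with `x = -u`), and `|e^(ia) - e^(ib)| ≤ |a - b|` for real `a`, `b`. -/
def SpecTAY : Prop := ∀ (k : ℕ) (y u : ℝ), 0 ≤ u → u ≤ 1 / 2 →
  ‖((1 + u : ℝ) : ℂ) ^ ((y : ℂ) * Complex.I) -
    ee (y / (2 * Real.pi) * ∑ j : Fin k, ((-1) ^ (j : ℕ) * u ^ ((j : ℕ) + 1) / ((j : ℕ) + 1)))‖ ≤ 2 * |y| * u ^ (k + 1)

/-- SHF (100 lines). PROOF. `f(n) = χ(n) n^(iy)`, `|f| ≤ 1`. For `h ∈ ℕ` the sums of `f` over `(a, b]` and over `(a+h, b+h]` differ by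
at most `2h` terms, and the second is `∑_{a<n≤b} f(n+h)`. Take `h = q x z ≤ q Z²`, `χ(n + q x z) = χ(n)`, sum over the `Z²` pairs
`(x, z)`, exchange the sums, `|χ(n)| ≤ 1`. -/
def SpecSHF : Prop := ∀ (q : ℕ) [NeZero q] (χ : DirichletCharacter ℂ q) (y : ℝ) (a b Z : ℕ), 1 ≤ a → a ≤ b →
  (Z : ℝ) ^ 2 * ‖∑ n ∈ Ioc a b, χ (n : ZMod q) * tw y n‖ ≤
    (∑ n ∈ Ioc a b, ‖∑ x ∈ Icc 1 Z, ∑ z ∈ Icc 1 Z, tw y (n + q * x * z)‖) + 2 * q * (Z : ℝ) ^ 4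

/-- BIL (250 lines). PROOF. `W` = the double sum, `J` = the number in the statement, `M_j = s Z^(j+1)` (`j < k`), for
`a ∈ [1,Z]^s` `PS_j(a) = ∑ a_i^(j+1)` (`VMV.PS`); `|PS_j(a) - PS_j(a')| ≤ M_j`. By `VMV.shift_le` every `v : Fin k → ℤ` has at most `J`
representations `r(v) = #{(a, a') : PS a - PS a' = v}`; `∑ r = Z^(2s)`; all `v` with `r(v) > 0` are in the box
`|v_j| ≤ M_j`.
(1) `|W|^(2s) ≤ Z^(2s-1) ∑_x |∑_z e(∑ α_j x^(j+1) z^(j+1))|^(2s)` (power mean: Mathlib `pow_sum_div_card_le_sum_pow`).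
(2) `|∑_z e(..)|^(2s) = ∑_(b,b') e(∑_j α_j x^(j+1) (PS_j b - PS_j b'))`. So `∑_x |..|^(2s) = ∑_v r(v) A(v)`,
`A(v) = ∑_x e(∑_j α_j v_j x^(j+1))`.
(3) `(∑_v r |A|)^(2s) ≤ (∑_v r)^(2s-1) ∑_v r |A|^(2s) ≤ Z^(2s(2s-1)) J ∑_{v ∈ box} |A(v)|^(2s)` (power mean over the
Z^(2s) pairs `(b, b')`, `pow_sum_div_card_le_sum_pow`, and then group by `v`, `Finset.sum_fiberwise`).
(4) `∑_{v ∈ box} |A(v)|^(2s) = ∑_{v ∈ box} ∑_(a,a') e(∑_j α_j v_j (PS_j a - PS_j a')) = ∑_(a,a') ∏_j ∑_{|v_j| ≤ M_j} e(α_j u_j v_j)`,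
`u = PS a - PS a'` (`Finset.prod_univ_sum` on `Fintype.piFinset`), at most `J ∑_{u ∈ box} ∏_j |..| = J ∏_j bx M_j α_j`.
Together `|W|^(4s²) ≤ (Z^(2s-1))^(2s) Z^(4s²-2s) J · J ∏_j bx M_j α_j`. -/
def SpecBIL : Prop := ∀ (k s Z : ℕ) (α : Fin k → ℝ), 1 ≤ k → 1 ≤ s → 1 ≤ Z →
  ‖∑ x ∈ Icc 1 Z, ∑ z ∈ Icc 1 Z, ee (∑ j : Fin k, α j * ((x * z : ℕ) : ℝ) ^ ((j : ℕ) + 1))‖ ^ (4 * s ^ 2) ≤
    (Z : ℝ) ^ (8 * s ^ 2 - 4 * s) * (VMV.J k (Fin s) (Icc (1 : ℤ) Z) : ℝ) ^ 2 *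
      ∏ j : Fin k, bx (s * Z ^ ((j : ℕ) + 1)) (α j)

/-- GEO (100 lines). PROOF. First part: trivial. Second: for `u ≠ 0`, `|θ u| ≤ 1/2`, the geometric series gives
`|∑_{|v| ≤ M} e(θ u v)| ≤ 2/|e(θu) - 1| = 1/|sin(π θ u)| ≤ 1/(2 |θ| |u|)` (`|sin(πx)| ≥ 2|x|` for `|x| ≤ 1/2`:
`Real.mul_le_sin` or `Real.abs_sin..`; note `e(θu) ≠ 1` as `0 < |θu| ≤ 1/2`). The term `u = 0` is `2M+1`; sum over `0 < |u| ≤ M`: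
`(1/|θ|) ∑_{u ≤ M} 1/u ≤ (1 + log M)/|θ|` (`harmonic_le_one_add_log`). -/
def SpecGEO : Prop := (∀ (M : ℕ) (θ : ℝ), bx M θ ≤ (2 * M + 1) ^ 2) ∧
  ∀ (M : ℕ) (θ : ℝ), 1 ≤ M → θ ≠ 0 → |θ| * M ≤ 1 / 2 → bx M θ ≤ (2 * M + 1) + (1 + Real.log M) / |θ|

/-- VJT (130 lines; VMV.vmvt). PROOF. `s = ss k = k(k + k²)`, `vmvt k (k²) Z`, `κ = k(k+1)/2`, `θ = 1 - 1/k`:
`J ≤ s^(8 s (k + k²)) Z^(2s - κ + κ θ^(k²))`. `2 s Z^(j+1) + 1 ≤ 3 s Z^(j+1)`, `∏_{j<k} (3 s Z^(j+1))² = (3s)^(2k) Z^(k(k+1))`. So the left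
side is at most `s^(16 s (k+k²)) (3s)^(2k) Z^(4s + 2κθ^(k²))`. `θ^(k²) ≤ e^(-k)`, `k(k+1) e^(-k) ≤ 1/500` for `k ≥ 20`
(`e^k ≥ k^8/8!`: `Real.pow_div_factorial_le_exp`). `k + k² = s/k`, `s ≤ k^4`, `log k ≤ k/20 + 2 ≤ 0.15 k`
(`log(k/20) ≤ k/20 - 1`, `log 20 ≤ 3`): `16 s (k+k²) log s ≤ 16 s² · 4 log k/k ≤ 9.6 s²`, `2k log(3s) ≤ 6 k s ≤ s²`. -/
def SpecVJT : Prop := ∀ (k Z : ℕ), 20 ≤ k → 1 ≤ Z →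
  (VMV.J k (Fin (ss k)) (Icc (1 : ℤ) Z) : ℝ) ^ 2 * ∏ j : Fin k, (2 * ((ss k * Z ^ ((j : ℕ) + 1) : ℕ) : ℝ) + 1) ^ 2
    ≤ Real.exp (12 * (ss k : ℝ) ^ 2) * (Z : ℝ) ^ (4 * ss k) * (Z : ℝ) ^ (1 / 500 : ℝ)

/-- CHO (300 lines). PROOF. `ℓ = log N ≥ T^45`, `r = log|y|/ℓ`, so `|y| = N^r`, `2/5 ≤ r ≤ C T^5`; `k = kk = ⌈6r⌉ + 20 ≤ 6 C T^5 + 21 ≤ T^6`;
`s = k² + k³ ≤ 2 T^18`; `Z ≤ N^(2/5) ≤ 2Z`. Since `ℓ ≥ T^45`: `q ≤ T^A ≤ N^(1/100)`, and `(T^A)^(T^6)`, `8^(T^6)`, `T^100` and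
`1 + log s + T^6 ℓ` are `≤ N^(1/1000)` each (`log` of it: `≤ (A log T + 3) T^6 ≤ T^8 ≤ ℓ/1000`; for the last `ℓ ≤ N^(1/3000)`..).
Second, third line: `2 q Z² ≤ 2 N^(1/100 + 4/5)`; `q Z²/N ≤ N^(-0.19)`, `k + 1 ≥ 6r + 20`, `2 N^r N^(-0.19(6r+20)) ≤ N^(-1/20)`.
Choice: `j + 1 = j' = ⌈(5/3)(r + 1/50)⌉`, `1 ≤ j' ≤ k`. `|al| = |y|/(2π) (q/n)^(j')/j'`. Upper bound (`n > N`):
`|al| s Z^(j') ≤ N^r q^(j') N^(-j') s N^(2j'/5) = q^(j') s N^(r - 3j'/5) ≤ N^(1/1000) N^(1/1000) N^(-1/50) ≤ 1/2`.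
With `M = s Z^(j')`: `(2M+1)/(2M+1)² ≤ 1/Z ≤ 2 N^(-2/5)`. Lower bound (`n ≤ 2N`, `q ≥ 1`): `|al| ≥ N^r/(2π j' (2N)^(j'))`, so
`(1 + log M)/(|al| (2M+1)²) ≤ (1 + log M) 2π j' (2N)^(j') N^(-r)/(4 Z^(2j'))`, `Z^(2j') ≥ N^(4j'/5) 4^(-j')`: this is
`≤ (1 + log M) 2π j' 8^(j') N^(j'/5 - r)`, and `j'/5 - r ≤ (r + 1/50)/3 + 1/5 - r = 1/5 + 1/150 - 2r/3 ≤ -0.0599` by `r ≥ 2/5`.
The sum of the two is `≤ N^(-1/20)`. -/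
def SpecCHO : Prop := ∀ A C : ℕ, ∃ T₁ : ℝ, 1000 ≤ T₁ ∧ ∀ T : ℝ, T₁ ≤ T → ∀ (q N : ℕ) (y : ℝ), 1 ≤ q → Rg A C T q N y →
  (kk N y : ℝ) ≤ T ^ 6 ∧ 1 ≤ ZZ N ∧ 2 * q * (ZZ N : ℝ) ^ 2 ≤ (N : ℝ) ^ (9 / 10 : ℝ) ∧
  2 * |y| * (q * (ZZ N : ℝ) ^ 2 / N) ^ (kk N y + 1) ≤ (N : ℝ) ^ (-(1 / 20 : ℝ)) ∧
  ∃ j : Fin (kk N y), ∀ n : ℕ, N < n → n ≤ 2 * N →
    al q y n j ≠ 0 ∧ |al q y n j| * ((ss (kk N y) * ZZ N ^ ((j : ℕ) + 1) : ℕ) : ℝ) ≤ 1 / 2 ∧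
    (2 * ((ss (kk N y) * ZZ N ^ ((j : ℕ) + 1) : ℕ) : ℝ) + 1) +
        (1 + Real.log ((ss (kk N y) * ZZ N ^ ((j : ℕ) + 1) : ℕ) : ℝ)) / |al q y n j| ≤
      (2 * ((ss (kk N y) * ZZ N ^ ((j : ℕ) + 1) : ℕ) : ℝ) + 1) ^ 2 * (N : ℝ) ^ (-(1 / 20 : ℝ))

/-- VWN (150 lines), USES BIL, GEO, VJT, CHO. PROOF. `k = kk N y`, `Z = ZZ N`, `s = ss k`, `α_j = al q y n j`. BIL; GEO (1) for all `j` but the one of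
CHO, GEO (2) and CHO for that one: `∏_j bx ≤ ∏_j (2 s Z^(j+1) + 1)² · N^(-1/20)`. VJT: `|W|^(4s²) ≤ Z^(8s²) e^(12 s²) Z^(1/500) N^(-1/20)`
and `Z ≤ N`. So `|W| ≤ Z² e³ exp(-0.048 log N/(4s²))`; `s ≤ 2 k³ ≤ 2 T^18`, `4s² ≤ 16 T^36`, `log N ≥ T^45`: the exponent is
`≤ 3 - 0.003 T^9 ≤ -T^8`. -/
def SpecVWN : Prop := ∀ A C : ℕ, ∃ T₁ : ℝ, 1000 ≤ T₁ ∧ ∀ T : ℝ, T₁ ≤ T → ∀ (q N : ℕ) (y : ℝ), 1 ≤ q → Rg A C T q N y →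
  ∀ n : ℕ, N < n → n ≤ 2 * N →
    ‖∑ x ∈ Icc 1 (ZZ N), ∑ z ∈ Icc 1 (ZZ N),
        ee (∑ j : Fin (kk N y), al q y n j * ((x * z : ℕ) : ℝ) ^ ((j : ℕ) + 1))‖ ≤
      (ZZ N : ℝ) ^ 2 * Real.exp (-T ^ 8)

/-- VIN (150 lines), USES TAY, SHF, CHO, VWN. PROOF. SHF with `a = N`, `Z = ZZ N`. For `N < n ≤ 2N`: `n + q x z = n (1 + u)`, `u = q x z/n ≤ q Z²/N ≤ 1/2`
(CHO), `tw y (n + q x z) = tw y n · (1+u)^(iy)` (`Complex.mul_cpow_ofReal_nonneg`), TAY with `k = kk N y`: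
`(y/2π) ∑ (-1)^j u^(j+1)/(j+1) = ∑ al_j (x z)^(j+1)`, error `≤ 2|y| (q Z²/N)^(k+1) ≤ N^(-1/20)`. With VWN
`|S| ≤ N (e^(-T^8) + N^(-1/20)) + 2 q Z² ≤ N (e^(-T^8) + 2 N^(-1/20))`, `N^(-1/20) ≤ e^(-T^45/20) ≤ e^(-T^8)`. -/
def SpecVIN : Prop := ∀ A C : ℕ, ∃ T₁ : ℝ, 1000 ≤ T₁ ∧ ∀ T : ℝ, T₁ ≤ T → ∀ (q : ℕ) [NeZero q]
  (χ : DirichletCharacter ℂ q) (N : ℕ) (y : ℝ), Rg A C T q N y → ∀ b : ℕ, N ≤ b → b ≤ 2 * N →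
  ‖∑ n ∈ Ioc N b, χ (n : ZMod q) * tw y n‖ ≤ 4 * N * Real.exp (-T ^ 8)

/-! ## Group L: upper bounds for `L(s, χ)` -/

/-- ABL (80 lines). PROOF. Abel summation with decreasing weights `w_n = n^(-σ)`: with `S_m = ∑_{a<n≤m} c_n`
`∑_{a<n≤b} c_n w_n = ∑_{a<n<b} S_n (w_n - w_(n+1)) + S_b w_b` (induction on `b`), norm `≤ E w_(a+1) ≤ E a^(-σ)` (if `a < b`). -/
def SpecABL : Prop := ∀ (c : ℕ → ℂ) (a b : ℕ) (σ E : ℝ), 1 ≤ a → a ≤ b → 0 ≤ σ → 0 ≤ E →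
  (∀ b' : ℕ, a ≤ b' → b' ≤ b → ‖∑ n ∈ Ioc a b', c n‖ ≤ E) →
  ‖∑ n ∈ Ioc a b, c n * (((n : ℝ) ^ (-σ) : ℝ) : ℂ)‖ ≤ E * (a : ℝ) ^ (-σ)

/-- LBZ (150 lines; `Lib/MP_155064_nt/ZetaGrowth` has `riemannZeta₁_eq`: `(s-1) ζ(s) = s - s(s-1) mellin fr (-s)`, i.e.
`ζ(s) = s/(s-1) - s ∫_1^∞ {u} u^(-s-1) du` for `σ > 0`). PROOF. Abel summation on `[1, N]` (or induction on `N` with
`s ∫_N^(N+1) u^(-s-1) du = N^(-s) - (N+1)^(-s)`): `∑_{n ≤ N} n^(-s) = N^(1-s) + s ∫_1^N ⌊u⌋ u^(-s-1) du`, and `⌊u⌋ = u - {u}`,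
`s ∫_1^N u^(-s) du = s (N^(1-s) - 1)/(1-s)`. So `ζ(s) - ∑_{n ≤ N} n^(-s) - N^(1-s)/(s-1) = -s ∫_N^∞ {u} u^(-s-1) du`
(check: `-N^(1-s) + s/(s-1) - s(N^(1-s) - 1)/(1-s) = N^(1-s)/(s-1)`), norm `≤ |s| N^(-σ)/σ ≤ 2 |s| N^(-σ)`. -/
def SpecLBZ : Prop := ∃ C : ℝ, 0 < C ∧ ∀ (s : ℂ) (N : ℕ), 1 / 2 ≤ s.re → s ≠ 1 → 1 ≤ N →
  ‖riemannZeta s - (∑ n ∈ Icc 1 N, (n : ℂ) ^ (-s)) - (N : ℂ) ^ (1 - s) / (s - 1)‖ ≤ C * (1 + ‖s‖) * (N : ℝ) ^ (-s.re)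

/-- DPB (220 lines), USES VIN, ABL. PROOF. `y = Im s`, `N₁ = ⌈exp(T^45)⌉`. Trivial bound for `L ≤ 2N₁`, `log L ≤ T^45 + 2`:
`∑_{n ≤ L} n^(-σ) ≤ L^(2 T^(-44)) (1 + log L) ≤ e^(2T+1) (T^45 + 3) ≤ e^(3T)/2` (`n^(-σ) ≤ n^(-1) n^(2T^(-44))`). If `M > 2N₁`: then
`(2q(3+|y|))² ≥ exp(T^45)`, so `|y| ≥ exp(T^45/3)` and `N^(2/5) ≤ (2q(3+|y|))^(4/5) ≤ |y|` for all `N ≤ M` (`(4 q)^4 ≤ (4 T^A)^4 ≤ |y|`).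
Split `(N₁, M]` into `(N, min(M, 2N)]`, `N = N₁ 2^i`, `i ≤ 2 log M`. VIN (for `y' = -y`, `n^(-s) = n^(-σ) tw (-y) n`) and ABL:
`≤ 4 N^(1-σ) e^(-T^8)`, `N^(1-σ) ≤ exp(2T^(-44) log M)`, `log M ≤ 2 log(2q(3+|y|)) ≤ 3(C+1) T^50`: `≤ 4 exp(6(C+1)T^6 - T^8)`, at most
`T^51` blocks: total `≤ 1`. -/
def SpecDPB : Prop := ∀ A C : ℕ, ∃ T₁ : ℝ, 1000 ≤ T₁ ∧ ∀ T : ℝ, T₁ ≤ T → ∀ (q : ℕ) [NeZero q]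
  (χ : DirichletCharacter ℂ q) (s : ℂ) (M : ℕ), (q : ℝ) ≤ T ^ A → 1 - 2 * (T ^ 44)⁻¹ ≤ s.re → s.re ≤ 2 →
  |s.im| ≤ Real.exp (C * T ^ 50) → (M : ℝ) ≤ (2 * q * (3 + |s.im|)) ^ 2 → ‖Pp χ M s‖ ≤ Real.exp (3 * T)

/-- LUV (150 lines; LargeAP.SpecLB proved in LargeAP/Main), USES LBZ, DPB. PROOF. `M = ⌊(2q(3+|y|))²⌋`, `M^(-σ) ≤ M^(-1/2) ≤ 1/(q(3+|y|))`.
`χ ≠ 1`: LargeAP.LB: `|L| ≤ |Pp χ M s| + C₀ q (1+|s|) M^(-σ) ≤ e^(3T) + 2C₀`. `χ = 1`: `L(s,1) = ζ(s) ∏_{p ∣ q} (1 - p^(-s))`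
(`DirichletCharacter.LFunctionTrivChar_eq_mul_riemannZeta`), `|∏| ≤ 2^(ω(q)) ≤ q ≤ T^A`; LBZ with the `M` for `q = 1` and DPB for the
character modulo `1`: `|ζ| ≤ e^(3T) + 2C₀ + M^(1-σ)/|s-1|`, `M^(1-σ) ≤ (2(3+|y|))^(4T^(-44)) ≤ 2(3+|y|)` (`1` if `σ ≥ 1`),
`|s-1| ≥ |y| ≥ 1/2`: `≤ 14`. Total `≤ T^A (e^(3T) + 2C₀ + 14) ≤ e^(4T)`. -/
def SpecLUV : Prop := ∀ A C : ℕ, ∃ T₁ : ℝ, 1000 ≤ T₁ ∧ ∀ T : ℝ, T₁ ≤ T → ∀ (q : ℕ) [NeZero q]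
  (χ : DirichletCharacter ℂ q) (s : ℂ), (q : ℝ) ≤ T ^ A → 1 - 2 * (T ^ 44)⁻¹ ≤ s.re → s.re ≤ 2 →
  1 / 2 ≤ |s.im| → |s.im| ≤ Real.exp (C * T ^ 50) → ‖DirichletCharacter.LFunction χ s‖ ≤ Real.exp (4 * T)

/-! ## Group Z: zero free region -/

/-- SLN (100 lines; LargeAP.specLAN, file LargeAP/LAN). PROOF. LargeAP.SpecLAN for `g(z) = f(s₀ + 2 R z)`, `z₀ = 0`: `closedBall 0 (1/2), (1/4), (1/8)` go to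
`closedBall s₀ R, (R/2), (R/4)`; `g'/g (z) = 2R (f'/f)(s₀ + 2Rz)`, a zero `ζ` of `g` is `ρ = s₀ + 2Rζ`, `1/(z - ζ) = 2R/(s - ρ)`
(`Multiset.map`, `Multiset.sum_map_mul_left`). -/
def SpecSLN : Prop := ∃ C : ℝ, 0 < C ∧ ∀ (f : ℂ → ℂ) (s₀ : ℂ) (R M : ℝ), 1 ≤ M → 0 < R → Differentiable ℂ f →
  f s₀ ≠ 0 → (∀ s ∈ closedBall s₀ R, ‖f s‖ ≤ Real.exp M * ‖f s₀‖) →
  ∃ Z : Multiset ℂ, (∀ ρ ∈ Z, f ρ = 0 ∧ ρ ∈ closedBall s₀ (R / 2)) ∧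
    (∀ ρ ∈ closedBall s₀ (R / 2), f ρ = 0 → ρ ∈ Z) ∧
    ∀ s ∈ closedBall s₀ (R / 4), f s ≠ 0 →
      ‖deriv f s / f s - (Z.map (fun ρ => (s - ρ)⁻¹)).sum‖ ≤ C * M / R

/-- EXV (200 lines; LP.SpecINV proved), USES LUV, SLN. PROOF. `s₀ = 1 + T^(-46) + it`, `R = T^(-44)`. On `closedBall s₀ R`: `σ ≥ 1 - 2T^(-44)`, `σ ≤ 2`,
`1/2 ≤ |Im s| ≤ exp((C+1) T^50)`, so LUV (with `C+1`): `|L| ≤ e^(4T)`; `|L(s₀)| ≥ T^(-46)/2` (INV, `x = T^(-46)`). `χ ≠ 1`: SLN for `f = L`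
(entire: `DirichletCharacter.differentiable_LFunction`), `e^M = 2 T^46 e^(4T)`, `M ≤ 5T`, `C M/R ≤ 5 C T^45 ≤ C₀ T^46`;
`deriv f/f = -ldL`. `χ = 1`: `f = LFunctionTrivChar₁ q` (`= (s-1) L(s)` for `s ≠ 1`; entire), `|s-1|/|s₀-1| ≤ 3` on the ball, `M ≤ 5T` again;
`f'/f = 1/(s-1) - ldL` (`deriv_LFunctionTrivChar₁_apply_of_ne_one`), `|1/(s-1)| ≤ 2`; the zeros of `f` and `L` in the ball are the same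
(`LFunction 1 = LFunctionTrivChar q`; as in `LargeAP/EXO.lean`, `LargeAP/EXL.lean`). -/
def SpecEXV : Prop := ∃ C₀ : ℝ, 0 < C₀ ∧ ∀ A C : ℕ, ∃ T₁ : ℝ, 1000 ≤ T₁ ∧ ∀ T : ℝ, T₁ ≤ T → ∀ (q : ℕ) [NeZero q]
  (χ : DirichletCharacter ℂ q) (t : ℝ), (q : ℝ) ≤ T ^ A → 1 ≤ |t| → |t| ≤ Real.exp (C * T ^ 50) →
  ∃ Z : Multiset ℂ,
    (∀ ρ ∈ Z, DirichletCharacter.LFunction χ ρ = 0 ∧ ρ ∈ closedBall (⟨1 + (T ^ 46)⁻¹, t⟩ : ℂ) ((T ^ 44)⁻¹ / 2)) ∧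
    (∀ ρ ∈ closedBall (⟨1 + (T ^ 46)⁻¹, t⟩ : ℂ) ((T ^ 44)⁻¹ / 2), DirichletCharacter.LFunction χ ρ = 0 → ρ ∈ Z) ∧
    ∀ s ∈ closedBall (⟨1 + (T ^ 46)⁻¹, t⟩ : ℂ) ((T ^ 44)⁻¹ / 4), DirichletCharacter.LFunction χ s ≠ 0 →
      ‖ldL χ s + (Z.map (fun ρ => (s - ρ)⁻¹)).sum‖ ≤ C₀ * T ^ 46

/-- ZFV (200 lines; LargeAP.SpecUP, SpecTFO proved in LargeAP/Main), USES EXV. PROOF. As `LargeAP/DRP.lean`, `LargeAP/ZC.lean`, with `B = T^46`. All zeros have real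
part `< 1` (for `|Im| > 0`: `DirichletCharacter.LFunction_ne_zero_of_one_le_re`, `χ ≠ 1 ∨ s ≠ 1`), so for `s = σ + it`, `1 < σ ≤ 1 + 1/B` (it is in the ball
of radius `T^(-44)/4`) all terms `Re 1/(s-ρ)` are `≥ 0` and `Re ldL χ s ≤ C₀ B`, and `≤ C₀ B - 1/(σ-β)` if `ρ = β + it` is a zero with
`β ≥ 1 - 1/B` (it is in the ball of radius `T^(-44)/2`). Let `ρ = β + it` be a zero, `β > 1 - c/B`, `1 ≤ |t| ≤ exp(C T^50)`. TFO at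
`σ = 1 + a/B`, UP for the first term, EXV for `χ` at `t` and for `χ²` at `2t` (`|2t| ≤ exp((C+1)T^50)`, all characters allowed in EXV):
`0 ≤ 3(B/a + C') + 4(C₀ B - B/(a+c)) + C₀ B`; false for `a = 1/(40 max(C₀, C', 1))`, `c = a/10` (see ZC). `β ≥ 1` is excluded by Mathlib. -/
def SpecZFV : Prop := ∃ c : ℝ, 0 < c ∧ c ≤ 1 / 8 ∧ ∀ A C : ℕ, ∃ T₁ : ℝ, 1000 ≤ T₁ ∧ ∀ T : ℝ, T₁ ≤ T → ∀ (q : ℕ) [NeZero q]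
  (χ : DirichletCharacter ℂ q) (s : ℂ), (q : ℝ) ≤ T ^ A → 1 ≤ |s.im| → |s.im| ≤ Real.exp (C * T ^ 50) →
  1 - c / T ^ 46 < s.re → DirichletCharacter.LFunction χ s ≠ 0

/-- LDV (200 lines; LargeAP.SpecUP proved), USES EXV, ZFV. PROOF. As `LargeAP/LD.lean` with `B = T^46`. `T^(-47) ≤ c/(2B)`, so `L ≠ 0` by ZFV. If
`σ ≥ 1 + 1/B`: UP. Otherwise `s₀ = 1 + 1/B + it`, `t = Im s`; `s`, `s₀` are in the ball of radius `T^(-44)/4`. For `ρ ∈ Z`: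
`1 ≤ |Im ρ| ≤ exp((C+1)T^50)`, so `Re ρ ≤ 1 - c/B` (ZFV with `C+1`). EXV at `s₀` and UP: `|∑ 1/(s₀-ρ)| ≤ C' B`, so
`∑ Re 1/(s₀-ρ) ≤ C' B`. `|s - s₀| ≤ 2/B`, `|s-ρ| ≥ c/(2B)`, `|s₀-ρ| ≤ (1 + 4/c)|s-ρ|`,
`|1/(s-ρ) - 1/(s₀-ρ)| ≤ (2/B)(1 + 4/c)/|s₀-ρ|² ≤ 2(1 + 4/c) Re 1/(s₀-ρ)`. Sum, EXV at `s`: `|ldL χ s| ≤ C'' B ≤ T^47`. -/
def SpecLDV : Prop := ∀ A C : ℕ, ∃ T₁ : ℝ, 1000 ≤ T₁ ∧ ∀ T : ℝ, T₁ ≤ T → ∀ (q : ℕ) [NeZero q]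
  (χ : DirichletCharacter ℂ q) (s : ℂ), (q : ℝ) ≤ T ^ A → 2 ≤ |s.im| → |s.im| ≤ Real.exp (C * T ^ 50) →
  1 - (T ^ 47)⁻¹ ≤ s.re → s.re ≤ 2 → DirichletCharacter.LFunction χ s ≠ 0 ∧ ‖ldL χ s‖ ≤ T ^ 47

/-- GLL (60 lines; SW.gde, SW.dbe proved in SW/Main), USES LDV. PROOF. `|Im s| ≥ 2`: LDV. `|Im s| ≤ 2 ≤ e^T`: `SW.SpecGDE` with `A` gives `log q ≤ T` and
`GoodE T q`: `|L| ≥ T^(-44)`; `SW.SpecDBE`: `|L'| ≤ T^4` (`T^(-47) ≤ T^(-44), 1/(2T)`); `|ldL| ≤ T^48`. -/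
def SpecGLL : Prop := ∀ A C : ℕ, ∃ T₁ : ℝ, 1000 ≤ T₁ ∧ ∀ T : ℝ, T₁ ≤ T → ∀ (q : ℕ) [NeZero q]
  (χ : DirichletCharacter ℂ q) (s : ℂ), χ ≠ 1 → (q : ℝ) ≤ T ^ A → |s.im| ≤ Real.exp (C * T ^ 50) →
  1 - (T ^ 47)⁻¹ ≤ s.re → s.re ≤ 2 → DirichletCharacter.LFunction χ s ≠ 0 ∧ ‖ldL χ s‖ ≤ T ^ 48

/-- GZZ (150 lines), USES LDV. PROOF. `f = LFunctionTrivChar₁ 1` is entire, `f ≠ 0` for `Re s ≥ 1` (`LFunctionTrivChar₁_apply_one_ne_zero`, `(s-1) ζ(s)` for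
`s ≠ 1`, `riemannZeta_ne_zero_of_one_le_re` or `LFunction_ne_zero_of_one_le_re`). `|Im s| ≤ 2`: compactness of
`{1 ≤ Re ≤ 2, |Im| ≤ 2}`: there is `δ > 0` with `f ≠ 0` on `{1 - δ ≤ Re ≤ 2, |Im| ≤ 2}` (`IsCompact.exists_cthickening_subset_open`),
and the continuous function `f'/f` is bounded there. `|Im s| ≥ 2`: LDV for the character `1` modulo `1`; for `s ≠ 1`
`f(s) = (s-1) L(s)`, `ldZ s = ldL 1 s - 1/(s-1)`, `|1/(s-1)| ≤ 1/2`. -/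
def SpecGZZ : Prop := ∀ C : ℕ, ∃ T₁ : ℝ, 1000 ≤ T₁ ∧ ∀ T : ℝ, T₁ ≤ T → ∀ s : ℂ, |s.im| ≤ Real.exp (C * T ^ 50) →
  1 - (T ^ 47)⁻¹ ≤ s.re → s.re ≤ 2 →
  DirichletCharacter.LFunctionTrivChar₁ 1 s ≠ 0 ∧ ‖ldZ s‖ ≤ T ^ 48

/-! ## Group P: primes -/

/-- GEX (120 lines; LP.specGAU). PROOF. Copy of `LP/EXP.lean` with `χ n` replaced by `a n`, `|a n| ≤ 1`: expand the L-series and integrate term by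
term. (`KG lam u s = exp(s u + s²/(4 lam))`.) -/
def SpecGEX : Prop := ∀ lam : ℝ, 0 < lam → ∀ a : ℕ → ℂ, (∀ n, ‖a n‖ ≤ 1) → ∀ u σ : ℝ, 1 < σ →
  Integrable (fun t : ℝ => LSeries (fun n => ((ArithmeticFunction.vonMangoldt n : ℝ) : ℂ) * a n) (σ + t * Complex.I) *
    KG lam u (σ + t * Complex.I)) ∧
  ((2 * Real.pi : ℝ) : ℂ) * FF lam a u = ∫ t : ℝ,
    LSeries (fun n => ((ArithmeticFunction.vonMangoldt n : ℝ) : ℂ) * a n) (σ + t * Complex.I) *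
      KG lam u (σ + t * Complex.I)

/-- TWL (60 lines). PROOF. Termwise `n^(iτ) n^(-s) = n^(-(s - iτ))` (`n ≥ 1`), `LSeries_twist_vonMangoldt_eq`,
`deriv_LFunction_eq_deriv_LSeries`, `LFunction_eq_LSeries` (see `LP/EXP.lean`, `A_sum`). Second claim: for `s ≠ 1`, `L(s,1) ≠ 0`:
`LFunctionTrivChar₁ 1 s = (s-1) L(s)`, `deriv_LFunctionTrivChar₁_apply_of_ne_one`. -/
def SpecTWL : Prop := (∀ (q : ℕ) [NeZero q] (χ : DirichletCharacter ℂ q) (τ : ℝ) (s : ℂ), 1 < s.re →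
    LSeries (fun n => ((ArithmeticFunction.vonMangoldt n : ℝ) : ℂ) * (χ (n : ZMod q) * tw τ n)) s =
      ldL χ (s - τ * Complex.I)) ∧
  ∀ s : ℂ, 1 < s.re → ldL (1 : DirichletCharacter ℂ 1) s = 1 / (s - 1) + ldZ s

/-- CON (200 lines; LP.specREC). PROOF. As `SW/PSE.lean`. `σ₀ = 1 + 1/u ≤ 2`, `σ₁ = 1 - T^(-47)`, `H = e^T`. For `0 ≤ σ ≤ 2`:
`|KG| = exp(σu + (σ² - t²)/(4λ)) ≤ e · e^(σu) e^(-t²/(4λ))`. Tail `|t| > H`: `10 u² e · e^(u+1) ∫_{|t|>H} e^(-t²/(4λ))`, the integral is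
`≤ (8λ/H) e^(-H²/(4λ)) ≤ 8 e^(-e^T/4)`, `u ≤ T^60`. The part `|t| ≤ H`: REC for `s ↦ Φ(s + iw) KG(s)`: left side
`≤ 2e^T T^48 e · e^(σ₁u)`, `e^(σ₁u) ≤ e^(u - T²)` as `u ≥ T^49`; horizontal sides `≤ 2 · 2 T^48 e · e^(u+1) e^(-e^T/4)`. For `T ≥ T₀` each of
the three is `≤ e^(u-2T)/3`. -/
def SpecCON : Prop := ∃ T₀ : ℝ, ∀ T : ℝ, T₀ ≤ T → ∀ (Φ : ℂ → ℂ) (w lam u : ℝ), 1 ≤ lam → lam ≤ Real.exp T →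
  T ^ 49 ≤ u → u ≤ T ^ 60 →
  (∀ s : ℂ, 1 - (T ^ 47)⁻¹ ≤ s.re → s.re ≤ 2 → |s.im - w| ≤ Real.exp T → DifferentiableAt ℂ Φ s ∧ ‖Φ s‖ ≤ T ^ 48) →
  (∀ s : ℂ, s.re = 1 + 1 / u → ‖Φ s‖ ≤ 10 * u ^ 2) →
  Integrable (fun t : ℝ => Φ (((1 + 1 / u : ℝ) : ℂ) + t * Complex.I + w * Complex.I) *
    KG lam u (((1 + 1 / u : ℝ) : ℂ) + t * Complex.I)) →
  ‖∫ t : ℝ, Φ (((1 + 1 / u : ℝ) : ℂ) + t * Complex.I + w * Complex.I) *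
    KG lam u (((1 + 1 / u : ℝ) : ℂ) + t * Complex.I)‖ ≤ Real.exp (u - 2 * T)

/-- SMT (120 lines; LP.specEXP, SW.gtl). PROOF. Copy of `SW/SMO.lean` with `χ n` replaced by `a n`. -/
def SpecSMT : Prop := ∀ lam : ℝ, 6 ≤ lam → ∀ a : ℕ → ℂ, (∀ n, ‖a n‖ ≤ 1) → ∀ X T : ℝ, 0 ≤ T →
  ∫ u in (X - T)..X, FF lam a u =
    ∑' n : ℕ, ((ArithmeticFunction.vonMangoldt n : ℝ) : ℂ) * a n *
      ((∫ v in (X - T - Real.log n)..(X - Real.log n), G lam v : ℝ) : ℂ)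

/-- CTF (80 lines; LP.specEXP or LP.specGAU). PROOF. For `|u| ≤ U`: `G lam (u - log n) ≤ C_U n^(-3)` (complete the square), `Λ(n) ≤ n`: the
series of continuous functions converges uniformly on `[-U, U]` (`continuousOn_tsum`). -/
def SpecCTF : Prop := ∀ lam : ℝ, 0 < lam → ∀ a : ℕ → ℂ, (∀ n, ‖a n‖ ≤ 1) → Continuous (FF lam a)

/-- USM (80 lines; SW.wsm, SW.smo proved in SW/Main), USES SMT. PROOF. As `SW/UNS.lean`: SMT with `λ = e^T`, `X = log x`, minus the finite sum; every term is at most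
`Λ(n) |1_{n ≤ x} - w(n)|`: SW.SpecWSM. -/
def SpecUSM : Prop := ∃ T₀ : ℝ, ∀ T : ℝ, T₀ ≤ T → ∀ a : ℕ → ℂ, (∀ n, ‖a n‖ ≤ 1) → ∀ x : ℝ, 0 < x →
  T ^ 47 ≤ Real.log x → Real.log x ≤ T ^ 59 →
  ‖(∑ n ∈ Icc 1 ⌊x⌋₊, ((ArithmeticFunction.vonMangoldt n : ℝ) : ℂ) * a n) -
    ∫ u in (Real.log x - T)..Real.log x, FF (Real.exp T) a u‖ ≤ x * Real.exp (-(T / 4)) / 2

/-- MTZ (180 lines; LP.specGAU). PROOF. `1/(s - iτ - 1) = ∫_0^∞ e^(-(s - iτ - 1)v) dv` (`σ > 1`), Fubini (`|..| ≤ e^(-(σ-1)v) |KG|`), and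
`∫ e^(-sv) KG(s) dt = 2π G(u - v)` (GAU with `n = 1` and `u - v` for `u`). So the integral is `2π ∫_0^∞ e^((1+iτ)v) G(u-v) dv`. Over the
whole line it is `exp((1+iτ)u + (1+iτ)²/(4λ))` (`integral_cexp_quadratic`), and the part `v < 0` is at most
`2π ∫_{w ≥ u} G(w) dw ≤ 2π √2 e^(-λu²/2)`. -/
def SpecMTZ : Prop := ∀ lam u σ τ : ℝ, 1 ≤ lam → 0 ≤ u → 1 < σ →
  Integrable (fun t : ℝ => 1 / ((σ : ℂ) + t * Complex.I - τ * Complex.I - 1) * KG lam u (σ + t * Complex.I)) ∧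
  ‖(∫ t : ℝ, 1 / ((σ : ℂ) + t * Complex.I - τ * Complex.I - 1) * KG lam u (σ + t * Complex.I)) -
    ((2 * Real.pi : ℝ) : ℂ) * Complex.exp ((1 + τ * Complex.I) * u + (1 + τ * Complex.I) ^ 2 / (4 * lam))‖ ≤
    10 * Real.exp (-(lam * u ^ 2 / 2))

/-- PSL (150 lines; LP.LDB), USES GLL, GEX, TWL, CON, USM. PROOF. `a n = χ(n) tw τ n`, `X = log x`, `λ = e^T`, `X - T ≤ u ≤ X` so `T^49 ≤ u ≤ T^60`. GEX with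
`σ = 1 + 1/u`, TWL, CON with `Φ = ldL χ`, `w = -τ`: differentiable where `L ≠ 0`; `|s.im + τ| ≤ e^T` gives `|s.im| ≤ exp((C+1)T^50)`, GLL;
on the line `σ = 1 + 1/u`: LP.SpecLDB `≤ 8u²`. So `|FF| ≤ e^(u-2T)`, its integral is `≤ T e^(X-2T)` (measurability: `norm_integral_le..`, the
bound `intervalIntegral.norm_integral_le_of_norm_le_const` needs none). USM. -/
def SpecPSL : Prop := ∀ A C : ℕ, ∃ T₁ : ℝ, 1000 ≤ T₁ ∧ ∀ T : ℝ, T₁ ≤ T → ∀ (q : ℕ) [NeZero q]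
  (χ : DirichletCharacter ℂ q), χ ≠ 1 → (q : ℝ) ≤ T ^ A → ∀ τ x : ℝ, |τ| ≤ Real.exp (C * T ^ 50) → 0 < x →
  T ^ 50 / 2 ≤ Real.log x → Real.log x ≤ T ^ 59 →
  ‖∑ n ∈ Icc 1 ⌊x⌋₊, ((ArithmeticFunction.vonMangoldt n : ℝ) : ℂ) * (χ (n : ZMod q) * tw τ n)‖ ≤
    x * Real.exp (-(T / 4))

/-- PZM (150 lines; LP.LDB), USES GZZ, GEX, TWL, CON, USM, MTZ, CTF. PROOF. `a n = tw τ n` (character `1` modulo `1`), `λ = e^T`, `σ = 1 + 1/u`. By TWL the L-series is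
`1/(s - iτ - 1) + ldZ(s - iτ)`. MTZ for the first part; the second is integrable (difference) and CON applies with `Φ = ldZ`, `w = -τ`
(GZZ; on the line `|ldZ| ≤ |ldL| + 1/|s-1| ≤ 8u² + u`). So for `X - T ≤ u ≤ X`, `X = log x`:
`|FF(u) - exp((1+iτ)u + (1+iτ)²/(4λ))| ≤ e^(u-2T) + 10 e^(-λu²/2) ≤ 2 e^(u-2T)`. Integrate over `[X-T, X]`:
`∫ exp((1+iτ)u) du = (e^((1+iτ)X) - e^((1+iτ)(X-T)))/(1+iτ)`, FF is continuous (CTF), so the integral of the difference is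
`≤ 2T e^(X-2T)`. USM. -/
def SpecPZM : Prop := ∀ C : ℕ, ∃ T₁ : ℝ, 1000 ≤ T₁ ∧ ∀ T : ℝ, T₁ ≤ T → ∀ τ x : ℝ, |τ| ≤ Real.exp (C * T ^ 50) → 0 < x →
  T ^ 50 / 2 ≤ Real.log x → Real.log x ≤ T ^ 59 →
  ‖(∑ n ∈ Icc 1 ⌊x⌋₊, ((ArithmeticFunction.vonMangoldt n : ℝ) : ℂ) * tw τ n) -
    Complex.exp ((1 + τ * Complex.I) ^ 2 / (4 * Real.exp T)) *
      ((Complex.exp ((1 + τ * Complex.I) * Real.log x) - Complex.exp ((1 + τ * Complex.I) * (Real.log x - T))) /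
        (1 + τ * Complex.I))‖ ≤ x * Real.exp (-(T / 4))

/-- PNE (80 lines), USES PZM. PROOF. `τ = 0`, `T = (log x)^(1/50)`: the main term is `e^(1/(4e^T)) x (1 - e^(-T))`, so
`|ψ(x) - x| ≤ x (e^(-T/4) + 3 e^(-T)) ≤ x exp(-(log x)^(1/60))` for large `x`. -/
def SpecPNE : Prop := ∃ x₀ : ℝ, ∀ x : ℝ, x₀ ≤ x →
  |(∑ n ∈ Icc 1 ⌊x⌋₊, ArithmeticFunction.vonMangoldt n) - x| ≤ x * Real.exp (-(Real.log x) ^ (1 / 60 : ℝ))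

/-- PNP (200 lines), USES PNE. PROOF. `0 ≤ ψ - θ ≤ 2√x log x` (`Chebyshev.psi_sub_theta_le`, see `SW/PRS.lean`).
`π(x) = θ(x)/log x + ∫_2^x θ(t)/(t log² t) dt`, `∫_2^x dt/log t = x/log x - 2/log 2 + ∫_2^x dt/log² t`; split the integral of
`(θ(t) - t)/(t log² t)` at `x e^(-√(log x))`: below it `|θ(t) - t| ≤ 3t` (`Chebyshev.theta_le_log4_mul_x`), above it
`exp(-(log t)^(1/60)) ≤ exp(-(log x/2)^(1/60))`. The exponent `1/61` absorbs the constants. -/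
def SpecPNP : Prop := ∃ x₀ : ℝ, ∀ x : ℝ, x₀ ≤ x →
  |(∑ p ∈ (Icc 1 ⌊x⌋₊).filter Nat.Prime, Real.log p) - x| ≤ x * Real.exp (-(Real.log x) ^ (1 / 61 : ℝ)) ∧
  |(((Icc 1 ⌊x⌋₊).filter Nat.Prime).card : ℝ) - ∫ t in (2 : ℝ)..x, 1 / Real.log t| ≤
    x * Real.exp (-(Real.log x) ^ (1 / 61 : ℝ))

/-- PRT (200 lines). PROOF. As `SW/PRS.lean` with `a n` in place of `χ n`: `C(t) = ∑_{p ≤ t} a(p) log p`, `|∑_{n ≤ t} Λ(n) a(n) - C(t)| ≤ ψ(t) - θ(t) ≤ 2√t log t`;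
`∑_{p ≤ x} a(p) = C(x)/log x + ∫_2^x C(t)/(t log² t) dt`; `t ≤ x e^(-T)`: `|C(t)| ≤ 2t`, contribution `≤ 5 x e^(-T)`;
`x e^(-T) ≤ t ≤ x`: `|C(t)| ≤ tE + 2√t log t`, contribution `≤ xE/2 + ..`. -/
def SpecPRT : Prop := ∃ T₀ : ℝ, ∀ T : ℝ, T₀ ≤ T → ∀ a : ℕ → ℂ, (∀ n, ‖a n‖ ≤ 1) → ∀ x E : ℝ, 0 < x →
  T ^ 48 ≤ Real.log x → 0 ≤ E →
  (∀ t : ℝ, x * Real.exp (-T) ≤ t → t ≤ x →
    ‖∑ n ∈ Icc 1 ⌊t⌋₊, ((ArithmeticFunction.vonMangoldt n : ℝ) : ℂ) * a n‖ ≤ t * E) →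
  ‖∑ p ∈ (Icc 1 ⌊x⌋₊).filter Nat.Prime, a p‖ ≤ 2 * x * E + x * Real.exp (-(T / 2))

/-- PPX (120 lines), USES PSL, PZM, PRT. PROOF. `T = (log x)^(1/50)`, `|τ| ≤ x^C = exp(C T^50)`. For `x e^(-T) ≤ t ≤ x`: `T^50/2 ≤ log t ≤ T^50`. `χ ≠ 1`: PSL (with
`A' = 50 A`) and PRT with `E = e^(-T/4)`; `2e^(-T/4) + e^(-T/2) ≤ exp(-(log x)^(1/60))`. `χ = 1`: PZM: the main term is at most
`e^(1/4) · 2t/|1+iτ| ≤ 4t/(1+|τ|)` (`|1+iτ| ≥ (1+|τ|)/√2`), so PRT with `E = e^(-T/4) + 4/(1+|τ|)` for `a n = tw τ n`; the primes dividing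
`q` are at most `q ≤ (log x)^A` in number. -/
def SpecPPX : Prop := ∀ A C : ℕ, ∃ x₀ : ℝ, ∀ x : ℝ, x₀ ≤ x → ∀ (q : ℕ) [NeZero q] (χ : DirichletCharacter ℂ q),
  (q : ℝ) ≤ (Real.log x) ^ A → ∀ τ : ℝ, |τ| ≤ x ^ C →
  (χ ≠ 1 → ‖∑ p ∈ (Icc 1 ⌊x⌋₊).filter Nat.Prime, χ (p : ZMod q) * tw τ p‖ ≤
    x * Real.exp (-(Real.log x) ^ (1 / 60 : ℝ))) ∧
  (χ = 1 → ‖∑ p ∈ (Icc 1 ⌊x⌋₊).filter Nat.Prime, χ (p : ZMod q) * tw τ p‖ ≤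
    x * Real.exp (-(Real.log x) ^ (1 / 60 : ℝ)) + 10 * x / (1 + |τ|))

/-- PPB (80 lines), USES PPX. PROOF. PPX with natural numbers `≥ B + 1`, `C + 1` for `x = P` and `x = Y`; `(log P)^K ≤ |t|` with `K = A + 1` if `χ = 1`. -/
def SpecPPB : Prop := ∀ A B C : ℝ, 1 ≤ A → 1 ≤ B → 1 ≤ C → ∃ K X₀ : ℝ, ∀ (P Y : ℝ) (q : ℕ) [NeZero q]
  (χ : DirichletCharacter ℂ q) (t : ℝ), X₀ ≤ P → P ≤ Y → Y ≤ 2 * P → (q : ℝ) ≤ (Real.log P) ^ B → |t| ≤ P ^ C →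
  (χ ≠ 1 ∨ (Real.log P) ^ K ≤ |t|) →
  ‖∑ p ∈ (Ioc ⌊P⌋₊ ⌊Y⌋₊).filter Nat.Prime, χ (p : ZMod q) * (p : ℂ) ^ ((t : ℂ) * Complex.I)‖ ≤
    P / (Real.log P) ^ A

end Pool.Agent.Lib.VK
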