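import Pool.Agent.Lib.VK.Spec
import Pool.Agent.Lib.SW.Main

/-!
# GLL: no zeros and a bound for `L'/L` up to height `exp(C T^50)`
-/

set_option autoImplicit false

noncomputable section

namespace Pool.Agent.Lib.VK

open DirichletCharacter
open Pool.Agent.Lib.LargeAP (ldL KG Pp)

theorem specGLL (hLDV : SpecLDV) : SpecGLL := by
  intro A C
  obtain ⟨T₁, hT₁, h1⟩ := hLDV A C
  obtain ⟨T₂, hT₂, h2⟩ := SW.gde A
  refine ⟨max T₁ T₂, le_max_of_le_left hT₁, fun T hT q _ χ s hχ hq him hre1 hre2 => ?_⟩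
  have hTT₁ : T₁ ≤ T := le_trans (le_max_left _ _) hT
  have hTT₂ : T₂ ≤ T := le_trans (le_max_right _ _) hT
  have hT0 : (1000 : ℝ) ≤ T := hT₁.trans hTT₁
  have hT1 : (1 : ℝ) ≤ T := by linarith
  have hTp : (0 : ℝ) < T := by linarith
  rcases le_total 2 |s.im| with h | h
  · obtain ⟨h3, h4⟩ := h1 T hTT₁ q χ s hq h him hre1 hre2
    exact ⟨h3, h4.trans (pow_le_pow_right₀ hT1 (by norm_num))⟩
  · obtain ⟨hlog, hgood⟩ := h2 T hTT₂ q hq
    have hexp : |s.im| ≤ Real.exp T := by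
      have := Real.add_one_le_exp T
      linarith
    have hinv : (T ^ 47)⁻¹ ≤ (T ^ 44)⁻¹ :=
      inv_anti₀ (by positivity) (pow_le_pow_right₀ hT1 (by norm_num))
    have hlow := hgood χ hχ s.re s.im hexp (by linarith) hre2
    rw [Complex.re_add_im] at hlow
    have hinv2 : (T ^ 47)⁻¹ ≤ 1 / (2 * T) := by
      rw [one_div]
      refine inv_anti₀ (by positivity) ?_
      calc 2 * T ≤ T * T := by nlinarith
        _ = T ^ 2 := by ring
        _ ≤ T ^ 47 := pow_le_pow_right₀ hT1 (by norm_num)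
    obtain ⟨-, hder⟩ := SW.dbe T hT0 q χ hχ hlog s hexp (by linarith) hre2
    have hpos : (0 : ℝ) < (T ^ 44)⁻¹ := by positivity
    have hne : LFunction χ s ≠ 0 := by
      intro h0
      rw [h0, norm_zero] at hlow
      linarith
    refine ⟨hne, ?_⟩
    rw [ldL, norm_div, norm_neg, div_le_iff₀ (norm_pos_iff.2 hne)]
    calc ‖deriv (LFunction χ) s‖ ≤ T ^ 4 := hder
      _ = T ^ 48 * (T ^ 44)⁻¹ := by field_simp
      _ ≤ T ^ 48 * ‖LFunction χ s‖ := by gcongr

end Pool.Agent.Lib.VK
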