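import Pool.Agent.Lib.VK.Spec

/-!
# VK module TAY: Taylor approximation of `(1+u)^(iy)`
-/

set_option autoImplicit false

namespace Pool.Agent.Lib.VK

open Finset

namespace TAYM

theorem exp_sub (a b : ℝ) :
    ‖Complex.exp (Complex.I * a) - Complex.exp (Complex.I * b)‖ ≤ |a - b| := by
  have h1 : Complex.exp (Complex.I * a) - Complex.exp (Complex.I * b) =
      Complex.exp (Complex.I * b) * (Complex.exp (Complex.I * ((a - b : ℝ) : ℂ)) - 1) := by
    rw [mul_sub, ← Complex.exp_add, mul_one]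
    congr 2
    push_cast
    ring
  have h2 : ‖Complex.exp (Complex.I * b)‖ = 1 := by
    rw [mul_comm]
    exact Complex.norm_exp_ofReal_mul_I b
  rw [h1, norm_mul, h2, one_mul]
  have h3 := Real.norm_exp_I_mul_ofReal_sub_one_le (x := a - b)
  rwa [Real.norm_eq_abs] at h3

theorem log_approx (k : ℕ) (u : ℝ) (h0 : 0 ≤ u) (h1 : u ≤ 1 / 2) :
    |Real.log (1 + u) - ∑ j : Fin k, ((-1) ^ (j : ℕ) * u ^ ((j : ℕ) + 1) / ((j : ℕ) + 1))| ≤
      2 * u ^ (k + 1) := by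
  have h2 := Real.abs_log_sub_add_sum_range_le (x := -u) (by rw [abs_neg, abs_of_nonneg h0]; linarith) k
  rw [abs_neg, abs_of_nonneg h0, sub_neg_eq_add] at h2
  have h3 : ∑ j : Fin k, ((-1 : ℝ) ^ (j : ℕ) * u ^ ((j : ℕ) + 1) / ((j : ℕ) + 1)) =
      - ∑ i ∈ range k, (-u) ^ (i + 1) / ((i : ℝ) + 1) := by
    rw [Finset.sum_range, ← Finset.sum_neg_distrib]
    refine Finset.sum_congr rfl fun j _ => ?_
    rw [neg_pow u, pow_succ (-1 : ℝ)]
    ring
  rw [h3, sub_neg_eq_add, add_comm]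
  refine h2.trans ?_
  rw [div_le_iff₀ (by linarith)]
  have h4 : 0 ≤ u ^ (k + 1) := by positivity
  nlinarith

end TAYM

theorem specTAY : SpecTAY := by
  intro k y u h0 h1
  have hu : (0 : ℝ) < 1 + u := by linarith
  have e1 : ((1 + u : ℝ) : ℂ) ^ ((y : ℂ) * Complex.I) =
      Complex.exp (Complex.I * ((y * Real.log (1 + u) : ℝ) : ℂ)) := by
    rw [Complex.cpow_def_of_ne_zero (by exact_mod_cast hu.ne'), ← Complex.ofReal_log hu.le]
    congr 1
    push_cast
    ring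
  have hpi : (Real.pi : ℂ) ≠ 0 := by exact_mod_cast Real.pi_ne_zero
  have e2 : ∀ S : ℝ, ee (y / (2 * Real.pi) * S) = Complex.exp (Complex.I * ((y * S : ℝ) : ℂ)) := by
    intro S
    unfold ee
    congr 1
    push_cast
    field_simp
  rw [e1, e2]
  refine (TAYM.exp_sub _ _).trans ?_
  rw [← mul_sub, abs_mul]
  have h2 := TAYM.log_approx k u h0 h1
  calc |y| * |Real.log (1 + u) - ∑ j : Fin k, ((-1) ^ (j : ℕ) * u ^ ((j : ℕ) + 1) / ((j : ℕ) + 1))|
      ≤ |y| * (2 * u ^ (k + 1)) := mul_le_mul_of_nonneg_left h2 (abs_nonneg y)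
    _ = 2 * |y| * u ^ (k + 1) := by ring

end Pool.Agent.Lib.VK
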